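import Pool.Agent.Helper807.TF.Theory

/-!
# Toads and Frogs: a verified checker for certificates of lower bounds

A certificate is a tree indexed by positions; at a position `P` it holds a number `K`, which
claims that Left, moving second, wins `P - (K - 64)`, and data for the proof of this claim.
-/

set_option autoImplicit false
set_option linter.unnecessarySeqFocus false

namespace Pool.Agent.Helper807.TF

open Cell

/-- data at a position -/
inductive Dt
  | none
  | split (k j k1 k2 : ℕ)
  | step (k r0 rs : ℕ)

/-- the claim at a position; `0` means no claim -/
def Dt.k : Dt → ℕ
  | .none => 0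
  | .split k _ _ _ => k
  | .step k _ _ => k

/-- certificates -/
inductive Tr
  | z
  | n (d : Dt) (e t f : Tr)

/-- the subtree -/
def Tr.child : Cell → Tr → Tr
  | _, .z => .z
  | empty, .n _ e _ _ => e
  | toad, .n _ _ t _ => t
  | frog, .n _ _ _ f => f

/-- the data at a position -/
def Tr.dat : List Cell → Tr → Dt
  | [], .z => .none
  | [], .n d _ _ _ => d
  | c :: v, t => Tr.dat v (Tr.child c t)

/-! ## The static bound -/

/-- states of the computation of the static bound -/
inductive St
  | A (ec p q : ℕ)
  | B (f : ℕ) (b : Bool) (p q : ℕ)

/-- one step -/
def stp : Cell → St → St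
  | toad, .A ec p q => .A ec (Nat.add p ec) q
  | empty, .A ec p q => .A (Nat.add ec 1) p q
  | frog, .A _ p q => .B 1 false p q
  | toad, .B _ true p q => .A 0 p q
  | toad, .B f false p q => .B f true p q
  | empty, .B f _ p q => .B f false p (Nat.add q f)
  | frog, .B f _ p q => .B (Nat.add f 1) false p q

/-- the state after reading a position from right to left -/
def sts : List Cell → St
  | [] => .A 0 0 0
  | c :: v => stp c (sts v)

/-- test of the static bound -/
def St.ok (K : ℕ) : St → Bool
  | .A _ p q => Nat.ble (Nat.add K q) (Nat.add 64 p)
  | .B _ _ p q => Nat.ble (Nat.add K q) (Nat.add 64 p)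

/-- the part to the right of a wall -/
def Rest (r : List Cell) (k : ℤ) : Prop :=
  (r = [] ∧ k = 0) ∨ ∃ v, r = toad :: toad :: v ∧ Ge v k

/-- invariant of the states -/
def Inv (v : List Cell) : St → Prop
  | .A ec p q => ∃ w r k, v = w ++ r ∧ NF w ∧ es w = ec ∧ (p : ℤ) - q = dd w + k ∧ Rest r k
  | .B f b p q => ∃ u w r k, v = u ++ (w ++ r) ∧ NF w ∧ frogs u = f ∧
      (b = true → ∃ u', u = toad :: u') ∧ (p : ℤ) - q = dd w - ss u + k ∧ Rest r k

theorem Rest.ge {r : List Cell} {k l : ℤ} {u : List Cell} (hr : Rest r k) (hu : Ge u l) :
    Ge (u ++ r) (l + k) := by
  rcases hr with ⟨rfl, rfl⟩ | ⟨v, rfl, hv⟩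
  · simpa using hu
  · exact hu.split hv

theorem inv_sts (v : List Cell) : Inv v (sts v) := by
  induction v with
  | nil =>
    refine ⟨[], [], 0, rfl, ?_, rfl, by simp [dd], Or.inl ⟨rfl, rfl⟩⟩
    intro c hc
    simp at hc
  | cons c v ih =>
    simp only [sts]
    generalize sts v = s at ih
    cases s with
    | A ec p q =>
      obtain ⟨w, r, k, rfl, hw, he, hk, hr⟩ := ih
      cases c with
      | toad =>
        refine ⟨toad :: w, r, k, rfl, NF.cons (by simp) hw, by simp only [es, he], ?_, hr⟩
        simp only [dd, he, Nat.add_eq]
        push_cast
        linarith
      | empty =>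
        refine ⟨empty :: w, r, k, rfl, NF.cons (by simp) hw, by simp only [es, he, Nat.add_eq],
          ?_, hr⟩
        simp only [dd]
        exact hk
      | frog =>
        refine ⟨[frog], w, r, k, rfl, hw, rfl, by simp, ?_, hr⟩
        simp only [ss]
        push_cast
        linarith
    | B f b p q =>
      obtain ⟨u, w, r, k, rfl, hw, hf, hb, hk, hr⟩ := ih
      cases c with
      | toad =>
        cases b with
        | true =>
          obtain ⟨u', rfl⟩ := hb rfl
          refine ⟨[], toad :: toad :: (u' ++ (w ++ r)), (p : ℤ) - q, rfl, ?_, rfl,
            by simp [dd], Or.inr ⟨_, rfl, ?_⟩⟩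
          · intro c hc
            simp at hc
          · have h1 := hr.ge ((Ge.static u').toads hw)
            rw [List.append_assoc] at h1
            convert h1 using 1
            rw [hk]
            simp only [ss]
            ring
        | false =>
          refine ⟨toad :: u, w, r, k, rfl, hw, by simp only [frogs, hf], fun _ => ⟨u, rfl⟩, ?_, hr⟩
          simp only [ss]
          exact hk
      | empty =>
        refine ⟨empty :: u, w, r, k, rfl, hw, by simp only [frogs, hf], by simp, ?_, hr⟩
        simp only [ss, hf, Nat.add_eq]
        push_cast
        linarith
      | frog =>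
        refine ⟨frog :: u, w, r, k, rfl, hw, by simp only [frogs, hf, Nat.add_eq], by simp, ?_, hr⟩
        simp only [ss]
        exact hk

theorem ok_sound {v : List Cell} {K : ℕ} (h : (sts v).ok K = true) : Ge v ((K : ℤ) - 64) := by
  have hi := inv_sts v
  generalize sts v = s at h hi
  cases s with
  | A ec p q =>
    obtain ⟨w, r, k, rfl, hw, he, hk, hr⟩ := hi
    simp only [St.ok, Nat.ble_eq, Nat.add_eq] at h
    have h0 : Ge ([] : List Cell) 0 := by simpa [ss] using Ge.static []
    have h1 := hr.ge (h0.toads hw)
    rw [List.nil_append] at h1
    refine h1.mono ?_
    have : ((K + q : ℕ) : ℤ) ≤ ((64 + p : ℕ) : ℤ) := by exact_mod_cast h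
    push_cast at this
    linarith
  | B f b p q =>
    obtain ⟨u, w, r, k, rfl, hw, hf, hb, hk, hr⟩ := hi
    simp only [St.ok, Nat.ble_eq, Nat.add_eq] at h
    have h1 := hr.ge ((Ge.static u).toads hw)
    rw [List.append_assoc] at h1
    refine h1.mono ?_
    have : ((K + q : ℕ) : ℤ) ≤ ((64 + p : ℕ) : ℤ) := by exact_mod_cast h
    push_cast at this
    linarith

/-! ## Looking up a claim -/

/-- remove the toads at the right end -/
def dropT : List Cell → List Cell
  | [] => []
  | toad :: v => match dropT v with
    | [] => []
    | c :: r => toad :: c :: r
  | frog :: v => frog :: dropT v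
  | empty :: v => empty :: dropT v

theorem dropT_spec (v : List Cell) : ∃ m : ℕ, v = dropT v ++ List.replicate m toad := by
  induction v with
  | nil => exact ⟨0, rfl⟩
  | cons c v ih =>
    obtain ⟨m, hm⟩ := ih
    cases c with
    | toad =>
      simp only [dropT]
      generalize dropT v = d at hm
      cases d with
      | nil => exact ⟨m + 1, by rw [hm]; rfl⟩
      | cons c r => exact ⟨m, by rw [hm]; rfl⟩
    | frog => exact ⟨m, congrArg (List.cons frog) hm⟩
    | empty => exact ⟨m, congrArg (List.cons empty) hm⟩

/-- look up the claim at a position, after the frogs on the left have been removed -/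
def go : List Cell → ℕ → ℕ → Tr → ℕ → Bool
  | [], _, _, _, _ => false
  | empty :: v, e, s, t, K => go v (Nat.add e 1) s (Tr.child empty t) K
  | frog :: v, e, s, t, K => go v e (Nat.add s e) t K
  | toad :: v, _, s, t, K =>
    match (Tr.dat v (Tr.child toad t)).k with
    | 0 => false
    | k + 1 => Nat.ble (Nat.add K s) (Nat.add k 1)

/-- the size used in the induction -/
def sz (P : List Cell) : ℕ := pot P + P.length

theorem frogs_app (u v : List Cell) : frogs (u ++ v) = frogs u + frogs v := by
  induction u with
  | nil => simp [frogs]
  | cons c u ih => cases c <;> simp only [List.cons_append, frogs, ih] <;> omega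

theorem sz_frog (w v : List Cell) : sz (w ++ v) ≤ sz (w ++ frog :: v) := by
  unfold sz
  induction w with
  | nil => simp only [List.nil_append, pot, List.length_cons]; omega
  | cons c w ih =>
    have h1 := frogs_app w v
    have h2 := frogs_app w (frog :: v)
    simp only [frogs] at h2
    simp only [List.length_append, List.length_cons] at ih ⊢
    cases c <;> simp only [List.cons_append, pot, List.length_append, List.length_cons] <;> omega

theorem sz_app (u v : List Cell) : sz u ≤ sz (u ++ v) := by
  unfold sz
  induction u with
  | nil => simp [pot]
  | cons c u ih =>
    have h1 := frogs_app u v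
    simp only [List.length_append] at ih
    cases c <;> simp only [List.cons_append, pot, List.length_append, List.length_cons] <;> omega

theorem sz_app' (u v : List Cell) : sz v ≤ sz (u ++ v) := by
  unfold sz
  induction u with
  | nil => simp
  | cons c u ih =>
    simp only [List.length_append] at ih
    cases c <;> simp only [List.cons_append, pot, List.length_append, List.length_cons] <;> omega

/-- the claims for positions of size less than `N` hold -/
def Hyp (root : Tr) (N : ℕ) : Prop :=
  ∀ x, sz x < N → 0 < (Tr.dat x root).k → Ge x (((Tr.dat x root).k : ℤ) - 64)

theorem NT.rep (e : ℕ) : NT (List.replicate e empty) := by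
  intro c hc
  rw [(List.mem_replicate.1 hc).2]
  simp

theorem es_rep (e : ℕ) : es (List.replicate e empty) = e := by
  induction e with
  | zero => rfl
  | succ e ih => simp only [List.replicate_succ, es, ih]

theorem go_sound {root : Tr} {N : ℕ} (H : Hyp root N) (K : ℕ) :
    ∀ (v : List Cell) (e s : ℕ) (t : Tr),
      (∀ x, Tr.dat x t = Tr.dat (List.replicate e empty ++ x) root) →
      sz (List.replicate e empty ++ v) < N → go v e s t K = true →
      Ge (List.replicate e empty ++ v) ((K : ℤ) + s - 64) := by
  intro v
  induction v with
  | nil =>
    intro e s t _ _ h
    simp [go] at h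
  | cons c v ih =>
    intro e s t ht hN h
    cases c with
    | empty =>
      have e1 : List.replicate e empty ++ empty :: v = List.replicate (e + 1) empty ++ v := by
        rw [List.replicate_succ', List.append_assoc]
        rfl
      rw [e1]
      refine ih (e + 1) s (Tr.child empty t) ?_ (by rwa [← e1]) h
      intro x
      have := ht (empty :: x)
      simp only [Tr.dat] at this
      rw [this]
      congr 1
      rw [List.replicate_succ', List.append_assoc]
      rfl
    | frog =>
      have h1 := ih e (Nat.add s e) t ht (lt_of_le_of_lt (sz_frog _ _) hN) h
      have h2 := h1.frog (NT.rep e)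
      rw [es_rep] at h2
      convert h2 using 1
      simp only [Nat.add_eq]
      push_cast
      ring
    | toad =>
      simp only [go] at h
      have h1 := ht (toad :: v)
      simp only [Tr.dat] at h1
      rw [h1] at h
      have h2 := H _ hN
      generalize (Tr.dat (List.replicate e empty ++ toad :: v) root).k = k' at h h2
      cases k' with
      | zero => simp at h
      | succ k =>
        simp only [Nat.ble_eq, Nat.add_eq] at h
        refine (h2 (by omega)).mono ?_
        have : ((K + s : ℕ) : ℤ) ≤ ((k + 1 : ℕ) : ℤ) := by exact_mod_cast h
        push_cast at this ⊢
        linarith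

/-- test whether a claim follows from the static bound or a claim of the certificate -/
def need (root : Tr) (P : List Cell) (K : ℕ) : Bool :=
  match (sts P).ok K with
  | true => true
  | false => go (dropT P) 0 0 root K

theorem need_sound {root : Tr} {N : ℕ} (H : Hyp root N) {P : List Cell} {K : ℕ} (hP : sz P < N)
    (h : need root P K = true) : Ge P ((K : ℤ) - 64) := by
  unfold need at h
  split at h
  · rename_i h1
    exact ok_sound h1
  · obtain ⟨m, hm⟩ := dropT_spec P
    have h1 : sz (dropT P) ≤ sz P := by
      conv_rhs => rw [hm]
      exact sz_app _ _
    have h2 := go_sound H K (dropT P) 0 0 root (fun x => rfl) (by simpa using lt_of_le_of_lt h1 hP) h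
    have h3 : NF (List.replicate m toad) := by
      intro c hc
      rw [(List.mem_replicate.1 hc).2]
      simp
    have h4 : dd (List.replicate m toad) = 0 := by
      have : ∀ m, dd (List.replicate m toad) = 0 ∧ es (List.replicate m toad) = 0 := by
        intro m
        induction m with
        | zero => exact ⟨rfl, rfl⟩
        | succ m ih => simp only [List.replicate_succ, dd, es, ih.1, ih.2, and_self]
      exact (this m).1
    have h5 := h2.toads h3
    simp only [List.replicate_zero, List.nil_append] at h5
    rw [← hm, h4] at h5
    convert h5 using 1
    push_cast
    ring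

/-! ## Steps -/

/-- move the toad at index `i` and continue -/
def lAt : ℕ → List Cell → (List Cell → Bool) → Bool
  | 0, toad :: empty :: v, c => c (empty :: toad :: v)
  | 0, toad :: frog :: empty :: v, c => c (empty :: frog :: toad :: v)
  | i + 1, x :: v, c => lAt i v (fun w => c (x :: w))
  | _, _, _ => false

theorem lAt_sound : ∀ (i : ℕ) (P : List Cell) (c : List Cell → Bool), lAt i P c = true →
    ∃ Q, LeftMove P Q ∧ c Q = true := by
  intro i P
  induction P generalizing i with
  | nil =>
    intro c h
    cases i <;> simp [lAt] at h
  | cons x v ih =>
    intro c h
    cases i with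
    | zero =>
      rcases x with _ | _ | _
      · rcases v with _ | ⟨y, v⟩
        · simp [lAt] at h
        · rcases y with _ | _ | _
          · simp [lAt] at h
          · rcases v with _ | ⟨z, v⟩
            · simp [lAt] at h
            · rcases z with _ | _ | _
              · simp [lAt] at h
              · simp [lAt] at h
              · exact ⟨_, LeftMove.jump v, h⟩
          · exact ⟨_, LeftMove.step v, h⟩
      · simp [lAt] at h
      · simp [lAt] at h
    | succ i =>
      simp only [lAt] at h
      obtain ⟨Q, h1, h2⟩ := ih i _ h
      exact ⟨x :: Q, LeftMove.cons x h1, h2⟩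

/-- the reply `r` to a move of Right to `Q`: `0` is a move in the integer, `i + 1` is a move of the
toad at index `i` -/
def rep (root : Tr) (K : ℕ) (Q : List Cell) : ℕ → Bool
  | 0 => match Nat.ble 64 K with
    | true => false
    | false => need root Q (Nat.add K 1)
  | i + 1 => lAt i Q (fun Q' => need root Q' K)

theorem rep_sound {root : Tr} {N : ℕ} (H : Hyp root N) {Q : List Cell} {K r : ℕ} (hQ : sz Q < N)
    (h : rep root K Q r = true) : LW Q ((K : ℤ) - 64) := by
  cases r with
  | zero =>
    simp only [rep] at h
    split at h
    · simp at h
    · rename_i h1
      have h2 := need_sound H hQ h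
      simp only [Nat.add_eq] at h2
      have h3 : ¬ 64 ≤ K := fun h3 => by
        rw [Nat.ble_eq_true_of_le h3] at h1
        simp at h1
      refine Or.inr ⟨by omega, ?_⟩
      convert h2 using 1
      push_cast
      ring
  | succ i =>
    obtain ⟨Q', h1, h2⟩ := lAt_sound _ _ _ h
    have h3 : sz Q' < N := by
      have := h1.inv
      unfold sz at hQ ⊢
      omega
    exact Or.inl ⟨Q', h1, need_sound H h3 h2⟩

/-- check all the moves of Right with a landing square in the second argument -/
def allR (root : Tr) (K : ℕ) : List Cell → List Cell → ℕ → Bool
  | [], _, _ => true
  | toad :: v, p, rs => allR root K v (toad :: p) rs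
  | frog :: v, p, rs => allR root K v (frog :: p) rs
  | empty :: v, p, rs => match v with
    | frog :: v' => match rep root K (List.reverseAux p (frog :: empty :: v')) (Nat.mod rs 32) with
      | true => allR root K v (empty :: p) (Nat.div rs 32)
      | false => false
    | toad :: frog :: v' =>
      match rep root K (List.reverseAux p (frog :: toad :: empty :: v')) (Nat.mod rs 32) with
      | true => allR root K v (empty :: p) (Nat.div rs 32)
      | false => false
    | _ => allR root K v (empty :: p) rs

theorem allR_sound {root : Tr} {N : ℕ} (H : Hyp root N) {K : ℕ} : ∀ (v p : List Cell) (rs : ℕ),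
    sz (List.reverseAux p v) ≤ N → allR root K v p rs = true →
    ∀ Q, RightMove v Q → LW (List.reverseAux p Q) ((K : ℤ) - 64) := by
  intro v
  induction v with
  | nil => intro p rs _ _ Q hQ; cases hQ
  | cons c v ih =>
    intro p rs hN h Q hQ
    have hsz : sz (List.reverseAux p Q) < N := by
      have h1 : RightMove (List.reverseAux p (c :: v)) (List.reverseAux p Q) := by
        clear ih hN h
        induction p generalizing Q c v with
        | nil => exact hQ
        | cons d p ihp =>
          exact ihp (v := c :: v) (c := d) (Q := d :: Q) (RightMove.cons d hQ)
      have := h1.inv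
      unfold sz at hN ⊢
      omega
    cases c with
    | toad =>
      cases hQ with
      | cons _ h1 => exact ih (toad :: p) rs hN h _ h1
    | frog =>
      cases hQ with
      | cons _ h1 => exact ih (frog :: p) rs hN h _ h1
    | empty =>
      cases hQ with
      | step v' =>
        simp only [allR] at h
        split at h
        · rename_i h1
          exact rep_sound H hsz h1
        · simp at h
      | jump v' =>
        simp only [allR] at h
        split at h
        · rename_i h1
          exact rep_sound H hsz h1
        · simp at h
      | cons _ h1 =>
        rename_i w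
        simp only [allR] at h
        split at h
        · split at h
          · exact ih (empty :: p) _ hN h _ h1
          · simp at h
        · split at h
          · exact ih (empty :: p) _ hN h _ h1
          · simp at h
        · exact ih (empty :: p) _ hN h _ h1

/-- cut a position at a pair of toads and continue -/
def cut : ℕ → List Cell → (List Cell → List Cell → Bool) → Bool
  | 0, toad :: toad :: v, c => c [] v
  | j + 1, x :: v, c => cut j v (fun u w => c (x :: u) w)
  | _, _, _ => false

theorem cut_sound : ∀ (j : ℕ) (P : List Cell) (c : List Cell → List Cell → Bool),
    cut j P c = true → ∃ u v, P = u ++ toad :: toad :: v ∧ c u v = true := by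
  intro j P
  induction P generalizing j with
  | nil => intro c h; cases j <;> simp [cut] at h
  | cons x P ih =>
    intro c h
    cases j with
    | zero =>
      rcases x with _ | _ | _
      · rcases P with _ | ⟨y, P⟩
        · simp [cut] at h
        · rcases y with _ | _ | _
          · exact ⟨[], P, rfl, h⟩
          · simp [cut] at h
          · simp [cut] at h
      · simp [cut] at h
      · simp [cut] at h
    | succ j =>
      simp only [cut] at h
      obtain ⟨u, v, h1, h2⟩ := ih j _ h
      exact ⟨x :: u, v, by rw [h1]; rfl, h2⟩

/-- check the data at a position -/
def chkD (root : Tr) (P : List Cell) : Dt → Bool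
  | .none => true
  | .split k j k1 k2 => match Nat.ble (Nat.add k 64) (Nat.add k1 k2) with
    | false => false
    | true => cut j P (fun u v => match need root u k1 with
      | false => false
      | true => need root v k2)
  | .step k r0 rs => match allR root k P [] rs with
    | false => false
    | true => match Nat.ble k 64 with
      | true => true
      | false => lAt r0 P (fun Q => need root Q (Nat.sub k 1))

theorem chkD_sound {root : Tr} {P : List Cell} {d : Dt} (H : Hyp root (sz P))
    (h : chkD root P d = true) (hd : 0 < d.k) : Ge P ((d.k : ℤ) - 64) := by
  cases d with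
  | none => simp [Dt.k] at hd
  | split k j k1 k2 =>
    simp only [chkD] at h
    split at h
    · simp at h
    · rename_i h1
      obtain ⟨u, v, rfl, h2⟩ := cut_sound _ _ _ h
      split at h2
      · simp at h2
      · rename_i h3
        have l1 : sz u < sz (u ++ toad :: toad :: v) := by
          have := sz_app u (toad :: toad :: v)
          unfold sz at this ⊢
          have e1 : pot u ≤ pot (u ++ toad :: toad :: v) := by
            clear this h h2 h3 H
            induction u with
            | nil => simp [pot]
            | cons c u ih =>
              have h1 := frogs_app u (toad :: toad :: v)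
              cases c <;>
                simp only [List.cons_append, pot, List.length_append, List.length_cons] <;> omega
          simp only [List.length_append, List.length_cons]
          omega
        have l2 : sz v < sz (u ++ toad :: toad :: v) := by
          have := sz_app' u (toad :: toad :: v)
          have e1 : sz v < sz (toad :: toad :: v) := by
            unfold sz
            simp only [pot, List.length_cons]
            omega
          omega
        have h4 := (need_sound H l1 h3).split (need_sound H l2 h2)
        refine h4.mono ?_
        simp only [Nat.ble_eq, Nat.add_eq] at h1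
        simp only [Dt.k]
        omega
  | step k r0 rs =>
    simp only [chkD] at h
    split at h
    · simp at h
    · rename_i h1
      rw [ge_iff]
      refine ⟨fun Q hQ => allR_sound H P [] rs le_rfl h1 Q hQ, fun hk => ?_⟩
      simp only [Dt.k] at hk ⊢
      split at h
      · rename_i h2
        simp only [Nat.ble_eq] at h2
        omega
      · obtain ⟨Q, h3, h4⟩ := lAt_sound _ _ _ h
        refine ⟨Q, h3, ?_⟩
        have h5 : sz Q < sz P := by
          have := h3.inv
          unfold sz
          omega
        have h6 := need_sound H h5 h4
        convert h6 using 1
        have : Nat.sub k 1 = k - 1 := rfl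
        rw [this]
        omega

/-- check all the data in a subtree -/
def chk (root : Tr) : Tr → List Cell → Bool
  | .z, _ => true
  | .n d e t f, p => match chkD root (List.reverseAux p []) d with
    | false => false
    | true => match chk root e (empty :: p) with
      | false => false
      | true => match chk root t (toad :: p) with
        | false => false
        | true => chk root f (frog :: p)

theorem chk_n {root : Tr} {d : Dt} {e t f : Tr} {p : List Cell}
    (h0 : chkD root (List.reverseAux p []) d = true) (h1 : chk root e (empty :: p) = true)
    (h2 : chk root t (toad :: p) = true) (h3 : chk root f (frog :: p) = true) :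
    chk root (.n d e t f) p = true := by
  simp only [chk, h0, h1, h2, h3]

theorem chk_dat {root : Tr} : ∀ (x : List Cell) (t : Tr) (p : List Cell), chk root t p = true →
    chkD root (List.reverseAux p x) (Tr.dat x t) = true := by
  intro x
  induction x with
  | nil =>
    intro t p h
    cases t with
    | z => rfl
    | n d e t f =>
      simp only [chk] at h
      split at h
      · simp at h
      · rename_i h0
        exact h0
  | cons c x ih =>
    intro t p h
    have h1 : chk root (Tr.child c t) (c :: p) = true := by
      cases t with
      | z => cases c <;> rfl
      | n d e t f =>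
        simp only [chk] at h
        split at h
        · simp at h
        · split at h
          · simp at h
          · rename_i h1
            split at h
            · simp at h
            · rename_i h2
              cases c with
              | toad => exact h2
              | frog => exact h
              | empty => exact h1
    exact ih _ _ h1

theorem hyp_of_chk {root : Tr} (h : chk root root [] = true) (N : ℕ) : Hyp root N := by
  induction N with
  | zero => intro x hx; omega
  | succ N ih =>
    intro x hx h0
    by_cases hlt : sz x < N
    · exact ih x hlt h0
    · have : sz x = N := by omega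
      rw [← this] at ih
      exact chkD_sound ih (chk_dat x root [] h) h0

theorem need_ge {root : Tr} (h : chk root root [] = true) {P : List Cell} {K : ℕ}
    (hP : need root P K = true) : Ge P ((K : ℤ) - 64) :=
  need_sound (hyp_of_chk h (sz P + 1)) (by omega) hP

end Pool.Agent.Helper807.TF
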