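import Pool.Agent.Helper807.TF.Check

/-!
# Toads and Frogs: the certificate
-/

set_option autoImplicit false

namespace Pool.Agent.Helper807.TF

open Cell

def xL (d : Dt) : Tr := Tr.n d Tr.z Tr.z Tr.z

def xE (a : Tr) : Tr := Tr.n Dt.none a Tr.z Tr.z

def xT (a : Tr) : Tr := Tr.n Dt.none Tr.z a Tr.z

def xF (a : Tr) : Tr := Tr.n Dt.none Tr.z Tr.z a

def xET (a b : Tr) : Tr := Tr.n Dt.none a b Tr.z

def xEF (a b : Tr) : Tr := Tr.n Dt.none a Tr.z b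

def xTF (a b : Tr) : Tr := Tr.n Dt.none Tr.z a b

def a0 : Tr := (xT (xTF (xT (xF (xE (xE (xL (Dt.split 65 4 64 65)))))) (xT (xE (xE (xL (Dt.step 64
  0 5)))))))

def a1 : Tr := (Tr.n Dt.none (xTF (xTF (xF (xE (xE (xL (Dt.step 66 3 0))))) (xET (xE (xL (Dt.step
  64 0 6))) (xE (Tr.n (Dt.step 64 0 8) (xL (Dt.step 65 3 6)) Tr.z Tr.z)))) (xT (xE (Tr.n (Dt.step
  64 0 7) (xL (Dt.step 65 3 7)) Tr.z Tr.z)))) (Tr.n Dt.none (xF (xT (xE (Tr.n (Dt.step 65 4 8) (xL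
  (Dt.step 66 4 8)) Tr.z Tr.z)))) (xF (xE (xE (Tr.n (Dt.step 66 5 0) (xL (Dt.step 67 5 0)) Tr.z
  Tr.z)))) (xET (xET (Tr.n (Dt.step 65 4 0) (xL (Dt.step 66 4 0)) (xE (xL (Dt.step 66 8 0))) Tr.z)
  (xF (xE (xE (xL (Dt.split 64 3 64 64)))))) (xF (xE (xE (xE (xL (Dt.split 65 3 63 66))))))))
  (Tr.n (Dt.step 62 0 0) (Tr.n (Dt.step 62 0 0) (Tr.n (Dt.step 64 0 4) (xL (Dt.step 64 0 4)) (xE
  (xL (Dt.step 65 7 4))) Tr.z) (xE (xET (xL (Dt.step 65 3 4)) (xE (xL (Dt.step 65 3 4))))) (Tr.n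
  (Dt.step 59 0 0) Tr.z Tr.z (xL (Dt.step 56 0 0)))) (xEF (Tr.n (Dt.step 64 0 4) (Tr.n (Dt.step 64
  0 4) (xL (Dt.step 66 5 4)) Tr.z Tr.z) (xF (xE (xL (Dt.step 64 0 262)))) Tr.z) (xET (xET (xT (xE
  (xL (Dt.step 64 0 10)))) (xE (Tr.n (Dt.step 64 0 9) (xL (Dt.step 65 8 9)) Tr.z Tr.z))) (xE (xE
  (Tr.n (Dt.step 64 0 4) (xL (Dt.step 66 7 8)) Tr.z Tr.z))))) (Tr.n (Dt.step 59 0 4) (Tr.n
  (Dt.step 60 0 4) Tr.z Tr.z (xL (Dt.step 57 0 4))) Tr.z (xE (xL (Dt.step 58 0 4))))))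

def a2 : Tr := Tr.n Dt.none a0 a1 Tr.z

def a3 : Tr := (xTF (xTF (xF (xE (xE (xL (Dt.step 67 2 0))))) (Tr.n (Dt.step 64 0 3) (Tr.n
  (Dt.step 64 0 3) (xL (Dt.step 65 2 3)) Tr.z Tr.z) (xF (xE (xL (Dt.step 64 0 3)))) Tr.z)) (Tr.n
  (Dt.step 62 0 3) Tr.z (xE (xET (xL (Dt.step 65 2 3)) (xE (xL (Dt.step 65 8 3))))) (Tr.n (Dt.step
  59 0 3) Tr.z Tr.z (xL (Dt.step 56 0 3)))))

def a4 : Tr := (Tr.n Dt.none (xF (xF (xF (xL (Dt.step 61 0 3))))) (xTF (xF (xE (xE (xL (Dt.split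
  66 4 65 65))))) (xE (xE (Tr.n (Dt.step 67 2 0) (xL (Dt.step 68 2 0)) Tr.z Tr.z)))) (Tr.n Dt.none
  (Tr.n (Dt.step 65 2 5) (Tr.n (Dt.step 66 2 5) (xL (Dt.step 67 2 5)) (xE (xL (Dt.step 67 8 9)))
  Tr.z) (xEF (xE (xL (Dt.step 68 7 8))) (xE (xE (xL (Dt.step 65 2 101))))) Tr.z) (xEF (Tr.n
  (Dt.step 64 0 5) (Tr.n (Dt.step 66 2 5) (xL (Dt.step 67 2 5)) Tr.z Tr.z) Tr.z (xE (xE (xL
  (Dt.step 65 6 103))))) (xE (xE (Tr.n (Dt.step 64 0 5) (xL (Dt.step 66 2 5)) Tr.z Tr.z)))) (xET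
  (Tr.n (Dt.step 63 0 5) Tr.z Tr.z (Tr.n (Dt.step 61 0 101) Tr.z Tr.z (xL (Dt.step 59 0 101))))
  (xE (xE (xL (Dt.step 64 0 5)))))))

def a5 : Tr := (Tr.n (Dt.step 63 0 0) (xET (xE (xL (Dt.step 64 0 3))) (xT (xF (xE (xE (xL (Dt.step
  64 0 8))))))) (Tr.n Dt.none (Tr.n (Dt.step 64 0 6) (Tr.n (Dt.step 65 2 3) (xL (Dt.step 67 2 3))
  (xF (xE (xL (Dt.step 64 0 294)))) Tr.z) (xF (xE (Tr.n (Dt.step 64 0 102) (xL (Dt.step 65 5 102))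
  Tr.z Tr.z))) (xET (xT (xE (xL (Dt.step 64 0 326)))) (xE (xE (xL (Dt.step 65 8 102)))))) (xF (xE
  (xE (xL (Dt.step 64 0 7))))) (xET (xE (xE (xL (Dt.step 64 0 6)))) (xE (xE (Tr.n (Dt.step 65 2 8)
  (xL (Dt.step 67 2 8)) Tr.z Tr.z))))) (Tr.n (Dt.step 60 0 0) Tr.z Tr.z (Tr.n (Dt.step 58 0 0)
  Tr.z Tr.z (xE (xL (Dt.step 57 0 0))))))

def a6 : Tr := Tr.n Dt.none a3 a4 a5

def a7 : Tr := (xTF (xTF (xF (xE (xE (xL (Dt.step 67 3 0))))) (xT (xE (Tr.n (Dt.split 65 2 64 65)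
  (xL (Dt.step 68 3 6)) Tr.z Tr.z)))) (xET (xT (xE (xF (xE (xL (Dt.step 64 0 136)))))) (xE (Tr.n
  (Dt.step 65 3 7) (Tr.n (Dt.step 67 3 7) (xL (Dt.step 68 3 7)) Tr.z (xE (xL (Dt.step 65 6 135))))
  Tr.z (xE (xE (xL (Dt.step 66 3 135))))))))

def a8 : Tr := (Tr.n Dt.none (xTF (xF (xET (xET (xL (Dt.step 68 4 7)) (xE (xL (Dt.step 69 9 10))))
  (xE (xE (xL (Dt.step 70 8 9)))))) (xT (xE (Tr.n (Dt.step 66 4 8) (xL (Dt.step 69 4 8)) Tr.z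
  Tr.z)))) (Tr.n Dt.none (xF (xT (xE (xE (xL (Dt.step 71 5 9)))))) (xF (xE (xE (xE (xL (Dt.step 72
  6 0)))))) (xE (xE (Tr.n (Dt.step 67 5 0) (xL (Dt.step 70 5 0)) (xE (xL (Dt.step 71 9 0)))
  Tr.z)))) (xET (xET (Tr.n (Dt.step 66 4 0) (Tr.n (Dt.step 68 4 0) (xL (Dt.step 69 4 0)) Tr.z (xE
  (xL (Dt.step 66 4 5)))) (xE (xL (Dt.step 69 8 0))) Tr.z) (xET (xE (xL (Dt.split 68 2 64 68)))
  (xF (xE (xE (xL (Dt.split 66 2 64 66))))))) (xE (xE (xET (xL (Dt.split 69 2 64 69)) (xE (xL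
  (Dt.split 70 2 64 70))))))))

def a9 : Tr := (xET (xET (Tr.n (Dt.step 65 3 0) (Tr.n (Dt.step 66 3 0) (xL (Dt.step 67 3 0)) (xEF
  (xL (Dt.step 67 8 0)) (xE (xL (Dt.step 65 3 4)))) Tr.z) (xEF (Tr.n (Dt.step 67 7 0) (xL (Dt.step
  68 7 0)) Tr.z (xE (xL (Dt.step 65 7 4)))) (xE (Tr.n (Dt.step 65 3 4) (xL (Dt.step 66 3 4)) Tr.z
  Tr.z))) (xE (xE (xL (Dt.step 64 0 4))))) (xF (xE (xE (xL (Dt.step 65 3 7)))))) (xTF (xTF (xF (xE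
  (xE (xE (xL (Dt.split 68 2 62 70)))))) (xE (xE (xE (xL (Dt.split 66 2 62 68)))))) (xE (xE (xE
  (xE (xL (Dt.split 67 2 64 67))))))))

def a10 : Tr := Tr.n Dt.none a7 a8 a9

def a11 : Tr := (Tr.n (Dt.step 64 0 3) (Tr.n (Dt.step 64 0 3) (xL (Dt.step 65 2 3)) (xE (xL
  (Dt.step 66 2 3))) Tr.z) (Tr.n Dt.none (Tr.n Dt.none (xL (Dt.step 67 2 3)) (xF (xE (xL (Dt.step
  64 0 295)))) (xT (xE (xL (Dt.step 64 0 327))))) (xF (xE (Tr.n (Dt.split 64 6 64 64) (xL (Dt.step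
  65 7 3)) Tr.z Tr.z))) (xET (xET (xL (Dt.step 64 0 227)) (xE (xL (Dt.step 64 0 330)))) (xE (xE
  (xL (Dt.step 65 8 297)))))) (Tr.n (Dt.step 61 0 3) Tr.z (xE (xE (xL (Dt.step 64 0 259)))) (Tr.n
  (Dt.step 58 0 3) Tr.z Tr.z (xL (Dt.step 55 0 3)))))

def a12 : Tr := (Tr.n Dt.none (Tr.n (Dt.step 65 5 3) (Tr.n (Dt.step 66 2 3) (xL (Dt.step 67 2 3))
  (xE (xL (Dt.step 67 2 3))) Tr.z) (xF (xE (Tr.n (Dt.step 64 0 262) (xL (Dt.step 65 5 262)) Tr.z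
  Tr.z))) (xT (xE (Tr.n (Dt.step 64 0 297) (xL (Dt.step 66 5 294)) Tr.z Tr.z)))) (xF (xE (xE (Tr.n
  (Dt.split 64 5 64 64) (xL (Dt.step 67 6 3)) Tr.z Tr.z)))) (Tr.n Dt.none (Tr.n (Dt.step 63 0 0)
  (Tr.n (Dt.step 64 0 195) (xL (Dt.step 65 5 195)) (xE (xL (Dt.step 66 9 330))) Tr.z) (xEF (Tr.n
  (Dt.step 65 8 297) (xL (Dt.step 67 8 291)) Tr.z Tr.z) (xE (xE (xL (Dt.step 64 0 3267))))) (Tr.n
  (Dt.step 61 0 3072) Tr.z Tr.z (xL (Dt.step 59 0 3072)))) (xE (xE (Tr.n (Dt.step 66 7 264) (Tr.n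
  (Dt.step 68 7 264) Tr.z (xT (xEF (xF (xF (xF (xL (Dt.split 65 11 68 61))))) (xE (xF (xF (xL
  (Dt.split 66 11 68 62))))))) Tr.z) (xE (xT (xE (xF (xF (xF (xL (Dt.step 66 10 11627))))))))
  Tr.z))) (xET (Tr.n (Dt.step 62 0 195) Tr.z (xE (xE (xL (Dt.step 64 0 202)))) Tr.z) (xE (xE (xE
  (xL (Dt.step 65 2 201))))))))

def a13 : Tr := (Tr.n (Dt.step 62 0 0) (Tr.n (Dt.step 62 0 0) (xT (xE (xL (Dt.step 64 0 297))))
  (xE (xE (xL (Dt.step 65 7 264)))) (Tr.n (Dt.step 59 0 0) Tr.z Tr.z (xL (Dt.step 56 0 0)))) (xEF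
  (xET (Tr.n (Dt.step 64 0 227) (xL (Dt.step 66 6 227)) (xE (xL (Dt.step 65 9 330))) Tr.z) (xE (xE
  (xL (Dt.step 66 8 297))))) (xET (xET (xT (xE (xL (Dt.step 64 0 363)))) (xE (xE (xL (Dt.step 65 9
  330))))) (xE (xE (xE (xL (Dt.step 66 8 291))))))) (Tr.n (Dt.step 60 0 0) (Tr.n (Dt.step 60 0 0)
  Tr.z Tr.z (xL (Dt.step 57 0 0))) Tr.z (Tr.n (Dt.step 57 0 3) (Tr.n (Dt.step 58 0 0) Tr.z Tr.z
  (xL (Dt.step 52 0 0))) Tr.z (xE (xL (Dt.step 53 0 0))))))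

def a14 : Tr := Tr.n (Dt.step 64 0 3) a11 a12 a13

def a15 : Tr := (Tr.n (Dt.step 66 4 3) (xET (xL (Dt.step 68 4 3)) (xE (xL (Dt.step 69 8 3))))
  (Tr.n Dt.none (xE (xL (Dt.step 70 7 3))) (xF (xEF (xT (xF (xF (xE (xF (xF (xE (xL (Dt.split 64 7
  66 62))))))))) (xE (Tr.n Dt.none (xT (xF (xF (xF (xE (xL (Dt.split 64 7 66 62))))))) (xF (xE (xF
  (xF (xE (xL (Dt.split 64 7 66 62))))))) (xEF (xT (xF (xF (xE (xL (Dt.split 64 7 66 62)))))) (xE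
  (xT (xF (xE (xL (Dt.split 64 7 66 62))))))))))) (xE (Tr.n (Dt.step 65 4 165) (xL (Dt.step 66 4
  165)) Tr.z Tr.z))) (Tr.n (Dt.step 63 0 165) Tr.z (xF (xE (xE (xL (Dt.step 64 0 165))))) (xL
  (Dt.step 61 0 160))))

def a16 : Tr := (Tr.n Dt.none (xE (xE (xL (Dt.step 70 6 3)))) (xTF (xF (xE (xE (xL (Dt.split 65 6
  64 65))))) (xE (xE (xL (Dt.split 64 6 64 64))))) (xET (xE (Tr.n (Dt.step 65 4 229) (xL (Dt.step
  67 4 229)) Tr.z (xE (xL (Dt.step 64 0 7397))))) (xE (xE (xL (Dt.step 65 4 293))))))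

def a17 : Tr := (Tr.n Dt.none (xET (xE (xL (Dt.step 66 4 165))) (xE (xE (xL (Dt.step 66 4 165)))))
  (xE (xE (Tr.n (Dt.step 64 0 259) (xL (Dt.step 68 4 261)) Tr.z Tr.z))) (xT (xE (xE (xE (xL
  (Dt.step 66 4 165)))))))

def a18 : Tr := Tr.n (Dt.step 64 0 3) a15 a16 a17

def a19 : Tr := (Tr.n Dt.none (xTF (xF (xET (xET (xL (Dt.step 65 5 262)) (xE (xL (Dt.step 66 10
  358)))) (xE (xE (xL (Dt.step 67 9 326)))))) (xT (xE (xE (xL (Dt.step 66 5 291)))))) (Tr.n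
  Dt.none (xF (xT (xE (xE (xL (Dt.step 68 6 323)))))) (xF (xE (xE (xE (xL (Dt.step 69 7 3))))))
  (xE (xE (xET (xL (Dt.step 67 6 3)) (xE (xL (Dt.step 68 10 11))))))) (xET (xET (xET (Tr.n
  (Dt.step 65 5 3) (xL (Dt.step 68 5 3)) Tr.z Tr.z) (xE (xL (Dt.step 66 9 10)))) (xE (xE (xL
  (Dt.split 65 4 63 66))))) (xE (xE (xET (xL (Dt.split 66 4 63 67)) (xE (xL (Dt.split 67 4 63
  68))))))))

def a20 : Tr := (Tr.n Dt.none (xET (Tr.n (Dt.step 65 4 3) (xL (Dt.step 66 4 3)) (xE (xL (Dt.step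
  67 9 10))) Tr.z) (xEF (Tr.n (Dt.step 66 8 9) (xL (Dt.step 68 8 9)) Tr.z Tr.z) (xE (xE (xL
  (Dt.step 64 0 163)))))) (xEF (xE (Tr.n (Dt.step 67 7 8) (xL (Dt.step 67 7 8)) Tr.z (xE (xL
  (Dt.step 64 0 264))))) (xE (xE (xE (xL (Dt.step 64 0 264)))))) (xT (xE (xE (xE (xL (Dt.step 65 4
  291)))))))

def a21 : Tr := (xEF (xE (xET (Tr.n (Dt.step 66 6 3) (Tr.n (Dt.step 68 6 7) Tr.z Tr.z (xL (Dt.step
  64 0 231))) Tr.z Tr.z) (xE (xL (Dt.step 65 9 3))))) (xE (xE (xE (xET (Tr.n (Dt.step 66 6 3) Tr.z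
  (xT (xF (xE (xF (xF (xL (Dt.split 64 12 66 62))))))) Tr.z) (xE (xT (xE (xF (xF (xF (xL (Dt.step
  64 0 396)))))))))))))

def a22 : Tr := (Tr.n Dt.none (Tr.n Dt.none (xET (xT (xE (xL (Dt.step 64 0 3)))) (xE (xE (xL
  (Dt.step 65 9 3))))) (xE (xE (xE (xL (Dt.step 64 0 3))))) (xF (xE (xL (Dt.step 56 0 3))))) (xE
  (xE (xE (xE (xL (Dt.step 65 7 3)))))) (xEF (xEF (xF (xL (Dt.step 56 0 3))) (xE (xL (Dt.step 57 0
  3)))) (xE (xE (xL (Dt.step 58 0 3))))))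

def a23 : Tr := Tr.n Dt.none a20 a21 a22

def a24 : Tr := Tr.n Dt.none a18 a19 a23

def a25 : Tr := (Tr.n (Dt.step 63 0 3) (Tr.n (Dt.step 63 0 3) (xET (xL (Dt.step 64 0 3)) (xE (xL
  (Dt.step 65 8 3)))) (xEF (Tr.n (Dt.step 64 0 8) (xL (Dt.step 66 7 3)) Tr.z Tr.z) (xT (xE (xE (xL
  (Dt.step 64 0 323)))))) (Tr.n (Dt.step 60 0 3) Tr.z Tr.z (Tr.n (Dt.step 57 0 3) Tr.z Tr.z (xL
  (Dt.step 52 0 0))))) (Tr.n Dt.none (Tr.n Dt.none (Tr.n (Dt.step 64 0 3) (xL (Dt.step 65 6 3))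
  (xE (xL (Dt.step 66 9 3))) Tr.z) (xF (xE (xE (xL (Dt.step 64 0 291))))) (xT (xE (xE (xL (Dt.step
  65 6 323)))))) (xF (xE (xE (xE (xL (Dt.step 66 7 3)))))) (Tr.n Dt.none (Tr.n (Dt.step 62 0 3)
  (xET (xL (Dt.step 64 0 227)) (xE (xL (Dt.step 65 10 355)))) (xE (xE (xL (Dt.step 66 9 323))))
  (xL (Dt.step 60 0 3))) (xE (xE (xE (xL (Dt.step 65 8 291))))) (xE (xL (Dt.step 61 0 227)))))
  (Tr.n (Dt.step 61 0 3) (Tr.n (Dt.step 61 0 3) Tr.z Tr.z (Tr.n (Dt.step 58 0 3) Tr.z Tr.z (xL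
  (Dt.step 53 0 0)))) (xE (xE (xT (xE (xL (Dt.step 64 0 355)))))) (Tr.n (Dt.step 58 0 3) (Tr.n
  (Dt.step 59 0 3) Tr.z Tr.z (xL (Dt.step 54 0 3))) Tr.z (xE (xL (Dt.step 55 0 3))))))

def a26 : Tr := (xE (xET (Tr.n (Dt.step 64 0 3) (Tr.n (Dt.step 65 5 6) (xL (Dt.step 66 5 3)) (xE
  (xL (Dt.step 67 9 3))) Tr.z) (xE (Tr.n (Dt.step 66 8 9) (xL (Dt.step 68 8 3)) Tr.z Tr.z)) (Tr.n
  (Dt.step 62 0 195) Tr.z Tr.z (xL (Dt.step 60 0 195)))) (xE (xE (xET (Tr.n (Dt.step 69 7 3) Tr.z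
  (xT (xE (xF (xF (xF (xL (Dt.split 66 11 69 61))))))) Tr.z) (xE (xT (xE (xF (xF (xF (xL (Dt.step
  65 10 363)))))))))))))

def a27 : Tr := (Tr.n Dt.none (Tr.n (Dt.step 62 0 3) (Tr.n (Dt.step 62 0 3) Tr.z Tr.z (Tr.n
  (Dt.step 59 0 3) Tr.z Tr.z (xL (Dt.step 54 0 3)))) (xEF (xE (xE (xL (Dt.step 64 0 3)))) (xE (xL
  (Dt.step 61 0 3)))) (Tr.n (Dt.step 59 0 3) (Tr.n (Dt.step 60 0 3) Tr.z Tr.z (xL (Dt.step 55 0
  3))) Tr.z (xE (xL (Dt.step 56 0 3))))) (xE (xET (Tr.n (Dt.step 63 0 3) (xET (xL (Dt.step 65 6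
  3)) (xE (xL (Dt.step 66 10 3)))) (xE (xE (xL (Dt.step 65 9 3)))) (xL (Dt.step 61 0 227))) (xE
  (xE (xET (Tr.n (Dt.step 66 8 3) Tr.z (xT (xF (xE (xF (xF (xL (Dt.split 64 12 66 62))))))) Tr.z)
  (xE (xT (xE (xF (xF (xF (xL (Dt.step 64 0 387))))))))))))) (Tr.n Dt.none (Tr.n (Dt.step 61 0 3)
  (Tr.n (Dt.step 61 0 3) Tr.z Tr.z (xL (Dt.step 56 0 3))) Tr.z (xE (xL (Dt.step 57 0 3)))) (xE (xE
  (xL (Dt.step 62 0 3)))) (xE (xE (xL (Dt.step 58 0 3))))))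

def a28 : Tr := Tr.n Dt.none a25 a26 a27

def a29 : Tr := Tr.n (Dt.step 63 0 0) a14 a24 a28

def a30 : Tr := Tr.n Dt.none a6 a10 a29

def a31 : Tr := Tr.n Dt.none a2 a30 Tr.z

def a32 : Tr := (xET (xT (xF (xET (xL (Dt.step 64 0 2)) (xE (xL (Dt.step 65 8 2)))))) (xEF (xT (xE
  (xF (xF (xF (xF (xL (Dt.step 65 5 6)))))))) (xET (Tr.n (Dt.step 65 1 2) (xL (Dt.step 65 1 2))
  (xE (xL (Dt.step 66 8 9))) Tr.z) (xEF (xE (xL (Dt.step 67 7 8))) (xE (xE (xL (Dt.step 64 0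
  2))))))))

def a33 : Tr := (xTF (xF (xE (Tr.n (Dt.step 68 4 7) (xL (Dt.step 67 4 2)) Tr.z Tr.z))) (Tr.n
  (Dt.step 64 0 2) (xL (Dt.step 65 4 2)) (xEF (xF (xE (xL (Dt.step 64 0 168)))) (xE (xE (xL
  (Dt.step 65 4 2))))) Tr.z))

def a34 : Tr := (xF (xE (xE (Tr.n (Dt.step 68 1 0) (xL (Dt.step 68 1 0)) Tr.z (xE (xL (Dt.step 65
  5 6)))))))

def a35 : Tr := (Tr.n Dt.none (Tr.n (Dt.step 66 1 2) (Tr.n (Dt.step 67 1 5) (xL (Dt.step 68 1 2))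
  (xEF (xL (Dt.step 67 8 2)) (xE (xL (Dt.step 64 0 293)))) Tr.z) (Tr.n Dt.none (Tr.n (Dt.step 68 7
  8) (xL (Dt.step 69 1 2)) Tr.z Tr.z) (xF (xEF (xT (xF (xF (xE (xF (xF (xE (xL (Dt.split 64 7 66
  62))))))))) (xE (xT (xF (xE (xF (xF (xE (xL (Dt.split 64 7 66 62))))))))))) (xE (Tr.n (Dt.step
  64 0 66) (xL (Dt.step 66 1 258)) Tr.z Tr.z))) (Tr.n (Dt.step 63 0 66) (xT (xE (xL (Dt.step 64 0
  330)))) (xE (xE (xL (Dt.step 65 8 293)))) (Tr.n (Dt.step 61 0 66) Tr.z Tr.z (xL (Dt.step 59 0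
  69))))) (xEF (xE (xE (Tr.n (Dt.step 70 6 2) Tr.z (xT (xE (xF (xF (xF (xL (Dt.split 67 10 70
  61))))))) Tr.z))) (xE (xE (Tr.n (Dt.step 65 1 2) (xL (Dt.step 67 1 2)) Tr.z Tr.z)))) (xET (xET
  (xET (xL (Dt.step 64 0 2)) (xE (xL (Dt.step 65 9 10)))) (xE (xE (xL (Dt.step 66 8 2))))) (xE (xE
  (xE (xL (Dt.step 67 7 2)))))))

def a36 : Tr := Tr.n Dt.none a33 a34 a35

def a37 : Tr := (Tr.n (Dt.step 64 0 2) (Tr.n (Dt.step 64 0 2) (Tr.n (Dt.step 64 0 2) (xL (Dt.step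
  65 1 2)) (xE (xL (Dt.step 66 7 2))) Tr.z) (xEF (Tr.n (Dt.step 65 6 7) (xL (Dt.step 64 0 2)) Tr.z
  Tr.z) (xET (xT (xE (xL (Dt.step 64 0 322)))) (xE (xE (xL (Dt.step 65 8 290)))))) (Tr.n (Dt.step
  61 0 2) Tr.z Tr.z (Tr.n (Dt.step 58 0 2) Tr.z Tr.z (xL (Dt.step 53 0 0))))) (xEF (xE (xET (xL
  (Dt.step 66 1 2)) (xE (xL (Dt.step 67 8 2))))) (Tr.n Dt.none (xET (Tr.n (Dt.step 64 0 2) (xL
  (Dt.step 65 1 2)) (xE (xL (Dt.step 66 9 2))) Tr.z) (xEF (xE (xL (Dt.step 67 8 2))) (xE (xE (xL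
  (Dt.step 64 0 290)))))) (xE (xE (Tr.n (Dt.step 66 1 2) (Tr.n (Dt.step 68 1 2) Tr.z (xT (xF (xE
  (xF (xF (xL (Dt.split 64 11 66 62))))))) Tr.z) (xE (xT (xE (xF (xF (xF (xL (Dt.step 64 0
  354)))))))) Tr.z))) (xE (xT (xE (xE (xL (Dt.step 64 0 2)))))))) (Tr.n (Dt.step 62 0 2) (Tr.n
  (Dt.step 62 0 2) Tr.z Tr.z (Tr.n (Dt.step 59 0 2) Tr.z Tr.z (xL (Dt.step 54 0 0)))) (xE (xET
  (xET (xL (Dt.step 64 0 2)) (xE (xL (Dt.step 65 9 2)))) (xE (xE (xL (Dt.step 64 0 2)))))) (Tr.n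
  (Dt.step 58 0 2) (Tr.n (Dt.step 60 0 2) Tr.z Tr.z (xL (Dt.step 55 0 66))) Tr.z (Tr.n (Dt.step 57
  0 2) (Tr.n (Dt.step 55 0 2) Tr.z Tr.z (xL (Dt.step 52 0 2))) Tr.z (xE (xL (Dt.step 54 0 0)))))))

def a38 : Tr := Tr.n Dt.none a32 a36 a37

def a39 : Tr := (xEF (xF (xF (Tr.n (Dt.step 63 0 4) Tr.z Tr.z (xF (xL (Dt.step 59 0 4)))))) (xTF
  (xE (xF (xE (xE (xL (Dt.step 67 1 135)))))) (xEF (xF (xF (xL (Dt.step 59 0 66)))) (xE (xF (xL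
  (Dt.step 60 0 66)))))))

def a40 : Tr := (xTF (xTF (xF (xE (xE (xE (xL (Dt.step 71 1 0)))))) (xE (xE (Tr.n (Dt.step 68 1 0)
  (xL (Dt.step 71 1 0)) Tr.z Tr.z)))) (xE (xET (Tr.n (Dt.step 66 1 0) (Tr.n (Dt.step 69 1 0) (xL
  (Dt.step 68 1 0)) Tr.z (xE (xL (Dt.step 67 1 5)))) Tr.z Tr.z) (xT (xF (xE (xE (xL (Dt.step 67 1
  0)))))))))

def a41 : Tr := (Tr.n (Dt.step 66 1 4) (Tr.n (Dt.step 67 1 4) (Tr.n (Dt.step 68 1 4) Tr.z (xF (xL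
  (Dt.step 64 0 324))) Tr.z) (xEF (Tr.n (Dt.step 69 8 9) Tr.z Tr.z (xL (Dt.step 65 8 68))) (xET
  (xL (Dt.step 66 1 292)) (xF (xF (xF (xT (xF (xE (xE (xL (Dt.step 64 0 292))))))))))) (xE (xL
  (Dt.step 64 0 68)))) (xEF (Tr.n (Dt.step 68 7 8) (Tr.n (Dt.step 68 1 4) Tr.z Tr.z (xL (Dt.step
  64 0 72))) Tr.z (xE (xL (Dt.step 65 1 72)))) (xE (Tr.n (Dt.step 66 1 132) (Tr.n (Dt.step 67 1
  132) Tr.z (xT (xF (xE (xF (xF (xL (Dt.split 64 11 66 62))))))) Tr.z) (xE (xT (xE (xF (xF (xF (xL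
  (Dt.step 64 0 11403)))))))) Tr.z))) (Tr.n (Dt.step 61 0 68) (Tr.n (Dt.step 64 0 132) (xL
  (Dt.step 65 1 132)) (xET (xL (Dt.step 66 9 132)) (xF (xF (xF (xT (xF (xE (xE (xL (Dt.split 64 9
  64 64)))))))))) Tr.z) (xEF (xE (xL (Dt.step 67 8 132))) (xE (xE (xL (Dt.step 64 0 132))))) (xL
  (Dt.step 57 0 68))))

def a42 : Tr := (Tr.n Dt.none (xE (xE (Tr.n (Dt.step 69 6 4) Tr.z Tr.z (xL (Dt.step 65 6 231)))))
  (xF (xE (xE (xL (Dt.split 64 6 64 64))))) (xE (xE (Tr.n (Dt.step 66 1 68) (xL (Dt.step 66 6 71))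
  Tr.z (xE (xL (Dt.step 64 0 7396)))))))

def a43 : Tr := (xEF (xE (xL (Dt.step 64 0 68))) (xT (xE (xE (xE (xL (Dt.step 64 0 68)))))))

def a44 : Tr := Tr.n (Dt.step 64 0 4) a41 a42 a43

def a45 : Tr := (Tr.n Dt.none (Tr.n (Dt.step 66 1 6) (Tr.n (Dt.step 67 1 4) (xE (xL (Dt.step 68 1
  4))) Tr.z Tr.z) (xTF (xF (xE (xE (xL (Dt.split 66 7 66 64))))) (xE (xE (xL (Dt.step 65 5 70)))))
  Tr.z) (xTF (xF (xE (xE (xE (xL (Dt.step 69 1 4)))))) (xE (xE (xE (xL (Dt.step 67 1 4)))))) (xET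
  (xE (xE (xE (Tr.n (Dt.step 68 1 4) Tr.z (xT (xE (xF (xF (xF (xL (Dt.split 65 11 68 61)))))))
  Tr.z)))) (xE (xE (xE (xL (Dt.step 66 1 4)))))))

def a46 : Tr := (xEF (Tr.n (Dt.step 64 0 4) (Tr.n (Dt.step 63 0 4) (Tr.n (Dt.step 65 1 4) (xL
  (Dt.step 64 0 4)) Tr.z Tr.z) (xF (xE (xE (xL (Dt.step 64 0 68))))) Tr.z) (xEF (xE (xF (xE (xL
  (Dt.step 64 0 260))))) (xE (xE (xE (xL (Dt.step 64 0 68)))))) (xEF (Tr.n (Dt.step 62 0 68) Tr.z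
  Tr.z (xL (Dt.step 58 0 2116))) (xE (xL (Dt.step 61 0 68))))) (xE (xE (xL (Dt.step 63 0 4)))))

def a47 : Tr := Tr.n Dt.none a44 a45 a46

def a48 : Tr := Tr.n Dt.none a39 a40 a47

def a49 : Tr := (Tr.n (Dt.step 63 0 2) (Tr.n (Dt.step 64 0 2) (Tr.n (Dt.step 65 1 2) (xL (Dt.step
  65 1 2)) Tr.z Tr.z) (xET (xL (Dt.step 66 6 2)) (xF (xE (xE (xL (Dt.step 65 1 2)))))) (Tr.n
  (Dt.step 60 0 66) Tr.z Tr.z (Tr.n (Dt.step 57 0 66) Tr.z Tr.z (xL (Dt.step 54 0 2))))) (xEF (xEF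
  (Tr.n (Dt.step 67 1 2) Tr.z (xF (xE (xL (Dt.step 64 0 70)))) Tr.z) (Tr.n Dt.none (xT (xE (xL
  (Dt.step 64 0 330)))) (xE (xE (xL (Dt.step 65 1 70)))) (xF (xL (Dt.step 59 0 66))))) (xE (xE
  (Tr.n (Dt.step 64 0 66) (xL (Dt.step 65 1 66)) Tr.z Tr.z)))) (Tr.n (Dt.step 61 0 2) (xF (xF (xL
  (Dt.step 55 0 2112)))) (xF (xT (xE (xE (xE (xL (Dt.step 65 1 66))))))) (Tr.n (Dt.step 57 0 66)
  Tr.z Tr.z (Tr.n (Dt.step 57 0 64) Tr.z Tr.z (xE (xL (Dt.step 55 0 66)))))))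

def a50 : Tr := (Tr.n (Dt.step 68 4 2) (xL (Dt.step 67 1 2)) (xF (xET (xL (Dt.step 65 4 165)) (xF
  (xF (xF (xT (xF (xE (xE (xL (Dt.step 64 0 293))))))))))) (Tr.n (Dt.step 62 0 0) Tr.z (xET (xL
  (Dt.step 64 0 330)) (xF (xF (xF (xF (xT (xE (xE (xL (Dt.split 64 9 62 66)))))))))) Tr.z))

def a51 : Tr := (Tr.n Dt.none (xF (xT (xF (xF (xF (xF (xT (xE (xE (xL (Dt.step 64 0 264)))))))))))
  (xF (xEF (xTF (xF (xE (xF (xF (xF (xE (xL (Dt.step 64 0 2444)))))))) (xEF (xT (xF (xF (xF (xE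
  (xL (Dt.step 64 0 14409))))))) (xEF (xT (xF (xF (xE (xL (Dt.step 64 0 15433)))))) (xE (xT (xF
  (xE (xL (Dt.step 64 0 9289))))))))) (xE (xT (xE (xF (xF (xF (xE (xL (Dt.step 64 0 77)))))))))))
  (xE (Tr.n (Dt.step 66 1 261) (xL (Dt.step 66 1 69)) Tr.z Tr.z)))

def a52 : Tr := (xE (Tr.n (Dt.step 64 0 165) (xL (Dt.step 64 0 69)) (xT (xF (xF (xF (xT (xF (xE
  (xE (xL (Dt.split 64 9 64 64)))))))))) Tr.z))

def a53 : Tr := Tr.n (Dt.step 66 1 2) a50 a51 a52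

def a54 : Tr := (xTF (xTF (xF (xE (xE (xL (Dt.step 66 1 5))))) (xE (xE (xL (Dt.step 65 1 2)))))
  (xE (xE (Tr.n (Dt.step 66 1 69) (Tr.n (Dt.step 67 1 71) Tr.z Tr.z (xL (Dt.step 64 0 2119))) Tr.z
  Tr.z))))

def a55 : Tr := (Tr.n Dt.none (xET (Tr.n (Dt.step 65 4 69) (xL (Dt.step 65 1 69)) (xE (xL (Dt.step
  66 9 69))) Tr.z) (xE (xL (Dt.step 66 8 69)))) (xE (xE (xL (Dt.step 67 7 69)))) (xT (xE (xE (xE
  (xL (Dt.step 65 1 69)))))))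

def a56 : Tr := Tr.n (Dt.step 64 0 2) a53 a54 a55

def a57 : Tr := (xTF (xTF (xF (xE (xE (xE (xL (Dt.step 70 1 2)))))) (xE (xE (xE (xL (Dt.step 68 1
  2)))))) (xE (xE (xE (xE (xL (Dt.step 67 1 2)))))))

def a58 : Tr := (Tr.n Dt.none (Tr.n Dt.none (xET (Tr.n (Dt.step 64 0 2) (xL (Dt.step 65 1 2)) (xE
  (xL (Dt.step 66 9 10))) Tr.z) (xE (xE (xL (Dt.step 67 1 9))))) (xEF (xE (xE (xL (Dt.step 68 1
  8)))) (xE (xE (xE (xL (Dt.step 65 1 72)))))) (xEF (xET (xT (xE (xL (Dt.step 64 0 69)))) (xE (xE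
  (xL (Dt.step 65 9 69))))) (xEF (xF (xL (Dt.step 55 0 2))) (xE (xL (Dt.step 56 0 66)))))) (xE
  (Tr.n (Dt.step 64 0 7) (xE (Tr.n (Dt.step 67 1 7) (xL (Dt.step 68 1 7)) Tr.z Tr.z)) Tr.z (xE (xE
  (xET (Tr.n (Dt.step 66 6 71) Tr.z (xT (xF (xE (xF (xF (xL (Dt.split 64 12 66 62))))))) Tr.z) (xE
  (xT (xE (xF (xF (xF (xL (Dt.step 64 0 12359))))))))))))) (xE (xEF (xF (xF (xL (Dt.step 55 0
  2)))) (xE (xF (xL (Dt.step 56 0 2114)))))))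

def a59 : Tr := Tr.n Dt.none a56 a57 a58

def a60 : Tr := (Tr.n (Dt.step 62 0 0) (Tr.n (Dt.step 62 0 2) (xF (xF (xF (xL (Dt.step 53 0 2)))))
  (xEF (xE (xE (xL (Dt.step 64 0 2)))) (xT (xE (xE (xET (Tr.n (Dt.step 66 1 66) Tr.z (xT (xF (xE
  (xF (xF (xL (Dt.split 64 12 66 62))))))) Tr.z) (xE (xT (xE (xF (xF (xF (xL (Dt.step 64 0
  12354))))))))))))) (xEF (xF (xF (xL (Dt.step 54 0 66)))) (Tr.n (Dt.step 57 0 2) (xF (xL (Dt.step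
  55 0 2114))) Tr.z (xE (xL (Dt.step 54 0 66)))))) (xE (xET (xET (Tr.n (Dt.step 64 0 6) (xL
  (Dt.step 66 1 2)) (xE (xL (Dt.step 67 9 2))) Tr.z) (xE (xE (xL (Dt.step 68 1 2))))) (xE (xE (xE
  (xL (Dt.step 68 1 2))))))) (Tr.n (Dt.step 61 0 0) (Tr.n (Dt.step 61 0 2) (xF (xF (xL (Dt.step 53
  0 66)))) Tr.z (Tr.n (Dt.step 59 0 2) (xF (xL (Dt.step 53 0 2114))) Tr.z Tr.z)) Tr.z (xE (xL
  (Dt.step 60 0 2)))))

def a61 : Tr := Tr.n (Dt.step 63 0 0) a49 a59 a60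

def a62 : Tr := Tr.n Dt.none a38 a48 a61

def a63 : Tr := (xTF (xF (xE (xE (xL (Dt.step 68 2 0))))) (xET (xET (xL (Dt.step 67 2 5)) (xE (xL
  (Dt.step 68 7 8)))) (xE (xE (xL (Dt.step 69 6 7))))))

def a64 : Tr := (Tr.n Dt.none (Tr.n Dt.none (xT (xEF (xF (xE (xL (Dt.step 64 0 104)))) (xE (xE (xL
  (Dt.step 65 2 259)))))) (xEF (xEF (xF (xE (xL (Dt.step 65 6 231)))) (xE (xE (xL (Dt.step 66 6
  103))))) (xE (xE (xE (xL (Dt.step 67 2 227)))))) (xE (xET (xT (xE (xL (Dt.step 64 0 330)))) (xE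
  (xE (xL (Dt.step 65 8 297))))))) (Tr.n Dt.none (Tr.n (Dt.step 65 2 6) (Tr.n (Dt.step 68 2 6) (xF
  (xE (xL (Dt.step 66 5 198)))) Tr.z (xE (xE (xL (Dt.step 67 5 198))))) (xTF (xF (xE (xE (xL
  (Dt.step 67 2 6))))) (xE (xE (xL (Dt.step 66 2 102))))) (xE (xE (xE (xL (Dt.step 66 5 102))))))
  (xT (xF (xE (xE (xE (xL (Dt.step 70 2 3))))))) (xET (xE (xE (xE (xL (Dt.step 67 2 3))))) (xE (xE
  (xE (xL (Dt.split 67 1 64 67))))))) (xE (xET (xET (xET (xL (Dt.step 64 0 3)) (xE (xL (Dt.step 65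
  9 3)))) (xE (xE (xL (Dt.step 66 8 3))))) (xE (xE (xE (xL (Dt.step 67 7 3))))))))

def a65 : Tr := Tr.n Dt.none Tr.z a63 a64

def a66 : Tr := (Tr.n Dt.none (xTF (xF (xET (xET (xL (Dt.step 69 3 6)) (xE (xL (Dt.step 70 8 9))))
  (xE (xE (xL (Dt.step 71 7 8)))))) (xT (xE (xE (xL (Dt.step 70 3 7)))))) (Tr.n Dt.none (xF (xT
  (xE (xE (xL (Dt.step 72 4 8)))))) (xF (xE (xE (xE (xL (Dt.step 73 5 0)))))) (xE (xE (xET (Tr.n
  (Dt.step 71 4 0) (xL (Dt.split 69 1 63 70)) Tr.z (xT (xF (xE (xE (xL (Dt.split 64 1 64 64)))))))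
  (xEF (xL (Dt.step 72 8 0)) (xE (xE (Tr.n (Dt.split 67 1 64 67) Tr.z Tr.z (xE (xL (Dt.split 64 1
  64 64))))))))))) (xET (xET (Tr.n (Dt.step 66 3 0) (Tr.n (Dt.step 69 3 0) (xF (xE (xL (Dt.step 67
  3 4)))) (xF (xE (xL (Dt.split 65 1 64 65)))) Tr.z) (Tr.n Dt.none (xL (Dt.step 70 7 0)) (xF (xE
  (xE (xL (Dt.step 68 3 0))))) (xE (xE (xL (Dt.step 67 3 4))))) (xE (xE (xE (xL (Dt.step 67 3
  4)))))) (xET (xE (xL (Dt.step 69 6 0))) (xF (xE (xE (xE (xL (Dt.step 71 3 0)))))))) (xE (xE (xET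
  (xL (Dt.step 70 5 0)) (xE (xL (Dt.step 71 8 0))))))))

def a67 : Tr := (Tr.n (Dt.step 69 2 0) (Tr.n (Dt.step 68 2 0) Tr.z (xF (xL (Dt.step 64 0 3)))
  Tr.z) (Tr.n Dt.none (Tr.n (Dt.step 69 8 0) Tr.z Tr.z (xL (Dt.step 65 8 3))) (Tr.n Dt.none (xF
  (xT (xF (xEF (xF (xF (xL (Dt.split 64 8 67 61)))) (xEF (xF (xL (Dt.split 65 8 67 62))) (xE (xL
  (Dt.split 65 8 69 60)))))))) (xF (xE (xE (xF (xF (xF (xL (Dt.split 64 8 67 61)))))))) (xE (xT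
  (xF (xEF (xF (xF (xL (Dt.split 65 8 67 62)))) (xE (xF (xL (Dt.split 65 8 69 60))))))))) (Tr.n
  (Dt.step 64 0 9) (xL (Dt.step 66 2 9)) (xF (xF (xF (xTF (xE (xF (xE (xL (Dt.step 64 0 105)))))
  (xT (xE (xE (xL (Dt.step 64 0 9))))))))) Tr.z)) (xL (Dt.step 64 0 3)))

def a68 : Tr := (Tr.n Dt.none (Tr.n (Dt.step 70 7 0) (xTF (xF (xT (xF (xF (xF (xE (xL (Dt.step 64
  0 11)))))))) (xL (Dt.step 66 7 8))) (xET (xF (xT (xF (xEF (xF (xF (xL (Dt.step 65 7 264)))) (xE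
  (xF (xL (Dt.step 65 7 264)))))))) (xF (xE (xE (xF (xF (xF (xL (Dt.step 65 7 11))))))))) (xE
  (Tr.n (Dt.step 66 7 3) Tr.z (xT (xF (xF (xF (xE (xL (Dt.split 64 11 64 64))))))) Tr.z))) (xF (xE
  (xE (xF (xT (xF (xF (xF (xE (xL (Dt.step 64 0 3))))))))))) (xE (Tr.n (Dt.step 67 2 3) (xL
  (Dt.step 67 2 8)) Tr.z Tr.z)))

def a69 : Tr := (xET (Tr.n (Dt.step 65 2 3) (xL (Dt.step 65 2 3)) (xET (xL (Dt.step 66 9 3)) (xF
  (xF (xF (xTF (xE (xF (xE (xL (Dt.split 64 9 65 63))))) (xT (xE (xE (xL (Dt.split 64 9 62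
  66)))))))))) Tr.z) (xE (xL (Dt.step 65 8 3))))

def a70 : Tr := Tr.n (Dt.step 67 2 0) a67 a68 a69

def a71 : Tr := (Tr.n Dt.none (Tr.n (Dt.step 68 6 0) (Tr.n (Dt.step 71 6 0) (xTF (xF (xT (xF (xF
  (xF (xE (xL (Dt.step 65 6 11)))))))) (xL (Dt.step 66 6 7))) Tr.z (xE (Tr.n (Dt.step 67 6 7) Tr.z
  (xT (xF (xF (xF (xE (xL (Dt.split 65 11 65 64))))))) Tr.z))) Tr.z (xE (xE (xL (Dt.step 67 6
  3))))) (xTF (xF (xE (xE (xL (Dt.step 67 2 0))))) (xE (xE (xL (Dt.step 66 2 0))))) (Tr.n (Dt.step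
  64 0 3) (xE (Tr.n (Dt.step 67 2 3) (xL (Dt.step 68 2 3)) Tr.z Tr.z)) Tr.z Tr.z))

def a72 : Tr := (Tr.n Dt.none (xET (Tr.n (Dt.step 64 0 3) (xL (Dt.step 65 2 3)) (xE (xL (Dt.step
  66 9 3))) Tr.z) (xE (xE (xL (Dt.step 67 8 3))))) (xE (xE (xE (xL (Dt.step 68 7 3))))) (xE (xET
  (xT (xE (xL (Dt.step 64 0 3)))) (xE (xE (xL (Dt.step 65 9 3)))))))

def a73 : Tr := Tr.n (Dt.step 65 2 0) a70 a71 a72

def a74 : Tr := (xET (xET (Tr.n (Dt.step 67 2 0) (Tr.n (Dt.step 72 5 0) (xF (xL (Dt.step 67 5 6)))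
  (xE (xT (xE (xF (xF (xF (xF (xL (Dt.split 65 1 64 65))))))))) Tr.z) Tr.z (xE (xE (xL (Dt.step 67
  5 6))))) (xT (xF (xE (xE (xE (xL (Dt.split 67 1 62 69)))))))) (xTF (xF (xE (xE (xE (xL (Dt.split
  69 1 64 69)))))) (xE (xE (xE (xL (Dt.step 69 2 0)))))))

def a75 : Tr := Tr.n Dt.none a73 a74 Tr.z

def a76 : Tr := (Tr.n Dt.none (xET (xET (Tr.n (Dt.step 68 4 0) (xL (Dt.step 73 4 0)) (xE (xL
  (Dt.step 70 8 0))) Tr.z) (xE (Tr.n (Dt.step 69 7 0) (xL (Dt.step 71 7 0)) Tr.z Tr.z))) (xE (xE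
  (xE (xL (Dt.step 72 6 0)))))) (xF (xE (xE (xE (xE (xL (Dt.split 68 1 62 70))))))) (xE (xE (xE
  (xE (xL (Dt.split 65 1 62 67)))))))

def a77 : Tr := Tr.n Dt.none a75 a76 Tr.z

def a78 : Tr := Tr.n Dt.none a65 a66 a77

def a79 : Tr := (Tr.n (Dt.step 65 1 2) (Tr.n (Dt.step 66 1 2) (xL (Dt.step 66 1 2)) (xE (xL
  (Dt.step 67 1 2))) Tr.z) (Tr.n Dt.none (xET (xL (Dt.step 68 1 2)) (xF (xE (xL (Dt.step 64 0
  295))))) (xF (xE (Tr.n (Dt.split 65 6 65 64) (xL (Dt.step 66 1 2)) Tr.z Tr.z))) (xET (xET (xL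
  (Dt.step 64 0 66)) (xE (xL (Dt.step 64 0 330)))) (xE (xE (xL (Dt.step 65 8 290)))))) (xF (xF (xL
  (Dt.step 54 0 0)))))

def a80 : Tr := (Tr.n Dt.none (Tr.n (Dt.step 66 1 2) (xL (Dt.step 69 1 2)) (xF (Tr.n (Dt.step 64 0
  294) (xL (Dt.step 65 5 198)) (xF (xF (xF (xT (xF (xE (xE (xL (Dt.step 64 0 294))))))))) Tr.z))
  (xT (xE (xL (Dt.step 64 0 330))))) (xF (xE (Tr.n (Dt.step 66 5 262) (xL (Dt.step 67 5 262)) Tr.z
  Tr.z))) (xE (Tr.n (Dt.step 64 0 66) (xL (Dt.step 64 0 70)) (xT (xF (xF (xF (xT (xF (xE (xE (xL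
  (Dt.split 64 9 64 64)))))))))) Tr.z)))

def a81 : Tr := (xTF (xT (xF (xE (xE (xL (Dt.split 66 5 64 66)))))) (xE (xE (Tr.n (Dt.step 66 1 2)
  (xL (Dt.step 66 1 2)) Tr.z Tr.z))))

def a82 : Tr := (Tr.n Dt.none (Tr.n (Dt.step 63 0 70) (Tr.n (Dt.step 65 1 194) (xL (Dt.step 66 1
  66)) (xEF (xL (Dt.step 67 9 66)) (xE (xL (Dt.step 64 0 10434)))) Tr.z) (xEF (Tr.n (Dt.step 66 8
  297) (Tr.n (Dt.step 68 8 66) Tr.z Tr.z (xL (Dt.step 64 0 9513))) Tr.z Tr.z) (xE (xE (xL (Dt.step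
  64 0 9282))))) (xE (xT (xE (xL (Dt.step 64 0 11458)))))) (xEF (xE (Tr.n (Dt.step 67 7 264) (Tr.n
  (Dt.step 68 7 66) Tr.z (xT (xF (xE (xF (xF (xL (Dt.split 64 11 66 62))))))) Tr.z) (xE (xT (xE
  (xF (xF (xF (xL (Dt.step 64 0 11627)))))))) Tr.z)) (xE (xE (xE (xL (Dt.step 65 1 66)))))) (xET
  (Tr.n (Dt.step 60 0 192) (xE (xL (Dt.step 64 0 66))) (xE (xE (xL (Dt.step 64 0 66)))) Tr.z) (xE
  (xE (xE (xL (Dt.step 65 8 66)))))))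

def a83 : Tr := Tr.n Dt.none a80 a81 a82

def a84 : Tr := (Tr.n (Dt.step 61 0 66) (xTF (xE (xE (xL (Dt.step 64 0 66)))) (xF (Tr.n (Dt.step
  56 0 66) Tr.z Tr.z (xL (Dt.step 53 0 66))))) (xEF (xE (xET (xL (Dt.step 65 1 66)) (xE (xL
  (Dt.step 65 9 66))))) (xET (xET (xT (xE (xL (Dt.step 64 0 66)))) (xE (xE (xL (Dt.step 65 9
  66))))) (xE (xE (xET (Tr.n (Dt.step 66 1 66) Tr.z (xT (xF (xE (xF (xF (xL (Dt.split 64 12 66
  62))))))) Tr.z) (xE (xT (xE (xF (xF (xF (xL (Dt.step 64 0 12354))))))))))))) (Tr.n Dt.none (xF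
  (Tr.n (Dt.step 57 0 66) Tr.z Tr.z (xL (Dt.step 54 0 66)))) (xE (xT (xE (xE (xL (Dt.step 64 0
  66)))))) (Tr.n (Dt.step 58 0 66) (Tr.n (Dt.step 58 0 66) Tr.z Tr.z (xL (Dt.step 55 0 2114)))
  Tr.z Tr.z)))

def a85 : Tr := Tr.n (Dt.step 64 0 2) a79 a83 a84

def a86 : Tr := (Tr.n (Dt.step 69 1 2) (Tr.n (Dt.step 70 1 2) Tr.z (xF (xL (Dt.step 64 0 325)))
  Tr.z) (xEF (xF (xL (Dt.step 65 8 169))) (Tr.n (Dt.step 65 4 293) (xL (Dt.step 66 4 293)) (xF (xF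
  (xF (xTF (xEF (xF (xE (xL (Dt.step 64 0 5423)))) (xE (xE (xL (Dt.step 64 0 293))))) (xT (xE (xE
  (xL (Dt.step 64 0 304))))))))) Tr.z)) (Tr.n (Dt.step 64 0 165) (xL (Dt.step 64 0 165)) (xT (xF
  (xEF (xT (xF (xF (xF (xE (xL (Dt.split 64 9 64 64))))))) (xEF (xT (xF (xF (xE (xL (Dt.split 64 9
  64 64)))))) (xE (xT (xF (xE (xL (Dt.split 64 9 64 64)))))))))) Tr.z))

def a87 : Tr := (Tr.n Dt.none (Tr.n (Dt.step 70 1 2) Tr.z Tr.z (xT (xF (xEF (xT (xF (xF (xF (xE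
  (xL (Dt.step 64 0 14600))))))) (xEF (xT (xF (xF (xE (xL (Dt.step 64 0 8456)))))) (xE (xT (xF (xE
  (xL (Dt.step 64 0 8456))))))))))) (xF (xEF (xE (xF (xT (xF (xF (xF (xE (xL (Dt.step 64 0
  293))))))))) (xE (xE (xT (xF (xF (xF (xE (xL (Dt.split 64 7 66 62))))))))))) (xE (Tr.n (Dt.step
  66 4 168) (xL (Dt.step 68 4 165)) Tr.z Tr.z)))

def a88 : Tr := (Tr.n (Dt.step 61 0 64) (Tr.n (Dt.step 65 4 165) (xL (Dt.step 65 4 165)) (Tr.n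
  Dt.none (xL (Dt.step 66 9 170)) (xF (xF (xF (xTF (xEF (xF (xE (xL (Dt.split 64 9 65 63)))) (xE
  (xE (xL (Dt.split 64 9 64 64))))) (xT (xE (xE (xL (Dt.split 64 9 62 66))))))))) (xE (xL (Dt.step
  64 0 10405)))) Tr.z) (xEF (xE (Tr.n (Dt.step 67 8 169) Tr.z Tr.z (xL (Dt.step 64 0 9385)))) (xE
  (xE (xL (Dt.step 64 0 165))))) (Tr.n (Dt.step 57 0 66) (xT (xE (xL (Dt.step 64 0 165)))) Tr.z
  Tr.z))

def a89 : Tr := Tr.n (Dt.step 67 1 2) a86 a87 a88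

def a90 : Tr := (xF (xE (xE (Tr.n (Dt.step 66 4 229) Tr.z Tr.z (xE (xL (Dt.step 64 0 7397)))))))

def a91 : Tr := (Tr.n Dt.none (xE (Tr.n (Dt.step 64 0 69) (xL (Dt.step 65 4 69)) Tr.z Tr.z)) (xE
  (xF (xE (xE (xL (Dt.step 65 1 5378)))))) (xT (xE (xE (xET (Tr.n (Dt.step 66 4 165) Tr.z (xT (xF
  (xE (xF (xF (xL (Dt.split 64 12 66 62))))))) Tr.z) (xE (xT (xE (xF (xF (xF (xL (Dt.step 64 0
  12453)))))))))))))

def a92 : Tr := Tr.n (Dt.step 65 1 2) a89 a90 a91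

def a93 : Tr := (xTF (xTF (xF (xE (xE (xE (xL (Dt.step 69 1 2)))))) (xE (xE (xE (xL (Dt.step 69 1
  2)))))) (xE (xE (Tr.n (Dt.split 64 4 64 64) (Tr.n (Dt.step 67 1 2) (xL (Dt.step 68 1 2)) Tr.z
  (xE (xL (Dt.step 65 1 194)))) Tr.z Tr.z))))

def a94 : Tr := (Tr.n (Dt.step 64 0 162) (Tr.n (Dt.step 63 0 0) (Tr.n (Dt.step 65 1 162) (xL
  (Dt.step 66 1 162)) (xE (xL (Dt.step 67 9 170))) Tr.z) (xEF (Tr.n (Dt.step 66 1 169) (xL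
  (Dt.step 68 8 162)) Tr.z Tr.z) (xE (xE (xL (Dt.step 65 1 5282))))) (xET (xT (xE (xL (Dt.step 64
  0 5474)))) (xE (xE (xL (Dt.step 65 9 5442)))))) (xEF (xE (Tr.n (Dt.step 67 7 168) (xL (Dt.step
  68 7 162)) Tr.z (xE (xL (Dt.step 64 0 8456))))) (xE (xE (xET (Tr.n (Dt.step 66 7 2210) Tr.z (xT
  (xF (xE (xF (xF (xL (Dt.split 64 12 66 62))))))) Tr.z) (xE (xT (xE (xF (xF (xF (xL (Dt.step 64 0
  401804)))))))))))) (xEF (Tr.n (Dt.step 62 0 2048) Tr.z Tr.z (Tr.n (Dt.step 58 0 67584) Tr.z Tr.z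
  (xL (Dt.step 55 0 67584)))) (xE (Tr.n (Dt.step 61 0 2048) Tr.z Tr.z (xL (Dt.step 55 0
  67584))))))

def a95 : Tr := (xEF (Tr.n (Dt.step 65 6 231) (xE (xE (xL (Dt.step 68 6 162)))) Tr.z Tr.z) (xE (xE
  (xE (xE (xL (Dt.step 66 1 226)))))))

def a96 : Tr := (Tr.n Dt.none (Tr.n Dt.none (Tr.n (Dt.step 63 0 162) (xET (xL (Dt.step 64 0 162))
  (xE (xL (Dt.step 65 10 171)))) (xE (xE (xL (Dt.step 66 9 170)))) (xL (Dt.step 58 0 2048))) (xE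
  (xE (xET (Tr.n (Dt.step 67 8 169) Tr.z (xT (xF (xE (xF (xF (xL (Dt.split 64 12 66 62)))))))
  Tr.z) (xE (xT (xE (xF (xF (xF (xL (Dt.step 64 0 12684))))))))))) (xEF (xL (Dt.step 62 0 2210))
  (xE (xL (Dt.step 61 0 2210))))) (xE (xE (xE (xE (xL (Dt.step 66 1 168)))))) (xE (xE (xL (Dt.step
  63 0 162)))))

def a97 : Tr := Tr.n Dt.none a94 a95 a96

def a98 : Tr := Tr.n Dt.none a92 a93 a97

def a99 : Tr := (Tr.n (Dt.step 63 0 2) (Tr.n (Dt.step 63 0 0) Tr.z (xTF (xF (xE (xE (xL (Dt.step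
  64 0 290))))) (xT (xE (xE (xL (Dt.step 64 0 2378)))))) (Tr.n (Dt.step 60 0 2050) Tr.z Tr.z (Tr.n
  (Dt.step 57 0 2050) Tr.z Tr.z (xL (Dt.step 53 0 2050))))) (xEF (Tr.n Dt.none (Tr.n (Dt.step 65 1
  226) Tr.z (xF (xE (xL (Dt.step 64 0 2274)))) Tr.z) (xF (xE (xE (xL (Dt.step 65 6 2279))))) (xET
  (xT (xE (xL (Dt.step 64 0 2274)))) (xE (xE (xL (Dt.step 64 0 2274)))))) (xEF (Tr.n (Dt.step 60 0
  224) Tr.z Tr.z (xL (Dt.step 58 0 67584))) (xE (xL (Dt.step 58 0 7168))))) (Tr.n (Dt.step 61 0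
  2050) (Tr.n (Dt.step 61 0 2048) Tr.z Tr.z (Tr.n (Dt.step 57 0 67584) Tr.z Tr.z (xL (Dt.step 53 0
  67586)))) Tr.z (Tr.n (Dt.step 57 0 2050) (Tr.n (Dt.step 59 0 2048) Tr.z Tr.z (xL (Dt.step 53 0
  67584))) Tr.z (xE (xL (Dt.step 54 0 2048))))))

def a100 : Tr := (Tr.n Dt.none (Tr.n Dt.none (Tr.n (Dt.step 64 0 194) (Tr.n (Dt.step 66 5 194)
  (Tr.n (Dt.step 67 1 194) Tr.z (xT (xF (xE (xF (xF (xF (xL (Dt.split 64 10 67 61)))))))) Tr.z)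
  (xEF (xTF (xE (xF (xF (xF (xF (xL (Dt.step 64 0 10570))))))) (xL (Dt.step 64 0 6474))) (xE (xL
  (Dt.step 64 0 6338)))) Tr.z) (xEF (xL (Dt.step 67 8 297)) (xE (xE (xL (Dt.step 66 5 2242)))))
  (Tr.n (Dt.step 60 0 6144) Tr.z Tr.z (xL (Dt.step 58 0 6144)))) (xF (xE (xE (xE (xL (Dt.step 66 1
  2242)))))) (xE (xE (xE (xL (Dt.step 64 0 2242)))))) (xF (xE (xE (xE (xE (xL (Dt.step 67 1
  226))))))) (xET (xET (xET (xET (xL (Dt.step 65 1 194)) (xE (xL (Dt.step 66 1 354)))) (xE (xE (xL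
  (Dt.step 67 1 322))))) (xE (xE (xE (xL (Dt.step 67 8 290)))))) (xE (xE (xE (Tr.n (Dt.step 64 0
  258) (xL (Dt.step 67 1 258)) Tr.z Tr.z))))))

def a101 : Tr := (Tr.n (Dt.step 62 0 2) (Tr.n (Dt.step 62 0 2) (Tr.n (Dt.step 62 0 0) Tr.z Tr.z
  (Tr.n (Dt.step 58 0 2048) Tr.z Tr.z (xL (Dt.step 53 0 2048)))) (xF (xE (xL (Dt.step 59 0
  2312)))) (Tr.n (Dt.step 60 0 2048) (xL (Dt.step 59 0 2048)) Tr.z Tr.z)) (xE (xE (xF (xL (Dt.step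
  59 0 7168))))) (xE (Tr.n (Dt.step 61 0 0) (xL (Dt.step 60 0 0)) Tr.z Tr.z)))

def a102 : Tr := Tr.n (Dt.step 63 0 2) a99 a100 a101

def a103 : Tr := Tr.n (Dt.step 64 0 2) a85 a98 a102

def a104 : Tr := (Tr.n (Dt.step 68 3 2) (xL (Dt.step 69 3 2)) (Tr.n Dt.none (xTF (xF (xT (xF (xF
  (xF (xE (xL (Dt.step 64 0 361)))))))) (xL (Dt.step 66 3 132))) (xF (xE (xT (xEF (xF (xF (xF (xL
  (Dt.split 64 8 67 61))))) (xEF (xF (xF (xL (Dt.split 65 8 67 62)))) (xEF (xF (xL (Dt.split 65 8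
  66 63))) (xE (xL (Dt.split 65 8 65 64))))))))) (xE (Tr.n (Dt.step 67 3 132) Tr.z (xT (xF (xF (xF
  (xE (xL (Dt.split 64 11 64 64))))))) Tr.z))) Tr.z)

def a105 : Tr := (xEF (Tr.n (Dt.step 71 3 2) (xTF (xF (xT (xF (xF (xEF (xF (xL (Dt.step 64 0
  8552))) (xE (xL (Dt.step 65 7 360)))))))) (xL (Dt.step 67 7 264))) (xEF (xF (xT (xF (xF (xEF (xF
  (xL (Dt.step 65 9 10504))) (xE (xL (Dt.step 65 9 264)))))))) (xE (xT (xE (xF (xF (xF (xL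
  (Dt.step 65 7 8520))))))))) (xE (Tr.n (Dt.step 67 7 136) Tr.z (xT (xF (xF (xEF (xF (xL (Dt.split
  64 11 65 63))) (xE (xL (Dt.split 65 11 65 64))))))) Tr.z))) (xE (xET (Tr.n (Dt.step 68 3 260)
  Tr.z (xT (xEF (xF (xF (xF (xL (Dt.split 64 11 67 61))))) (xE (xF (xF (xL (Dt.split 65 11 67
  62))))))) Tr.z) (xE (xT (xE (xF (xF (xF (xL (Dt.step 65 10 11627)))))))))))

def a106 : Tr := (Tr.n Dt.none (xET (xL (Dt.step 65 3 132)) (xE (xL (Dt.step 66 9 324)))) (xE (xE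
  (xL (Dt.step 67 3 292)))) (xF (xL (Dt.step 56 0 0))))

def a107 : Tr := Tr.n (Dt.step 68 3 2) a104 a105 a106

def a108 : Tr := (xEF (xE (Tr.n (Dt.step 72 6 2) (xTF (xF (xT (xF (xF (xEF (xF (xL (Dt.step 65 6
  7527))) (xE (xL (Dt.step 66 6 359)))))))) (xL (Dt.step 67 6 231))) Tr.z (xE (Tr.n (Dt.step 68 6
  231) Tr.z (xT (xF (xF (xEF (xF (xL (Dt.split 65 11 66 63))) (xE (xL (Dt.split 66 11 66 64)))))))
  Tr.z)))) (xE (xE (Tr.n (Dt.step 65 3 228) (xL (Dt.step 67 6 132)) Tr.z Tr.z))))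

def a109 : Tr := (Tr.n (Dt.step 64 0 132) (Tr.n Dt.none (xET (xL (Dt.step 66 3 132)) (xE (xL
  (Dt.step 67 9 138)))) (xE (xE (xL (Dt.step 68 8 137)))) (xF (xL (Dt.step 57 0 4)))) (xE (xE (xE
  (Tr.n (Dt.step 68 7 136) Tr.z (xT (xE (xF (xF (xF (xL (Dt.split 65 11 68 61))))))) Tr.z)))) (xEF
  (xF (xL (Dt.step 58 0 128))) (xE (xL (Dt.step 61 0 128)))))

def a110 : Tr := Tr.n (Dt.step 66 3 2) a107 a108 a109

def a111 : Tr := (xEF (xE (xE (Tr.n (Dt.step 73 5 2) (xF (xL (Dt.step 67 5 198))) Tr.z Tr.z))) (xE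
  (xL (Dt.step 65 5 196))))

def a112 : Tr := (Tr.n Dt.none (xET (xEF (xL (Dt.step 65 3 132)) (xF (xL (Dt.step 58 0 4224))))
  (xE (xE (Tr.n (Dt.step 65 3 130) (xL (Dt.step 67 3 136)) Tr.z Tr.z)))) (xF (xE (xE (xE (xE (xL
  (Dt.step 67 3 130))))))) (xET (xET (xET (xET (xL (Dt.step 64 0 130)) (xE (xL (Dt.step 65 10
  130)))) (xE (xE (xL (Dt.step 66 3 130))))) (xE (xE (xE (xL (Dt.step 67 3 130)))))) (xE (xE (xE
  (xE (xL (Dt.step 66 3 130))))))))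

def a113 : Tr := Tr.n (Dt.step 65 3 2) a110 a111 a112

def a114 : Tr := (Tr.n (Dt.step 64 0 2) (Tr.n Dt.none (xT (xF (xE (xL (Dt.step 65 3 322))))) (xEF
  (xEF (xT (xF (xT (xF (xF (xF (xE (xL (Dt.step 64 0 386))))))))) (xE (Tr.n (Dt.step 66 8 130)
  Tr.z (xT (xF (xF (xF (xE (xL (Dt.split 64 12 64 64))))))) Tr.z))) (xE (xE (xL (Dt.step 67 3
  290))))) (xE (xET (xL (Dt.step 64 0 130)) (xE (xL (Dt.step 65 10 354)))))) (xEF (xE (xEF (xTF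
  (xF (xT (xF (xF (xEF (xF (xL (Dt.step 64 0 8584))) (xE (xL (Dt.step 65 7 386)))))))) (xL
  (Dt.step 64 0 258))) (xE (Tr.n (Dt.step 67 7 258) Tr.z (xT (xF (xF (xEF (xF (xL (Dt.split 64 12
  65 63))) (xE (xL (Dt.split 65 12 65 64))))))) Tr.z)))) (xE (xE (Tr.n (Dt.step 64 0 130) (xL
  (Dt.step 67 3 130)) Tr.z Tr.z)))) (xET (xET (xET (xL (Dt.step 65 3 130)) (xE (xL (Dt.step 66 10
  130)))) (xE (xE (xL (Dt.step 67 9 130))))) (xE (xE (xE (xL (Dt.step 66 8 130)))))))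

def a115 : Tr := (xEF (Tr.n (Dt.step 65 6 2) (Tr.n (Dt.step 65 3 2) (xE (xF (xL (Dt.step 65 6
  226)))) Tr.z Tr.z) Tr.z Tr.z) (xE (xE (xE (Tr.n (Dt.step 64 0 231) (xL (Dt.step 66 3 228)) Tr.z
  Tr.z)))))

def a116 : Tr := Tr.n Dt.none a114 a115 Tr.z

def a117 : Tr := (xE (xE (xE (xL (Dt.step 66 5 2)))))

def a118 : Tr := (xET (xET (xET (xT (xE (xE (xL (Dt.step 64 0 2))))) (xE (xE (xE (xL (Dt.step 65 8
  2)))))) (xE (xE (xE (xE (xL (Dt.step 66 7 2))))))) (xE (xE (xE (xE (xE (xL (Dt.step 67 6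
  2))))))))

def a119 : Tr := Tr.n Dt.none a116 a117 a118

def a120 : Tr := Tr.n Dt.none a113 Tr.z a119

def a121 : Tr := (Tr.n (Dt.step 64 0 2) (Tr.n (Dt.step 64 0 2) (xL (Dt.step 64 0 2)) (xE (xL
  (Dt.step 65 8 9))) Tr.z) (Tr.n Dt.none (Tr.n (Dt.step 65 7 8) (xL (Dt.step 66 7 2)) (xF (xE (xL
  (Dt.step 64 0 322)))) (xT (xE (xL (Dt.step 64 0 363))))) (xF (xE (xE (xL (Dt.step 65 8 2)))))
  (xET (xET (xL (Dt.step 64 0 258)) (xE (xL (Dt.step 64 0 354)))) (xE (xE (xL (Dt.step 64 0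
  322)))))) (Tr.n (Dt.step 61 0 0) Tr.z Tr.z (Tr.n (Dt.step 58 0 0) Tr.z Tr.z (xL (Dt.step 54 0
  2)))))

def a122 : Tr := (Tr.n Dt.none (Tr.n (Dt.step 64 0 2) (Tr.n (Dt.step 66 6 2) (xL (Dt.step 67 6 2))
  (xF (xE (xL (Dt.step 64 0 226)))) (xT (xE (xL (Dt.step 64 0 226))))) (xF (xE (xE (xL (Dt.step 66
  6 290))))) (xT (xE (xE (xL (Dt.step 65 6 327)))))) (xF (xE (xE (xE (xL (Dt.step 66 7 2))))))
  (xEF (Tr.n (Dt.step 61 0 7) (xET (xL (Dt.step 64 0 226)) (xE (xL (Dt.step 65 10 363)))) (xE (xE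
  (xL (Dt.step 66 9 322)))) (xL (Dt.step 59 0 0))) (xE (xL (Dt.step 60 0 226)))))

def a123 : Tr := (Tr.n (Dt.step 62 0 0) (Tr.n (Dt.step 62 0 0) Tr.z (xE (xE (xL (Dt.step 64 0
  290)))) (Tr.n (Dt.step 59 0 0) Tr.z Tr.z (xL (Dt.step 55 0 2)))) (xE (xE (xET (xL (Dt.step 65 7
  258)) (xE (xL (Dt.step 64 0 354)))))) (Tr.n (Dt.step 58 0 0) (Tr.n (Dt.step 60 0 0) Tr.z Tr.z
  (xL (Dt.step 56 0 2))) Tr.z (xE (xL (Dt.step 57 0 2)))))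

def a124 : Tr := Tr.n (Dt.step 64 0 2) a121 a122 a123

def a125 : Tr := (xEF (Tr.n (Dt.step 64 0 2) (Tr.n Dt.none (Tr.n (Dt.step 67 5 2) (Tr.n (Dt.step
  68 5 2) Tr.z (xTF (xE (xF (xF (xF (xF (xL (Dt.split 64 10 68 60))))))) (xL (Dt.step 64 0 194)))
  Tr.z) Tr.z Tr.z) (xF (xE (xE (xL (Dt.step 66 5 290))))) (Tr.n (Dt.step 61 0 194) Tr.z Tr.z (xL
  (Dt.step 59 0 192)))) (xF (xE (xE (xE (xL (Dt.step 66 5 262)))))) (xET (xET (xE (xL (Dt.step 64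
  0 194))) (xE (xE (xL (Dt.step 66 5 326))))) (xE (xE (xE (xL (Dt.step 67 8 294))))))) (Tr.n
  Dt.none (Tr.n Dt.none (Tr.n (Dt.step 63 0 2) (xET (xL (Dt.step 66 5 194)) (xE (xL (Dt.step 67 10
  354)))) (xE (xE (xL (Dt.step 67 9 194)))) Tr.z) (xE (xE (Tr.n (Dt.step 64 0 198) (xL (Dt.step 67
  8 194)) Tr.z Tr.z))) (xEF (Tr.n (Dt.step 62 0 2) Tr.z Tr.z (xL (Dt.step 57 0 2))) (xE (xL
  (Dt.step 61 0 2))))) (xE (xE (xE (xE (xL (Dt.step 67 7 194)))))) (xEF (xEF (Tr.n (Dt.step 63 0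
  194) Tr.z Tr.z (xL (Dt.step 58 0 2))) (xE (xL (Dt.step 62 0 194)))) (xE (xE (xL (Dt.step 63 0
  194)))))))

def a126 : Tr := (Tr.n (Dt.step 63 0 2) (Tr.n (Dt.step 63 0 2) (Tr.n (Dt.step 63 0 2) (xT (xE (xL
  (Dt.step 64 0 330)))) (xE (xE (xL (Dt.step 65 8 297)))) (Tr.n (Dt.step 60 0 2) Tr.z Tr.z (xL
  (Dt.step 56 0 2)))) (xEF (xE (xE (xL (Dt.step 64 0 258)))) (xEF (Tr.n (Dt.step 60 0 258) Tr.z
  Tr.z (xL (Dt.step 57 0 2))) (xE (xL (Dt.step 58 0 8194))))) (Tr.n (Dt.step 61 0 2) (Tr.n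
  (Dt.step 61 0 2) Tr.z Tr.z (xL (Dt.step 57 0 2))) Tr.z (xE (xL (Dt.step 58 0 2))))) (xE (xE (xEF
  (xET (xL (Dt.step 65 6 226)) (xE (xL (Dt.step 66 10 354)))) (Tr.n (Dt.step 60 0 7170) Tr.z Tr.z
  (xL (Dt.step 57 0 7170)))))) (Tr.n Dt.none (Tr.n (Dt.step 62 0 2) (Tr.n (Dt.step 62 0 2) Tr.z
  Tr.z (xL (Dt.step 58 0 2))) (xF (xE (xL (Dt.step 58 0 290)))) (xE (xL (Dt.step 59 0 2)))) (xE
  (xE (Tr.n (Dt.step 61 0 258) Tr.z Tr.z (xL (Dt.step 58 0 8194))))) (xET (xE (xL (Dt.step 60 0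
  2))) (xE (xE (xL (Dt.step 59 0 2)))))))

def a127 : Tr := Tr.n (Dt.step 64 0 2) a124 a125 a126

def a128 : Tr := (Tr.n (Dt.step 65 4 2) (Tr.n Dt.none (xT (xE (xT (xE (xF (xF (xF (xF (xL (Dt.step
  64 0 330)))))))))) (xEF (xF (xE (xL (Dt.step 64 0 162)))) (xE (xE (Tr.n (Dt.step 67 4 162) Tr.z
  (xT (xE (xF (xF (xF (xL (Dt.split 64 12 67 61))))))) Tr.z)))) (xE (xET (xL (Dt.step 64 0 162))
  (xE (xL (Dt.step 65 10 354)))))) (xF (xE (xE (xE (Tr.n (Dt.step 67 4 162) Tr.z (xT (xE (xF (xF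
  (xF (xL (Dt.split 64 12 67 61))))))) Tr.z))))) (Tr.n Dt.none (Tr.n (Dt.step 63 0 165) (xET (xL
  (Dt.step 65 4 162)) (xE (xL (Dt.step 65 10 171)))) (xE (xE (xL (Dt.step 66 4 162)))) (Tr.n
  (Dt.step 59 0 0) Tr.z Tr.z (xL (Dt.step 56 0 2)))) (xE (xE (xET (Tr.n (Dt.step 67 4 162) Tr.z
  (xT (xF (xE (xF (xF (xL (Dt.split 64 12 66 62))))))) Tr.z) (xE (xT (xE (xF (xF (xF (xL (Dt.step
  64 0 12684))))))))))) (xEF (Tr.n (Dt.step 62 0 165) Tr.z Tr.z (xL (Dt.step 57 0 162))) (xE (xL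
  (Dt.step 61 0 162))))))

def a129 : Tr := (xET (xET (xF (Tr.n (Dt.step 60 0 5285) Tr.z Tr.z (xL (Dt.step 57 0 5282)))) (xE
  (xE (xE (Tr.n (Dt.step 67 4 162) Tr.z (xT (xE (xF (xF (xF (xL (Dt.split 64 12 67 61)))))))
  Tr.z))))) (xE (xE (xE (xL (Dt.step 64 0 162))))))

def a130 : Tr := Tr.n Dt.none a128 Tr.z a129

def a131 : Tr := Tr.n Dt.none a130 Tr.z Tr.z

def a132 : Tr := (Tr.n (Dt.step 64 0 2) (Tr.n (Dt.step 64 0 2) (Tr.n (Dt.step 64 0 2) (xET (xL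
  (Dt.step 64 0 2)) (xE (xL (Dt.step 65 9 2)))) (xE (xE (xL (Dt.step 64 0 2)))) (Tr.n (Dt.step 61
  0 2) Tr.z Tr.z (xL (Dt.step 57 0 2)))) (xEF (xE (xE (xL (Dt.step 65 7 2)))) (xEF (Tr.n (Dt.step
  61 0 258) Tr.z Tr.z (xL (Dt.step 58 0 2))) (xE (xL (Dt.step 59 0 258))))) (Tr.n (Dt.step 62 0 2)
  (Tr.n (Dt.step 62 0 2) Tr.z Tr.z (xL (Dt.step 58 0 2))) Tr.z (xE (xL (Dt.step 59 0 2))))) (xEF
  (Tr.n (Dt.step 63 0 2) (xEF (xE (xL (Dt.step 66 6 2))) (Tr.n (Dt.step 61 0 226) Tr.z Tr.z (xL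
  (Dt.step 58 0 226)))) Tr.z Tr.z) (xEF (xEF (xL (Dt.step 63 0 226)) (xE (xL (Dt.step 62 0 2))))
  (xE (xE (xL (Dt.step 63 0 226)))))) (Tr.n Dt.none (Tr.n (Dt.step 63 0 2) (Tr.n (Dt.step 63 0 2)
  Tr.z Tr.z (xL (Dt.step 59 0 2))) (xEF (xL (Dt.step 61 0 290)) (xE (xL (Dt.step 59 0 290)))) (xE
  (xL (Dt.step 60 0 2)))) (xE (xE (xF (xL (Dt.step 59 0 8194))))) (xET (xE (xL (Dt.step 61 0 2)))
  (xE (xE (xL (Dt.step 60 0 290)))))))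

def a133 : Tr := (xE (xEF (Tr.n (Dt.step 64 0 2) (xE (xE (xL (Dt.step 67 5 2)))) Tr.z (xEF (Tr.n
  (Dt.step 63 0 194) Tr.z Tr.z (xL (Dt.step 58 0 2))) (xE (xL (Dt.step 62 0 194))))) (xE (xE (xF
  (xL (Dt.step 59 0 6338)))))))

def a134 : Tr := (Tr.n Dt.none (Tr.n Dt.none (Tr.n (Dt.step 64 0 2) (Tr.n (Dt.step 64 0 2) Tr.z
  Tr.z (xL (Dt.step 60 0 2))) (xF (xE (xL (Dt.step 60 0 290)))) (xE (xL (Dt.step 61 0 2)))) (xEF
  (Tr.n (Dt.step 63 0 2) (Tr.n (Dt.step 63 0 2) Tr.z Tr.z (xL (Dt.step 60 0 258))) Tr.z Tr.z) (xE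
  (xE (xL (Dt.step 63 0 258))))) (xE (xET (xL (Dt.step 62 0 2)) (xE (xL (Dt.step 60 0 322))))))
  (xE (xE (Tr.n (Dt.step 64 0 2) Tr.z Tr.z (xE (xL (Dt.step 63 0 226)))))) (xE (xET (xE (xL
  (Dt.step 63 0 2))) (xE (xE (xL (Dt.step 63 0 2)))))))

def a135 : Tr := Tr.n Dt.none a132 a133 a134

def a136 : Tr := Tr.n Dt.none a127 a131 a135

def a137 : Tr := Tr.n Dt.none a103 a120 a136

def a138 : Tr := Tr.n Dt.none a62 a78 a137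

def a139 : Tr := Tr.n Dt.none a31 a138 Tr.z

def a140 : Tr := (xTF (Tr.n Dt.none (xTF (xF (Tr.n (Dt.step 64 0 8) (xL (Dt.step 65 5 1)) (xF (xF
  (xF (xT (xF (xE (xE (xL (Dt.step 64 0 8))))))))) Tr.z)) (xL (Dt.step 64 0 1))) (xF (xT (xF (xEF
  (xT (xF (xF (xEF (xF (xF (xE (xL (Dt.split 64 5 68 60))))) (xEF (xF (xE (xL (Dt.split 64 5 68
  60)))) (xE (xE (xL (Dt.split 65 5 68 61))))))))) (xT (xE (xE (xF (xF (xF (xE (xL (Dt.split 64 5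
  68 60))))))))))))) (xET (Tr.n (Dt.step 66 0 6) (xL (Dt.step 64 0 1)) (xT (xF (xF (xF (xT (xF (xE
  (xE (xL (Dt.split 64 8 64 64)))))))))) Tr.z) (xE (xE (xL (Dt.step 66 0 1)))))) (Tr.n (Dt.step 64
  0 1) Tr.z Tr.z (xF (xL (Dt.step 55 0 1)))))

def a141 : Tr := (Tr.n Dt.none (xT (xF (xL (Dt.step 64 0 9)))) (xF (Tr.n (Dt.step 65 4 8) (xL
  (Dt.step 66 4 5)) (xF (xF (xF (xTF (xF (xE (xE (xL (Dt.step 64 0 8))))) (xF (xE (xE (xL (Dt.step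
  64 0 8))))))))) Tr.z)) (Tr.n (Dt.step 65 4 1) (xL (Dt.step 64 0 5)) (xE (xL (Dt.step 65 8 9)))
  Tr.z))

def a142 : Tr := (xF (xE (xE (xF (xT (xF (xF (xF (xE (xL (Dt.split 64 6 68 60)))))))))))

def a143 : Tr := (Tr.n (Dt.step 69 4 7) (xL (Dt.step 68 4 1)) Tr.z Tr.z)

def a144 : Tr := (xT (xF (xEF (xF (xF (xF (xE (xL (Dt.step 64 0 5287)))))) (xF (xEF (xF (xE (xL
  (Dt.step 65 4 5511)))) (xE (xE (xL (Dt.step 64 0 167)))))))))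

def a145 : Tr := (xTF (xF (xF (xEF (xF (xE (xL (Dt.step 65 4 5287)))) (xE (xE (xL (Dt.step 64 0
  167))))))) (xEF (xT (xF (xF (xE (xL (Dt.step 64 0 5287)))))) (Tr.n Dt.none (xT (xF (xE (xL
  (Dt.step 64 0 5287))))) (xE (xE (xF (xL (Dt.step 64 0 5287))))) (xT (xE (xE (xL (Dt.step 65 4
  167))))))))

def a146 : Tr := (Tr.n Dt.none (Tr.n Dt.none (xT (xF (xEF (xF (xL (Dt.step 64 0 5287))) (xE (xL
  (Dt.step 65 4 167)))))) (xF (xEF (xF (xE (xL (Dt.step 65 4 5287)))) (xE (xE (xL (Dt.step 64 0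
  167)))))) (Tr.n Dt.none (xT (xF (xE (xL (Dt.step 65 4 5287))))) (xE (xE (xF (xL (Dt.step 65 4
  5287))))) (xET (xE (xL (Dt.step 64 0 167))) (xE (xE (xL (Dt.step 65 4 167))))))) (xE (xF (xE (xE
  (xF (xL (Dt.step 65 4 5287))))))) (Tr.n Dt.none (Tr.n Dt.none (Tr.n Dt.none (xT (xF (xL (Dt.step
  64 0 167)))) (xF (xE (xL (Dt.step 65 4 167)))) (xE (xL (Dt.step 64 0 167)))) (xEF (xE (xF (xL
  (Dt.step 64 0 167)))) (xE (xE (xL (Dt.step 64 0 167))))) (xET (xE (xL (Dt.step 65 4 167))) (xE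
  (xE (xL (Dt.step 65 4 167)))))) (xE (xF (xE (xE (xL (Dt.step 65 4 167)))))) (xET (xE (xE (xL
  (Dt.step 65 4 7)))) (xE (xE (xE (xL (Dt.step 65 4 7))))))))

def a147 : Tr := Tr.n Dt.none a145 Tr.z a146

def a148 : Tr := Tr.n Dt.none a144 Tr.z a147

def a149 : Tr := Tr.n Dt.none Tr.z Tr.z a148

def a150 : Tr := (xE (xL (Dt.step 65 4 7)))

def a151 : Tr := Tr.n Dt.none a143 a149 a150

def a152 : Tr := Tr.n Dt.none Tr.z a142 a151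

def a153 : Tr := (Tr.n (Dt.step 65 0 1) (Tr.n (Dt.step 67 4 1) (xL (Dt.step 65 4 1)) (xTF (xF (xF
  (xF (xTF (xF (xE (xE (xL (Dt.split 64 8 64 64))))) (xF (xE (xE (xL (Dt.split 64 8 64 64)))))))))
  (xE (xL (Dt.step 64 0 289)))) Tr.z) (xF (xE (xE (xL (Dt.step 64 0 1))))) (xE (xT (xE (xL
  (Dt.step 64 0 1))))))

def a154 : Tr := Tr.n Dt.none a141 a152 a153

def a155 : Tr := (xF (xEF (xT (xF (xEF (xT (xF (xF (xE (xF (xF (xE (xL (Dt.split 64 4 67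
  61))))))))) (xT (xE (xE (xF (xF (xF (xE (xL (Dt.split 64 4 67 61)))))))))))) (xE (xT (xF (xT (xE
  (xE (xF (xF (xF (xE (xL (Dt.split 64 4 67 61))))))))))))))

def a156 : Tr := (Tr.n (Dt.step 68 0 1) (xL (Dt.step 66 0 1)) (xET (xF (xL (Dt.step 64 0 41))) (xF
  (xF (xE (xF (xF (xF (xE (xL (Dt.split 64 8 67 61)))))))))) Tr.z)

def a157 : Tr := (Tr.n (Dt.step 69 7 8) (xL (Dt.step 67 0 1)) Tr.z Tr.z)

def a158 : Tr := (xT (xF (xEF (xF (xF (xF (xE (xL (Dt.step 64 0 1409)))))) (xEF (xF (xF (xE (xL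
  (Dt.split 64 7 66 62))))) (xEF (xF (xE (xL (Dt.split 65 7 66 63)))) (xE (xE (xL (Dt.split 64 7
  64 64)))))))))

def a159 : Tr := (Tr.n Dt.none (xT (xF (xF (xF (xE (xL (Dt.split 64 7 66 62))))))) (xEF (xF (xF
  (xF (xE (xL (Dt.step 64 0 33)))))) (xEF (xF (xF (xE (xL (Dt.split 64 7 66 62))))) (xEF (xF (xE
  (xL (Dt.split 65 7 66 63)))) (xE (xE (xL (Dt.split 64 7 64 64))))))) (xEF (xT (xF (xF (xE (xL
  (Dt.split 64 7 66 62)))))) (Tr.n Dt.none (xT (xF (xE (xL (Dt.split 64 7 66 62))))) (xE (xE (xF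
  (xL (Dt.split 64 7 66 62))))) (xT (xE (xE (xL (Dt.split 65 7 66 63))))))))

def a160 : Tr := (Tr.n Dt.none (Tr.n Dt.none (xT (xF (xEF (xF (xL (Dt.split 64 7 66 62))) (xE (xL
  (Dt.split 65 7 66 63)))))) (xF (xEF (xF (xE (xL (Dt.split 65 7 66 63)))) (xE (xE (xL (Dt.split
  64 7 66 62)))))) (Tr.n Dt.none (xT (xF (xE (xL (Dt.split 65 7 66 63))))) (xE (xE (xF (xL
  (Dt.split 65 7 66 63))))) (xET (xE (xL (Dt.split 64 7 66 62))) (xE (xE (xL (Dt.split 65 7 65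
  64))))))) (xE (xF (xE (xE (xF (xL (Dt.split 65 7 66 63))))))) (Tr.n Dt.none (Tr.n Dt.none (Tr.n
  Dt.none (xT (xF (xL (Dt.split 64 7 66 62)))) (xF (xE (xL (Dt.split 65 7 65 64)))) (xE (xL
  (Dt.split 64 7 66 62)))) (xEF (xE (xF (xL (Dt.split 64 7 64 64)))) (xE (xE (xL (Dt.split 64 7 65
  63))))) (xET (xE (xL (Dt.split 65 7 66 63))) (xE (xE (xL (Dt.split 65 7 64 65)))))) (xE (xF (xE
  (xE (xL (Dt.split 65 7 66 63)))))) (xET (xE (xE (xL (Dt.split 65 7 65 64)))) (xE (xE (xE (xL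
  (Dt.split 65 7 62 67))))))))

def a161 : Tr := Tr.n Dt.none a159 Tr.z a160

def a162 : Tr := Tr.n Dt.none a158 Tr.z a161

def a163 : Tr := Tr.n Dt.none Tr.z Tr.z a162

def a164 : Tr := (xE (Tr.n (Dt.step 65 0 257) (xL (Dt.step 65 0 33)) Tr.z Tr.z))

def a165 : Tr := Tr.n Dt.none a157 a163 a164

def a166 : Tr := (xE (xL (Dt.step 62 0 1)))

def a167 : Tr := Tr.n (Dt.step 66 0 1) a156 a165 a166

def a168 : Tr := (xEF (xE (Tr.n (Dt.step 70 6 7) (Tr.n (Dt.step 68 0 1) Tr.z (xT (xE (xF (xF (xF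
  (xL (Dt.split 64 10 67 61))))))) Tr.z) Tr.z Tr.z)) (xE (xE (Tr.n (Dt.step 66 0 1) Tr.z (xT (xF
  (xF (xE (xF (xF (xE (xL (Dt.split 64 10 66 62))))))))) Tr.z))))

def a169 : Tr := (Tr.n Dt.none (Tr.n (Dt.step 61 0 5) (xL (Dt.step 64 0 1)) (xE (xL (Dt.step 65 8
  1))) (xL (Dt.step 57 0 5))) (xE (xE (Tr.n (Dt.step 66 7 1) (Tr.n (Dt.step 66 0 5) Tr.z (xT (xF
  (xE (xF (xF (xL (Dt.split 64 11 66 62))))))) Tr.z) (xE (xT (xE (xF (xF (xF (xL (Dt.step 64 0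
  357)))))))) Tr.z))) (xE (xL (Dt.step 58 0 5))))

def a170 : Tr := Tr.n Dt.none a167 a168 a169

def a171 : Tr := Tr.n Dt.none a154 a155 a170

def a172 : Tr := (Tr.n Dt.none (Tr.n (Dt.step 64 0 1) Tr.z (xET (xL (Dt.step 66 0 1)) (xF (xE (xT
  (xF (xF (xF (xF (xT (xE (xE (xL (Dt.split 64 6 64 64))))))))))))) Tr.z) (xEF (xT (xET (xF (xT
  (xF (xF (xF (xF (xT (xE (xE (xL (Dt.step 64 0 208))))))))))) (xE (xF (xF (xF (xF (xF (xT (xE (xE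
  (xL (Dt.step 64 0 304))))))))))))) (xT (xE (xE (xE (xL (Dt.step 64 0 8))))))) (xF (xL (Dt.step
  57 0 1))))

def a173 : Tr := Tr.n Dt.none a140 a171 a172

def a174 : Tr := (Tr.n Dt.none (xT (xF (xL (Dt.step 65 3 4)))) (xEF (xF (xL (Dt.step 66 7 4)))
  (xET (xL (Dt.step 67 3 8)) (xF (xEF (xT (xF (xF (xF (xE (xL (Dt.step 64 0 424))))))) (xEF (xT
  (xF (xF (xE (xL (Dt.step 64 0 456)))))) (xEF (xT (xF (xE (xL (Dt.step 64 0 488))))) (xE (xTF (xE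
  (xL (Dt.step 64 0 8))) (xE (xL (Dt.step 64 0 136))))))))))) (xL (Dt.step 66 3 4)))

def a175 : Tr := (xE (xL (Dt.step 68 3 4)))

def a176 : Tr := (xT (xF (xF (xF (xEF (xF (xE (xL (Dt.step 64 0 4487)))) (xE (xE (xL (Dt.step 65 3
  391)))))))))

def a177 : Tr := (Tr.n Dt.none (xT (xF (xF (xF (xE (xL (Dt.step 64 0 455))))))) (xF (xF (xEF (xF
  (xE (xL (Dt.step 64 0 4519)))) (xE (xE (xL (Dt.step 65 3 423))))))) (xEF (xT (xF (xF (xE (xL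
  (Dt.step 64 0 15495)))))) (xE (xT (xF (xE (xL (Dt.step 64 0 4231))))))))

def a178 : Tr := (xEF (Tr.n Dt.none (xT (xF (xEF (xF (xL (Dt.step 64 0 4231))) (xE (xL (Dt.step 65
  3 487)))))) (xEF (xEF (xF (xF (xL (Dt.step 64 0 455)))) (xF (xE (xL (Dt.step 65 13 135))))) (xEF
  (xF (xE (xL (Dt.step 64 0 4551)))) (xE (xE (xL (Dt.step 65 3 135)))))) (xEF (xT (xF (xE (xL
  (Dt.step 65 3 4231))))) (xE (xE (xL (Dt.step 64 0 135)))))) (xE (Tr.n Dt.none (Tr.n Dt.none (xT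
  (xF (xL (Dt.step 64 0 551)))) (xF (xE (xL (Dt.step 65 3 135)))) (xE (xL (Dt.step 64 0 135))))
  (xEF (xEF (xF (xL (Dt.step 65 3 487))) (xE (xL (Dt.step 64 0 135)))) (xE (xE (xL (Dt.step 65 3
  135))))) (xE (xE (xL (Dt.step 65 3 135)))))))

def a179 : Tr := Tr.n Dt.none a177 Tr.z a178

def a180 : Tr := Tr.n Dt.none a176 Tr.z a179

def a181 : Tr := Tr.n Dt.none Tr.z Tr.z a180

def a182 : Tr := (xE (xL (Dt.step 66 3 7)))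

def a183 : Tr := Tr.n Dt.none a175 a181 a182

def a184 : Tr := Tr.n Dt.none Tr.z Tr.z a183

def a185 : Tr := (Tr.n (Dt.step 66 3 4) (Tr.n (Dt.step 67 3 4) (xL (Dt.step 66 3 4)) (xET (Tr.n
  (Dt.step 67 8 9) Tr.z Tr.z (xL (Dt.step 64 0 132))) (xF (xEF (xT (xF (xF (xF (xE (xL (Dt.split
  64 8 67 61))))))) (xEF (xTF (xF (xF (xE (xL (Dt.split 64 8 66 62))))) (xF (xF (xE (xL (Dt.split
  64 8 67 61)))))) (xEF (xT (xF (xE (xL (Dt.split 64 8 65 63))))) (xE (xTF (xE (xL (Dt.split 64 8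
  63 65))) (xE (xL (Dt.split 64 8 65 63)))))))))) Tr.z) (xET (xE (xL (Dt.step 67 7 4))) (xF (xF
  (xE (xEF (xT (xF (xF (xF (xE (xL (Dt.split 64 7 66 62))))))) (xEF (xT (xF (xF (xE (xL (Dt.split
  64 7 66 62)))))) (xE (xT (xF (xE (xL (Dt.split 64 7 66 62)))))))))))) (xE (xL (Dt.step 62 0
  4))))

def a186 : Tr := Tr.n Dt.none a174 a184 a185

def a187 : Tr := (xF (Tr.n (Dt.step 66 3 1) (Tr.n Dt.none (Tr.n (Dt.step 66 3 6) (xL (Dt.step 67 3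
  1)) (xF (xT (xF (xF (xF (xF (xE (xE (xL (Dt.step 64 0 326)))))))))) Tr.z) (xF (xE (xT (xF (xE
  (xF (xF (xF (xE (xL (Dt.step 64 0 135465))))))))))) (xE (Tr.n (Dt.step 64 0 134) Tr.z (xT (xF
  (xF (xF (xF (xE (xE (xL (Dt.split 64 10 64 64))))))))) Tr.z))) Tr.z (xE (xET (Tr.n (Dt.step 66 3
  6) Tr.z (xT (xF (xF (xE (xF (xF (xE (xL (Dt.split 64 10 66 62))))))))) Tr.z) (xE (xT (xF (xE (xF
  (xF (xF (xE (xL (Dt.step 64 0 10378))))))))))))))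

def a188 : Tr := (Tr.n (Dt.step 67 3 1) (xL (Dt.step 67 3 1)) (xT (xF (xE (xF (xF (xF (xF (xE (xL
  (Dt.step 64 0 138)))))))))) (Tr.n (Dt.step 62 0 128) Tr.z (xT (xF (xF (xF (xF (xT (xE (xE (xL
  (Dt.split 64 9 62 66)))))))))) Tr.z))

def a189 : Tr := (xF (xT (xF (xF (xF (xF (xT (xE (xE (xL (Dt.step 64 0 260)))))))))))

def a190 : Tr := (xF (xF (xF (xF (xF (xT (xE (xE (xL (Dt.step 64 0 292))))))))))

def a191 : Tr := (Tr.n Dt.none (xT (xF (xF (xF (xF (xE (xL (Dt.step 64 0 425)))))))) (xF (xEF (xF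
  (xF (xF (xE (xL (Dt.step 64 0 4492)))))) (xF (xEF (xF (xE (xL (Dt.split 64 7 65 63)))) (xE (xE
  (xL (Dt.split 65 7 65 64)))))))) (xEF (xT (xF (xF (xF (xE (xL (Dt.step 64 0 14473))))))) (xEF
  (xT (xF (xF (xE (xL (Dt.step 64 0 15497)))))) (xE (xT (xF (xE (xL (Dt.step 64 0 9353)))))))))

def a192 : Tr := (Tr.n Dt.none (xT (xF (xF (xF (xE (xL (Dt.split 64 7 66 62))))))) (xEF (xF (xF
  (xF (xE (xL (Dt.step 64 0 141)))))) (xF (xEF (xF (xE (xL (Dt.split 64 7 65 63)))) (xE (xE (xL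
  (Dt.split 65 7 65 64))))))) (xEF (xT (xF (xF (xE (xL (Dt.split 64 7 66 62)))))) (xE (xT (xF (xE
  (xL (Dt.split 64 7 66 62))))))))

def a193 : Tr := (xEF (Tr.n Dt.none (xT (xF (xEF (xF (xL (Dt.split 64 7 66 62))) (xE (xL (Dt.split
  65 7 66 63)))))) (xEF (xEF (xF (xF (xL (Dt.split 64 7 66 62)))) (xF (xE (xL (Dt.step 65 13
  142))))) (xEF (xF (xE (xL (Dt.split 64 7 65 63)))) (xE (xE (xL (Dt.split 65 7 65 64)))))) (xEF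
  (xT (xF (xE (xL (Dt.split 65 7 66 63))))) (xE (xE (xL (Dt.split 64 7 66 62)))))) (xE (Tr.n
  Dt.none (Tr.n Dt.none (xT (xF (xL (Dt.split 64 7 66 62)))) (xF (xE (xL (Dt.split 65 7 65 64))))
  (xE (xL (Dt.split 64 7 66 62)))) (xEF (xEF (xF (xL (Dt.split 65 7 65 64))) (xE (xL (Dt.split 64
  7 66 62)))) (xE (xE (xL (Dt.split 65 7 66 63))))) (xE (xE (xL (Dt.split 65 7 66 63)))))))

def a194 : Tr := Tr.n Dt.none a192 Tr.z a193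

def a195 : Tr := Tr.n Dt.none a191 Tr.z a194

def a196 : Tr := Tr.n Dt.none a190 Tr.z a195

def a197 : Tr := (xE (xL (Dt.step 66 3 129)))

def a198 : Tr := Tr.n Dt.none a189 a196 a197

def a199 : Tr := (xF (xL (Dt.step 57 0 129)))

def a200 : Tr := Tr.n (Dt.step 66 3 1) a188 a198 a199

def a201 : Tr := (xEF (Tr.n Dt.none (Tr.n (Dt.step 67 3 7) Tr.z (xT (xF (xF (xE (xF (xF (xF (xE
  (xL (Dt.split 64 9 67 61)))))))))) Tr.z) (xEF (xT (xF (xE (xF (xF (xF (xF (xE (xL (Dt.step 64 0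
  9577)))))))))) (xE (xT (xE (xF (xF (xF (xF (xE (xL (Dt.step 64 0 7463))))))))))) (xE (xL
  (Dt.step 65 6 135)))) (xE (xET (Tr.n (Dt.step 66 3 1) Tr.z (xT (xF (xE (xF (xF (xF (xE (xL
  (Dt.step 64 0 140))))))))) Tr.z) (xE (xT (xE (xF (xF (xF (xF (xE (xL (Dt.step 64 0
  330)))))))))))))

def a202 : Tr := (xE (xE (xL (Dt.step 64 0 1))))

def a203 : Tr := Tr.n (Dt.step 64 0 1) a200 a201 a202

def a204 : Tr := Tr.n Dt.none a186 a187 a203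

def a205 : Tr := (xTF (xTF (xF (xE (xE (xE (xF (xL (Dt.split 66 3 66 64))))))) (xE (xE (xL
  (Dt.step 69 0 0))))) (xET (xET (xF (xE (xL (Dt.step 66 4 5)))) (xT (xF (xE (xE (xL (Dt.step 68 0
  0))))))) (xTF (xF (xE (xE (xE (xL (Dt.split 69 3 65 68)))))) (xE (xE (xE (xL (Dt.split 67 3 65
  66))))))))

def a206 : Tr := (Tr.n (Dt.step 68 0 1) (Tr.n (Dt.step 67 0 1) Tr.z (xT (xF (xE (xF (xF (xF (xL
  (Dt.split 64 9 67 61)))))))) (Tr.n (Dt.step 64 0 36) Tr.z (xT (xF (xF (xF (xF (xE (xL (Dt.split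
  64 10 64 64)))))))) Tr.z)) (xEF (Tr.n (Dt.step 68 8 1) Tr.z (xE (xF (xF (xF (xF (xL (Dt.step 64
  0 297))))))) (xT (xF (xF (xF (xF (xE (xL (Dt.step 64 0 297))))))))) (Tr.n (Dt.step 64 0 292)
  Tr.z (xF (xF (xF (xT (xE (xF (xE (xL (Dt.step 64 0 1316))))))))) Tr.z)) (Tr.n (Dt.step 64 0 36)
  Tr.z (xT (xF (xEF (xT (xF (xF (xF (xE (xL (Dt.split 64 9 64 64))))))) (xEF (xT (xF (xF (xE (xL
  (Dt.split 64 9 64 64)))))) (xE (xT (xF (xE (xL (Dt.split 64 9 64 64)))))))))) Tr.z))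

def a207 : Tr := (Tr.n (Dt.step 67 7 1) (xL (Dt.step 68 0 1)) Tr.z (Tr.n (Dt.step 65 7 40) (xL
  (Dt.step 64 0 33)) (xEF (xT (xF (xF (xF (xF (xE (xL (Dt.step 64 0 13675)))))))) (xEF (xT (xF (xF
  (xF (xE (xL (Dt.step 64 0 14600))))))) (xEF (xT (xF (xF (xE (xL (Dt.step 64 0 8456)))))) (xE (xT
  (xF (xE (xL (Dt.step 64 0 4360))))))))) Tr.z))

def a208 : Tr := (xF (xEF (xET (xF (xT (xF (xF (xF (xE (xL (Dt.step 64 0 292)))))))) (xEF (xF (xF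
  (xF (xF (xE (xL (Dt.step 64 0 396))))))) (xEF (xF (xF (xF (xE (xL (Dt.split 64 7 67 61)))))) (xE
  (xF (xE (xF (xL (Dt.split 64 7 67 61))))))))) (xEF (xET (xT (xF (xF (xF (xE (xL (Dt.split 64 7
  66 62))))))) (xF (xE (xF (xE (xF (xL (Dt.split 64 7 67 61)))))))) (xE (xE (xT (xF (xF (xE (xL
  (Dt.split 65 7 66 63)))))))))))

def a209 : Tr := (xE (Tr.n (Dt.step 66 0 260) (Tr.n (Dt.step 64 0 129) Tr.z (xT (xF (xF (xF (xF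
  (xE (xL (Dt.split 64 11 64 64)))))))) Tr.z) (xT (xF (xF (xE (xF (xF (xE (xL (Dt.split 64 10 66
  62))))))))) Tr.z))

def a210 : Tr := Tr.n Dt.none a207 a208 a209

def a211 : Tr := (xE (Tr.n (Dt.step 64 0 36) Tr.z (xT (xF (xF (xF (xT (xE (xF (xE (xL (Dt.split 64
  9 64 64)))))))))) Tr.z))

def a212 : Tr := Tr.n (Dt.step 67 0 1) a206 a210 a211

def a213 : Tr := (xEF (Tr.n (Dt.step 68 6 1) Tr.z (xTF (xF (xE (xF (xF (xF (xF (xE (xL (Dt.split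
  64 9 68 60))))))))) (xT (xF (xF (xF (xF (xE (xE (xL (Dt.step 64 0 327)))))))))) (Tr.n (Dt.step
  66 6 231) Tr.z (xT (xF (xF (xE (xF (xF (xE (xL (Dt.split 64 10 66 62))))))))) Tr.z)) (xE (Tr.n
  (Dt.step 64 0 39) Tr.z (xT (xF (xEF (xF (xF (xF (xE (xL (Dt.step 64 0 7559)))))) (xF (xF (xE (xE
  (xL (Dt.split 64 10 64 64))))))))) Tr.z)))

def a214 : Tr := (xT (xF (xE (xE (xL (Dt.split 66 6 65 65))))))

def a215 : Tr := (xET (xE (Tr.n (Dt.step 67 0 228) (Tr.n (Dt.step 67 0 225) Tr.z (xT (xE (xF (xF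
  (xF (xL (Dt.split 64 11 67 61))))))) (Tr.n (Dt.step 64 0 1255) Tr.z (xT (xF (xF (xF (xE (xL
  (Dt.split 64 12 64 64))))))) Tr.z)) (xET (xF (xT (xF (xF (xF (xE (xL (Dt.step 64 0 11623))))))))
  (xE (xF (xF (xF (xF (xE (xL (Dt.step 64 0 12519))))))))) Tr.z)) (xE (xE (xL (Dt.step 64 0
  41)))))

def a216 : Tr := Tr.n Dt.none a213 a214 a215

def a217 : Tr := (Tr.n (Dt.step 64 0 33) (Tr.n (Dt.step 63 0 36) (xL (Dt.step 65 0 36)) (xEF (xL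
  (Dt.step 66 8 297)) (xE (xE (xL (Dt.step 64 0 1060))))) (Tr.n (Dt.step 59 0 0) Tr.z Tr.z (xL
  (Dt.step 56 0 1)))) (xE (xE (xL (Dt.step 67 7 264)))) (xEF (Tr.n (Dt.step 62 0 36) Tr.z (xE (xE
  (xL (Dt.step 64 0 330)))) (xL (Dt.step 57 0 33))) (xE (xL (Dt.step 58 0 33)))))

def a218 : Tr := Tr.n (Dt.step 65 0 1) a212 a216 a217

def a219 : Tr := (Tr.n (Dt.step 67 0 6) (xEF (xTF (xF (xT (xF (xF (xF (xEF (xF (xE (xL (Dt.step 64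
  0 6470)))) (xE (xE (xL (Dt.step 65 5 326)))))))))) (xT (xT (xF (xE (xF (xF (xF (xE (xL (Dt.step
  64 0 6342))))))))))) (xE (Tr.n (Dt.step 65 5 198) Tr.z (xT (xF (xF (xF (xEF (xF (xE (xL
  (Dt.split 64 10 65 63)))) (xE (xE (xL (Dt.split 65 10 65 64))))))))) Tr.z))) Tr.z (xE (xE (Tr.n
  (Dt.step 67 5 198) Tr.z (xT (xF (xE (xF (xF (xF (xE (xL (Dt.split 64 10 67 61))))))))) Tr.z))))

def a220 : Tr := (xF (xET (xET (xE (xL (Dt.step 68 0 4))) (xE (xF (xE (xE (xL (Dt.split 64 5 64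
  64))))))) (xE (xE (xE (xF (xE (xL (Dt.split 64 5 64 64)))))))))

def a221 : Tr := (xE (Tr.n (Dt.step 65 5 1) (xET (xL (Dt.step 64 0 4)) (xE (xL (Dt.step 65 9
  10)))) (Tr.n Dt.none (xE (xL (Dt.step 66 8 9))) (xF (xE (xE (xE (xL (Dt.split 65 8 65 64))))))
  (xT (xE (xE (xE (xL (Dt.step 64 0 36))))))) Tr.z))

def a222 : Tr := Tr.n Dt.none a219 a220 a221

def a223 : Tr := (Tr.n Dt.none (Tr.n Dt.none (Tr.n (Dt.step 66 0 4) (xL (Dt.step 65 0 4)) (xE (xL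
  (Dt.step 66 9 10))) Tr.z) (xEF (Tr.n (Dt.step 67 8 9) (xL (Dt.step 67 8 4)) Tr.z Tr.z) (xE (xE
  (xL (Dt.step 65 0 292))))) (Tr.n (Dt.step 60 0 36) Tr.z Tr.z (xL (Dt.step 57 0 33)))) (xEF (xEF
  (Tr.n (Dt.step 68 7 4) (Tr.n (Dt.step 67 7 1) Tr.z (xT (xE (xF (xF (xF (xL (Dt.split 64 11 67
  61))))))) (xL (Dt.step 64 0 40))) (xT (xE (xF (xF (xF (xF (xE (xL (Dt.split 64 10 68 60)))))))))
  (xE (xL (Dt.step 65 0 264)))) (xE (xE (xL (Dt.step 64 0 36))))) (xE (xE (xE (xL (Dt.step 65 0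
  260)))))) (xET (xET (xT (xE (xL (Dt.step 64 0 356)))) (xE (xE (xL (Dt.step 65 9 324))))) (xE (xE
  (xET (Tr.n (Dt.step 66 8 292) Tr.z (xT (xF (xE (xF (xF (xL (Dt.split 64 12 66 62))))))) Tr.z)
  (xE (xT (xE (xF (xF (xF (xL (Dt.step 64 0 12676)))))))))))))

def a224 : Tr := (xE (Tr.n (Dt.step 64 0 7) (Tr.n Dt.none (Tr.n (Dt.step 69 6 4) (xTF (xF (xT (xF
  (xF (xF (xE (xL (Dt.step 64 0 391)))))))) (xL (Dt.step 65 6 231))) (xT (xEF (xF (xF (xF (xEF (xF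
  (xL (Dt.split 64 10 69 59))) (xE (xL (Dt.split 65 10 69 60))))))) (xE (xF (xEF (xF (xF (xL
  (Dt.split 64 10 69 59)))) (xEF (xF (xL (Dt.split 65 10 69 60))) (xE (xL (Dt.split 64 10 67
  61))))))))) (xE (Tr.n (Dt.step 64 0 231) Tr.z (xT (xF (xF (xF (xE (xL (Dt.split 64 12 64
  64))))))) Tr.z))) (xE (xT (xE (xF (xF (xEF (xF (xF (xL (Dt.step 64 0 10570)))) (xEF (xF (xL
  (Dt.step 65 9 10570))) (xE (xL (Dt.step 64 0 330)))))))))) (xE (xE (xL (Dt.step 65 6 231)))))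
  Tr.z (xE (xE (xET (Tr.n (Dt.step 66 6 231) Tr.z (xT (xF (xE (xF (xF (xL (Dt.split 64 12 66
  62))))))) Tr.z) (xE (xT (xE (xF (xF (xF (xL (Dt.step 64 0 12524)))))))))))))

def a225 : Tr := (xE (xET (xET (xET (xL (Dt.step 64 0 1)) (xE (xL (Dt.step 65 10 1)))) (xE (xE (xL
  (Dt.step 66 9 1))))) (xE (xE (xE (Tr.n (Dt.step 67 8 1) Tr.z (xT (xE (xF (xF (xF (xL (Dt.split
  64 12 67 61))))))) Tr.z))))))

def a226 : Tr := Tr.n Dt.none a223 a224 a225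

def a227 : Tr := Tr.n (Dt.step 64 0 1) a218 a222 a226

def a228 : Tr := Tr.n Dt.none a204 a205 a227

def a229 : Tr := (Tr.n (Dt.step 65 0 1) Tr.z (xTF (xF (xE (xET (xL (Dt.split 65 6 65 64)) (xF (xF
  (xF (xF (xE (xT (xE (xL (Dt.split 64 6 65 63)))))))))))) (xE (xT (xE (xL (Dt.step 64 0 321))))))
  Tr.z)

def a230 : Tr := (xEF (xT (xET (xF (xT (xF (xF (xF (xF (xE (xT (xE (xL (Dt.step 64 0
  209))))))))))) (xE (xF (xF (xF (xF (xF (xE (xT (xE (xL (Dt.step 64 0 305))))))))))))) (Tr.n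
  Dt.none (Tr.n (Dt.step 61 0 6) (xT (xE (xL (Dt.step 64 0 42)))) (xE (xE (xL (Dt.step 65 8 33))))
  (xL (Dt.step 59 0 0))) (xE (xE (xET (Tr.n (Dt.step 66 7 33) Tr.z (xT (xF (xE (xF (xF (xL
  (Dt.split 64 11 66 62))))))) Tr.z) (xE (xT (xE (xF (xF (xF (xL (Dt.step 64 0 11617)))))))))))
  (xE (xL (Dt.step 60 0 193)))))

def a231 : Tr := (Tr.n Dt.none (Tr.n (Dt.step 62 0 0) Tr.z Tr.z (xL (Dt.step 58 0 0))) (xEF (xE
  (xE (xL (Dt.step 64 0 33)))) (xT (xE (xE (xET (Tr.n (Dt.step 66 0 33) Tr.z (xT (xF (xE (xF (xF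
  (xL (Dt.split 64 12 66 62))))))) Tr.z) (xE (xT (xE (xF (xF (xF (xL (Dt.step 64 0
  12321))))))))))))) (Tr.n (Dt.step 57 0 33) (Tr.n (Dt.step 60 0 0) Tr.z Tr.z (xL (Dt.step 54 0
  1))) Tr.z (xE (xL (Dt.step 55 0 1)))))

def a232 : Tr := Tr.n Dt.none a229 a230 a231

def a233 : Tr := (xEF (Tr.n Dt.none (Tr.n (Dt.step 69 0 1) (Tr.n (Dt.step 68 0 1) Tr.z (xTF (xE
  (xF (xF (xF (xF (xL (Dt.split 64 9 68 60))))))) (xL (Dt.step 64 0 33))) Tr.z) Tr.z Tr.z) (xE (xL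
  (Dt.step 70 7 8))) (Tr.n (Dt.step 61 0 161) Tr.z Tr.z (xL (Dt.step 59 0 160)))) (xF (xT (xE (xE
  (xET (Tr.n (Dt.step 66 0 161) Tr.z (xT (xF (xE (xF (xF (xL (Dt.split 64 12 66 62))))))) Tr.z)
  (xE (xT (xE (xF (xF (xF (xL (Dt.step 64 0 12449))))))))))))))

def a234 : Tr := (xF (xE (xET (xE (xE (xL (Dt.step 66 0 1)))) (xT (xF (xE (xE (xE (xL (Dt.split 66
  4 63 67))))))))))

def a235 : Tr := (Tr.n (Dt.step 64 0 1) (xET (Tr.n (Dt.step 64 0 1) (xL (Dt.step 64 0 1)) (xET (xL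
  (Dt.step 65 9 10)) (xF (xE (xT (xF (xF (xF (xE (xL (Dt.split 64 9 64 64)))))))))) Tr.z) (xEF
  (Tr.n (Dt.step 65 8 9) (xL (Dt.step 66 0 1)) (xET (xF (xT (xF (xF (xF (xE (xL (Dt.step 64 0
  299)))))))) (xE (xF (xF (xF (xF (xE (xL (Dt.step 64 0 396))))))))) Tr.z) (xE (xE (xL (Dt.step 64
  0 161)))))) (xE (xEF (xL (Dt.step 66 7 1)) (xE (xE (xL (Dt.step 65 7 40)))))) Tr.z)

def a236 : Tr := (xE (Tr.n (Dt.step 65 6 1) (Tr.n Dt.none (Tr.n (Dt.step 68 0 7) Tr.z (xT (xEF (xF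
  (xF (xF (xF (xE (xL (Dt.split 64 10 68 60))))))) (xE (xF (xF (xEF (xF (xL (Dt.split 64 10 68
  60))) (xE (xL (Dt.split 65 10 68 61))))))))) Tr.z) (xE (xT (xE (xF (xF (xF (xEF (xF (xL (Dt.step
  64 0 10570))) (xE (xL (Dt.step 65 9 330)))))))))) (xE (xET (Tr.n (Dt.step 66 6 39) Tr.z (xT (xF
  (xE (xF (xF (xL (Dt.split 64 12 66 62))))))) Tr.z) (xE (xT (xE (xF (xF (xF (xL (Dt.step 64 0
  12327))))))))))) Tr.z Tr.z))

def a237 : Tr := Tr.n Dt.none a235 a236 Tr.z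

def a238 : Tr := Tr.n Dt.none a233 a234 a237

def a239 : Tr := (Tr.n Dt.none (Tr.n Dt.none (Tr.n (Dt.step 63 0 1) Tr.z Tr.z (Tr.n (Dt.step 59 0
  1) Tr.z Tr.z (xL (Dt.step 54 0 1)))) (xF (xE (xL (Dt.step 60 0 33)))) (Tr.n (Dt.step 61 0 1)
  (Tr.n (Dt.step 61 0 1) Tr.z Tr.z (xL (Dt.step 55 0 1))) Tr.z (xE (xL (Dt.step 56 0 1))))) (xE
  (xE (xEF (xET (Tr.n (Dt.step 67 0 1) Tr.z (xT (xF (xE (xF (xF (xF (xL (Dt.split 64 10 67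
  61)))))))) Tr.z) (xE (xT (xE (xF (xF (xF (xF (xL (Dt.step 64 0 321)))))))))) (xL (Dt.step 60 0
  193))))) (Tr.n (Dt.step 62 0 1) (Tr.n (Dt.step 62 0 1) (Tr.n (Dt.step 62 0 1) Tr.z Tr.z (xL
  (Dt.step 56 0 1))) Tr.z (xE (xL (Dt.step 57 0 1)))) Tr.z (xE (xE (xL (Dt.step 58 0 1))))))

def a240 : Tr := Tr.n (Dt.step 63 0 1) a232 a238 a239

def a241 : Tr := Tr.n Dt.none a173 a228 a240

def a242 : Tr := (xTF (xEF (xTF (xF (xT (xF (xF (xEF (xF (xL (Dt.step 64 0 266))) (xE (xL (Dt.step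
  65 7 10)))))))) (xL (Dt.step 67 2 3))) (xET (Tr.n (Dt.step 67 2 3) Tr.z (xT (xF (xF (xEF (xF (xL
  (Dt.split 64 10 65 63))) (xE (xL (Dt.split 65 10 65 64))))))) Tr.z) (xF (xF (xF (xE (xF (xF (xE
  (xL (Dt.step 64 0 104))))))))))) (Tr.n (Dt.step 67 2 3) Tr.z (xT (xF (xTF (xF (xF (xF (xEF (xF
  (xE (xL (Dt.split 64 8 65 63)))) (xE (xE (xL (Dt.split 65 8 65 64)))))))) (xE (xF (xF (xF (xE
  (xL (Dt.split 64 8 67 61)))))))))) Tr.z))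

def a243 : Tr := (xEF (xTF (xF (xT (xF (xF (xEF (xF (xL (Dt.step 65 6 234))) (xE (xL (Dt.step 66 6
  10)))))))) (xL (Dt.step 67 6 7))) (Tr.n (Dt.step 64 0 7) (Tr.n (Dt.step 68 6 3) Tr.z (xT (xF (xF
  (xEF (xF (xL (Dt.split 65 10 66 63))) (xE (xL (Dt.split 66 10 66 64))))))) Tr.z) Tr.z Tr.z))

def a244 : Tr := (xET (Tr.n (Dt.step 68 2 7) Tr.z (xT (xE (xF (xF (xF (xL (Dt.split 65 10 68
  61))))))) Tr.z) (xF (xT (xF (xF (xF (xE (xF (xE (xL (Dt.step 65 6 7495)))))))))))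

def a245 : Tr := (xF (xEF (xT (xF (xF (xEF (xF (xF (xE (xL (Dt.step 64 0 3463))))) (xE (xEF (xF
  (xL (Dt.step 64 0 3463))) (xE (xL (Dt.step 65 2 3463))))))))) (xEF (xT (xF (xEF (xF (xF (xE (xL
  (Dt.step 64 0 3495))))) (xE (xEF (xF (xL (Dt.step 64 0 3495))) (xE (xL (Dt.step 65 2
  3495)))))))) (xEF (Tr.n Dt.none (xT (xF (xE (xF (xL (Dt.step 65 2 3559)))))) (xEF (xEF (xF (xF
  (xL (Dt.step 65 2 455)))) (xF (xE (xL (Dt.step 64 0 103))))) (xE (xEF (xF (xL (Dt.step 64 0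
  3527))) (xE (xL (Dt.step 65 2 3527)))))) (xE (Tr.n Dt.none (xT (xF (xL (Dt.step 64 0 17511))))
  (xE (xF (xL (Dt.step 65 15 3591)))) (xE (xL (Dt.step 64 0 3175)))))) (xE (xET (xEF (xT (xF (xL
  (Dt.step 65 2 551)))) (xE (xL (Dt.step 65 2 103)))) (xE (xEF (xF (xL (Dt.step 64 0 103))) (xE
  (xL (Dt.step 65 2 103)))))))))))

def a246 : Tr := (xE (Tr.n (Dt.step 66 2 7) Tr.z (xT (xF (xF (xF (xE (xF (xE (xL (Dt.split 65 10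
  66 63))))))))) Tr.z))

def a247 : Tr := Tr.n Dt.none a244 a245 a246

def a248 : Tr := Tr.n Dt.none a243 Tr.z a247

def a249 : Tr := (Tr.n (Dt.step 66 2 3) (Tr.n (Dt.step 67 2 3) Tr.z (xT (xF (xEF (xF (xF (xF (xF
  (xE (xL (Dt.step 64 0 99))))))) (xF (xE (xF (xF (xE (xL (Dt.split 64 8 66 62)))))))))) (Tr.n
  (Dt.step 62 0 99) Tr.z (xT (xF (xF (xF (xF (xT (xE (xE (xL (Dt.split 64 9 62 66)))))))))) Tr.z))
  (xET (xF (xT (xF (xF (xF (xF (xT (xE (xE (xL (Dt.step 64 0 259))))))))))) (xEF (xF (xF (xF (xF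
  (xF (xT (xE (xE (xL (Dt.step 64 0 291)))))))))) (xE (xEF (xT (xF (xF (xF (xF (xE (xL (Dt.step 64
  0 419)))))))) (xEF (xT (xF (xF (xF (xE (xL (Dt.step 64 0 14435))))))) (xEF (xT (xF (xF (xE (xL
  (Dt.step 64 0 15459)))))) (xE (xT (xF (xE (xL (Dt.step 64 0 9315)))))))))))) (xF (xL (Dt.step 57
  0 3))))

def a250 : Tr := Tr.n Dt.none a242 a248 a249

def a251 : Tr := (xE (xE (xF (xL (Dt.step 67 5 6)))))

def a252 : Tr := (Tr.n Dt.none (Tr.n (Dt.step 67 2 6) Tr.z (xF (xT (xF (xF (xF (xEF (xF (xE (xL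
  (Dt.step 64 0 3395)))) (xE (xE (xL (Dt.step 65 2 323)))))))))) Tr.z) (xEF (xF (xEF (xT (xF (xF
  (xF (xF (xE (xL (Dt.step 64 0 13510)))))))) (xEF (xT (xF (xF (xF (xE (xL (Dt.step 64 0
  14534))))))) (xEF (xT (xF (xF (xE (xL (Dt.step 64 0 15558)))))) (xE (xT (xF (xE (xL (Dt.step 64
  0 6342)))))))))) (xE (xT (xE (xF (xF (xF (xF (xE (xL (Dt.step 64 0 3366))))))))))) (xE (Tr.n
  (Dt.step 65 2 99) Tr.z (xT (xF (xF (xF (xEF (xF (xE (xL (Dt.split 64 10 65 63)))) (xE (xE (xL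
  (Dt.split 65 10 65 64))))))))) Tr.z)))

def a253 : Tr := (xTF (xF (xE (xE (xL (Dt.split 67 7 67 64))))) (xE (xE (xL (Dt.step 64 0 1)))))

def a254 : Tr := (xE (xET (xL (Dt.step 67 2 3)) (xE (xT (xE (xF (xF (xF (xF (xE (xL (Dt.step 64 0
  102))))))))))))

def a255 : Tr := Tr.n (Dt.step 67 2 3) a252 a253 a254

def a256 : Tr := Tr.n Dt.none a251 Tr.z a255

def a257 : Tr := (Tr.n (Dt.step 68 2 3) (xL (Dt.step 67 2 3)) (xET (xL (Dt.step 68 8 3)) (xF (xT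
  (xF (xF (xF (xEF (xF (xE (xL (Dt.split 64 8 65 63)))) (xE (xE (xL (Dt.split 65 8 65
  64))))))))))) Tr.z)

def a258 : Tr := (Tr.n Dt.none (xL (Dt.step 68 7 3)) (xF (xT (xF (xF (xF (xE (xF (xE (xL (Dt.step
  65 7 8520)))))))))) (xL (Dt.step 64 0 99)))

def a259 : Tr := (xF (xEF (xT (xF (xF (xEF (xF (xF (xE (xL (Dt.split 64 7 66 62))))) (xE (xEF (xF
  (xL (Dt.split 64 7 66 62))) (xE (xL (Dt.split 65 7 66 63))))))))) (xEF (xT (xF (xEF (xF (xF (xE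
  (xL (Dt.split 64 7 66 62))))) (xE (xEF (xF (xL (Dt.split 64 7 66 62))) (xE (xL (Dt.split 65 7 66
  63)))))))) (xEF (Tr.n Dt.none (xT (xF (xE (xF (xL (Dt.split 65 7 67 62)))))) (xEF (xEF (xF (xF
  (xL (Dt.split 65 7 67 62)))) (xF (xE (xL (Dt.split 64 7 66 62))))) (xE (xEF (xF (xL (Dt.split 64
  7 67 61))) (xE (xL (Dt.split 65 7 66 63)))))) (xE (Tr.n Dt.none (xT (xF (xL (Dt.split 64 7 67
  61)))) (xE (xF (xL (Dt.split 65 7 67 62)))) (xE (xL (Dt.split 64 7 67 61)))))) (xE (xET (xEF (xT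
  (xF (xL (Dt.split 65 7 67 62)))) (xE (xL (Dt.split 65 7 67 62)))) (xE (xEF (xF (xL (Dt.split 64
  7 67 61))) (xE (xL (Dt.split 65 7 67 62)))))))))))

def a260 : Tr := (xE (Tr.n (Dt.step 66 2 259) Tr.z (xT (xF (xF (xF (xE (xF (xE (xL (Dt.split 65 10
  66 63))))))))) Tr.z))

def a261 : Tr := Tr.n Dt.none a258 a259 a260

def a262 : Tr := Tr.n (Dt.step 67 2 3) a257 a261 Tr.z

def a263 : Tr := (xEF (xE (xL (Dt.step 68 2 3))) (xET (xE (xL (Dt.step 67 2 3))) (xE (xE (xL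
  (Dt.step 64 0 3))))))

def a264 : Tr := (Tr.n Dt.none (Tr.n Dt.none (xL (Dt.step 65 2 3)) (xE (xL (Dt.step 66 8 3))) (xL
  (Dt.step 59 0 3))) (xE (xE (xL (Dt.step 66 7 3)))) (xE (xL (Dt.step 62 0 3))))

def a265 : Tr := Tr.n Dt.none a262 a263 a264

def a266 : Tr := Tr.n Dt.none a250 a256 a265

def a267 : Tr := (xT (xF (xT (xEF (xF (xE (xL (Dt.step 66 4 169)))) (xE (xE (xL (Dt.step 67 4
  7))))))))

def a268 : Tr := (Tr.n Dt.none (xF (xT (xE (xF (xE (xL (Dt.step 67 5 201))))))) (xF (xE (xE (xE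
  (xF (xL (Dt.step 67 2 7))))))) (xE (xE (Tr.n (Dt.step 70 2 0) Tr.z (xF (xE (xL (Dt.split 67 4 67
  64)))) Tr.z))))

def a269 : Tr := (Tr.n Dt.none (Tr.n Dt.none (Tr.n (Dt.step 67 2 1) (xL (Dt.step 69 4 1)) Tr.z (xE
  (xL (Dt.step 67 2 165)))) (Tr.n Dt.none (xT (xF (xE (xL (Dt.step 65 2 104))))) (xF (xE (xE (xL
  (Dt.step 69 2 5))))) (xE (xET (xL (Dt.step 66 2 101)) (xE (xL (Dt.step 65 2 43)))))) (xL
  (Dt.step 64 0 101))) (Tr.n Dt.none (xEF (xT (xF (xE (xL (Dt.step 66 6 103))))) (xF (xT (xE (xE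
  (xE (xL (Dt.step 65 2 101)))))))) (xF (xE (xE (xE (xL (Dt.step 70 2 5)))))) (xE (xET (xET (xL
  (Dt.step 68 2 5)) (xF (xE (xE (xL (Dt.step 65 2 101)))))) (xF (xE (xE (xE (xL (Dt.step 65 2
  39))))))))) (xE (Tr.n (Dt.step 65 2 5) (xE (xL (Dt.step 67 2 5))) Tr.z Tr.z)))

def a270 : Tr := Tr.n Dt.none a267 a268 a269

def a271 : Tr := (Tr.n (Dt.step 69 2 1) Tr.z (xTF (xF (xT (xF (xF (xEF (xF (xF (xE (xL (Dt.split
  64 8 66 62))))) (xE (xEF (xF (xL (Dt.split 64 8 66 62))) (xE (xL (Dt.split 65 8 66 63))))))))))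
  (xL (Dt.step 64 0 289))) Tr.z)

def a272 : Tr := (xET (xL (Dt.step 67 2 3)) (xF (xT (xF (xF (xEF (xF (xF (xE (xL (Dt.step 65 7
  8520))))) (xE (xE (xF (xL (Dt.step 65 7 8520)))))))))))

def a273 : Tr := (xEF (xF (xF (xF (xF (xF (xT (xE (xE (xL (Dt.split 64 7 67 61)))))))))) (Tr.n
  Dt.none (Tr.n Dt.none (xT (xF (xF (xF (xF (xE (xL (Dt.split 64 7 67 61)))))))) (xEF (xF (xF (xF
  (xF (xE (xL (Dt.step 64 0 108))))))) (xE (xF (xF (xEF (xF (xL (Dt.step 64 0 101772))) (xE (xL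
  (Dt.split 64 7 67 61)))))))) (xEF (xT (xF (xF (xF (xE (xL (Dt.split 64 7 67 61))))))) (xEF (xT
  (xF (xF (xE (xL (Dt.split 64 7 67 61)))))) (xE (xT (xF (xE (xL (Dt.split 64 7 67 61))))))))) (xE
  (xE (xF (xF (xF (xE (xF (xL (Dt.step 64 0 11627))))))))) (xE (xET (xT (xF (xF (xF (xE (xL
  (Dt.split 64 7 66 62))))))) (xE (xF (xF (xE (xF (xL (Dt.step 64 0 13421)))))))))))

def a274 : Tr := (xE (Tr.n (Dt.step 67 2 97) Tr.z (xT (xF (xF (xEF (xF (xF (xE (xL (Dt.split 65 10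
  67 62))))) (xE (xE (xF (xL (Dt.split 65 10 67 62))))))))) Tr.z))

def a275 : Tr := Tr.n Dt.none a272 a273 a274

def a276 : Tr := (Tr.n Dt.none (xL (Dt.step 64 0 97)) (xE (xL (Dt.step 65 8 97))) (xL (Dt.step 59
  0 99)))

def a277 : Tr := Tr.n (Dt.step 67 2 1) a271 a275 a276

def a278 : Tr := (xET (Tr.n (Dt.step 69 2 1) Tr.z (xT (xF (xEF (xF (xF (xF (xF (xE (xL (Dt.split
  64 9 68 60))))))) (xE (xF (xF (xE (xF (xL (Dt.split 64 9 68 60)))))))))) Tr.z) (xEF (xTF (xF (xE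
  (xF (xF (xF (xE (xF (xL (Dt.step 64 0 304361))))))))) (xEF (xT (xF (xF (xF (xF (xE (xL (Dt.step
  64 0 13543)))))))) (xEF (xT (xF (xF (xF (xE (xL (Dt.step 64 0 14567))))))) (xEF (xT (xF (xF (xE
  (xL (Dt.step 64 0 15591)))))) (xE (xT (xF (xE (xL (Dt.step 64 0 7399)))))))))) (xE (xT (xE (xF
  (xF (xF (xF (xE (xL (Dt.step 64 0 7463))))))))))))

def a279 : Tr := (xT (xF (xE (xE (xL (Dt.step 67 2 1))))))

def a280 : Tr := (Tr.n (Dt.step 64 0 97) (xET (Tr.n (Dt.step 67 2 97) Tr.z (xT (xF (xE (xF (xF (xF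
  (xE (xL (Dt.split 64 10 67 61))))))))) Tr.z) (xE (xT (xE (xF (xF (xF (xF (xE (xL (Dt.step 64 0
  10346))))))))))) Tr.z Tr.z)

def a281 : Tr := Tr.n Dt.none a278 a279 a280

def a282 : Tr := (xF (xET (xT (xE (xE (xL (Dt.step 65 2 97))))) (xE (xE (xET (Tr.n (Dt.step 66 8
  99) Tr.z (xT (xF (xE (xF (xF (xL (Dt.split 64 12 66 62))))))) Tr.z) (xE (xT (xE (xF (xF (xF (xL
  (Dt.step 64 0 12387)))))))))))))

def a283 : Tr := Tr.n (Dt.step 64 0 1) a277 a281 a282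

def a284 : Tr := (Tr.n Dt.none (xEF (xL (Dt.step 65 0 1)) (Tr.n (Dt.step 65 5 102) (xET (xL
  (Dt.step 64 0 102)) (xE (xL (Dt.step 65 9 326)))) (xET (xE (xL (Dt.step 66 8 102))) (xF (xE (xE
  (xE (xL (Dt.split 65 8 65 64))))))) Tr.z)) (xF (xET (xET (xE (xL (Dt.step 69 2 1))) (xE (xF (xE
  (xE (xL (Dt.step 65 2 234))))))) (xE (xE (xE (xF (xE (xL (Dt.step 65 2 297))))))))) (xET (xET
  (xE (xL (Dt.step 65 2 6))) (xTF (xF (xE (xE (xE (xL (Dt.step 66 2 3)))))) (xT (xE (xE (xE (xL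
  (Dt.step 65 2 38)))))))) (xE (xE (xE (xL (Dt.step 68 0 8)))))))

def a285 : Tr := (xET (xE (xET (Tr.n (Dt.step 64 0 3) (xL (Dt.step 64 0 3)) (xE (xL (Dt.step 65 9
  3))) Tr.z) (xE (Tr.n (Dt.step 65 8 3) (xL (Dt.step 66 0 3)) Tr.z Tr.z)))) (xE (xE (Tr.n Dt.none
  (Tr.n (Dt.step 68 2 3) Tr.z (xT (xF (xE (xF (xF (xEF (xF (xL (Dt.split 64 10 68 60))) (xE (xL
  (Dt.split 65 10 68 61))))))))) Tr.z) (xE (Tr.n (Dt.step 65 0 1) Tr.z (xE (xF (xF (xF (xEF (xF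
  (xL (Dt.step 64 0 3395))) (xE (xL (Dt.step 65 2 323)))))))) Tr.z)) (xE (xET (Tr.n (Dt.step 66 2
  99) Tr.z (xT (xF (xE (xF (xF (xL (Dt.split 64 12 66 62))))))) Tr.z) (xE (xT (xE (xF (xF (xF (xL
  (Dt.step 64 0 12387))))))))))))))

def a286 : Tr := Tr.n (Dt.step 64 0 1) a283 a284 a285

def a287 : Tr := Tr.n Dt.none a266 a270 a286

def a288 : Tr := (xF (xET (xT (xEF (xEF (xT (xF (xL (Dt.split 64 2 65 63)))) (xET (xL (Dt.step 64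
  0 136)) (xE (xL (Dt.step 65 10 139))))) (xE (xT (xEF (xL (Dt.step 66 3 43)) (xE (xE (xL
  (Dt.split 64 2 65 63))))))))) (xEF (xEF (xEF (xT (xF (xL (Dt.step 65 6 231)))) (xT (xE (xL
  (Dt.step 66 6 235))))) (xE (xT (xF (xE (xE (xL (Dt.step 65 6 4231)))))))) (xET (xET (xT (xF (xE
  (xE (xL (Dt.split 64 2 64 64)))))) (xE (xEF (xF (xE (xL (Dt.split 64 2 64 64)))) (xE (xE (xL
  (Dt.step 65 9 132))))))) (xE (xE (xE (Tr.n (Dt.split 68 2 65 67) Tr.z Tr.z (xE (xL (Dt.step 65 8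
  292)))))))))))

def a289 : Tr := (xTF (xF (xE (xE (xE (xL (Dt.step 74 0 0)))))) (xE (xE (xET (Tr.n (Dt.step 72 0
  0) (xT (xF (xL (Dt.step 66 4 5)))) Tr.z (xT (xF (xE (xE (xL (Dt.step 65 0 5))))))) (xF (xEF (xE
  (Tr.n (Dt.step 68 0 5) Tr.z Tr.z (xE (xL (Dt.step 65 0 293))))) (xE (xE (xE (xL (Dt.split 65 2
  65 64)))))))))))

def a290 : Tr := (xE (xET (Tr.n (Dt.step 67 0 0) (Tr.n (Dt.step 70 0 0) Tr.z (xF (xE (xL (Dt.step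
  66 0 4)))) Tr.z) (Tr.n Dt.none (xEF (xT (xF (xL (Dt.split 65 2 65 64)))) (xE (xL (Dt.step 65 7
  1)))) (xF (xE (xE (xL (Dt.step 69 0 0))))) (xEF (xET (xL (Dt.step 68 0 4)) (xF (xE (xE (xL
  (Dt.split 65 2 65 64)))))) (xT (xE (xE (xE (xL (Dt.split 66 2 65 65)))))))) (xE (xE (xL (Dt.step
  65 3 4))))) (xET (xEF (xF (xE (xL (Dt.step 66 6 7)))) (xF (xT (xE (xE (xE (xL (Dt.split 65 2 65
  64)))))))) (xF (xE (xE (xE (xL (Dt.step 72 0 0)))))))))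

def a291 : Tr := Tr.n Dt.none a288 a289 a290

def a292 : Tr := (Tr.n (Dt.step 69 0 3) Tr.z (xTF (xF (xT (xF (xEF (xF (xF (xF (xE (xL (Dt.split
  64 8 67 61)))))) (xEF (xF (xF (xE (xL (Dt.split 65 8 67 62))))) (xE (xE (xF (xL (Dt.split 65 8
  67 62)))))))))) (Tr.n (Dt.step 65 0 35) Tr.z (xF (xEF (xT (xF (xF (xF (xE (xL (Dt.step 64 0
  14627))))))) (xEF (xT (xF (xF (xE (xL (Dt.step 64 0 1315)))))) (xE (xT (xF (xE (xL (Dt.step 64 0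
  1315))))))))) Tr.z)) (Tr.n (Dt.step 65 0 35) Tr.z (xT (xF (xEF (xT (xF (xF (xEF (xF (xL
  (Dt.split 64 9 65 63))) (xE (xL (Dt.split 64 9 64 64))))))) (xEF (xT (xF (xE (xF (xL (Dt.split
  64 9 65 63)))))) (xE (xT (xE (xF (xL (Dt.split 64 9 65 63)))))))))) Tr.z))

def a293 : Tr := (Tr.n Dt.none (xT (xF (xT (xF (xF (xE (xF (xL (Dt.step 64 0 1384))))))))) (xF (xT
  (xE (xF (xF (xF (xF (xE (xL (Dt.step 64 0 8520)))))))))) (Tr.n (Dt.step 66 7 35) (Tr.n (Dt.step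
  65 0 40) Tr.z (xT (xF (xF (xE (xF (xL (Dt.split 64 11 65 63))))))) Tr.z) (xF (xEF (xT (xF (xF
  (xE (xF (xL (Dt.step 64 0 276744))))))) (xEF (xT (xF (xE (xF (xL (Dt.step 64 0 277768)))))) (xE
  (xT (xE (xF (xL (Dt.step 64 0 8456))))))))) Tr.z))

def a294 : Tr := (xEF (xF (xEF (xT (xF (xF (xF (xF (xE (xL (Dt.split 64 7 68 60)))))))) (xEF (xT
  (xF (xF (xF (xE (xL (Dt.split 64 7 68 60))))))) (xEF (xT (xF (xF (xE (xL (Dt.split 64 7 68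
  60)))))) (xE (xT (xF (xE (xL (Dt.split 64 7 68 60)))))))))) (xEF (xET (xTF (xF (xF (xF (xF (xE
  (xL (Dt.split 64 7 67 61))))))) (xT (xF (xF (xE (xF (xL (Dt.step 64 0 1315)))))))) (xE (xF (xF
  (xF (xEF (xF (xL (Dt.step 64 0 12684))) (xE (xL (Dt.split 64 7 68 60))))))))) (xE (xE (xT (xF
  (xF (xE (xF (xL (Dt.split 64 7 67 61)))))))))))

def a295 : Tr := (xE (Tr.n (Dt.step 65 7 259) Tr.z (xET (xF (xT (xF (xF (xF (xE (xL (Dt.step 64 0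
  8451)))))))) (xE (xF (xF (xF (xF (xE (xL (Dt.step 64 0 12547))))))))) Tr.z))

def a296 : Tr := Tr.n Dt.none a293 a294 a295

def a297 : Tr := (xE (Tr.n (Dt.step 64 0 35) Tr.z (xT (xF (xEF (xT (xF (xF (xF (xE (xL (Dt.split
  64 9 64 64))))))) (xEF (xT (xF (xF (xE (xL (Dt.split 64 9 64 64)))))) (xE (xT (xF (xE (xL
  (Dt.split 64 9 64 64)))))))))) Tr.z))

def a298 : Tr := Tr.n (Dt.step 68 0 3) a292 a296 a297

def a299 : Tr := (Tr.n Dt.none (xEF (Tr.n (Dt.step 70 0 3) Tr.z (xT (xF (xE (xF (xF (xF (xE (xF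
  (xL (Dt.split 64 9 69 59)))))))))) Tr.z) (xE (xL (Dt.step 66 6 39)))) (xTF (xF (xE (xE (xL
  (Dt.step 68 0 3))))) (xE (xE (xL (Dt.step 67 0 3))))) (Tr.n (Dt.step 65 0 99) (xET (Tr.n
  (Dt.step 68 0 99) Tr.z (xT (xEF (xF (xF (xF (xF (xE (xL (Dt.split 64 10 68 60))))))) (xE (xF (xF
  (xEF (xF (xL (Dt.split 64 10 68 60))) (xE (xL (Dt.split 65 10 68 61))))))))) Tr.z) (xE (Tr.n
  (Dt.step 65 9 42) Tr.z (xE (xF (xF (xF (xEF (xF (xL (Dt.step 64 0 338026))) (xE (xL (Dt.step 65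
  9 10346)))))))) Tr.z))) (xET (xE (xL (Dt.step 66 8 41))) (xF (xE (xE (xE (xL (Dt.split 65 8 65
  64))))))) Tr.z))

def a300 : Tr := (Tr.n (Dt.step 64 0 99) (xET (Tr.n (Dt.step 64 0 99) (xL (Dt.step 64 0 99)) (xET
  (xL (Dt.step 65 9 99)) (xF (xE (xT (xF (xF (xF (xE (xL (Dt.split 64 9 64 64)))))))))) Tr.z) (xE
  (Tr.n (Dt.step 65 8 105) (xL (Dt.step 66 0 99)) (xET (xF (xT (xF (xF (xF (xE (xL (Dt.step 64 0
  9321)))))))) (xE (xF (xF (xF (xF (xE (xL (Dt.step 64 0 12387))))))))) Tr.z))) (xET (xE (xL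
  (Dt.step 66 7 104))) (xF (xT (xE (xE (xE (xL (Dt.split 65 7 62 67)))))))) Tr.z)

def a301 : Tr := Tr.n (Dt.step 66 0 3) a298 a299 a300

def a302 : Tr := (Tr.n Dt.none (Tr.n Dt.none (xF (xE (xL (Dt.step 67 5 198)))) (xTF (xF (xE (xE
  (xL (Dt.step 69 5 6))))) (xE (xE (xL (Dt.step 66 5 38))))) (Tr.n (Dt.step 64 0 198) Tr.z (xT (xF
  (xE (xE (xE (xL (Dt.step 66 5 102))))))) Tr.z)) (Tr.n Dt.none (xF (xF (xT (xE (xE (xE (xL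
  (Dt.split 65 5 64 65)))))))) (xF (xE (xE (xE (xL (Dt.step 70 0 3)))))) (xE (xET (xET (xL
  (Dt.step 70 0 3)) (xF (xE (xE (xL (Dt.split 65 5 65 64)))))) (xE (xE (xF (xE (xL (Dt.split 65 5
  65 64))))))))) (xE (Tr.n (Dt.step 65 5 35) (Tr.n (Dt.step 64 0 35) (xL (Dt.step 67 5 35)) (xE
  (xL (Dt.step 67 9 42))) Tr.z) (xE (xE (xL (Dt.step 68 8 41)))) Tr.z)))

def a303 : Tr := Tr.n (Dt.step 65 0 3) a301 a302 Tr.z

def a304 : Tr := (Tr.n Dt.none (xE (xTF (xEF (xT (xF (xE (xL (Dt.step 66 7 328))))) (xE (xET (xL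
  (Dt.step 65 4 37)) (xE (xL (Dt.step 66 10 43)))))) (Tr.n (Dt.step 65 4 165) Tr.z (xT (xF (xE (xE
  (xE (xL (Dt.split 65 8 65 64))))))) Tr.z))) (xF (xE (xE (xE (xE (xL (Dt.step 69 0 3))))))) (xE
  (xE (xE (xE (xL (Dt.step 66 0 3)))))))

def a305 : Tr := (xE (xE (xE (xE (xL (Dt.step 64 0 3))))))

def a306 : Tr := Tr.n Dt.none a303 a304 a305

def a307 : Tr := Tr.n Dt.none a287 a291 a306

def a308 : Tr := (Tr.n (Dt.step 64 0 1) (Tr.n (Dt.step 65 0 1) (Tr.n (Dt.step 67 0 1) Tr.z (xT (xF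
  (xE (xF (xF (xF (xL (Dt.split 64 8 67 61)))))))) Tr.z) (xE (xT (xE (xF (xF (xF (xF (xL (Dt.step
  64 0 264))))))))) Tr.z) (Tr.n Dt.none (xF (xE (xL (Dt.step 64 0 39)))) (xF (xE (xT (xF (xF (xF
  (xF (xE (xE (xL (Dt.split 64 6 64 64))))))))))) (xT (xE (xE (xL (Dt.step 65 0 33)))))) (Tr.n
  (Dt.step 62 0 0) Tr.z Tr.z (xL (Dt.step 59 0 0))))

def a309 : Tr := (Tr.n Dt.none (xT (Tr.n Dt.none (xF (xT (xF (xF (xF (xF (xE (xE (xL (Dt.step 64 0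
  200)))))))))) (xE (xF (xF (xF (xF (xF (xE (xE (xL (Dt.step 64 0 297)))))))))) (xE (xL (Dt.step
  67 0 33))))) (xTF (xTF (xF (xE (xE (xL (Dt.split 67 5 65 66))))) (xE (xE (xL (Dt.split 66 5 65
  65))))) (xE (xE (Tr.n (Dt.step 67 0 1) (xL (Dt.step 66 0 1)) Tr.z Tr.z)))) (xET (Tr.n Dt.none
  (Tr.n (Dt.step 65 0 33) (Tr.n (Dt.step 67 0 33) Tr.z (xT (xF (xE (xF (xF (xF (xL (Dt.split 64 10
  67 61)))))))) Tr.z) (xE (xT (xE (xF (xF (xF (xF (xL (Dt.step 64 0 10282))))))))) Tr.z) (xEF (xE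
  (xL (Dt.step 66 0 33))) (xE (xE (xL (Dt.step 65 0 1057))))) (Tr.n (Dt.step 60 0 1057) Tr.z (xE
  (xE (xL (Dt.step 64 0 1345)))) Tr.z)) (xEF (xE (Tr.n (Dt.step 68 0 264) (xL (Dt.step 67 0 33))
  Tr.z Tr.z)) (xE (xE (xE (xL (Dt.step 66 0 33))))))))

def a310 : Tr := (Tr.n (Dt.step 63 0 33) (Tr.n (Dt.step 63 0 33) Tr.z (xF (xT (xE (xE (xL (Dt.step
  64 0 1057)))))) (Tr.n (Dt.step 60 0 33) Tr.z Tr.z (xF (xL (Dt.step 52 0 1))))) (xE (xE (xT (xF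
  (xE (xL (Dt.step 64 0 7207))))))) (Tr.n (Dt.step 59 0 33) (Tr.n (Dt.step 61 0 33) Tr.z Tr.z (xF
  (xL (Dt.step 53 0 1057)))) Tr.z (Tr.n (Dt.step 55 0 33) (xF (xL (Dt.step 53 0 33))) Tr.z (xE (xL
  (Dt.step 54 0 33))))))

def a311 : Tr := Tr.n (Dt.step 65 0 1) a308 a309 a310

def a312 : Tr := (Tr.n (Dt.step 70 0 1) (xF (xL (Dt.step 64 0 37))) (xTF (xF (xT (xF (xEF (xF (xF
  (xF (xE (xL (Dt.split 64 8 67 61)))))) (xEF (xF (xEF (xF (xL (Dt.split 64 8 67 61))) (xE (xL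
  (Dt.split 65 8 67 62))))) (xE (xE (xF (xL (Dt.split 65 8 67 62)))))))))) (Tr.n (Dt.step 64 0
  293) Tr.z (xF (xF (xF (xTF (xE (xF (xE (xL (Dt.step 64 0 1327))))) (xT (xE (xE (xL (Dt.step 64 0
  304))))))))) Tr.z)) (xL (Dt.step 64 0 37)))

def a313 : Tr := (Tr.n Dt.none (xT (xF (xT (xF (xEF (xF (xF (xEF (xF (xL (Dt.step 64 0 270664)))
  (xE (xL (Dt.step 65 7 8520)))))) (xE (xEF (xF (xF (xL (Dt.step 64 0 8520)))) (xE (xF (xL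
  (Dt.step 65 7 270664))))))))))) (xF (xE (xE (xF (xT (xF (xF (xF (xE (xL (Dt.split 64 7 68
  60))))))))))) (xE (Tr.n (Dt.step 68 4 165) Tr.z (xT (xF (xEF (xF (xF (xEF (xF (xL (Dt.split 64
  10 68 60))) (xE (xL (Dt.split 65 10 68 61)))))) (xE (xEF (xF (xF (xL (Dt.split 64 10 68 60))))
  (xE (xF (xL (Dt.split 65 10 68 61))))))))) Tr.z)))

def a314 : Tr := (Tr.n Dt.none (Tr.n (Dt.step 65 0 165) Tr.z (xT (xF (xF (xF (xTF (xE (xF (xE (xL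
  (Dt.split 64 9 65 63))))) (xT (xE (xE (xL (Dt.split 64 9 62 66)))))))))) Tr.z) (xF (xE (xE (xL
  (Dt.step 65 0 165))))) (Tr.n (Dt.step 60 0 161) Tr.z (xE (xE (xL (Dt.step 64 0 165)))) Tr.z))

def a315 : Tr := Tr.n (Dt.step 68 0 1) a312 a313 a314

def a316 : Tr := (xTF (xTF (xF (xE (xE (xL (Dt.step 68 4 5))))) (xE (xE (xL (Dt.step 67 4 5)))))
  (xE (xE (xL (Dt.step 68 4 231)))))

def a317 : Tr := (Tr.n Dt.none (Tr.n (Dt.step 63 0 37) (Tr.n (Dt.step 65 0 37) Tr.z (xF (xE (xL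
  (Dt.step 64 0 5285)))) Tr.z) (xEF (xF (xE (xL (Dt.step 64 0 5413)))) (xE (xE (xL (Dt.step 65 4
  1061))))) Tr.z) (xEF (xEF (xE (xF (xL (Dt.step 64 0 8456)))) (xE (xE (xL (Dt.step 66 0 5377)))))
  (xE (xE (xE (xL (Dt.step 65 4 40)))))) (xE (xL (Dt.step 62 0 37))))

def a318 : Tr := Tr.n Dt.none a315 a316 a317

def a319 : Tr := (xTF (xTF (xF (xE (xE (xE (xL (Dt.step 70 0 1)))))) (xE (xE (xET (xL (Dt.step 70
  0 1)) (xF (xE (xE (xL (Dt.split 65 4 64 65))))))))) (xE (xE (Tr.n (Dt.step 65 0 1) (Tr.n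
  (Dt.step 68 0 1) (xF (xL (Dt.step 65 5 38))) Tr.z (xE (xL (Dt.step 66 0 193)))) Tr.z (xE (xE (xL
  (Dt.step 65 5 198))))))))

def a320 : Tr := (Tr.n Dt.none (Tr.n (Dt.step 66 0 33) (xL (Dt.step 65 0 33)) (Tr.n Dt.none (xF
  (xL (Dt.step 64 0 5281))) (xF (xT (xE (xF (xF (xF (xE (xL (Dt.split 64 9 65 63))))))))) (xE (xL
  (Dt.step 65 4 1185)))) Tr.z) (xEF (Tr.n Dt.none (Tr.n (Dt.step 67 0 33) Tr.z (xF (xT (xF (xF (xF
  (xE (xL (Dt.step 64 0 12585)))))))) (xL (Dt.step 65 8 9513))) (xE (xT (xF (xF (xF (xF (xE (xL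
  (Dt.step 64 0 9579))))))))) (xE (Tr.n (Dt.step 64 0 1057) Tr.z (xT (xF (xF (xF (xE (xL (Dt.split
  64 12 64 64))))))) Tr.z))) (xE (xE (xL (Dt.step 66 0 9249))))) (xL (Dt.step 60 0 1185)))

def a321 : Tr := (xEF (xEF (xL (Dt.step 68 0 40)) (xE (xET (Tr.n (Dt.step 66 7 1288) Tr.z (xT (xF
  (xE (xF (xF (xL (Dt.split 64 12 66 62))))))) Tr.z) (xE (xT (xE (xF (xF (xF (xL (Dt.step 64 0
  394504))))))))))) (xE (xE (xE (xL (Dt.step 66 0 1064))))))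

def a322 : Tr := (xET (xET (xET (xL (Dt.step 64 0 1061)) (xE (xL (Dt.step 65 10 1061)))) (xE (xE
  (xL (Dt.step 66 9 1061))))) (xE (xE (xET (Tr.n (Dt.step 67 8 1061) Tr.z (xT (xF (xE (xF (xF (xL
  (Dt.split 64 12 66 62))))))) Tr.z) (xE (xT (xE (xF (xF (xF (xL (Dt.step 64 0 394277))))))))))))

def a323 : Tr := Tr.n Dt.none a320 a321 a322

def a324 : Tr := (xE (xE (xE (Tr.n (Dt.step 69 6 39) Tr.z (xT (xE (xF (xF (xF (xEF (xF (xL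
  (Dt.split 64 10 69 59))) (xE (xL (Dt.split 65 10 69 60))))))))) Tr.z))))

def a325 : Tr := (xT (xE (xE (xE (xL (Dt.step 64 0 40))))))

def a326 : Tr := Tr.n Dt.none a323 a324 a325

def a327 : Tr := Tr.n Dt.none a318 a319 a326

def a328 : Tr := (Tr.n Dt.none (xEF (xEF (xET (xL (Dt.step 64 0 33)) (xE (xL (Dt.step 65 8 41))))
  (xF (xF (xL (Dt.step 53 0 1057))))) (xEF (xF (xF (xL (Dt.step 53 0 33825)))) (xL (Dt.step 56 0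
  1057)))) (xEF (xEF (Tr.n Dt.none (Tr.n (Dt.step 67 0 33) (Tr.n (Dt.step 68 0 38) Tr.z (xT (xF
  (xE (xF (xF (xF (xL (Dt.split 65 10 68 61)))))))) Tr.z) (xE (xT (xE (xF (xF (xF (xF (xL (Dt.step
  65 0 10570))))))))) Tr.z) (xE (xL (Dt.step 68 8 297))) (xE (xT (xE (xL (Dt.step 64 0 11627))))))
  (xE (xE (xE (xL (Dt.step 64 0 1057)))))) (xT (xE (xE (xE (xE (xL (Dt.step 67 0 33)))))))) (Tr.n
  (Dt.step 61 0 1) Tr.z Tr.z (xE (xL (Dt.step 59 0 1)))))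

def a329 : Tr := Tr.n (Dt.step 64 0 1) a311 a327 a328

def a330 : Tr := (Tr.n (Dt.step 71 3 1) (xT (xF (xT (xF (xF (xF (xF (xE (xL (Dt.step 64 0
  324)))))))))) (xTF (xEF (xF (xF (xF (xEF (xF (xF (xL (Dt.split 64 8 71 57)))) (xE (xF (xL
  (Dt.split 65 8 71 58)))))))) (xET (xF (xEF (xF (xF (xF (xL (Dt.split 64 8 71 57))))) (xE (xF (xF
  (xL (Dt.split 65 8 71 58))))))) (xE (xF (xF (xF (xF (xE (xL (Dt.split 64 8 68 60)))))))))) (Tr.n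
  (Dt.step 65 3 292) Tr.z (xF (xEF (xT (xF (xF (xF (xE (xL (Dt.step 64 0 14628))))))) (xEF (xT (xF
  (xF (xE (xL (Dt.step 64 0 4388)))))) (xE (xT (xF (xE (xL (Dt.step 64 0 4388))))))))) Tr.z))
  (Tr.n (Dt.step 65 3 132) (Tr.n (Dt.step 64 0 36) Tr.z (xT (xF (xF (xF (xF (xE (xL (Dt.split 64
  10 64 64)))))))) Tr.z) (xT (xF (xT (xE (xF (xF (xF (xE (xL (Dt.split 64 9 65 63)))))))))) Tr.z))

def a331 : Tr := (Tr.n Dt.none (xTF (xEF (xF (xF (xEF (xF (xF (xF (xL (Dt.step 64 0 8456))))) (xE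
  (xF (xF (xL (Dt.step 65 7 8456)))))))) (xT (xEF (xF (xF (xF (xEF (xF (xL (Dt.step 64 0 266568)))
  (xE (xL (Dt.step 65 7 4424))))))) (xF (xF (xF (xE (xE (xL (Dt.step 64 0 328)))))))))) (Tr.n
  (Dt.step 66 7 136) (Tr.n (Dt.step 64 0 40) Tr.z (xT (xF (xF (xF (xF (xE (xL (Dt.split 64 11 64
  64)))))))) Tr.z) Tr.z Tr.z)) (xF (xE (xE (xT (xF (xF (xF (xF (xE (xL (Dt.split 64 7 67
  61))))))))))) (xE (Tr.n (Dt.step 67 3 260) Tr.z (xET (xT (xF (xF (xF (xF (xE (xL (Dt.step 64 0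
  8459)))))))) (xEF (xF (xF (xF (xEF (xF (xL (Dt.step 64 0 397580))) (xE (xL (Dt.step 65 11
  4364))))))) (xEF (xF (xF (xF (xE (xL (Dt.split 64 10 67 61)))))) (xF (xF (xE (xE (xL (Dt.split
  64 10 64 64))))))))) Tr.z)))

def a332 : Tr := (xET (Tr.n (Dt.step 65 3 132) (xL (Dt.step 64 0 36)) (xTF (xF (xEF (xT (xF (xF
  (xF (xE (xL (Dt.split 64 9 64 64))))))) (xEF (xT (xF (xF (xE (xL (Dt.split 64 9 64 64)))))) (xE
  (xT (xF (xE (xL (Dt.split 64 9 65 63))))))))) (xE (xL (Dt.step 64 0 4228)))) Tr.z) (xE (xET (xF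
  (xL (Dt.step 64 0 9508))) (xET (xF (xT (xF (xF (xF (xE (xL (Dt.step 64 0 9572)))))))) (xE (xF
  (xF (xF (xF (xE (xL (Dt.step 64 0 12676))))))))))))

def a333 : Tr := Tr.n (Dt.step 69 0 1) a330 a331 a332

def a334 : Tr := (Tr.n Dt.none (xEF (xTF (xF (xT (xF (xF (xF (xEF (xF (xE (xL (Dt.step 64 0
  7495)))) (xE (xE (xL (Dt.step 65 6 327)))))))))) (Tr.n (Dt.step 67 6 231) Tr.z (xT (xF (xE (xF
  (xF (xF (xE (xL (Dt.split 64 10 67 61))))))))) Tr.z)) (xE (Tr.n (Dt.step 65 6 39) Tr.z (xT (xF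
  (xF (xF (xEF (xF (xE (xL (Dt.split 64 10 65 63)))) (xE (xE (xL (Dt.split 65 10 65 64)))))))))
  Tr.z))) (xTF (xF (xE (xE (xL (Dt.step 69 3 4))))) (xE (xE (xL (Dt.step 68 3 4))))) (xE (xET (xL
  (Dt.step 69 3 132)) (xE (xL (Dt.step 64 0 42))))))

def a335 : Tr := (Tr.n Dt.none (Tr.n (Dt.step 66 3 132) (xL (Dt.step 65 0 132)) (xET (Tr.n
  (Dt.step 66 9 330) Tr.z Tr.z (xL (Dt.step 64 0 4228))) (xF (xET (xT (xF (xF (xEF (xF (xL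
  (Dt.split 64 9 65 63))) (xE (xL (Dt.split 65 9 65 64))))))) (xE (xF (xF (xF (xE (xL (Dt.split 64
  9 65 63)))))))))) Tr.z) (xEF (Tr.n (Dt.step 67 8 297) (Tr.n (Dt.step 67 0 137) Tr.z (xF (xT (xF
  (xF (xF (xE (xL (Dt.step 64 0 12420)))))))) Tr.z) (xET (xTF (xF (xF (xF (xF (xE (xL (Dt.step 64
  0 9355))))))) (xT (xF (xF (xEF (xF (xL (Dt.step 64 0 370027))) (xE (xL (Dt.step 65 10
  9579)))))))) (xE (xF (xF (xF (xEF (xF (xL (Dt.step 64 0 405900))) (xE (xL (Dt.step 65 11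
  12684))))))))) (xE (Tr.n (Dt.step 65 3 4388) Tr.z (xT (xF (xF (xF (xE (xL (Dt.split 64 12 64
  64))))))) Tr.z))) (xE (xE (xL (Dt.step 66 3 9348))))) (xL (Dt.step 60 0 4228)))

def a336 : Tr := (xEF (xE (xE (Tr.n (Dt.step 67 0 40) Tr.z (xT (xE (xF (xF (xF (xL (Dt.split 64 11
  67 61))))))) Tr.z))) (xE (xE (xE (xL (Dt.step 66 3 132))))))

def a337 : Tr := (xET (xET (xET (xL (Dt.step 64 0 132)) (xE (xL (Dt.step 65 10 132)))) (xE (xE (xL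
  (Dt.step 66 9 132))))) (xE (xE (xE (xL (Dt.step 67 8 132))))))

def a338 : Tr := Tr.n Dt.none a335 a336 a337

def a339 : Tr := Tr.n (Dt.step 67 0 1) a333 a334 a338

def a340 : Tr := (xTF (xTF (xF (xE (xE (xE (xL (Dt.step 71 3 4)))))) (xE (xE (xET (xL (Dt.step 71
  3 4)) (xF (xE (xE (xL (Dt.step 66 3 36))))))))) (xE (xE (Tr.n (Dt.step 66 3 33) (Tr.n (Dt.step
  69 3 196) (Tr.n (Dt.step 65 5 38) Tr.z Tr.z (xL (Dt.step 66 3 4292))) Tr.z Tr.z) (xE (xL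
  (Dt.step 66 9 42))) (xE (xE (xL (Dt.step 66 3 6340))))))))

def a341 : Tr := (Tr.n Dt.none (Tr.n (Dt.step 67 3 132) (xL (Dt.step 66 3 132)) (xTF (xF (xT (xE
  (xF (xF (xEF (xF (xL (Dt.split 64 9 66 62))) (xE (xL (Dt.split 65 9 66 63))))))))) (xE (xL
  (Dt.step 65 3 10276)))) Tr.z) (xEF (Tr.n Dt.none (xTF (xF (xT (xF (xF (xEF (xF (xL (Dt.step 64 0
  143657))) (xE (xL (Dt.step 65 3 12585)))))))) (xL (Dt.step 64 0 4388))) (xE (xT (xF (xF (xF (xEF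
  (xF (xL (Dt.step 64 0 140651))) (xE (xL (Dt.step 65 3 9579))))))))) (xE (Tr.n (Dt.step 66 8
  4132) Tr.z (xT (xF (xF (xEF (xF (xL (Dt.split 64 12 65 63))) (xE (xL (Dt.split 65 12 65
  64))))))) Tr.z))) (xE (xE (xL (Dt.step 67 3 4132))))) (xE (xET (xL (Dt.step 64 0 4132)) (xE (xL
  (Dt.step 65 10 4132))))))

def a342 : Tr := (xEF (xEF (xEF (xTF (xF (xT (xF (xF (xEF (xF (xL (Dt.step 64 0 274468))) (xE (xL
  (Dt.step 65 7 12324)))))))) (xL (Dt.step 65 7 8452))) (xE (Tr.n (Dt.step 67 7 8228) Tr.z (xT (xF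
  (xF (xEF (xF (xL (Dt.split 64 12 65 63))) (xE (xL (Dt.split 65 12 65 64))))))) Tr.z))) (xE (xE
  (xL (Dt.step 65 3 4353))))) (xE (xE (Tr.n (Dt.step 64 0 4132) (xL (Dt.step 66 3 1057)) Tr.z
  Tr.z))))

def a343 : Tr := Tr.n (Dt.step 64 0 36) a341 a342 Tr.z

def a344 : Tr := (xE (xEF (xE (Tr.n (Dt.step 70 3 231) Tr.z (xT (xE (xF (xF (xEF (xF (xF (xL
  (Dt.split 64 10 70 58)))) (xEF (xF (xL (Dt.split 65 10 70 59))) (xE (xL (Dt.split 64 10 68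
  60))))))))) Tr.z)) (xE (xE (xE (Tr.n (Dt.step 67 6 1255) Tr.z (xT (xE (xF (xF (xF (xL (Dt.split
  64 12 67 61))))))) Tr.z))))))

def a345 : Tr := (xT (xE (xE (xE (xE (xL (Dt.step 67 0 136)))))))

def a346 : Tr := Tr.n Dt.none a343 a344 a345

def a347 : Tr := Tr.n (Dt.step 65 0 1) a339 a340 a346

def a348 : Tr := (xF (xET (xET (xET (xET (Tr.n (Dt.step 71 4 5) Tr.z (xT (xEF (xF (xEF (xF (xF (xF
  (xL (Dt.split 64 10 71 57))))) (xEF (xF (xF (xL (Dt.split 65 10 71 58)))) (xE (xF (xL (Dt.split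
  65 10 70 59))))))) (xE (xEF (xF (xF (xF (xL (Dt.split 65 10 71 58))))) (xE (xF (xF (xL (Dt.split
  65 10 70 59))))))))) Tr.z) (xE (Tr.n (Dt.step 68 9 10) Tr.z (xE (xEF (xF (xF (xF (xF (xL
  (Dt.step 64 0 332)))))) (xEF (xF (xF (xF (xL (Dt.step 65 9 10570))))) (xE (xF (xF (xL (Dt.step
  65 9 10570)))))))) Tr.z))) (xE (xE (Tr.n (Dt.step 69 8 9) Tr.z (xE (xE (xF (xF (xF (xF (xL
  (Dt.step 65 8 297)))))))) Tr.z)))) (xE (xE (xET (xL (Dt.step 70 7 8)) (xE (xL (Dt.step 71 10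
  11))))))) (xE (xE (xET (xET (xL (Dt.step 71 6 7)) (xE (xL (Dt.step 72 10 11)))) (xE (xE (xL
  (Dt.step 73 9 10)))))))))

def a349 : Tr := (xET (Tr.n Dt.none (Tr.n (Dt.step 68 3 1) (Tr.n (Dt.step 67 3 1) Tr.z (xT (xF (xT
  (xF (xF (xF (xE (xL (Dt.split 64 10 64 64))))))))) Tr.z) (xEF (Tr.n (Dt.step 68 9 1) Tr.z (xF
  (xT (xF (xF (xEF (xF (xL (Dt.step 64 0 10634))) (xE (xL (Dt.step 65 9 394)))))))) (xL (Dt.step
  64 0 33))) (xE (Tr.n (Dt.step 65 0 321) Tr.z (xT (xF (xF (xEF (xF (xL (Dt.split 64 12 65 63)))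
  (xE (xL (Dt.split 65 12 65 64))))))) Tr.z))) Tr.z) (xEF (Tr.n (Dt.step 69 8 1) (Tr.n (Dt.step 65
  0 1) Tr.z (xT (xF (xF (xF (xEF (xF (xL (Dt.split 64 11 65 63))) (xE (xL (Dt.split 65 11 65
  64)))))))) (xL (Dt.step 65 8 33))) Tr.z Tr.z) (xE (xE (xL (Dt.step 66 0 33))))) (xE (xT (xE (xL
  (Dt.step 65 0 33)))))) (xEF (xEF (Tr.n (Dt.step 70 7 1) (xT (xF (xT (xF (xF (xF (xE (xL (Dt.step
  64 0 385))))))))) Tr.z (xE (Tr.n (Dt.step 66 0 257) Tr.z (xT (xF (xF (xF (xE (xL (Dt.split 64 12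
  64 64))))))) Tr.z))) (xE (xE (xL (Dt.step 67 7 40))))) (xE (xE (xE (xL (Dt.step 67 0 129)))))))

def a350 : Tr := (xEF (xEF (xEF (Tr.n (Dt.step 71 6 1) (xTF (xF (xT (xF (xF (xEF (xF (xL (Dt.step
  64 0 7559))) (xE (xL (Dt.step 65 6 391)))))))) (xL (Dt.step 66 0 225))) Tr.z (xE (Tr.n (Dt.step
  67 6 231) Tr.z (xT (xF (xF (xEF (xF (xL (Dt.split 64 12 65 63))) (xE (xL (Dt.split 65 12 65
  64))))))) Tr.z))) (xE (xE (xL (Dt.step 66 6 225))))) (xE (xE (Tr.n (Dt.step 64 0 39) (xL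
  (Dt.step 66 6 39)) Tr.z Tr.z)))) (xE (xE (xE (xE (xL (Dt.step 67 0 36)))))))

def a351 : Tr := Tr.n Dt.none a349 a350 Tr.z

def a352 : Tr := (Tr.n (Dt.step 72 5 1) (xTF (xF (xT (xF (xEF (xF (xF (xL (Dt.step 64 0 6534))))
  (xE (xF (xL (Dt.step 65 5 6534)))))))) (Tr.n (Dt.step 67 5 198) Tr.z (xT (xF (xE (xF (xF (xL
  (Dt.split 65 12 67 62))))))) Tr.z)) (Tr.n Dt.none (xF (xT (xF (xE (xF (xF (xL (Dt.step 65 10
  11627)))))))) (xEF (xF (xF (xE (xF (xF (xL (Dt.split 64 10 70 58))))))) (xE (xE (xF (xF (xF (xL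
  (Dt.split 64 10 70 58)))))))) (xE (xT (xE (xF (xF (xF (xL (Dt.step 64 0 11622))))))))) (xE (Tr.n
  (Dt.step 66 5 198) Tr.z (xT (xF (xEF (xF (xF (xL (Dt.split 64 12 66 62)))) (xE (xF (xL (Dt.split
  65 12 66 63))))))) Tr.z)))

def a353 : Tr := (xE (Tr.n (Dt.step 69 9 1) Tr.z (xE (xF (xE (xF (xF (xF (xL (Dt.step 64 0
  10570)))))))) Tr.z))

def a354 : Tr := (xE (Tr.n (Dt.step 64 0 198) (Tr.n (Dt.step 66 5 198) Tr.z (xT (xF (xE (xF (xF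
  (xL (Dt.split 64 12 66 62))))))) Tr.z) (xE (xT (xE (xF (xF (xF (xL (Dt.step 64 0 12678))))))))
  Tr.z))

def a355 : Tr := Tr.n (Dt.step 67 0 1) a352 a353 a354

def a356 : Tr := (xE (xE (Tr.n (Dt.step 70 8 1) Tr.z (xE (xE (xF (xF (xF (xF (xL (Dt.step 64 0
  297)))))))) Tr.z)))

def a357 : Tr := (xE (xE (xE (Tr.n (Dt.step 67 5 198) Tr.z (xT (xE (xF (xF (xF (xL (Dt.split 64 12
  67 61))))))) Tr.z))))

def a358 : Tr := Tr.n Dt.none a355 a356 a357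

def a359 : Tr := (xE (xE (xE (xL (Dt.step 71 7 1)))))

def a360 : Tr := Tr.n Dt.none a358 a359 Tr.z

def a361 : Tr := Tr.n Dt.none a360 Tr.z Tr.z

def a362 : Tr := Tr.n Dt.none a351 a361 Tr.z

def a363 : Tr := Tr.n Dt.none a347 a348 a362

def a364 : Tr := (Tr.n Dt.none (xET (xF (xF (xF (xL (Dt.step 53 0 33))))) (xEF (xE (xT (xF (xE (xL
  (Dt.step 64 0 33)))))) (xE (Tr.n (Dt.step 60 0 1) (xT (xE (xL (Dt.step 65 0 33)))) Tr.z Tr.z))))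
  (xE (xE (xEF (Tr.n (Dt.step 68 0 1) (Tr.n (Dt.step 69 0 1) Tr.z (xT (xE (xF (xF (xF (xF (xL
  (Dt.split 65 10 69 60)))))))) Tr.z) (xEF (xF (xL (Dt.step 64 0 193))) (xE (xL (Dt.step 65 5
  321)))) Tr.z) (Tr.n (Dt.step 60 0 193) (xET (xL (Dt.step 64 0 33)) (xE (xL (Dt.step 65 10
  193)))) (xE (xE (xL (Dt.step 66 9 33)))) Tr.z)))) (Tr.n (Dt.step 62 0 1) (xF (xL (Dt.step 59 0
  1))) Tr.z (xEF (Tr.n (Dt.step 61 0 1) Tr.z Tr.z (xL (Dt.step 56 0 1057))) (xE (xL (Dt.step 57 0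
  33))))))

def a365 : Tr := (xE (xE (xE (xET (xT (Tr.n Dt.none (xTF (xF (xT (xF (xF (xF (xE (xL (Dt.step 64 0
  394)))))))) (xL (Dt.step 65 4 161))) (xF (xE (xT (xF (xE (xF (xF (xL (Dt.split 64 9 66
  62))))))))) (xE (Tr.n (Dt.step 66 4 161) Tr.z (xT (xF (xF (xF (xE (xL (Dt.split 64 12 64
  64))))))) Tr.z)))) (xEF (xET (xF (xL (Dt.step 66 8 289))) (xF (xE (xT (xE (xF (xF (xF (xL
  (Dt.step 64 0 9569)))))))))) (xE (xET (Tr.n (Dt.step 66 0 33) Tr.z (xT (xF (xE (xF (xF (xL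
  (Dt.split 64 12 66 62))))))) Tr.z) (xE (xT (xE (xF (xF (xF (xL (Dt.step 64 0
  12321)))))))))))))))

def a366 : Tr := (xEF (Tr.n (Dt.step 63 0 1) (xF (xL (Dt.step 61 0 1))) Tr.z (xE (Tr.n (Dt.step 62
  0 33) Tr.z Tr.z (xL (Dt.step 57 0 1057))))) (xE (xE (xL (Dt.step 61 0 1)))))

def a367 : Tr := Tr.n Dt.none a364 a365 a366

def a368 : Tr := Tr.n Dt.none a329 a363 a367

def a369 : Tr := Tr.n Dt.none a241 a307 a368

def a370 : Tr := (xTF (xF (xT (xF (xF (xE (xF (xF (xF (xE (xL (Dt.step 64 0 72))))))))))) (Tr.n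
  (Dt.step 67 1 2) Tr.z (xT (xF (xE (xF (xF (xF (xF (xE (xL (Dt.step 64 0 66)))))))))) Tr.z))

def a371 : Tr := (xEF (xF (Tr.n (Dt.step 65 1 7) Tr.z (xF (xE (xF (xF (xF (xF (xE (xL (Dt.step 64
  0 231))))))))) Tr.z)) (xET (Tr.n (Dt.step 66 6 2) Tr.z (xE (xF (xF (xF (xF (xF (xE (xL (Dt.step
  64 0 231))))))))) Tr.z) (xF (xEF (xT (xF (xEF (xF (xF (xF (xE (xL (Dt.step 64 0 2439)))))) (xE
  (xF (xEF (xF (xL (Dt.step 64 0 67975))) (xE (xL (Dt.step 65 1 2439))))))))) (Tr.n Dt.none (xT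
  (xEF (xF (xF (xF (xE (xL (Dt.step 64 0 71)))))) (xE (xF (xEF (xF (xL (Dt.step 64 0 68007))) (xE
  (xL (Dt.step 65 1 2471)))))))) (xE (xE (xF (xF (xEF (xF (xL (Dt.step 64 0 12679))) (xE (xL
  (Dt.step 65 11 391)))))))) (xE (xT (xE (xF (xEF (xF (xL (Dt.step 64 0 2119))) (xE (xL (Dt.step
  65 1 71)))))))))))))

def a372 : Tr := (Tr.n (Dt.step 67 1 2) (Tr.n (Dt.step 68 1 2) Tr.z (xT (xF (xF (xE (xF (xF (xF
  (xE (xL (Dt.split 64 8 67 61)))))))))) Tr.z) (xT (xF (xET (xT (xF (xEF (xF (xF (xF (xE (xL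
  (Dt.split 64 7 67 61)))))) (xEF (xF (xEF (xF (xL (Dt.split 64 7 67 61))) (xE (xL (Dt.split 65 7
  67 62))))) (xE (xE (xF (xL (Dt.split 65 7 67 62))))))))) (xE (xF (xF (xEF (xF (xF (xE (xL
  (Dt.split 64 7 67 61))))) (xE (xEF (xF (xL (Dt.split 64 7 67 61))) (xE (xL (Dt.split 65 7 67
  62)))))))))))) Tr.z)

def a373 : Tr := Tr.n Dt.none a370 a371 a372

def a374 : Tr := (Tr.n Dt.none (xF (Tr.n (Dt.step 66 5 6) Tr.z (xE (xF (xF (xF (xF (xF (xE (xL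
  (Dt.step 64 0 198))))))))) Tr.z)) (xF (Tr.n (Dt.step 65 5 8) Tr.z (xEF (xF (xF (xEF (xF (xF (xF
  (xE (xL (Dt.step 64 0 6344)))))) (xEF (xF (xEF (xF (xL (Dt.step 64 0 202952))) (xE (xL (Dt.step
  65 5 6344))))) (xE (xE (xF (xL (Dt.step 65 5 6344))))))))) (xE (xE (xF (xF (xF (xF (xE (xL
  (Dt.step 64 0 200)))))))))) Tr.z)) (xET (xL (Dt.step 67 5 2)) (xF (xE (xT (xE (xF (xF (xF (xF
  (xE (xL (Dt.step 64 0 194)))))))))))))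

def a375 : Tr := (Tr.n (Dt.step 68 1 6) Tr.z (xTF (xF (xF (xF (xF (xEF (xF (xE (xL (Dt.split 64 9
  65 63)))) (xE (xE (xL (Dt.split 65 9 65 64))))))))) (xT (xF (xF (xEF (xF (xF (xE (xL (Dt.step 64
  0 2374))))) (xE (xEF (xF (xL (Dt.step 64 0 2374))) (xE (xL (Dt.step 65 1 2374)))))))))) Tr.z)

def a376 : Tr := (xET (xTF (xF (xF (xF (xEF (xF (xF (xE (xL (Dt.step 64 0 9414))))) (xE (xEF (xF
  (xL (Dt.step 64 0 9414))) (xE (xL (Dt.step 65 8 9414))))))))) (xT (xF (xEF (xF (xF (xF (xE (xL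
  (Dt.step 64 0 9414)))))) (xEF (xF (xEF (xF (xL (Dt.step 64 0 304326))) (xE (xL (Dt.step 65 8
  9414))))) (xE (xE (xF (xL (Dt.step 65 8 9414)))))))))) (xEF (xF (xF (xEF (xF (xF (xF (xE (xL
  (Dt.step 64 0 10566)))))) (xEF (xF (xEF (xF (xL (Dt.step 64 0 338246))) (xE (xL (Dt.step 65 9
  10566))))) (xE (xE (xF (xL (Dt.step 65 9 10566))))))))) (xE (xE (xF (xF (xF (xF (xE (xL (Dt.step
  64 0 326)))))))))))

def a377 : Tr := (xE (Tr.n (Dt.step 66 1 70) Tr.z (xT (xF (xF (xEF (xF (xF (xE (xL (Dt.split 64 10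
  66 62))))) (xE (xEF (xF (xL (Dt.split 64 10 66 62))) (xE (xL (Dt.split 65 10 66 63)))))))))
  Tr.z))

def a378 : Tr := Tr.n (Dt.step 65 5 2) a375 a376 a377

def a379 : Tr := (xTF (xF (xE (xE (xL (Dt.step 68 1 6))))) (xE (xE (xL (Dt.step 65 1 6)))))

def a380 : Tr := (xE (xET (Tr.n (Dt.step 68 1 6) Tr.z (xT (xF (xE (xF (xF (xEF (xF (xL (Dt.split
  64 10 68 60))) (xE (xL (Dt.split 65 10 68 61))))))))) Tr.z) (xE (xT (xE (xF (xF (xF (xEF (xF (xL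
  (Dt.step 64 0 2374))) (xE (xL (Dt.step 65 1 326))))))))))))

def a381 : Tr := Tr.n Dt.none a378 a379 a380

def a382 : Tr := Tr.n Dt.none a374 Tr.z a381

def a383 : Tr := (Tr.n (Dt.step 67 1 2) (Tr.n (Dt.step 69 1 2) Tr.z (xT (xF (xE (xF (xF (xF (xF
  (xE (xL (Dt.split 64 8 68 60)))))))))) Tr.z) (Tr.n Dt.none (xTF (xE (xF (xF (xF (xF (xF (xE (xL
  (Dt.step 64 0 264))))))))) (xL (Dt.step 65 1 72))) (xF (xEF (xT (xF (xEF (xF (xF (xF (xE (xL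
  (Dt.split 64 7 67 61)))))) (xE (xF (xEF (xF (xL (Dt.split 64 7 67 61))) (xE (xL (Dt.split 65 7
  67 62))))))))) (Tr.n Dt.none (xT (xEF (xF (xF (xF (xE (xL (Dt.split 64 7 67 61)))))) (xE (xF
  (xEF (xF (xL (Dt.split 64 7 67 61))) (xE (xL (Dt.split 65 7 67 62)))))))) (xE (xE (xF (xF (xEF
  (xF (xL (Dt.split 64 7 67 61))) (xE (xL (Dt.split 65 7 67 62)))))))) (xE (xT (xE (xF (xEF (xF
  (xL (Dt.split 64 7 67 61))) (xE (xL (Dt.split 65 7 67 62))))))))))) (xE (xL (Dt.step 66 1 66))))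
  Tr.z)

def a384 : Tr := (xEF (xE (xF (xL (Dt.step 66 6 231)))) (xET (xE (xL (Dt.step 66 1 2))) (xE (xE
  (xL (Dt.step 65 1 9))))))

def a385 : Tr := Tr.n Dt.none a383 a384 Tr.z

def a386 : Tr := Tr.n Dt.none a373 a382 a385

def a387 : Tr := (Tr.n Dt.none (xEF (xT (xF (xF (xF (xF (xF (xF (xE (xL (Dt.step 64 0 5))))))))))
  (xL (Dt.step 67 4 5))) (xEF (xT (xF (xF (xF (xEF (xF (xF (xF (xE (xL (Dt.step 64 0 261)))))) (xE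
  (xF (xEF (xF (xL (Dt.step 64 0 8453))) (xE (xL (Dt.step 65 7 261))))))))))) (Tr.n (Dt.step 66 4
  8) Tr.z (xEF (xF (xE (xF (xF (xF (xF (xE (xL (Dt.step 64 0 5288))))))))) (xE (xL (Dt.split 64 0
  64 64)))) Tr.z)) (xE (xL (Dt.step 68 4 5))))

def a388 : Tr := (xF (Tr.n Dt.none (Tr.n (Dt.step 69 4 7) Tr.z (xF (xE (xL (Dt.step 66 4 162))))
  Tr.z) (xF (xE (xE (xL (Dt.step 68 4 7))))) (xET (xE (xL (Dt.step 65 4 7))) (xE (xE (xL (Dt.step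
  67 4 7)))))))

def a389 : Tr := (xET (Tr.n (Dt.step 66 4 2) (Tr.n (Dt.step 69 4 2) Tr.z (xT (xEF (xF (xF (xF (xF
  (xF (xE (xL (Dt.split 64 9 69 59)))))))) (xE (xF (xF (xF (xEF (xF (xL (Dt.split 64 9 69 59)))
  (xE (xL (Dt.split 65 9 69 60)))))))))) Tr.z) (xET (xT (xE (xF (xF (xF (xF (xEF (xF (xL (Dt.step
  64 0 9513))) (xE (xL (Dt.step 65 8 297)))))))))) (xE (xF (xE (xF (xF (xF (xF (xE (xL (Dt.step 64
  0 5290))))))))))) Tr.z) (xTF (xF (xE (xE (xL (Dt.step 69 4 2))))) (xE (xE (xL (Dt.step 66 4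
  2))))))

def a390 : Tr := Tr.n Dt.none a387 a388 a389

def a391 : Tr := (Tr.n Dt.none (xF (xT (xE (xF (xE (xL (Dt.step 68 1 201))))))) (xF (xE (xE (xE
  (xF (xL (Dt.step 68 1 7))))))) (xET (xE (Tr.n (Dt.step 71 1 0) Tr.z (xF (xE (xL (Dt.split 68 4
  68 64)))) Tr.z)) (xF (xE (xE (xE (xL (Dt.split 70 4 68 66))))))))

def a392 : Tr := (Tr.n (Dt.step 68 1 5) (Tr.n (Dt.step 70 1 5) Tr.z (xT (xEF (xF (xF (xF (xF (xEF
  (xF (xL (Dt.split 64 9 70 58))) (xE (xL (Dt.split 65 9 70 59)))))))) (xEF (xF (xF (xEF (xF (xF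
  (xL (Dt.split 64 9 70 58)))) (xE (xF (xL (Dt.split 65 9 70 59))))))) (xE (xF (xF (xF (xE (xL
  (Dt.split 64 9 67 61)))))))))) (Tr.n (Dt.step 67 4 69) Tr.z (xT (xF (xE (xF (xF (xF (xE (xL
  (Dt.split 64 10 67 61))))))))) Tr.z)) (xEF (xT (xEF (xF (xF (xF (xEF (xF (xF (xL (Dt.step 64 0
  9513)))) (xE (xF (xL (Dt.step 65 8 9513)))))))) (xE (xF (xF (xF (xF (xE (xL (Dt.step 64 0
  9577)))))))))) (xE (Tr.n (Dt.step 65 8 165) Tr.z (xE (xF (xF (xF (xF (xE (xL (Dt.step 64 0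
  9509)))))))) Tr.z))) Tr.z)

def a393 : Tr := (Tr.n Dt.none (Tr.n (Dt.step 69 7 8) Tr.z (xF (xE (xL (Dt.step 66 1 328)))) Tr.z)
  (xF (xE (xE (xL (Dt.step 70 1 5))))) (xET (xET (xL (Dt.step 67 1 261)) (xE (xL (Dt.step 68 10
  363)))) (xE (xE (xL (Dt.step 69 9 330))))))

def a394 : Tr := (Tr.n (Dt.step 65 1 66) (xET (Tr.n (Dt.step 67 4 69) Tr.z (xT (xF (xE (xF (xF (xF
  (xE (xL (Dt.split 64 10 67 61))))))))) Tr.z) (xE (xT (xE (xF (xF (xF (xF (xE (xL (Dt.step 64 0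
  10565))))))))))) (Tr.n Dt.none (xE (xL (Dt.step 66 4 297))) (xF (xE (xE (xE (xL (Dt.split 65 8
  65 64)))))) (xT (xE (xE (xE (xL (Dt.split 66 0 64 66))))))) Tr.z)

def a395 : Tr := Tr.n Dt.none a392 a393 a394

def a396 : Tr := (Tr.n Dt.none (Tr.n Dt.none (Tr.n (Dt.step 70 6 7) Tr.z (xF (xE (xL (Dt.step 67 1
  231)))) Tr.z) (xF (xE (xE (xL (Dt.step 69 6 295))))) (xF (xT (xE (xE (xE (xL (Dt.split 66 0 64
  66)))))))) (xF (xE (xE (xE (xL (Dt.step 71 1 5)))))) (xET (xET (xET (xL (Dt.step 69 1 5)) (xEF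
  (xL (Dt.step 70 10 11)) (xE (xE (xL (Dt.step 66 1 229)))))) (xE (xE (xL (Dt.step 69 9 5))))) (xE
  (xE (xE (Tr.n (Dt.step 70 8 5) (xF (xL (Dt.split 64 0 64 64))) Tr.z Tr.z))))))

def a397 : Tr := (xET (xET (xET (Tr.n (Dt.step 68 1 5) Tr.z (xT (xE (xF (xF (xF (xF (xE (xL
  (Dt.split 64 10 68 60))))))))) Tr.z) (xE (xL (Dt.step 66 9 10)))) (xET (xE (xL (Dt.step 67 8
  5))) (xF (xE (xE (xE (xL (Dt.split 66 0 64 66)))))))) (xE (xE (xET (xL (Dt.step 68 7 5)) (xE (xL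
  (Dt.step 69 10 5)))))))

def a398 : Tr := Tr.n Dt.none a395 a396 a397

def a399 : Tr := Tr.n Dt.none a390 a391 a398

def a400 : Tr := (Tr.n (Dt.step 69 1 2) Tr.z (xTF (xEF (xF (xF (xF (xF (xF (xE (xL (Dt.split 64 8
  69 59)))))))) (xT (xF (xF (xF (xF (xE (xE (xL (Dt.split 64 8 64 64)))))))))) (xL (Dt.step 65 1
  66))) Tr.z)

def a401 : Tr := (xTF (xF (xT (xF (xF (xF (xEF (xF (xE (xL (Dt.step 64 0 8520)))) (xE (xE (xL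
  (Dt.step 65 7 328)))))))))) (xL (Dt.step 66 7 66)))

def a402 : Tr := (xEF (xF (xF (xF (xF (xF (xT (xE (xE (xL (Dt.split 65 7 68 61)))))))))) (xET
  (Tr.n Dt.none (xT (xF (xF (xF (xF (xE (xL (Dt.split 65 7 68 61)))))))) (xF (xEF (xF (xF (xEF (xF
  (xL (Dt.split 64 7 68 60))) (xE (xL (Dt.split 65 7 68 61)))))) (xEF (xF (xEF (xF (xL (Dt.split
  64 7 67 61))) (xE (xL (Dt.split 65 7 67 62))))) (xE (xE (xF (xL (Dt.split 65 7 67 62))))))))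
  (xEF (xT (xF (xF (xF (xE (xL (Dt.split 65 7 68 61))))))) (xEF (xT (xF (xF (xE (xL (Dt.split 65 7
  68 61)))))) (xE (xT (xF (xE (xL (Dt.split 65 7 68 61))))))))) (xE (xF (xF (xEF (xF (xF (xE (xL
  (Dt.split 64 7 67 61))))) (xE (xEF (xF (xL (Dt.split 64 7 67 61))) (xE (xL (Dt.split 65 7 67
  62)))))))))))

def a403 : Tr := (xE (Tr.n (Dt.step 65 1 258) Tr.z (xT (xF (xF (xF (xEF (xF (xE (xL (Dt.split 64
  10 65 63)))) (xE (xE (xL (Dt.split 65 10 65 64))))))))) Tr.z))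

def a404 : Tr := Tr.n Dt.none a401 a402 a403

def a405 : Tr := Tr.n (Dt.step 68 1 2) a400 a404 Tr.z

def a406 : Tr := (Tr.n (Dt.step 70 1 2) Tr.z (xTF (xF (xF (xF (xF (xEF (xF (xE (xL (Dt.split 64 9
  65 63)))) (xE (xE (xL (Dt.split 65 9 65 64))))))))) (xT (xF (xF (xEF (xF (xF (xE (xL (Dt.step 64
  0 7495))))) (xE (xEF (xF (xL (Dt.step 64 0 7495))) (xE (xL (Dt.step 65 6 7495)))))))))) Tr.z)

def a407 : Tr := (xTF (xF (xF (xF (xEF (xF (xF (xE (xL (Dt.step 64 0 9449))))) (xE (xEF (xF (xL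
  (Dt.step 64 0 9449))) (xE (xL (Dt.step 65 8 9449))))))))) (Tr.n Dt.none (xT (xF (xF (xF (xF (xE
  (xL (Dt.step 65 1 13543)))))))) (xF (xEF (xF (xF (xF (xE (xL (Dt.step 64 0 9449)))))) (xEF (xF
  (xEF (xF (xL (Dt.step 64 0 304361))) (xE (xL (Dt.step 65 8 9449))))) (xE (xE (xF (xL (Dt.step 65
  8 9449)))))))) (xEF (xT (xF (xF (xF (xE (xL (Dt.step 65 1 14567))))))) (xEF (xT (xF (xF (xE (xL
  (Dt.step 65 1 15591)))))) (xE (xT (xF (xE (xL (Dt.step 65 1 7399))))))))))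

def a408 : Tr := (xEF (xF (xF (xEF (xF (xF (xF (xE (xL (Dt.step 64 0 10570)))))) (xEF (xF (xEF (xF
  (xL (Dt.step 64 0 338250))) (xE (xL (Dt.step 65 9 10570))))) (xE (xE (xF (xL (Dt.step 65 9
  10570))))))))) (xE (xE (xF (xF (xF (xF (xE (xL (Dt.step 64 0 327))))))))))

def a409 : Tr := (xE (xT (xE (xF (xF (xF (xEF (xF (xL (Dt.step 64 0 72999))) (xE (xL (Dt.step 65 1
  7463))))))))))

def a410 : Tr := Tr.n Dt.none a407 a408 a409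

def a411 : Tr := (xE (Tr.n (Dt.step 66 6 66) Tr.z (xT (xF (xF (xEF (xF (xF (xE (xL (Dt.split 64 10
  66 62))))) (xE (xEF (xF (xL (Dt.split 64 10 66 62))) (xE (xL (Dt.split 65 10 66 63)))))))))
  Tr.z))

def a412 : Tr := Tr.n Dt.none a406 a410 a411

def a413 : Tr := (xTF (xF (xE (xE (xL (Dt.step 68 1 2))))) (xE (xE (xL (Dt.split 65 6 65 64)))))

def a414 : Tr := (xE (xET (Tr.n (Dt.step 68 1 66) Tr.z (xT (xF (xE (xF (xF (xEF (xF (xL (Dt.split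
  64 10 68 60))) (xE (xL (Dt.split 65 10 68 61))))))))) Tr.z) (xE (Tr.n (Dt.step 65 9 74) Tr.z (xE
  (xF (xF (xF (xEF (xF (xL (Dt.step 64 0 75842))) (xE (xL (Dt.step 65 1 10306)))))))) Tr.z))))

def a415 : Tr := Tr.n Dt.none a412 a413 a414

def a416 : Tr := (xE (xET (Tr.n (Dt.step 64 0 66) (xL (Dt.step 64 0 66)) (xE (xL (Dt.step 65 9
  66))) Tr.z) (xE (Tr.n (Dt.step 65 8 66) (xL (Dt.step 66 8 66)) Tr.z Tr.z))))

def a417 : Tr := Tr.n (Dt.step 65 1 2) a405 a415 a416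

def a418 : Tr := (xEF (xE (xL (Dt.step 71 5 6))) (xT (xT (xF (xE (xE (xE (xL (Dt.step 66 1
  66)))))))))

def a419 : Tr := (xF (xET (xET (xET (xL (Dt.step 70 1 2)) (xEF (xL (Dt.step 71 10 11)) (xE (xE (xL
  (Dt.split 65 5 65 64)))))) (xE (xEF (Tr.n (Dt.step 70 9 10) Tr.z Tr.z (xE (xL (Dt.split 65 5 65
  64)))) (xE (xE (xL (Dt.step 66 1 234))))))) (xE (xE (xET (Tr.n (Dt.step 71 8 9) (xF (xL
  (Dt.split 65 5 65 64))) (xT (xEF (xF (xF (xF (xEF (xF (xL (Dt.split 64 12 69 59))) (xE (xL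
  (Dt.split 65 12 69 60))))))) (xE (xF (xEF (xF (xF (xL (Dt.split 64 12 69 59)))) (xE (xF (xL
  (Dt.split 65 12 69 60))))))))) (xE (xL (Dt.step 66 1 297)))) (xE (xT (xE (xF (xF (xEF (xF (xF
  (xL (Dt.step 64 0 12684)))) (xE (xF (xL (Dt.step 65 11 12684)))))))))))))))

def a420 : Tr := (xET (xET (Tr.n (Dt.step 64 0 2) (xL (Dt.step 66 1 2)) (xET (xL (Dt.step 67 9
  10)) (xF (xE (xE (xL (Dt.split 64 9 64 64)))))) Tr.z) (xEF (xET (xL (Dt.step 68 8 2)) (xF (xE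
  (xE (xL (Dt.step 65 8 73)))))) (xT (xE (xE (xE (xL (Dt.split 66 0 64 66)))))))) (xE (xET (xET
  (xL (Dt.step 69 1 8)) (Tr.n Dt.none (Tr.n (Dt.step 70 10 11) Tr.z (xT (xEF (xF (xF (xE (xF (xF
  (xL (Dt.split 64 12 70 58))))))) (xE (xE (xF (xF (xF (xL (Dt.split 64 12 70 58))))))))) Tr.z)
  (xE (xT (xE (xF (xE (xF (xF (xF (xL (Dt.step 64 0 12684)))))))))) (xE (xE (xL (Dt.step 66 7
  264)))))) (xE (xE (xL (Dt.step 71 9 10)))))))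

def a421 : Tr := Tr.n Dt.none a418 a419 a420

def a422 : Tr := Tr.n (Dt.step 65 1 2) a417 a421 Tr.z

def a423 : Tr := Tr.n Dt.none a386 a399 a422

def a424 : Tr := (Tr.n Dt.none (xF (Tr.n (Dt.step 68 3 4) Tr.z (xT (xF (xE (xF (xF (xF (xF (xE (xL
  (Dt.split 64 9 68 60)))))))))) Tr.z)) (xEF (xT (xF (xF (xE (xF (xF (xF (xF (xE (xL (Dt.step 64 0
  260))))))))))) (Tr.n (Dt.step 67 3 8) (xT (xE (xF (xF (xF (xF (xF (xE (xL (Dt.step 64 0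
  264)))))))))) (xF (xE (xL (Dt.step 65 3 8)))) Tr.z)) (xET (Tr.n (Dt.step 69 3 4) Tr.z (xT (xEF
  (xF (xF (xF (xF (xF (xE (xL (Dt.split 64 9 69 59)))))))) (xE (xF (xF (xF (xEF (xF (xL (Dt.split
  64 9 69 59))) (xE (xL (Dt.split 65 9 69 60)))))))))) Tr.z) (xE (xT (xE (xF (xF (xF (xF (xEF (xF
  (xL (Dt.step 64 0 9508))) (xE (xL (Dt.step 65 8 292)))))))))))))

def a425 : Tr := (xF (Tr.n Dt.none (Tr.n (Dt.step 70 3 4) Tr.z (xF (xE (xL (Dt.step 67 3 132))))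
  Tr.z) (xF (xE (xE (xL (Dt.step 69 3 4))))) (xE (xE (xL (Dt.step 66 3 7))))))

def a426 : Tr := (xET (Tr.n (Dt.step 67 3 4) (Tr.n (Dt.step 70 3 4) Tr.z (xT (xF (xE (xF (xF (xF
  (xF (xE (xL (Dt.split 64 9 68 60)))))))))) Tr.z) (xET (xT (xE (xF (xF (xF (xF (xF (xE (xL
  (Dt.step 64 0 297)))))))))) (xF (xE (xL (Dt.split 65 8 65 64))))) Tr.z) (Tr.n Dt.none (Tr.n
  (Dt.step 68 7 8) Tr.z (xF (xE (xL (Dt.step 66 7 324)))) Tr.z) (xF (xE (xE (xL (Dt.step 70 3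
  4))))) (xET (xET (xL (Dt.step 67 3 4)) (xE (xL (Dt.step 68 10 11)))) (xE (xE (xL (Dt.step 69 9
  4)))))))

def a427 : Tr := Tr.n Dt.none a424 a425 a426

def a428 : Tr := (Tr.n Dt.none (xF (xT (xE (xF (xE (xL (Dt.step 69 3 201))))))) (xF (xE (xE (xE
  (xF (xL (Dt.step 69 3 7))))))) (Tr.n Dt.none (xET (Tr.n (Dt.step 72 3 6) (xT (xF (xL (Dt.step 65
  3 134)))) (xF (xE (xL (Dt.step 69 3 134)))) (xE (xL (Dt.step 67 3 134)))) (xF (xE (xE (xL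
  (Dt.step 71 5 134)))))) (xF (xE (xE (xE (xL (Dt.step 71 3 6)))))) (xE (xE (xE (xL (Dt.step 69 3
  6)))))))

def a429 : Tr := (Tr.n Dt.none (Tr.n (Dt.step 69 3 2) (Tr.n (Dt.step 71 3 4) Tr.z (xT (xE (xF (xF
  (xF (xF (xF (xE (xL (Dt.split 64 9 69 59)))))))))) Tr.z) (xF (xE (xL (Dt.step 66 3 130)))) Tr.z)
  (xF (xE (xE (xL (Dt.step 68 3 130))))) (xET (xE (xL (Dt.step 65 3 130))) (xTF (xF (xE (xE (xE
  (xL (Dt.step 66 3 132)))))) (xT (xE (xE (xE (xL (Dt.split 65 0 64 65)))))))))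

def a430 : Tr := (Tr.n Dt.none (xF (xT (xE (xL (Dt.step 67 1 363))))) (xF (xE (xE (xE (xF (xL
  (Dt.split 64 0 64 64))))))) (xEF (xET (xL (Dt.step 69 6 135)) (xEF (xL (Dt.step 70 10 359)) (xE
  (xE (xL (Dt.step 66 1 4231)))))) (xT (xE (xE (xE (xL (Dt.split 65 0 64 65))))))))

def a431 : Tr := (xF (xE (xE (xE (xL (Dt.step 72 3 2))))))

def a432 : Tr := (xET (xET (xET (xL (Dt.step 70 3 4)) (xEF (Tr.n (Dt.step 71 10 4) Tr.z (xT (xF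
  (xE (xE (xF (xF (xF (xL (Dt.split 65 12 71 58))))))))) Tr.z) (xE (xE (xL (Dt.step 65 1 228))))))
  (xE (xEF (Tr.n (Dt.step 69 3 4) Tr.z Tr.z (xE (xL (Dt.step 65 1 68)))) (xE (xE (xL (Dt.step 66 1
  228))))))) (xE (xEF (xET (Tr.n (Dt.step 71 3 4) (xF (xL (Dt.step 65 3 68))) (xT (xEF (xF (xF (xF
  (xEF (xF (xL (Dt.split 64 12 69 59))) (xE (xL (Dt.split 65 12 69 60))))))) (xE (xF (xEF (xF (xF
  (xL (Dt.split 64 12 69 59)))) (xE (xF (xL (Dt.split 65 12 69 60))))))))) (xE (xL (Dt.step 66 1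
  292)))) (xE (xT (xE (xF (xF (xEF (xF (xF (xL (Dt.step 64 0 12676)))) (xE (xF (xL (Dt.step 65 11
  12676))))))))))) (xE (xE (xET (xL (Dt.split 66 0 64 66)) (xE (xT (xE (xF (xF (xF (xL (Dt.split
  64 0 64 64))))))))))))))

def a433 : Tr := Tr.n Dt.none a430 a431 a432

def a434 : Tr := (xET (xE (xET (xL (Dt.step 66 3 4)) (xE (xL (Dt.step 67 9 4))))) (xE (xET (xET
  (xL (Dt.step 69 3 4)) (xET (Tr.n (Dt.step 70 10 4) Tr.z (xT (xEF (xF (xF (xE (xF (xF (xL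
  (Dt.split 64 12 70 58))))))) (xE (xE (xF (xF (xF (xL (Dt.split 64 12 70 58))))))))) Tr.z) (xE
  (xT (xE (xF (xE (xF (xF (xF (xL (Dt.step 64 0 12676)))))))))))) (xE (xE (xL (Dt.step 71 9
  4)))))))

def a435 : Tr := Tr.n Dt.none a429 a433 a434

def a436 : Tr := Tr.n Dt.none a427 a428 a435

def a437 : Tr := (xF (xE (xE (xE (xL (Dt.step 75 1 0))))))

def a438 : Tr := (Tr.n (Dt.step 73 1 0) (xT (xF (xL (Dt.step 67 1 5)))) Tr.z (xT (xF (xE (xE (xL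
  (Dt.step 66 1 5)))))))

def a439 : Tr := (xF (xEF (xET (Tr.n (Dt.step 69 1 5) (xF (xL (Dt.step 65 4 69))) (xT (xEF (xF (xF
  (xF (xEF (xF (xL (Dt.split 64 12 69 59))) (xE (xL (Dt.split 65 12 69 60))))))) (xE (xF (xEF (xF
  (xF (xL (Dt.split 64 12 69 59)))) (xE (xF (xL (Dt.split 65 12 69 60))))))))) (xE (xL (Dt.step 66
  1 293)))) (xE (xT (xE (xF (xF (xEF (xF (xF (xL (Dt.step 64 0 12677)))) (xE (xF (xL (Dt.step 65
  11 12677))))))))))) (xE (xE (xET (Tr.n (Dt.step 66 1 5) Tr.z (xT (xF (xE (xF (xF (xL (Dt.split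
  64 14 66 62))))))) Tr.z) (xE (xT (xE (xF (xF (xF (xL (Dt.step 64 0 453)))))))))))))

def a440 : Tr := (xET (xET (xL (Dt.step 70 4 5)) (xEF (Tr.n (Dt.step 71 10 5) Tr.z (xT (xF (xE (xE
  (xF (xF (xF (xL (Dt.split 65 12 71 58))))))))) Tr.z) (xE (xE (xL (Dt.step 65 4 165)))))) (xE (xE
  (xL (Dt.step 69 9 5)))))

def a441 : Tr := Tr.n Dt.none a438 a439 a440

def a442 : Tr := Tr.n Dt.none a441 Tr.z Tr.z

def a443 : Tr := Tr.n Dt.none a442 Tr.z Tr.z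

def a444 : Tr := Tr.n Dt.none Tr.z a437 a443

def a445 : Tr := (Tr.n (Dt.step 68 1 4) (Tr.n (Dt.step 71 1 4) (xL (Dt.step 72 3 4)) (xTF (xF (xE
  (xL (Dt.split 67 8 67 64)))) (xE (xL (Dt.step 67 1 292)))) Tr.z) (Tr.n Dt.none (Tr.n (Dt.step 71
  7 8) Tr.z (xF (xE (xL (Dt.step 68 7 328)))) Tr.z) (xF (xE (xE (xL (Dt.step 70 1 4))))) (xET (xET
  (xL (Dt.step 69 1 132)) (Tr.n Dt.none (Tr.n (Dt.step 70 10 132) Tr.z (xT (xEF (xF (xF (xE (xF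
  (xF (xL (Dt.split 64 12 70 58))))))) (xE (xE (xF (xF (xF (xL (Dt.split 64 12 70 58)))))))))
  Tr.z) (xE (xT (xE (xF (xE (xF (xF (xF (xL (Dt.step 64 0 405644)))))))))) (xE (xE (xL (Dt.step 66
  1 2180)))))) (xE (xE (xL (Dt.step 71 9 138)))))) (xET (xET (xL (Dt.step 66 1 132)) (xE (xL
  (Dt.step 67 9 138)))) (xEF (xE (xL (Dt.step 68 8 137))) (xT (xE (xE (xET (xL (Dt.split 66 0 64
  66)) (xE (xT (xE (xF (xF (xF (xL (Dt.split 64 0 64 64)))))))))))))))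

def a446 : Tr := (Tr.n Dt.none (Tr.n Dt.none (Tr.n (Dt.step 72 6 7) (xT (xF (xL (Dt.split 65 0 64
  65)))) (xF (xE (xL (Dt.step 69 6 231)))) (xE (xL (Dt.step 67 1 231)))) (xF (xE (xE (xL (Dt.step
  71 6 135))))) (Tr.n Dt.none (xET (xL (Dt.step 68 6 135)) (xF (xE (xE (xL (Dt.step 65 6
  2183)))))) (xE (xE (xL (Dt.step 70 6 135)))) (xT (xE (xE (xET (xL (Dt.split 66 0 64 66)) (xE (xT
  (xE (xF (xF (xF (xL (Dt.split 64 0 64 64)))))))))))))) (xF (xE (xE (xE (xL (Dt.step 73 1 4))))))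
  (xE (xE (xET (xL (Dt.step 69 3 68)) (xF (xE (xET (Tr.n (Dt.step 66 3 7396) Tr.z (xT (xF (xE (xF
  (xF (xL (Dt.split 64 14 66 62))))))) Tr.z) (xE (xT (xE (xF (xF (xF (xL (Dt.step 64 0
  466372)))))))))))))))

def a447 : Tr := Tr.n Dt.none a445 a446 Tr.z

def a448 : Tr := (xET (xET (xE (xE (xL (Dt.step 66 1 4)))) (xE (xE (xT (xF (xE (xE (xL (Dt.split
  66 0 64 66))))))))) (xE (xE (xE (xT (xF (xE (xE (xT (xT (xE (xF (xF (xF (xL (Dt.split 64 0 64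
  64))))))))))))))))

def a449 : Tr := Tr.n Dt.none a447 Tr.z a448

def a450 : Tr := Tr.n Dt.none a436 a444 a449

def a451 : Tr := (Tr.n (Dt.step 69 1 2) Tr.z (xT (xF (xT (xF (xF (xF (xEF (xF (xE (xL (Dt.split 64
  8 65 63)))) (xE (xE (xL (Dt.split 65 8 65 64))))))))))) Tr.z)

def a452 : Tr := (xTF (xF (xT (xF (xF (xEF (xF (xF (xE (xL (Dt.step 64 0 8520))))) (xE (xEF (xF
  (xL (Dt.step 64 0 8520))) (xE (xL (Dt.step 65 7 8520)))))))))) (xL (Dt.step 65 1 66)))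

def a453 : Tr := (Tr.n Dt.none (xF (xEF (xT (xF (xF (xF (xF (xE (xL (Dt.split 65 7 69 60))))))))
  (xEF (xT (xF (xF (xF (xE (xL (Dt.split 65 7 69 60))))))) (xEF (xT (xF (xF (xE (xL (Dt.split 65 7
  69 60)))))) (xE (xT (xF (xE (xL (Dt.split 65 7 69 60)))))))))) (xF (xE (xE (xF (xF (xF (xF (xE
  (xL (Dt.split 64 7 69 59)))))))))) (xET (xT (xE (xF (xF (xF (xEF (xF (xL (Dt.split 64 7 69 59)))
  (xE (xL (Dt.split 65 7 69 60))))))))) (xE (xF (xEF (xF (xF (xF (xE (xL (Dt.split 64 7 69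
  59)))))) (xEF (xF (xEF (xF (xL (Dt.split 64 7 69 59))) (xE (xL (Dt.split 65 7 68 61))))) (xE (xE
  (xF (xL (Dt.split 65 7 68 61)))))))))))

def a454 : Tr := (xE (Tr.n (Dt.step 66 1 66) Tr.z (xT (xF (xF (xEF (xF (xF (xE (xL (Dt.split 64 10
  66 62))))) (xE (xEF (xF (xL (Dt.split 64 10 66 62))) (xE (xL (Dt.split 65 10 66 63)))))))))
  Tr.z))

def a455 : Tr := Tr.n Dt.none a452 a453 a454

def a456 : Tr := (xET (xET (xL (Dt.step 64 0 66)) (xE (xL (Dt.step 65 9 74)))) (xE (xE (xL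
  (Dt.step 66 8 73)))))

def a457 : Tr := Tr.n (Dt.step 69 1 2) a451 a455 a456

def a458 : Tr := (Tr.n (Dt.step 70 6 7) (Tr.n (Dt.step 71 1 7) Tr.z (xTF (xF (xF (xF (xEF (xF (xF
  (xE (xL (Dt.split 64 9 66 62))))) (xE (xEF (xF (xL (Dt.split 64 9 66 62))) (xE (xL (Dt.split 65
  9 66 63))))))))) (xT (xF (xEF (xF (xF (xF (xE (xL (Dt.step 64 0 7495)))))) (xEF (xF (xEF (xF (xL
  (Dt.step 64 0 236871))) (xE (xL (Dt.step 65 6 7495))))) (xE (xE (xF (xL (Dt.step 65 6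
  7495)))))))))) (xL (Dt.step 66 6 66))) (xE (xT (xF (xF (xEF (xF (xF (xF (xE (xL (Dt.step 64 0
  9449)))))) (xEF (xF (xEF (xF (xL (Dt.step 64 0 304361))) (xE (xL (Dt.step 65 8 9449))))) (xE (xE
  (xF (xL (Dt.step 65 8 9449))))))))))) (xE (Tr.n (Dt.step 67 1 71) Tr.z (xT (xF (xEF (xF (xF (xF
  (xE (xL (Dt.split 64 10 67 61)))))) (xEF (xF (xEF (xF (xL (Dt.split 64 10 67 61))) (xE (xL
  (Dt.split 65 10 67 62))))) (xE (xE (xF (xL (Dt.split 65 10 67 62))))))))) Tr.z)))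

def a459 : Tr := (xF (xE (xE (xL (Dt.step 68 1 2)))))

def a460 : Tr := (xE (xE (xL (Dt.step 66 1 226))))

def a461 : Tr := Tr.n Dt.none a458 a459 a460

def a462 : Tr := Tr.n (Dt.step 67 1 2) a457 a461 Tr.z

def a463 : Tr := (Tr.n (Dt.step 68 5 6) (Tr.n (Dt.step 71 5 6) (Tr.n (Dt.step 70 5 2) Tr.z Tr.z
  (Tr.n (Dt.step 67 5 70) Tr.z (xT (xF (xE (xF (xF (xF (xE (xL (Dt.split 64 10 67 61)))))))))
  Tr.z)) (xF (xE (Tr.n (Dt.step 67 8 297) Tr.z (xE (xF (xF (xF (xF (xE (xL (Dt.step 64 0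
  9510)))))))) Tr.z))) Tr.z) (xTF (xF (xE (xE (xL (Dt.step 70 1 6))))) (xE (xE (xL (Dt.step 69 5
  262))))) (xET (xET (Tr.n (Dt.step 67 5 70) Tr.z (xT (xF (xE (xF (xF (xF (xE (xL (Dt.split 64 10
  67 61))))))))) Tr.z) (xE (Tr.n (Dt.step 67 9 330) Tr.z (xE (xF (xF (xF (xF (xE (xL (Dt.step 64 0
  10566)))))))) Tr.z))) (xF (xT (xE (xE (xE (xL (Dt.split 66 0 64 66)))))))))

def a464 : Tr := (xTF (xF (xE (xE (xE (xL (Dt.step 71 1 2)))))) (xET (xET (xET (xL (Dt.step 71 1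
  2)) (xEF (xL (Dt.step 70 10 11)) (xE (xE (xL (Dt.step 66 1 226)))))) (xE (xE (Tr.n (Dt.step 71 9
  10) Tr.z Tr.z (xE (xL (Dt.step 66 1 330))))))) (xE (xE (xE (Tr.n (Dt.step 70 8 9) Tr.z (xT (xE
  (xF (xF (xEF (xF (xF (xL (Dt.split 64 12 70 58)))) (xE (xF (xL (Dt.split 65 12 70 59)))))))))
  Tr.z))))))

def a465 : Tr := (xET (xET (Tr.n (Dt.step 65 1 66) (Tr.n (Dt.step 68 1 194) Tr.z (xT (xE (xF (xF
  (xF (xF (xE (xL (Dt.split 64 10 68 60))))))))) Tr.z) (xET (xL (Dt.step 68 9 330)) (xF (xE (xE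
  (xL (Dt.split 65 9 65 64)))))) Tr.z) (xEF (xET (xL (Dt.step 69 1 297)) (xF (xE (xE (xL (Dt.step
  66 8 11561)))))) (xE (xT (xE (xE (xL (Dt.split 66 0 64 66)))))))) (xE (xET (xET (xL (Dt.step 70
  7 264)) (xE (Tr.n (Dt.step 71 10 363) Tr.z (xT (xE (xF (xE (xF (xF (xF (xL (Dt.split 64 12 71
  57))))))))) Tr.z))) (xE (xE (xL (Dt.step 70 9 74)))))))

def a466 : Tr := Tr.n Dt.none a463 a464 a465

def a467 : Tr := (xE (xET (xET (xL (Dt.step 64 0 66)) (xE (xL (Dt.step 65 8 297)))) (xE (xE (xL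
  (Dt.step 66 7 264))))))

def a468 : Tr := Tr.n Dt.none a462 a466 a467

def a469 : Tr := (Tr.n Dt.none (Tr.n (Dt.step 69 4 5) (Tr.n (Dt.step 72 4 5) (Tr.n (Dt.step 71 4
  2) Tr.z (xT (xEF (xF (xF (xF (xEF (xF (xF (xL (Dt.split 64 9 71 57)))) (xE (xF (xL (Dt.split 65
  9 71 58)))))))) (xE (xF (xF (xF (xF (xE (xL (Dt.split 64 9 68 60)))))))))) Tr.z) (xF (xE (xL
  (Dt.step 68 4 297)))) Tr.z) (Tr.n Dt.none (Tr.n (Dt.step 70 7 2) Tr.z (xF (xE (xL (Dt.split 67 0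
  64 67)))) Tr.z) (xF (xE (xE (xL (Dt.split 69 7 69 64))))) (xET (xET (xL (Dt.step 70 4 165)) (xE
  (xL (Dt.step 71 10 171)))) (xE (xE (xL (Dt.step 70 9 170)))))) (xET (xT (xE (xL (Dt.step 68 4
  170)))) (xEF (xE (xL (Dt.step 69 8 169))) (xT (xE (xE (xE (xL (Dt.split 67 0 64 67))))))))) (xTF
  (xF (xE (xE (xE (xL (Dt.step 72 4 5)))))) (xE (xE (xET (xL (Dt.step 70 4 229)) (xF (xE (xE (xL
  (Dt.step 67 4 7397))))))))) (xE (xE (xE (xL (Dt.step 66 4 69))))))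

def a470 : Tr := (xF (xET (xET (xET (xET (xL (Dt.step 70 1 6)) (xE (xL (Dt.step 71 10 6)))) (xE
  (xE (xL (Dt.step 72 9 10))))) (xE (xE (xE (xL (Dt.step 73 8 9)))))) (xE (xE (xE (xE (xL
  (Dt.split 72 0 64 72))))))))

def a471 : Tr := (xET (xET (xET (xET (xL (Dt.step 67 1 2)) (xE (xL (Dt.step 68 9 2)))) (xE (xE (xL
  (Dt.step 69 8 2))))) (xE (xE (xET (xL (Dt.step 70 7 2)) (xF (xE (xE (xL (Dt.split 67 0 64
  67))))))))) (xE (xET (xET (xET (xL (Dt.step 71 6 2)) (xE (xL (Dt.step 72 10 2)))) (xE (xE (xL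
  (Dt.step 73 9 2))))) (xE (xE (xE (xL (Dt.split 72 0 64 72))))))))

def a472 : Tr := Tr.n Dt.none a469 a470 a471

def a473 : Tr := (xET (xET (xET (xET (xL (Dt.step 65 1 2)) (xE (xL (Dt.step 66 8 2)))) (xE (xE (xL
  (Dt.step 67 7 2))))) (xE (xE (xE (xL (Dt.step 68 6 2)))))) (xE (xET (xET (Tr.n (Dt.step 66 1 2)
  (xL (Dt.step 68 5 2)) (xET (xL (Dt.step 69 9 2)) (xF (xE (xE (xL (Dt.split 66 9 66 64))))))
  Tr.z) (xE (xE (xL (Dt.step 70 8 2))))) (xE (xE (xE (xL (Dt.step 71 7 2))))))))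

def a474 : Tr := Tr.n Dt.none a468 a472 a473

def a475 : Tr := Tr.n Dt.none a423 a450 a474

def a476 : Tr := (Tr.n Dt.none (xF (Tr.n (Dt.step 68 2 3) Tr.z (xT (xF (xE (xF (xF (xF (xF (xE (xL
  (Dt.split 64 9 68 60)))))))))) Tr.z)) (xEF (xT (xF (xE (xF (xF (xF (xF (xF (xE (xL (Dt.step 64 0
  266))))))))))) (Tr.n (Dt.step 68 2 3) (xT (xE (xF (xF (xF (xF (xF (xE (xL (Dt.step 64 0
  264)))))))))) (xF (xE (xL (Dt.step 66 2 3)))) Tr.z)) (xET (Tr.n (Dt.step 70 2 3) Tr.z (xT (xF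
  (xE (xF (xF (xEF (xF (xF (xL (Dt.split 64 9 70 58)))) (xE (xF (xL (Dt.split 65 9 70 59))))))))))
  Tr.z) (xE (xT (xE (xF (xF (xF (xEF (xF (xF (xL (Dt.step 64 0 3369)))) (xE (xF (xL (Dt.step 65 2
  3369)))))))))))))

def a477 : Tr := (xEF (xF (xF (xF (xF (xF (xF (xE (xL (Dt.step 64 0 7))))))))) (xEF (xF (xF (xF
  (xF (xF (xE (xL (Dt.step 65 6 231)))))))) (xEF (xF (xF (xEF (xF (xF (xL (Dt.step 65 6 7399))))
  (xE (xF (xL (Dt.step 65 6 7399))))))) (xE (xEF (xF (xF (xF (xL (Dt.step 65 6 231))))) (xE (xF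
  (xF (xL (Dt.step 65 6 7399))))))))))

def a478 : Tr := (xT (xF (xEF (xF (xF (xF (xE (xL (Dt.split 64 0 64 64)))))) (xEF (xF (xEF (xF (xL
  (Dt.step 64 0 236777))) (xE (xL (Dt.step 65 6 7401))))) (xE (xEF (xF (xL (Dt.step 65 6 7401)))
  (xE (xL (Dt.split 65 0 64 65)))))))))

def a479 : Tr := (xTF (xF (xEF (xF (xEF (xF (xL (Dt.step 64 0 236777))) (xE (xL (Dt.step 65 6
  7401))))) (xE (xEF (xF (xL (Dt.step 65 6 7401))) (xE (xL (Dt.split 65 0 64 65))))))) (xEF (xT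
  (xF (xF (xE (xL (Dt.split 64 0 64 64)))))) (Tr.n Dt.none (xT (xF (xE (xL (Dt.split 64 0 64
  64))))) (xE (xE (xF (xL (Dt.split 64 0 64 64))))) (xT (xE (xE (xL (Dt.split 65 0 64 65))))))))

def a480 : Tr := (xE (xF (xE (xE (xF (xF (xL (Dt.step 64 0 7401))))))))

def a481 : Tr := (Tr.n Dt.none (Tr.n Dt.none (xT (xF (xEF (xF (xL (Dt.split 64 0 64 64))) (xE (xL
  (Dt.split 65 0 64 65)))))) (xF (xE (xEF (xF (xL (Dt.step 65 6 7401))) (xE (xL (Dt.split 65 0 64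
  65)))))) (Tr.n Dt.none (xT (xF (xE (xL (Dt.split 65 0 64 65))))) (xE (xE (xF (xL (Dt.split 65 0
  64 65))))) (xE (xE (xL (Dt.split 64 0 64 64)))))) (xE (xF (xE (xE (xF (xL (Dt.split 65 0 64
  65))))))) (xE (xEF (xEF (xT (xF (xL (Dt.split 64 0 64 64)))) (xE (xL (Dt.split 64 0 64 64))))
  (xE (xE (xL (Dt.split 65 0 64 65)))))))

def a482 : Tr := Tr.n Dt.none a479 a480 a481

def a483 : Tr := Tr.n Dt.none a478 Tr.z a482

def a484 : Tr := Tr.n Dt.none Tr.z Tr.z a483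

def a485 : Tr := Tr.n (Dt.step 71 6 9) Tr.z a484 Tr.z

def a486 : Tr := Tr.n Dt.none a477 Tr.z a485

def a487 : Tr := (Tr.n (Dt.step 69 6 3) Tr.z (xF (xE (xL (Dt.step 67 6 3)))) Tr.z)

def a488 : Tr := Tr.n Dt.none Tr.z a486 a487

def a489 : Tr := (xF (xET (xT (xEF (xF (xT (xF (xEF (xF (xF (xEF (xF (xL (Dt.split 64 6 73 55)))
  (xE (xL (Dt.split 64 6 72 56)))))) (xE (xEF (xF (xF (xL (Dt.split 64 6 73 55)))) (xE (xF (xL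
  (Dt.split 64 6 72 56)))))))))) (xE (xT (xF (xE (xF (xEF (xF (xF (xL (Dt.split 64 6 73 55)))) (xE
  (xF (xL (Dt.split 64 6 73 55)))))))))))) (xF (xE (xE (xT (xEF (xF (xF (xE (xF (xF (xL (Dt.split
  64 6 73 55))))))) (xE (xE (xF (xF (xF (xL (Dt.split 64 6 73 55))))))))))))))

def a490 : Tr := (Tr.n Dt.none (Tr.n (Dt.step 71 2 7) Tr.z (xTF (xF (xEF (xT (xF (xF (xEF (xF (xEF
  (xF (xL (Dt.split 64 9 71 57))) (xE (xL (Dt.split 65 9 71 58))))) (xE (xE (xF (xL (Dt.split 65 9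
  71 58))))))))) (Tr.n Dt.none (xT (xF (xEF (xF (xEF (xF (xL (Dt.split 64 9 70 58))) (xE (xL
  (Dt.split 65 9 70 59))))) (xE (xE (xF (xL (Dt.split 65 9 70 59)))))))) (xE (xF (xE (xE (xF (xF
  (xL (Dt.split 64 9 71 57)))))))) (xE (xT (xF (xE (xE (xF (xL (Dt.split 65 9 69 60))))))))))) (xE
  (xL (Dt.step 68 2 327)))) Tr.z) (xF (xE (xE (xL (Dt.step 70 2 9))))) (xET (xET (xL (Dt.step 67 2
  3)) (xE (xL (Dt.step 68 10 3)))) (xE (xE (xL (Dt.step 69 9 7))))))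

def a491 : Tr := Tr.n Dt.none a488 a489 a490

def a492 : Tr := (xET (xET (Tr.n (Dt.step 71 2 3) Tr.z (xT (xEF (xF (xF (xF (xEF (xF (xF (xL
  (Dt.split 64 9 71 57)))) (xE (xF (xL (Dt.split 65 9 71 58)))))))) (xE (xF (xEF (xF (xF (xF (xL
  (Dt.split 64 9 71 57))))) (xEF (xF (xF (xL (Dt.split 65 9 71 58)))) (xF (xE (xL (Dt.split 64 9
  68 60)))))))))) Tr.z) (xE (xT (xE (xF (xF (xEF (xF (xF (xF (xL (Dt.step 64 0 9513))))) (xEF (xF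
  (xF (xL (Dt.step 65 8 9513)))) (xF (xE (xL (Dt.step 64 0 297)))))))))))) (xF (xET (xE (xL
  (Dt.step 68 2 3))) (xE (xE (xL (Dt.step 70 2 10)))))))

def a493 : Tr := Tr.n Dt.none a476 a491 a492

def a494 : Tr := (xE (xF (xF (xF (xF (xF (xF (xE (xL (Dt.step 65 5 6))))))))))

def a495 : Tr := (xT (xF (xEF (xF (xF (xEF (xF (xL (Dt.step 64 0 203209))) (xE (xL (Dt.step 65 5
  6601)))))) (xEF (xEF (xF (xF (xL (Dt.step 64 0 6345)))) (xEF (xF (xL (Dt.step 65 5 203209))) (xE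
  (xL (Dt.step 65 5 6601))))) (xE (xE (xF (xL (Dt.step 65 5 6601)))))))))

def a496 : Tr := (Tr.n Dt.none (xT (xF (xF (xF (xE (xL (Dt.split 64 0 64 64))))))) (xEF (xF (xF
  (xEF (xF (xL (Dt.step 64 0 15561))) (xE (xL (Dt.step 65 14 201)))))) (xEF (xEF (xF (xF (xL
  (Dt.step 64 0 6633)))) (xEF (xF (xL (Dt.step 65 5 203241))) (xE (xL (Dt.step 65 5 6633))))) (xE
  (xE (xF (xL (Dt.step 65 5 6345))))))) (xEF (xT (xF (xEF (xF (xL (Dt.step 64 0 202953))) (xE (xL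
  (Dt.step 65 5 17609)))))) (xEF (xT (xF (xE (xL (Dt.step 65 5 6345))))) (xE (xE (xL (Dt.step 64 0
  201)))))))

def a497 : Tr := (xEF (Tr.n Dt.none (xT (xF (xEF (xF (xL (Dt.step 65 5 6345))) (xE (xL (Dt.split
  65 0 64 65)))))) (xEF (xEF (xF (xF (xL (Dt.split 64 0 64 64)))) (xEF (xF (xL (Dt.step 65 15
  16585))) (xE (xL (Dt.split 65 0 64 65))))) (xE (xE (xF (xL (Dt.step 65 5 6665)))))) (xEF (xEF
  (xT (xF (xL (Dt.step 64 0 19657)))) (xE (xL (Dt.step 64 0 6345)))) (xE (xE (xL (Dt.step 65 5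
  201)))))) (xE (xET (xEF (xT (xF (xL (Dt.step 65 5 617)))) (xE (xL (Dt.step 65 5 201)))) (xE (xE
  (xF (xL (Dt.split 65 0 64 65))))))))

def a498 : Tr := Tr.n Dt.none a496 Tr.z a497

def a499 : Tr := Tr.n Dt.none a495 Tr.z a498

def a500 : Tr := Tr.n Dt.none Tr.z Tr.z a499

def a501 : Tr := (xE (xL (Dt.split 66 0 64 66)))

def a502 : Tr := Tr.n (Dt.step 72 5 9) Tr.z a500 a501

def a503 : Tr := Tr.n Dt.none a494 Tr.z a502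

def a504 : Tr := (Tr.n (Dt.step 70 5 6) Tr.z (xF (xE (xL (Dt.step 68 5 6)))) Tr.z)

def a505 : Tr := Tr.n Dt.none Tr.z a503 a504

def a506 : Tr := (xF (Tr.n Dt.none (Tr.n (Dt.step 74 5 8) (xF (xL (Dt.step 68 5 200))) (xE (xF (xT
  (xF (xE (xF (xEF (xF (xF (xL (Dt.step 64 0 202952)))) (xE (xF (xL (Dt.step 64 0
  202952))))))))))) Tr.z) (xF (xE (xE (xT (xE (xF (xE (xF (xF (xF (xL (Dt.step 64 0
  6346)))))))))))) (xE (xE (xL (Dt.step 70 5 8))))))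

def a507 : Tr := (Tr.n (Dt.split 66 0 63 67) Tr.z (xT (xF (xT (xF (xF (xEF (xF (xF (xE (xL
  (Dt.split 64 10 66 62))))) (xE (xEF (xF (xL (Dt.split 64 10 66 62))) (xE (xL (Dt.split 65 10 66
  63))))))))))) Tr.z)

def a508 : Tr := (xT (xF (xT (xF (xF (xEF (xF (xEF (xF (xL (Dt.step 64 0 338314))) (xE (xL
  (Dt.step 65 9 10634))))) (xE (xE (xF (xL (Dt.step 65 9 10634)))))))))))

def a509 : Tr := (xF (xT (xF (xE (xF (xEF (xF (xF (xL (Dt.split 64 9 72 56)))) (xEF (xF (xL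
  (Dt.split 64 9 69 59))) (xE (xL (Dt.split 65 9 69 60))))))))))

def a510 : Tr := (xEF (xF (xF (xEF (xF (xF (xEF (xF (xL (Dt.split 64 9 72 56))) (xE (xL (Dt.split
  65 9 72 57)))))) (xE (xF (xE (xF (xL (Dt.split 65 9 72 57))))))))) (xE (xE (xF (xF (xEF (xF (xF
  (xL (Dt.split 64 9 72 56)))) (xEF (xF (xL (Dt.split 64 9 72 56))) (xE (xL (Dt.split 65 9 70
  59))))))))))

def a511 : Tr := (xT (xF (xEF (xEF (xF (xF (xF (xL (Dt.split 64 9 70 58))))) (xEF (xF (xF (xL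
  (Dt.split 64 9 71 57)))) (xEF (xF (xL (Dt.split 65 9 69 60))) (xE (xL (Dt.split 65 9 72 57))))))
  (xEF (xEF (xF (xF (xL (Dt.split 64 9 72 56)))) (xEF (xF (xL (Dt.split 65 9 72 57))) (xE (xL
  (Dt.split 65 9 71 58))))) (xE (xE (xF (xL (Dt.split 65 9 71 58)))))))))

def a512 : Tr := (xE (xF (xF (xE (xE (xF (xF (xL (Dt.split 64 9 72 56)))))))))

def a513 : Tr := (xEF (xTF (xEF (xF (xF (xEF (xF (xL (Dt.split 64 9 71 57))) (xE (xL (Dt.split 65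
  9 71 58)))))) (xEF (xEF (xF (xF (xL (Dt.split 64 9 71 57)))) (xEF (xF (xL (Dt.split 65 9 71
  58))) (xE (xL (Dt.split 65 9 70 59))))) (xE (xE (xF (xL (Dt.split 65 9 70 59))))))) (xEF (xT (xF
  (xEF (xF (xL (Dt.split 64 9 70 58))) (xE (xL (Dt.split 65 9 70 59)))))) (xEF (xT (xF (xE (xL
  (Dt.split 65 9 69 60))))) (xE (xE (xL (Dt.split 64 9 67 61))))))) (xEF (Tr.n Dt.none (xT (xF (xE
  (xF (xL (Dt.split 65 9 70 59)))))) (xEF (xF (xE (xF (xL (Dt.split 65 9 70 59))))) (xE (xE (xF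
  (xL (Dt.split 65 9 69 60)))))) (xEF (xEF (xT (xF (xL (Dt.split 64 9 68 60)))) (xE (xL (Dt.split
  64 9 67 61)))) (xE (xE (xL (Dt.split 65 9 67 62)))))) (xE (xE (xEF (xT (xF (xL (Dt.split 65 9 68
  61)))) (xE (xL (Dt.split 65 9 67 62))))))))

def a514 : Tr := Tr.n Dt.none a511 a512 a513

def a515 : Tr := Tr.n Dt.none a509 a510 a514

def a516 : Tr := (xE (Tr.n (Dt.step 69 5 195) Tr.z (xT (xF (xF (xEF (xF (xEF (xF (xL (Dt.split 64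
  12 67 61))) (xE (xL (Dt.split 65 12 67 62))))) (xE (xE (xF (xL (Dt.split 65 12 67 62)))))))))
  Tr.z))

def a517 : Tr := Tr.n Dt.none a508 a515 a516

def a518 : Tr := Tr.n (Dt.step 72 5 3) a507 a517 Tr.z

def a519 : Tr := (Tr.n (Dt.split 67 0 64 67) Tr.z (xTF (xF (xF (xF (xE (xF (xE (xF (xL (Dt.split
  64 11 67 61))))))))) (xT (xF (xF (xE (xEF (xF (xF (xL (Dt.step 64 0 9609)))) (xE (xF (xL
  (Dt.step 65 8 304521)))))))))) Tr.z)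

def a520 : Tr := (xET (xTF (xF (xEF (xF (xF (xF (xF (xE (xL (Dt.split 64 0 64 64))))))) (xF (xE
  (xE (xF (xF (xL (Dt.step 64 0 11563))))))))) (xT (xF (xE (xEF (xF (xF (xF (xL (Dt.step 64 0
  9513))))) (xEF (xF (xF (xL (Dt.step 64 0 306473)))) (xE (xF (xL (Dt.step 65 8 306473))))))))))
  (xEF (xF (xEF (xF (xF (xF (xEF (xF (xL (Dt.step 64 0 402732))) (xE (xL (Dt.step 65 11
  9516))))))) (xE (xF (xEF (xF (xF (xL (Dt.step 64 0 307596)))) (xE (xF (xL (Dt.step 65 8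
  304521))))))))) (xE (xE (xF (xEF (xF (xF (xF (xL (Dt.step 64 0 9609))))) (xEF (xF (xF (xL
  (Dt.step 64 0 9609)))) (xE (xF (xL (Dt.step 65 8 9609)))))))))))

def a521 : Tr := (xE (Tr.n (Dt.step 70 2 201) Tr.z (xT (xF (xF (xE (xEF (xF (xF (xL (Dt.split 64
  12 68 60)))) (xE (xF (xL (Dt.split 65 12 68 61))))))))) Tr.z))

def a522 : Tr := Tr.n Dt.none a519 a520 a521

def a523 : Tr := (xE (xE (xL (Dt.step 71 5 3))))

def a524 : Tr := Tr.n Dt.none a522 Tr.z a523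

def a525 : Tr := (xET (xE (xL (Dt.step 68 5 6))) (xE (xE (xL (Dt.step 70 5 6)))))

def a526 : Tr := Tr.n Dt.none a518 a524 a525

def a527 : Tr := Tr.n Dt.none a505 a506 a526

def a528 : Tr := (xF (xE (xE (Tr.n Dt.none (xF (xL (Dt.step 70 2 7))) (xT (xEF (xF (xE (xF (xF
  (xEF (xF (xF (xL (Dt.step 64 0 7399)))) (xE (xF (xL (Dt.step 65 6 7399))))))))) (xE (xE (xE (xF
  (xF (xF (xF (xL (Dt.step 64 0 7))))))))))) (xE (xL (Dt.step 71 6 7)))))))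

def a529 : Tr := (Tr.n (Dt.split 67 0 63 68) Tr.z (xTF (xF (xT (xF (xF (xEF (xF (xEF (xF (xL
  (Dt.split 64 10 67 61))) (xE (xL (Dt.split 65 10 67 62))))) (xE (xE (xF (xL (Dt.split 65 10 67
  62)))))))))) (xL (Dt.step 66 2 358))) Tr.z)

def a530 : Tr := (xTF (xF (xT (xF (xF (xE (xEF (xF (xF (xL (Dt.step 64 0 10630)))) (xE (xF (xL
  (Dt.step 65 9 338310)))))))))) (xL (Dt.step 67 9 102)))

def a531 : Tr := (Tr.n Dt.none (xF (xT (xF (xEF (xEF (xF (xF (xF (xL (Dt.split 64 9 71 57)))))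
  (xEF (xF (xF (xL (Dt.split 64 9 72 56)))) (xEF (xF (xL (Dt.split 65 9 70 59))) (xE (xL (Dt.split
  64 9 72 56)))))) (xE (xEF (xF (xF (xL (Dt.split 64 9 73 55)))) (xE (xF (xL (Dt.split 64 9 72
  56)))))))))) (xEF (xF (xF (xE (xF (xF (xE (xF (xL (Dt.split 65 9 73 56))))))))) (xE (xE (xF (xEF
  (xF (xF (xF (xL (Dt.split 64 9 72 56))))) (xEF (xF (xF (xL (Dt.split 64 9 72 56)))) (xE (xF (xL
  (Dt.split 65 9 73 56)))))))))) (xET (xT (xF (xE (xF (xEF (xF (xF (xL (Dt.split 64 9 73 55))))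
  (xE (xF (xL (Dt.split 64 9 72 56))))))))) (xE (xEF (xF (xF (xF (xEF (xF (xL (Dt.split 64 9 73
  55))) (xE (xL (Dt.split 65 9 73 56))))))) (xE (xF (xE (xF (xF (xL (Dt.split 64 9 73
  55)))))))))))

def a532 : Tr := (xE (Tr.n (Dt.step 70 2 198) Tr.z (xT (xF (xF (xE (xEF (xF (xF (xL (Dt.split 64
  12 68 60)))) (xE (xF (xL (Dt.split 65 12 68 61))))))))) Tr.z))

def a533 : Tr := Tr.n Dt.none a530 a531 a532

def a534 : Tr := (xE (xL (Dt.step 68 2 198)))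

def a535 : Tr := Tr.n (Dt.step 73 2 6) a529 a533 a534

def a536 : Tr := (xEF (Tr.n (Dt.step 74 8 9) (Tr.n (Dt.split 68 0 64 68) Tr.z (xT (xF (xEF (xF (xF
  (xF (xF (xE (xL (Dt.split 64 11 68 60))))))) (xEF (xF (xF (xEF (xF (xL (Dt.split 64 11 68 60)))
  (xE (xL (Dt.split 65 11 68 61)))))) (xE (xE (xF (xF (xL (Dt.split 64 11 68 60)))))))))) (xL
  (Dt.step 68 8 297))) (xE (xTF (xF (xEF (xF (xF (xF (xEF (xF (xL (Dt.step 64 0 372011))) (xE (xL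
  (Dt.step 65 10 11563))))))) (xE (xF (xE (xF (xF (xL (Dt.step 64 0 372011))))))))) (xT (xF (xE
  (xF (xEF (xF (xF (xL (Dt.step 64 0 304427)))) (xE (xF (xL (Dt.step 64 0 304425))))))))))) (xE
  (xL (Dt.step 69 8 102)))) (xE (xE (xL (Dt.step 72 2 294)))))

def a537 : Tr := (xE (xET (xL (Dt.step 69 5 102)) (xF (xE (xE (xL (Dt.split 64 0 64 64)))))))

def a538 : Tr := Tr.n Dt.none a535 a536 a537

def a539 : Tr := (xE (xEF (Tr.n (Dt.step 75 7 8) Tr.z Tr.z (xET (Tr.n (Dt.step 70 7 264) Tr.z (xT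
  (xEF (xF (xF (xE (xF (xF (xL (Dt.split 64 12 70 58))))))) (xE (xE (xF (xF (xF (xL (Dt.split 64
  12 70 58))))))))) Tr.z) (xE (xT (xE (xF (xE (xF (xF (xF (xL (Dt.step 64 0 405900)))))))))))) (xE
  (xE (Tr.n (Dt.step 71 7 104) Tr.z (xT (xE (xF (xE (xF (xF (xF (xL (Dt.split 64 12 71 57)))))))))
  Tr.z)))))

def a540 : Tr := (xET (Tr.n Dt.none (xET (xL (Dt.step 70 2 6)) (xEF (Tr.n (Dt.step 71 10 6) Tr.z
  (xT (xF (xE (xE (xF (xF (xF (xL (Dt.split 65 12 71 58))))))))) Tr.z) (xE (xE (xL (Dt.split 65 0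
  64 65)))))) (xE (xE (Tr.n (Dt.step 72 9 6) Tr.z Tr.z (xE (xL (Dt.split 65 0 64 65)))))) (xT (xE
  (xE (xET (xL (Dt.split 66 0 64 66)) (xE (xT (xE (xF (xF (xF (xL (Dt.split 64 0 64
  64))))))))))))) (xE (xE (xET (Tr.n (Dt.step 71 8 6) (xF (xL (Dt.split 65 0 64 65))) Tr.z Tr.z)
  (xE (xT (xE (xF (xF (xEF (xF (xF (xL (Dt.split 64 0 64 64)))) (xE (xF (xL (Dt.split 65 0 64
  65))))))))))))))

def a541 : Tr := Tr.n Dt.none a538 a539 a540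

def a542 : Tr := Tr.n Dt.none a527 a528 a541

def a543 : Tr := (Tr.n (Dt.step 70 2 3) (Tr.n (Dt.step 72 2 3) Tr.z (xT (xE (xF (xF (xEF (xF (xF
  (xF (xL (Dt.split 64 9 72 56))))) (xEF (xF (xF (xL (Dt.split 65 9 72 57)))) (xF (xE (xL
  (Dt.split 64 9 69 59)))))))))) Tr.z) (xTF (xF (xE (xL (Dt.split 69 8 69 64)))) (xE (xL (Dt.step
  67 2 291)))) Tr.z)

def a544 : Tr := (xEF (Tr.n (Dt.step 71 7 8) Tr.z (xF (xE (xL (Dt.step 70 7 328)))) (xE (xL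
  (Dt.step 68 7 104)))) (xET (xET (xL (Dt.step 69 2 99)) (xET (Tr.n (Dt.step 70 10 99) Tr.z (xT
  (xEF (xF (xF (xE (xF (xF (xL (Dt.split 64 12 70 58))))))) (xE (xE (xF (xF (xF (xL (Dt.split 64
  12 70 58))))))))) Tr.z) (xE (xT (xE (xF (xE (xF (xF (xF (xL (Dt.step 64 0 405603)))))))))))) (xE
  (xE (xL (Dt.step 71 9 99))))))

def a545 : Tr := (xET (xET (xL (Dt.step 66 2 99)) (xE (xL (Dt.step 67 9 99)))) (xF (xT (xE (xE
  (xET (xL (Dt.split 66 0 64 66)) (xE (xT (xE (xF (xF (xF (xL (Dt.split 64 0 64 64))))))))))))))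

def a546 : Tr := Tr.n Dt.none a543 a544 a545

def a547 : Tr := (xTF (xF (xE (xL (Dt.step 71 6 231)))) (xET (xL (Dt.step 69 6 103)) (xET (Tr.n
  (Dt.step 70 10 103) Tr.z (xT (xEF (xF (xF (xE (xF (xF (xL (Dt.split 64 12 70 58))))))) (xE (xE
  (xF (xF (xF (xL (Dt.split 64 12 70 58))))))))) Tr.z) (xE (xT (xE (xF (xE (xF (xF (xF (xL
  (Dt.step 64 0 405735)))))))))))))

def a548 : Tr := (xET (xF (xET (Tr.n (Dt.step 70 8 295) Tr.z (xT (xEF (xF (xF (xE (xF (xF (xL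
  (Dt.split 64 12 70 58))))))) (xE (xE (xF (xF (xF (xL (Dt.split 64 12 70 58))))))))) Tr.z) (xE
  (xT (xE (xF (xE (xF (xF (xF (xL (Dt.step 64 0 405799)))))))))))) (xF (xE (xE (xT (xE (xE (xF (xF
  (xF (xF (xL (Dt.step 64 0 327)))))))))))))

def a549 : Tr := (xF (xT (xE (xE (xET (xL (Dt.split 66 0 64 66)) (xE (xT (xE (xF (xF (xF (xL
  (Dt.split 64 0 64 64)))))))))))))

def a550 : Tr := Tr.n Dt.none a547 a548 a549

def a551 : Tr := (xF (xE (xE (xET (Tr.n (Dt.step 73 2 3) Tr.z (xT (xEF (xF (xEF (xF (xF (xF (xL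
  (Dt.split 64 12 71 57))))) (xE (xF (xF (xL (Dt.split 65 12 71 58))))))) (xE (xE (xF (xF (xF (xL
  (Dt.split 65 12 71 58))))))))) Tr.z) (xE (xT (xE (xF (xE (xF (xF (xF (xL (Dt.step 65 11
  12684))))))))))))))

def a552 : Tr := (xET (xET (Tr.n (Dt.step 68 2 3) Tr.z (xT (xF (xET (xT (xF (xE (xF (xF (xL
  (Dt.split 64 11 66 62))))))) (xE (xF (xE (xF (xF (xL (Dt.split 65 11 68 61)))))))))) Tr.z) (xEF
  (xET (Tr.n (Dt.split 66 0 64 66) Tr.z (xT (xF (xF (xEF (xF (xF (xL (Dt.split 64 13 66 62)))) (xE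
  (xF (xL (Dt.split 65 13 66 63)))))))) Tr.z) (Tr.n Dt.none (xT (xF (xEF (xF (xF (xF (xL (Dt.step
  64 0 13805))))) (xE (xF (xF (xL (Dt.step 65 12 13677)))))))) (xE (xF (xE (xF (xF (xF (xL
  (Dt.step 65 13 14446)))))))) (xE (xT (xE (xF (xF (xF (xL (Dt.step 64 0 11691)))))))))) (xE (xET
  (Tr.n (Dt.step 66 2 227) Tr.z (xT (xF (xE (xF (xF (xL (Dt.split 64 14 66 62))))))) Tr.z) (xE (xT
  (xE (xF (xF (xF (xL (Dt.step 64 0 14563)))))))))))) (xE (xE (Tr.n (Dt.step 69 2 10) Tr.z Tr.z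
  (xE (xL (Dt.step 66 2 106)))))))

def a553 : Tr := (xE (xE (Tr.n Dt.none (Tr.n (Dt.step 72 2 9) (xF (Tr.n (Dt.step 66 2 105) Tr.z
  (xT (xF (xE (xF (xF (xL (Dt.split 64 14 66 62))))))) Tr.z)) (xTF (xF (xE (xEF (xF (xF (xF (xL
  (Dt.split 64 12 70 58))))) (xE (xF (xF (xL (Dt.split 65 12 70 59)))))))) (xE (xT (xE (xF (xF (xF
  (xL (Dt.step 64 0 13737))))))))) Tr.z) (xE (xT (xE (xF (xEF (xF (xF (xF (xL (Dt.step 64 0
  3468))))) (xE (xF (xF (xL (Dt.step 65 2 3468)))))))))) (xE (xET (xL (Dt.split 66 0 64 66)) (xE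
  (xT (xE (xF (xF (xF (xL (Dt.split 64 0 64 64)))))))))))))

def a554 : Tr := Tr.n Dt.none a552 a553 Tr.z

def a555 : Tr := Tr.n Dt.none a550 a551 a554

def a556 : Tr := Tr.n Dt.none a546 a555 Tr.z

def a557 : Tr := Tr.n Dt.none a493 a542 a556

def a558 : Tr := (xF (Tr.n (Dt.split 66 0 63 67) Tr.z (xT (xF (xT (xF (xF (xEF (xF (xF (xE (xL
  (Dt.split 64 10 66 62))))) (xE (xEF (xF (xL (Dt.split 64 10 66 62))) (xE (xL (Dt.split 65 10 66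
  63))))))))))) Tr.z))

def a559 : Tr := (xT (xF (xT (xF (xF (xEF (xF (xEF (xF (xL (Dt.step 64 0 304517))) (xE (xL
  (Dt.step 65 8 9609))))) (xE (xEF (xF (xL (Dt.step 65 8 9609))) (xE (xL (Dt.split 65 0 64
  65)))))))))))

def a560 : Tr := (xT (xF (xEF (xF (xEF (xF (xF (xL (Dt.step 64 0 169417)))) (xEF (xF (xL (Dt.step
  65 4 169417))) (xE (xL (Dt.step 65 4 5577)))))) (xE (xEF (xF (xF (xL (Dt.step 65 4 5577)))) (xE
  (xF (xL (Dt.step 65 4 169417)))))))))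

def a561 : Tr := (xTF (xEF (xF (xEF (xF (xF (xL (Dt.step 64 0 5289)))) (xEF (xF (xL (Dt.step 65 4
  5289))) (xE (xL (Dt.step 65 4 169)))))) (xE (xEF (xF (xF (xL (Dt.step 65 4 5609)))) (xE (xF (xL
  (Dt.step 65 4 169449))))))) (Tr.n Dt.none (xT (xEF (xF (xF (xL (Dt.step 64 0 5673)))) (xE (xF
  (xL (Dt.step 65 4 181417)))))) (xE (xE (xF (xF (xL (Dt.step 65 15 16905)))))) (xE (Tr.n Dt.none
  (xT (xF (xL (Dt.step 64 0 19625)))) (xE (xF (xL (Dt.step 65 17 5705)))) (xE (xL (Dt.step 64 0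
  5289)))))))

def a562 : Tr := (xE (xF (xE (xE (xF (xF (xL (Dt.step 65 13 14793))))))))

def a563 : Tr := (xE (Tr.n Dt.none (Tr.n Dt.none (xT (xF (xF (xL (Dt.step 64 0 585))))) (xE (xF
  (xF (xL (Dt.step 65 16 169))))) (xEF (xT (xF (xL (Dt.step 64 0 19625)))) (xE (xL (Dt.step 64 0
  169))))) (xE (xEF (xF (xF (xL (Dt.split 65 0 64 65)))) (xE (xF (xL (Dt.step 65 4 5289)))))) (xE
  (xEF (xT (xF (xL (Dt.step 65 4 19625)))) (xE (xL (Dt.step 65 4 5289)))))))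

def a564 : Tr := Tr.n Dt.none a561 a562 a563

def a565 : Tr := Tr.n Dt.none a560 Tr.z a564

def a566 : Tr := Tr.n Dt.none Tr.z Tr.z a565

def a567 : Tr := (xE (Tr.n (Dt.step 67 4 5) Tr.z (xT (xF (xF (xEF (xF (xEF (xF (xL (Dt.split 64 12
  67 61))) (xE (xL (Dt.split 65 12 67 62))))) (xE (xE (xF (xL (Dt.split 65 12 67 62)))))))))
  Tr.z))

def a568 : Tr := Tr.n (Dt.step 73 4 9) a559 a566 a567

def a569 : Tr := Tr.n Dt.none Tr.z Tr.z a568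

def a570 : Tr := (Tr.n (Dt.split 67 0 64 67) Tr.z (xT (xF (xT (xF (xF (xEF (xF (xEF (xF (xL
  (Dt.split 64 10 67 61))) (xE (xL (Dt.split 65 10 67 62))))) (xE (xEF (xF (xL (Dt.split 65 10 67
  62))) (xE (xL (Dt.split 65 10 66 63))))))))))) Tr.z)

def a571 : Tr := (Tr.n Dt.none (xT (xF (xT (xF (xF (xEF (xEF (xF (xF (xL (Dt.step 64 0 10634))))
  (xEF (xF (xL (Dt.step 65 9 338314))) (xE (xL (Dt.step 65 9 10629))))) (xE (xE (xF (xL (Dt.step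
  65 9 10629))))))))))) (xF (xE (xT (xEF (xF (xF (xF (xEF (xF (xL (Dt.split 64 9 69 59))) (xE (xL
  (Dt.split 65 9 69 60))))))) (xE (xEF (xF (xF (xF (xL (Dt.split 64 9 70 58))))) (xEF (xF (xF (xL
  (Dt.split 64 9 71 57)))) (xE (xF (xL (Dt.split 65 9 69 60))))))))))) (xE (Tr.n (Dt.step 69 4 5)
  Tr.z (xT (xF (xF (xEF (xEF (xF (xF (xL (Dt.split 64 12 68 60)))) (xEF (xF (xL (Dt.split 65 12 68
  61))) (xE (xL (Dt.split 65 12 67 62))))) (xE (xE (xF (xL (Dt.split 65 12 67 62))))))))) Tr.z)))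

def a572 : Tr := Tr.n (Dt.step 71 4 5) a570 a571 Tr.z

def a573 : Tr := Tr.n Dt.none a558 a569 a572

def a574 : Tr := (xF (xEF (xT (xF (xT (xF (xF (xEF (xEF (xF (xF (xL (Dt.step 64 0 8584)))) (xEF
  (xF (xL (Dt.step 65 7 270728))) (xE (xL (Dt.step 65 7 8584))))) (xE (xE (xF (xL (Dt.step 65 7
  8584))))))))))) (xE (Tr.n (Dt.step 68 7 8) Tr.z (xT (xF (xF (xEF (xEF (xF (xF (xL (Dt.split 64
  12 68 60)))) (xEF (xF (xL (Dt.split 65 12 68 61))) (xE (xL (Dt.split 65 12 67 62))))) (xE (xE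
  (xF (xL (Dt.split 65 12 67 62))))))))) Tr.z))))

def a575 : Tr := (xTF (xF (xT (xF (xF (xE (xEF (xF (xF (xL (Dt.step 65 7 8584)))) (xE (xF (xL
  (Dt.step 65 7 270728)))))))))) (xL (Dt.step 69 4 264)))

def a576 : Tr := (Tr.n Dt.none (xF (Tr.n Dt.none (xT (xF (xF (xF (xF (xE (xL (Dt.split 64 0 64
  64)))))))) (xEF (xF (xF (xF (xE (xF (xL (Dt.step 64 0 464136))))))) (xE (xEF (xF (xF (xF (xL
  (Dt.step 64 0 5384))))) (xE (xF (xF (xL (Dt.step 64 0 175368)))))))) (xEF (xT (xF (xF (xF (xE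
  (xL (Dt.split 64 0 64 64))))))) (xEF (xT (xF (xF (xE (xL (Dt.split 64 0 64 64)))))) (xE (xT (xF
  (xE (xL (Dt.split 64 0 64 64)))))))))) (xF (xE (xE (xF (xEF (xF (xF (xF (xL (Dt.split 64 10 75
  53))))) (xE (xF (xF (xL (Dt.split 65 10 75 54)))))))))) (xE (xT (xE (xF (xF (xEF (xF (xF (xL
  (Dt.step 64 0 270696)))) (xEF (xF (xL (Dt.step 65 7 270696))) (xE (xL (Dt.split 64 0 64
  64)))))))))))

def a577 : Tr := (xE (Tr.n (Dt.step 70 7 165) Tr.z (xT (xF (xF (xE (xEF (xF (xF (xL (Dt.split 65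
  12 69 60)))) (xE (xF (xL (Dt.split 65 12 68 61))))))))) Tr.z))

def a578 : Tr := Tr.n (Dt.step 75 4 5) a575 a576 a577

def a579 : Tr := (xF (xE (xE (xT (xE (xE (xF (xF (xF (xF (xL (Dt.step 64 0 168))))))))))))

def a580 : Tr := (xE (xET (Tr.n (Dt.step 71 4 5) Tr.z (xT (xEF (xF (xF (xF (xEF (xF (xL (Dt.split
  64 12 69 59))) (xE (xL (Dt.split 65 12 69 60))))))) (xE (xF (xEF (xF (xF (xL (Dt.split 64 12 69
  59)))) (xE (xF (xL (Dt.split 65 12 69 60))))))))) Tr.z) (xE (xT (xE (xF (xF (xEF (xF (xF (xL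
  (Dt.step 64 0 12680)))) (xE (xF (xL (Dt.step 65 11 12680))))))))))))

def a581 : Tr := Tr.n Dt.none a578 a579 a580

def a582 : Tr := Tr.n Dt.none a574 Tr.z a581

def a583 : Tr := (Tr.n (Dt.split 68 0 64 68) Tr.z (xT (xF (xT (xF (xF (xEF (xEF (xF (xF (xL
  (Dt.split 64 10 68 60)))) (xE (xF (xL (Dt.split 65 10 68 61))))) (xE (xF (xE (xL (Dt.split 65 10
  66 63))))))))))) Tr.z)

def a584 : Tr := (xT (xF (xT (xF (xF (xEF (xF (xEF (xF (xL (Dt.step 64 0 169349))) (xE (xL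
  (Dt.step 65 4 10634))))) (xE (xE (xF (xL (Dt.step 65 4 10634)))))))))))

def a585 : Tr := (xF (Tr.n Dt.none (xT (xF (xF (xF (xF (xE (xL (Dt.split 64 9 73 55)))))))) (xF
  (xEF (xF (xE (xF (xF (xL (Dt.split 65 9 73 56)))))) (xE (xE (xF (xF (xL (Dt.split 65 9 72
  57)))))))) (xEF (xT (xF (xF (xF (xE (xL (Dt.split 64 9 72 56))))))) (xEF (xT (xF (xF (xE (xL
  (Dt.split 64 9 71 57)))))) (xT (xE (xE (xF (xL (Dt.split 64 9 71 57))))))))))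

def a586 : Tr := (xF (xE (xE (xF (xF (xE (xF (xF (xL (Dt.split 65 9 73 56))))))))))

def a587 : Tr := (Tr.n Dt.none (xT (xF (xF (xF (xE (xF (xL (Dt.split 64 9 73 55)))))))) (xEF (xF
  (xF (xE (xF (xF (xL (Dt.split 64 9 71 57))))))) (xEF (xEF (xF (xF (xF (xL (Dt.split 65 9 71
  58))))) (xEF (xF (xF (xL (Dt.split 65 9 72 57)))) (xEF (xF (xL (Dt.split 65 9 73 56))) (xE (xL
  (Dt.split 65 9 72 57)))))) (xE (xEF (xF (xF (xL (Dt.split 65 9 73 56)))) (xE (xF (xL (Dt.split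
  65 9 72 57)))))))) (xEF (xT (xF (xF (xE (xF (xL (Dt.split 64 9 72 56))))))) (xE (xT (xF (xE (xF
  (xL (Dt.split 64 9 71 57)))))))))

def a588 : Tr := (xE (xF (xF (xE (xE (xF (xF (xL (Dt.split 65 9 73 56)))))))))

def a589 : Tr := (xTF (xEF (xF (xEF (xF (xF (xL (Dt.split 64 9 72 56)))) (xEF (xF (xL (Dt.split 65
  9 72 57))) (xE (xL (Dt.split 65 9 71 58)))))) (xE (xEF (xF (xF (xL (Dt.split 65 9 72 57)))) (xE
  (xF (xL (Dt.split 65 9 71 58))))))) (Tr.n Dt.none (xT (xEF (xF (xF (xL (Dt.split 64 9 71 57))))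
  (xE (xF (xL (Dt.split 65 9 71 58)))))) (xE (xE (xF (xF (xL (Dt.split 65 9 72 57)))))) (xE (Tr.n
  Dt.none (xT (xF (xL (Dt.split 64 9 69 59)))) (xE (xF (xL (Dt.split 65 9 70 59)))) (xE (xL
  (Dt.split 64 9 68 60)))))))

def a590 : Tr := (xE (xF (xE (xE (xF (xF (xL (Dt.split 65 9 72 57))))))))

def a591 : Tr := (xE (Tr.n Dt.none (Tr.n Dt.none (xT (xF (xF (xL (Dt.split 64 9 70 58))))) (xE (xF
  (xF (xL (Dt.split 65 9 71 58))))) (xEF (xT (xF (xL (Dt.split 64 9 69 59)))) (xE (xL (Dt.split 64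
  9 68 60))))) (xE (xF (xE (xF (xL (Dt.split 65 9 70 59)))))) (xE (xEF (xT (xF (xL (Dt.split 65 9
  69 60)))) (xE (xL (Dt.split 65 9 68 61)))))))

def a592 : Tr := Tr.n Dt.none a589 a590 a591

def a593 : Tr := Tr.n Dt.none a587 a588 a592

def a594 : Tr := Tr.n Dt.none a585 a586 a593

def a595 : Tr := (xE (Tr.n (Dt.step 70 4 165) Tr.z (xT (xF (xF (xEF (xF (xEF (xF (xL (Dt.split 64
  12 67 61))) (xE (xL (Dt.split 65 12 67 62))))) (xE (xE (xF (xL (Dt.split 65 12 67 62)))))))))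
  Tr.z))

def a596 : Tr := Tr.n Dt.none a584 a594 a595

def a597 : Tr := Tr.n (Dt.step 73 4 5) a583 a596 Tr.z

def a598 : Tr := (Tr.n (Dt.split 68 0 64 68) Tr.z (xT (xF (xF (xF (xE (xF (xE (xF (xL (Dt.split 65
  11 68 61)))))))))) Tr.z)

def a599 : Tr := (xTF (xF (xF (xF (xE (xE (xF (xF (xL (Dt.step 65 4 11563))))))))) (Tr.n Dt.none
  (xT (xF (xF (xF (xE (xF (xL (Dt.step 64 0 310569)))))))) (xEF (xF (xF (xE (xF (xF (xL (Dt.step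
  64 0 464174))))))) (xE (xEF (xF (xF (xF (xL (Dt.step 65 4 9513))))) (xE (xF (xF (xL (Dt.step 65
  4 173353)))))))) (xEF (xT (xF (xF (xE (xF (xL (Dt.step 64 0 311593))))))) (xE (xT (xF (xE (xF
  (xL (Dt.step 64 0 304425))))))))))

def a600 : Tr := (xEF (xF (xF (xE (xEF (xF (xF (xF (xL (Dt.step 64 0 5516))))) (xE (xF (xF (xL
  (Dt.step 65 4 176524))))))))) (xE (xE (xF (xEF (xF (xF (xF (xL (Dt.step 65 4 9609))))) (xE (xF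
  (xF (xL (Dt.step 65 4 5513))))))))))

def a601 : Tr := (xE (xT (xE (xF (xE (xF (xF (xF (xL (Dt.step 64 0 304489))))))))))

def a602 : Tr := Tr.n Dt.none a599 a600 a601

def a603 : Tr := Tr.n (Dt.step 74 8 5) a598 a602 Tr.z

def a604 : Tr := (xET (xET (Tr.n (Dt.step 72 4 5) Tr.z (xT (xEF (xF (xF (xE (xF (xF (xL (Dt.split
  64 12 70 58))))))) (xE (xE (xF (xF (xF (xL (Dt.split 64 12 70 58))))))))) Tr.z) (xE (xT (xE (xF
  (xE (xF (xF (xF (xL (Dt.step 64 0 12684))))))))))) (xE (xE (xT (xE (xE (xF (xF (xF (xF (xL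
  (Dt.step 64 0 363))))))))))))

def a605 : Tr := Tr.n Dt.none a603 Tr.z a604

def a606 : Tr := (xE (xE (xL (Dt.step 69 4 5))))

def a607 : Tr := Tr.n Dt.none a597 a605 a606

def a608 : Tr := Tr.n Dt.none a573 a582 a607

def a609 : Tr := (xF (Tr.n Dt.none (xET (xF (Tr.n (Dt.step 70 6 229) Tr.z (xT (xF (xE (xE (xF (xF
  (xF (xL (Dt.split 64 12 70 58))))))))) Tr.z)) (xEF (xF (xT (xEF (xF (xF (xE (xF (xF (xL (Dt.step
  64 0 236775))))))) (xE (xE (xF (xF (xF (xL (Dt.step 64 0 7527)))))))))) (xE (xT (xE (xF (xE (xF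
  (xF (xF (xL (Dt.step 64 0 240999)))))))))))) (xE (xEF (xF (xT (xE (xF (xE (xF (xF (xF (xL
  (Dt.step 64 0 338250)))))))))) (xE (xT (xE (xE (xF (xF (xF (xF (xL (Dt.step 64 0
  10474)))))))))))) (xE (xET (Tr.n (Dt.step 70 6 7) Tr.z (xT (xF (xE (xE (xF (xF (xF (xL (Dt.split
  64 12 70 58))))))))) Tr.z) (xE (xT (xE (xF (xE (xF (xF (xF (xL (Dt.step 64 0 7559))))))))))))))

def a610 : Tr := (xF (xE (xE (xE (xF (xT (xE (xE (xF (xF (xF (xF (xL (Dt.step 64 0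
  264))))))))))))))

def a611 : Tr := (xE (xE (Tr.n (Dt.step 75 6 7) (xF (xL (Dt.step 71 4 167))) (Tr.n Dt.none (xF (xT
  (xE (xF (xE (xF (xF (xF (xL (Dt.step 64 0 236779)))))))))) (xEF (xF (xE (xF (xEF (xF (xF (xF (xL
  (Dt.step 64 0 171239))))) (xE (xF (xF (xL (Dt.step 65 4 171239))))))))) (xE (xE (xE (xF (xF (xF
  (xF (xL (Dt.step 65 4 231)))))))))) (xE (xT (xE (xE (xF (xF (xF (xF (xL (Dt.step 64 0
  7399))))))))))) (xE (xL (Dt.step 72 4 231))))))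

def a612 : Tr := Tr.n Dt.none a609 a610 a611

def a613 : Tr := (Tr.n (Dt.split 67 0 62 69) Tr.z (xT (xF (xT (xF (xF (xEF (xF (xF (xE (xL
  (Dt.split 65 10 67 62))))) (xE (xE (xF (xL (Dt.split 65 10 67 62))))))))))) Tr.z)

def a614 : Tr := (xT (xF (xT (xF (xF (xEF (xEF (xF (xF (xL (Dt.step 64 0 5514)))) (xEF (xF (xL
  (Dt.step 65 4 338314))) (xE (xL (Dt.split 65 0 64 65))))) (xE (xE (xF (xL (Dt.split 65 0 64
  65)))))))))))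

def a615 : Tr := (xF (Tr.n Dt.none (xT (xF (xF (xF (xE (xF (xL (Dt.split 64 9 70 58)))))))) (xF
  (xE (xEF (xF (xF (xF (xL (Dt.split 65 9 72 57))))) (xEF (xF (xF (xL (Dt.split 65 9 73 56)))) (xE
  (xF (xL (Dt.split 65 9 70 59)))))))) (xEF (xT (xF (xF (xE (xF (xL (Dt.split 64 9 73 55)))))))
  (xE (xT (xF (xE (xF (xL (Dt.split 64 9 72 56))))))))))

def a616 : Tr := (xF (xE (xE (xF (xEF (xF (xF (xF (xL (Dt.split 65 9 73 56))))) (xEF (xF (xF (xL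
  (Dt.split 65 9 73 56)))) (xE (xF (xL (Dt.split 65 9 73 56))))))))))

def a617 : Tr := (xET (Tr.n Dt.none (xT (xF (xF (xE (xF (xF (xL (Dt.split 64 9 70 58)))))))) (xEF
  (xF (xEF (xF (xF (xF (xL (Dt.split 64 9 71 57))))) (xF (xEF (xF (xL (Dt.split 64 9 73 55))) (xE
  (xL (Dt.split 65 9 73 56))))))) (xE (xEF (xF (xF (xF (xL (Dt.split 64 9 70 58))))) (xEF (xF (xF
  (xL (Dt.split 65 9 72 57)))) (xE (xF (xL (Dt.split 65 9 73 56)))))))) (xEF (xT (xF (xE (xF (xF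
  (xL (Dt.split 64 9 73 55))))))) (xE (xT (xE (xF (xF (xL (Dt.split 64 9 72 56))))))))) (xE (xF
  (xE (xEF (xF (xF (xF (xL (Dt.split 64 9 73 55))))) (xE (xF (xF (xL (Dt.split 65 9 73
  56))))))))))

def a618 : Tr := Tr.n Dt.none a615 a616 a617

def a619 : Tr := (xE (Tr.n (Dt.step 71 4 325) Tr.z (xT (xF (xF (xE (xEF (xF (xF (xL (Dt.split 64
  12 68 60)))) (xE (xF (xL (Dt.split 65 12 68 61))))))))) Tr.z))

def a620 : Tr := Tr.n Dt.none a614 a618 a619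

def a621 : Tr := (xE (xL (Dt.step 69 4 165)))

def a622 : Tr := Tr.n (Dt.step 73 4 3) a613 a620 a621

def a623 : Tr := (Tr.n (Dt.split 69 0 64 69) Tr.z (xTF (xF (xF (xEF (xF (xF (xE (xF (xL (Dt.split
  65 11 69 60)))))) (xE (xE (xF (xF (xL (Dt.split 65 11 69 60))))))))) (xT (xF (xF (xE (xEF (xF
  (xF (xL (Dt.step 65 8 9609)))) (xE (xF (xL (Dt.step 65 8 304521)))))))))) (xL (Dt.step 69 4
  169)))

def a624 : Tr := (xTF (xF (xEF (xF (xF (xF (xE (xF (xL (Dt.split 64 0 64 64))))))) (xE (xEF (xF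
  (xF (xF (xL (Dt.step 64 0 5419))))) (xE (xF (xF (xL (Dt.step 65 4 372011))))))))) (Tr.n Dt.none
  (xT (xF (xF (xEF (xF (xF (xL (Dt.step 64 0 310569)))) (xF (xE (xL (Dt.split 64 0 64 64))))))))
  (xEF (xF (xF (xF (xE (xF (xL (Dt.step 64 0 464171))))))) (xE (xEF (xF (xF (xF (xL (Dt.step 64 0
  5417))))) (xE (xF (xF (xL (Dt.step 65 4 306475)))))))) (xEF (xT (xF (xE (xF (xF (xL (Dt.step 64
  0 311593))))))) (xE (xT (xE (xF (xF (xL (Dt.step 64 0 9513))))))))))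

def a625 : Tr := (xEF (xF (xEF (xF (xF (xE (xF (xF (xL (Dt.step 64 0 405804))))))) (xE (xE (xF (xF
  (xF (xL (Dt.step 64 0 12684))))))))) (xE (xE (xF (xEF (xF (xF (xF (xL (Dt.step 64 0 9609)))))
  (xE (xF (xF (xL (Dt.step 65 8 9612))))))))))

def a626 : Tr := (xE (xT (xE (xF (xF (xEF (xF (xF (xL (Dt.step 64 0 304489)))) (xE (xF (xL
  (Dt.step 65 8 304489))))))))))

def a627 : Tr := Tr.n Dt.none a624 a625 a626

def a628 : Tr := (xET (Tr.n (Dt.step 70 4 165) Tr.z (xT (xEF (xF (xF (xE (xF (xF (xL (Dt.split 64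
  12 70 58))))))) (xEF (xE (xF (xF (xF (xL (Dt.split 64 12 70 58)))))) (xE (xEF (xF (xF (xL
  (Dt.split 65 12 69 60)))) (xE (xF (xL (Dt.split 65 12 68 61))))))))) Tr.z) (xE (xT (xE (xF (xE
  (xF (xF (xF (xL (Dt.step 64 0 405893)))))))))))

def a629 : Tr := Tr.n Dt.none a623 a627 a628

def a630 : Tr := (xF (xE (xE (xT (xE (xE (xF (xF (xF (xF (xL (Dt.step 64 0 325))))))))))))

def a631 : Tr := (xE (xET (Tr.n (Dt.step 71 4 169) Tr.z (xT (xEF (xF (xEF (xF (xF (xF (xL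
  (Dt.split 64 12 71 57))))) (xF (xEF (xF (xL (Dt.split 64 12 69 59))) (xE (xL (Dt.split 65 12 69
  60))))))) (xE (xF (xEF (xF (xF (xL (Dt.split 64 12 69 59)))) (xE (xF (xL (Dt.split 65 12 69
  60))))))))) Tr.z) (xE (xT (xE (xEF (xF (xF (xF (xF (xL (Dt.step 64 0 12750)))))) (xF (xEF (xF
  (xF (xL (Dt.step 64 0 405667)))) (xE (xF (xL (Dt.step 65 11 405667))))))))))))

def a632 : Tr := Tr.n Dt.none a629 a630 a631

def a633 : Tr := (Tr.n Dt.none (xET (xL (Dt.step 70 4 163)) (xEF (Tr.n (Dt.step 71 10 163) Tr.z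
  (xT (xF (xE (xE (xF (xF (xF (xL (Dt.split 65 12 71 58))))))))) Tr.z) (xE (xE (xL (Dt.step 65 4
  11427)))))) (xE (xE (xL (Dt.step 69 9 163)))) (xET (xT (xE (xE (xL (Dt.split 65 0 64 65))))) (xE
  (xE (xET (xL (Dt.split 66 0 64 66)) (xE (xT (xE (xF (xF (xF (xL (Dt.split 64 0 64
  64)))))))))))))

def a634 : Tr := Tr.n Dt.none a622 a632 a633

def a635 : Tr := (xE (xE (xT (xT (xEF (xF (xE (xF (xE (xF (xF (xF (xL (Dt.step 64 0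
  270600))))))))) (xE (xE (xE (xF (xF (xF (xF (xL (Dt.step 64 0 264))))))))))))))

def a636 : Tr := (xET (xET (Tr.n (Dt.step 68 4 5) Tr.z (xT (xF (xET (xT (xF (xE (xF (xF (xL
  (Dt.split 64 11 66 62))))))) (xE (xF (xE (xF (xF (xL (Dt.split 65 11 68 61)))))))))) Tr.z) (xEF
  (xET (Tr.n (Dt.split 66 0 64 66) Tr.z (xT (xF (xF (xEF (xF (xF (xL (Dt.split 64 13 66 62)))) (xE
  (xF (xL (Dt.split 65 13 66 63)))))))) Tr.z) (Tr.n Dt.none (xT (xF (xEF (xF (xF (xF (xL (Dt.step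
  64 0 13797))))) (xE (xF (xF (xL (Dt.step 65 12 13669)))))))) (xE (xF (xE (xF (xF (xF (xL
  (Dt.step 65 13 14501)))))))) (xE (xT (xE (xF (xF (xF (xL (Dt.step 64 0 11685)))))))))) (xE (xET
  (Tr.n (Dt.step 66 4 165) Tr.z (xT (xF (xE (xF (xF (xL (Dt.split 64 14 66 62))))))) Tr.z) (xE (xT
  (xE (xF (xF (xF (xL (Dt.step 64 0 14501)))))))))))) (xE (xE (xF (xE (xL (Dt.step 66 4 325)))))))

def a637 : Tr := (xE (xE (Tr.n Dt.none (Tr.n (Dt.step 72 4 5) (Tr.n (Dt.split 66 1 64 66) Tr.z (xT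
  (xF (xF (xE (xF (xF (xL (Dt.split 64 13 66 62)))))))) (Tr.n (Dt.step 66 4 293) Tr.z (xT (xF (xE
  (xF (xF (xL (Dt.split 64 14 66 62))))))) Tr.z)) (Tr.n Dt.none (xT (xF (xE (xF (xF (xF (xL
  (Dt.step 64 0 13805)))))))) (xEF (xF (xE (xF (xF (xF (xL (Dt.split 65 12 72 57))))))) (xE (xF
  (xE (xF (xF (xL (Dt.split 65 12 70 59)))))))) (xE (xT (xE (xF (xF (xF (xL (Dt.step 64 0
  13733))))))))) Tr.z) (xE (xET (xT (xE (xF (xF (xF (xF (xL (Dt.step 64 0 396)))))))) (xE (xF (xF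
  (xE (xF (xF (xL (Dt.step 65 4 5509)))))))))) (xE (xT (xE (xT (xE (xF (xF (xF (xL (Dt.split 64 0
  64 64)))))))))))))

def a638 : Tr := Tr.n Dt.none a636 a637 Tr.z

def a639 : Tr := Tr.n Dt.none a634 a635 a638

def a640 : Tr := Tr.n Dt.none a608 a612 a639

def a641 : Tr := (xF (xE (xE (xE (Tr.n (Dt.step 76 2 0) Tr.z (xT (xE (xF (xE (xE (xF (xF (xF (xF
  (xL (Dt.step 64 0 198))))))))))) Tr.z)))))

def a642 : Tr := (Tr.n (Dt.split 68 0 63 69) Tr.z (xTF (xF (xT (xF (xEF (xF (xF (xEF (xF (xL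
  (Dt.split 64 10 68 60))) (xE (xL (Dt.split 65 10 68 61)))))) (xEF (xEF (xF (xF (xL (Dt.split 64
  10 68 60)))) (xEF (xF (xL (Dt.split 65 10 68 61))) (xE (xL (Dt.split 65 10 67 62))))) (xE (xE
  (xF (xL (Dt.split 65 10 67 62)))))))))) (xL (Dt.step 68 2 357))) Tr.z)

def a643 : Tr := (xTF (xF (xT (xEF (xF (xF (xF (xF (xE (xL (Dt.split 64 0 64 64))))))) (xEF (xF
  (xEF (xF (xF (xL (Dt.step 64 0 338314)))) (xEF (xF (xL (Dt.step 65 9 338314))) (xE (xL (Dt.step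
  65 9 10634)))))) (xE (xEF (xF (xF (xL (Dt.step 65 9 10634)))) (xE (xF (xL (Dt.step 65 9
  338314)))))))))) (xL (Dt.step 69 9 165)))

def a644 : Tr := (xF (Tr.n Dt.none (xT (xF (xF (xEF (xF (xF (xL (Dt.split 64 9 71 57)))) (xEF (xF
  (xL (Dt.split 64 9 74 54))) (xE (xL (Dt.split 65 9 74 55)))))))) (xF (xE (xE (xF (xF (xF (xL
  (Dt.split 64 9 71 57)))))))) (xEF (xT (xF (xEF (xF (xF (xL (Dt.split 65 9 71 58)))) (xEF (xF (xL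
  (Dt.split 64 9 73 55))) (xE (xL (Dt.split 65 9 73 56))))))) (Tr.n Dt.none (xT (xEF (xF (xF (xL
  (Dt.split 64 9 73 55)))) (xEF (xF (xL (Dt.split 64 9 72 56))) (xE (xL (Dt.split 65 9 72 57))))))
  (xE (xE (xF (xF (xL (Dt.split 64 9 73 55)))))) (xT (xE (xE (xF (xL (Dt.split 65 9 72
  57))))))))))

def a645 : Tr := (xF (xE (xE (xF (xE (xF (xF (xF (xL (Dt.split 64 9 72 56))))))))))

def a646 : Tr := (xET (Tr.n Dt.none (xT (xF (xF (xEF (xF (xF (xL (Dt.split 64 9 74 54)))) (xE (xF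
  (xL (Dt.split 65 9 74 55)))))))) (xEF (xF (xF (xEF (xF (xF (xL (Dt.split 65 9 72 57)))) (xE (xF
  (xL (Dt.split 65 9 74 55))))))) (xE (xE (xF (xF (xF (xL (Dt.split 65 9 71 58)))))))) (xEF (xT
  (xF (xEF (xF (xF (xL (Dt.split 64 9 73 55)))) (xE (xF (xL (Dt.split 65 9 73 56))))))) (xE (xT
  (xF (xE (xF (xL (Dt.split 65 9 72 57))))))))) (xE (xEF (xF (xF (xE (xF (xF (xL (Dt.split 64 9 74
  54))))))) (xE (xE (xF (xF (xF (xL (Dt.split 64 9 74 54))))))))))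

def a647 : Tr := Tr.n Dt.none a644 a645 a646

def a648 : Tr := (xE (Tr.n (Dt.step 69 4 101) Tr.z (xT (xF (xEF (xF (xEF (xF (xF (xL (Dt.split 64
  12 69 59)))) (xEF (xF (xL (Dt.split 65 12 69 60))) (xE (xL (Dt.split 65 12 68 61)))))) (xE (xEF
  (xF (xF (xL (Dt.split 65 12 69 60)))) (xE (xF (xL (Dt.split 65 12 68 61))))))))) Tr.z))

def a649 : Tr := Tr.n Dt.none a643 a647 a648

def a650 : Tr := (xET (xL (Dt.step 70 4 101)) (xEF (Tr.n (Dt.step 71 10 107) Tr.z (xT (xF (xE (xE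
  (xF (xF (xF (xL (Dt.split 65 12 71 58))))))))) Tr.z) (xE (xE (xL (Dt.step 65 2 101))))))

def a651 : Tr := Tr.n (Dt.step 74 2 5) a642 a649 a650

def a652 : Tr := (Tr.n (Dt.split 70 0 64 70) Tr.z (xTF (xF (xEF (xF (xF (xF (xE (xF (xL (Dt.split
  64 11 69 59))))))) (xE (xEF (xF (xF (xF (xL (Dt.split 64 11 70 58))))) (xE (xF (xF (xL (Dt.split
  65 11 70 59))))))))) (xT (xEF (xF (xF (xF (xE (xF (xL (Dt.step 64 0 304521))))))) (xEF (xF (xEF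
  (xF (xF (xL (Dt.step 65 8 304521)))) (xE (xF (xL (Dt.step 65 8 304521)))))) (xE (xE (xF (xF (xL
  (Dt.step 65 8 9609)))))))))) (xL (Dt.step 70 8 169)))

def a653 : Tr := (xTF (xF (xEF (xF (xF (xE (xF (xF (xL (Dt.step 64 0 372011))))))) (xE (xE (xF (xF
  (xF (xL (Dt.step 64 0 11563))))))))) (Tr.n Dt.none (xT (xF (xF (xEF (xF (xF (xL (Dt.step 64 0
  310569)))) (xE (xF (xL (Dt.step 65 8 310569)))))))) (xEF (xF (xF (xE (xF (xF (xL (Dt.step 65 13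
  470318))))))) (xE (xE (xF (xF (xF (xL (Dt.step 65 8 11563)))))))) (xEF (xT (xF (xEF (xF (xF (xL
  (Dt.step 64 0 304425)))) (xE (xF (xL (Dt.step 65 8 311593))))))) (xE (xT (xF (xE (xF (xL
  (Dt.step 65 8 304425))))))))))

def a654 : Tr := (xEF (xF (xE (xF (xE (xF (xF (xF (xL (Dt.step 64 0 405804))))))))) (xE (xE (xEF
  (xF (xF (xF (xF (xL (Dt.step 64 0 300)))))) (xE (xF (xF (xF (xL (Dt.step 65 8 12681))))))))))

def a655 : Tr := (xE (xT (xE (xF (xE (xF (xF (xF (xL (Dt.step 64 0 304489))))))))))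

def a656 : Tr := Tr.n Dt.none a653 a654 a655

def a657 : Tr := (xET (Tr.n (Dt.step 71 4 293) Tr.z (xT (xEF (xF (xF (xEF (xF (xF (xL (Dt.split 65
  12 71 58)))) (xEF (xF (xL (Dt.split 64 12 69 59))) (xE (xL (Dt.split 65 12 69 60))))))) (xEF
  (xEF (xF (xF (xF (xL (Dt.split 65 12 71 58))))) (xEF (xF (xF (xL (Dt.split 65 12 70 59)))) (xE
  (xF (xL (Dt.split 65 12 69 60)))))) (xE (xE (xF (xF (xL (Dt.split 65 12 69 60))))))))) Tr.z) (xE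
  (xT (xE (xF (xEF (xF (xF (xF (xL (Dt.step 65 4 405900))))) (xEF (xF (xF (xL (Dt.step 64 0
  405612)))) (xE (xF (xL (Dt.step 65 11 405612)))))))))))

def a658 : Tr := Tr.n (Dt.step 75 8 9) a652 a656 a657

def a659 : Tr := (xF (xE (xE (xT (xE (xE (xF (xF (xF (xF (xL (Dt.step 65 4 330))))))))))))

def a660 : Tr := (Tr.n (Dt.step 72 8 165) (Tr.n (Dt.split 66 1 64 66) Tr.z (xT (xF (xF (xE (xF (xF
  (xL (Dt.split 64 13 66 62)))))))) (Tr.n (Dt.step 66 2 3237) Tr.z (xT (xF (xE (xF (xF (xL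
  (Dt.split 64 14 66 62))))))) Tr.z)) (Tr.n Dt.none (xT (xF (xE (xF (xF (xF (xL (Dt.step 64 0
  441773)))))))) (xEF (xF (xE (xF (xF (xF (xL (Dt.split 65 12 72 57))))))) (xE (xEF (xF (xF (xF
  (xL (Dt.split 64 12 70 58))))) (xE (xF (xF (xL (Dt.split 65 12 70 59)))))))) (xE (xT (xE (xF (xF
  (xF (xL (Dt.step 64 0 439465))))))))) Tr.z)

def a661 : Tr := (xE (xET (xT (xE (xF (xF (xF (xF (xL (Dt.step 64 0 12684)))))))) (xE (xF (xEF (xF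
  (xF (xF (xL (Dt.step 64 0 110761))))) (xE (xF (xF (xL (Dt.step 65 2 110757))))))))))

def a662 : Tr := (xE (xET (Tr.n (Dt.step 66 8 3241) Tr.z (xT (xF (xE (xF (xF (xL (Dt.split 64 14
  66 62))))))) Tr.z) (xE (xT (xE (xF (xF (xF (xL (Dt.step 64 0 461993))))))))))

def a663 : Tr := Tr.n Dt.none a660 a661 a662

def a664 : Tr := Tr.n Dt.none a663 Tr.z Tr.z

def a665 : Tr := Tr.n Dt.none a658 a659 a664

def a666 : Tr := (xET (xET (Tr.n (Dt.step 68 2 165) Tr.z (xT (xF (xET (xT (xF (xE (xF (xF (xL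
  (Dt.split 64 11 66 62))))))) (xE (xF (xE (xF (xF (xL (Dt.split 65 11 68 61)))))))))) Tr.z) (xEF
  (xET (Tr.n (Dt.split 66 0 64 66) Tr.z (xT (xF (xF (xEF (xF (xF (xL (Dt.split 64 13 66 62)))) (xE
  (xF (xL (Dt.split 65 13 66 63)))))))) Tr.z) (Tr.n Dt.none (xT (xF (xEF (xF (xF (xF (xL (Dt.step
  64 0 441517))))) (xE (xF (xF (xL (Dt.step 65 12 437421)))))))) (xE (xF (xE (xF (xF (xF (xL
  (Dt.step 65 13 461998)))))))) (xE (xT (xE (xF (xF (xF (xL (Dt.step 64 0 373931)))))))))) (xE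
  (xET (Tr.n (Dt.step 66 2 5285) Tr.z (xT (xF (xE (xF (xF (xL (Dt.split 64 14 66 62))))))) Tr.z)
  (xE (xT (xE (xF (xF (xF (xL (Dt.step 64 0 464037)))))))))))) (xE (xE (xL (Dt.step 69 2 165)))))

def a667 : Tr := Tr.n Dt.none a651 a665 a666

def a668 : Tr := (Tr.n (Dt.step 76 7 8) (xTF (xF (xT (xEF (xF (xF (xE (xF (xF (xL (Dt.step 64 0
  270600))))))) (xE (xE (xF (xF (xF (xL (Dt.step 64 0 8584)))))))))) (xL (Dt.step 71 7 264))) (xTF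
  (xEF (xF (xE (xF (xEF (xF (xF (xF (xL (Dt.split 64 10 76 52))))) (xE (xF (xF (xL (Dt.split 65 10
  76 53))))))))) (xE (xE (xE (xF (xF (xF (xF (xL (Dt.step 65 7 264)))))))))) (xE (xT (xE (xE (xF
  (xF (xF (xF (xL (Dt.step 64 0 8552))))))))))) (xE (Tr.n (Dt.step 72 7 264) Tr.z (xT (xF (xE (xE
  (xF (xF (xF (xL (Dt.split 64 12 70 58))))))))) Tr.z)))

def a669 : Tr := (xE (xET (Tr.n (Dt.step 73 7 168) Tr.z (xT (xF (xE (xE (xF (xF (xF (xL (Dt.split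
  65 12 71 58))))))))) Tr.z) (xE (xT (xE (xEF (xF (xF (xF (xF (xL (Dt.step 64 0 8588)))))) (xE (xF
  (xF (xF (xL (Dt.step 65 7 274604))))))))))))

def a670 : Tr := Tr.n Dt.none a668 Tr.z a669

def a671 : Tr := (xE (xE (xE (xT (xT (xE (xE (xF (xF (xF (xF (xL (Dt.step 64 0 5582)))))))))))))

def a672 : Tr := Tr.n Dt.none a670 Tr.z a671

def a673 : Tr := (xT (xE (xE (xE (xET (xT (xT (xF (xE (xF (xF (xF (xL (Dt.split 64 1 64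
  64))))))))) (xE (xT (xE (xF (xF (xF (xF (xL (Dt.split 64 1 64 64))))))))))))))

def a674 : Tr := Tr.n Dt.none a667 a672 a673

def a675 : Tr := (xE (xE (xE (xEF (xT (xF (xT (xE (xF (xE (xF (xF (xF (xL (Dt.step 64 0
  236935))))))))))) (xE (Tr.n (Dt.step 71 6 231) Tr.z (xT (xE (xF (xE (xF (xF (xF (xL (Dt.split 64
  12 71 57))))))))) Tr.z))))))

def a676 : Tr := (xT (xE (xE (xE (xE (xT (xE (xT (xE (xF (xF (xF (xF (xL (Dt.split 64 1 64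
  64)))))))))))))))

def a677 : Tr := Tr.n Dt.none a674 a675 a676

def a678 : Tr := Tr.n Dt.none a640 a641 a677

def a679 : Tr := (Tr.n (Dt.step 72 2 3) (Tr.n (Dt.split 65 0 64 65) Tr.z (xT (xF (xL (Dt.split 65
  9 65 64)))) Tr.z) (Tr.n Dt.none (xT (xF (xL (Dt.step 66 8 361)))) (xF (xE (xL (Dt.split 70 8 70
  64)))) (xE (xL (Dt.step 68 2 99)))) Tr.z)

def a680 : Tr := (Tr.n (Dt.step 73 7 8) (xT (xF (xL (Dt.step 67 7 360)))) (xF (xE (xL (Dt.step 71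
  7 104)))) (xET (xL (Dt.step 69 7 104)) (xET (Tr.n (Dt.step 70 10 107) Tr.z (xT (xEF (xF (xF (xE
  (xF (xF (xL (Dt.split 64 12 70 58))))))) (xE (xE (xF (xF (xF (xL (Dt.split 64 12 70 58)))))))))
  Tr.z) (xE (xT (xE (xF (xE (xF (xF (xF (xL (Dt.step 64 0 405612)))))))))))))

def a681 : Tr := (Tr.n Dt.none (xF (xET (Tr.n (Dt.step 70 8 105) Tr.z (xT (xEF (xF (xF (xE (xF (xF
  (xL (Dt.split 64 12 70 58))))))) (xE (xE (xF (xF (xF (xL (Dt.split 64 12 70 58))))))))) Tr.z)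
  (xE (xT (xE (xF (xE (xF (xF (xF (xL (Dt.step 64 0 405804)))))))))))) (xF (xE (xE (xT (xE (xE (xF
  (xF (xF (xF (xL (Dt.step 64 0 330)))))))))))) (xE (xT (xE (xT (xE (xF (xF (xEF (xF (xF (xL
  (Dt.split 64 7 69 59)))) (xE (xF (xL (Dt.split 65 7 69 60)))))))))))))

def a682 : Tr := Tr.n Dt.none a680 a681 Tr.z

def a683 : Tr := Tr.n (Dt.step 69 2 3) a679 a682 Tr.z

def a684 : Tr := (Tr.n (Dt.step 74 6 7) (xT (xF (xL (Dt.step 68 6 359)))) (xEF (xTF (xF (xT (xF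
  (xEF (xF (xF (xEF (xF (xL (Dt.split 64 0 64 64))) (xE (xL (Dt.split 65 0 64 65)))))) (xE (xEF
  (xF (xF (xL (Dt.split 64 0 64 64)))) (xE (xF (xL (Dt.split 65 0 64 65)))))))))) (xL (Dt.step 69
  9 106))) (xE (xL (Dt.step 70 2 103)))) (xET (xL (Dt.step 68 2 103)) (xF (xE (xE (xL (Dt.split 65
  0 64 65)))))))

def a685 : Tr := (xEF (xEF (xT (xF (xT (xF (xEF (xF (xEF (xF (xF (xL (Dt.step 64 0 304521)))) (xE
  (xF (xL (Dt.step 65 8 304521)))))) (xE (xE (xF (xF (xL (Dt.step 65 8 9609))))))))))) (xET (Tr.n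
  (Dt.step 71 6 103) Tr.z (xT (xEF (xF (xF (xF (xEF (xF (xL (Dt.split 64 12 69 59))) (xE (xL
  (Dt.split 65 12 69 60))))))) (xEF (xF (xEF (xF (xF (xL (Dt.split 64 12 69 59)))) (xE (xF (xL
  (Dt.split 65 12 69 60)))))) (xE (xE (xF (xF (xL (Dt.split 65 12 69 60))))))))) Tr.z) (xE (xT (xE
  (xF (xF (xEF (xF (xF (xL (Dt.step 64 0 405740)))) (xE (xF (xL (Dt.step 65 11 405740))))))))))))
  (xE (xE (xL (Dt.step 72 2 295)))))

def a686 : Tr := (xE (xET (xL (Dt.step 69 2 103)) (xF (xE (xET (Tr.n (Dt.step 66 2 3175) Tr.z (xT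
  (xF (xE (xF (xF (xL (Dt.split 64 14 66 62))))))) Tr.z) (xE (xT (xE (xF (xF (xF (xL (Dt.step 64 0
  461934)))))))))))))

def a687 : Tr := Tr.n Dt.none a684 a685 a686

def a688 : Tr := (xF (xE (xE (xE (Tr.n (Dt.step 72 2 3) Tr.z (xT (xE (xF (xE (xF (xF (xF (xL
  (Dt.split 65 12 72 57))))))))) Tr.z)))))

def a689 : Tr := (xET (xET (Tr.n (Dt.step 70 2 227) Tr.z (xTF (xF (xET (xT (xE (xF (xF (xF (xL
  (Dt.split 64 11 70 58))))))) (xE (xE (xF (xF (xF (xL (Dt.split 65 11 67 62))))))))) (xE (xL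
  (Dt.split 65 0 64 65)))) Tr.z) (xE (Tr.n (Dt.step 71 10 363) (Tr.n (Dt.split 67 0 64 67) Tr.z
  (xT (xF (xEF (xF (xF (xF (xL (Dt.split 64 13 67 61))))) (xE (xF (xF (xL (Dt.split 65 13 67
  62)))))))) (xL (Dt.split 65 0 64 65))) (xE (xT (xF (xE (xF (xF (xF (xL (Dt.step 65 12
  437677))))))))) (xE (xL (Dt.step 66 10 3435)))))) (xE (xEF (Tr.n (Dt.step 72 9 330) (xF (Tr.n
  (Dt.step 66 9 10570) Tr.z (xT (xF (xE (xF (xF (xL (Dt.split 64 14 66 62))))))) Tr.z)) (xF (xE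
  (xT (xE (xF (xF (xF (xL (Dt.step 64 0 439626))))))))) Tr.z) (xE (xT (xE (xT (xE (xF (xF (xF (xL
  (Dt.split 64 0 64 64)))))))))))))

def a690 : Tr := (xE (xE (xE (Tr.n (Dt.step 73 8 297) Tr.z (xT (xE (xF (xEF (xF (xF (xF (xL
  (Dt.split 64 12 71 57))))) (xE (xF (xF (xL (Dt.split 65 12 71 58))))))))) Tr.z))))

def a691 : Tr := Tr.n Dt.none a689 a690 Tr.z

def a692 : Tr := Tr.n Dt.none a687 a688 a691

def a693 : Tr := Tr.n Dt.none a683 a692 Tr.z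

def a694 : Tr := (Tr.n (Dt.step 75 5 6) Tr.z (Tr.n Dt.none (xTF (xF (xT (xE (xF (xF (xF (xEF (xF
  (xL (Dt.split 64 0 64 64))) (xE (xL (Dt.split 65 0 64 65)))))))))) (xL (Dt.step 70 5 198))) (xE
  (xF (xT (xF (xE (xF (xF (xE (xF (xL (Dt.split 64 9 73 55))))))))))) (xE (xL (Dt.step 71 5
  326)))) (xET (xL (Dt.step 68 5 198)) (xF (xE (xET (Tr.n (Dt.step 66 5 198) Tr.z (xT (xF (xE (xF
  (xF (xL (Dt.split 64 14 66 62))))))) Tr.z) (xE (xT (xE (xF (xF (xF (xL (Dt.step 64 0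
  14542)))))))))))))

def a695 : Tr := (xEF (Tr.n (Dt.step 75 8 9) (xTF (xF (xT (xEF (xF (xF (xEF (xF (xF (xL (Dt.step
  64 0 301257)))) (xE (xF (xL (Dt.step 65 8 301257))))))) (xE (xF (xE (xF (xF (xL (Dt.step 65 5
  203145)))))))))) (xL (Dt.step 71 8 201))) Tr.z (xE (Tr.n (Dt.step 70 5 198) Tr.z (xT (xF (xE (xF
  (xE (xF (xF (xL (Dt.split 65 12 70 59))))))))) Tr.z))) (xE (xE (xL (Dt.step 73 5 198)))))

def a696 : Tr := (xET (xET (xL (Dt.step 70 5 198)) (xE (xL (Dt.step 71 10 203)))) (xE (xE (xL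
  (Dt.step 72 9 202)))))

def a697 : Tr := Tr.n Dt.none a694 a695 a696

def a698 : Tr := (xEF (xEF (xF (xE (Tr.n (Dt.step 71 7 264) Tr.z (xT (xE (xF (xE (xF (xF (xF (xL
  (Dt.split 64 12 71 57))))))))) Tr.z))) (xE (xE (xL (Dt.step 72 7 200))))) (xE (xE (xE (xL
  (Dt.step 71 5 264))))))

def a699 : Tr := Tr.n Dt.none a697 a698 Tr.z

def a700 : Tr := (xET (xT (xE (xE (xE (xL (Dt.split 71 0 64 71)))))) (xE (xE (xE (xE (xL (Dt.split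
  72 0 64 72)))))))

def a701 : Tr := Tr.n Dt.none a699 Tr.z a700

def a702 : Tr := (xET (xET (xET (xET (xL (Dt.step 67 2 3)) (xE (xL (Dt.step 68 9 3)))) (xE (xE (xL
  (Dt.step 69 8 3))))) (xE (xE (xE (xL (Dt.step 70 7 3)))))) (xE (xE (xET (xET (Tr.n (Dt.step 71 6
  3) Tr.z (xF (xE (xL (Dt.split 66 0 64 66)))) Tr.z) (xE (Tr.n (Dt.step 72 10 3) (xF (xL (Dt.split
  66 0 64 66))) (xF (xE (xT (xE (xF (xF (xF (xL (Dt.split 64 0 64 64))))))))) Tr.z))) (xE (xE (xL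
  (Dt.step 73 9 3))))))))

def a703 : Tr := Tr.n Dt.none a693 a701 a702

def a704 : Tr := Tr.n Dt.none a557 a678 a703

def a705 : Tr := (xF (Tr.n (Dt.split 67 0 64 67) Tr.z (xT (xF (xT (xF (xE (xF (xF (xF (xE (xL
  (Dt.split 64 10 67 61))))))))))) Tr.z))

def a706 : Tr := (xT (xF (xT (xF (xE (xF (xF (xEF (xF (xL (Dt.step 64 0 299401))) (xE (xL (Dt.step
  65 8 4489)))))))))))

def a707 : Tr := (xF (xEF (xT (xF (xEF (xEF (xF (xF (xF (xL (Dt.step 64 0 4553))))) (xEF (xF (xF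
  (xL (Dt.step 65 3 135625)))) (xEF (xF (xL (Dt.step 65 3 135625))) (xE (xL (Dt.split 64 0 64
  64)))))) (xE (xEF (xF (xF (xL (Dt.step 65 3 4233)))) (xEF (xF (xL (Dt.split 64 0 64 64))) (xE
  (xL (Dt.split 65 0 64 65))))))))) (xET (xT (xE (xEF (xF (xF (xF (xL (Dt.step 64 0 137))))) (xEF
  (xF (xF (xL (Dt.step 65 3 4233)))) (xE (xF (xL (Dt.step 65 3 4233)))))))) (xE (xE (xF (xEF (xF
  (xF (xL (Dt.step 65 13 14473)))) (xEF (xF (xL (Dt.split 64 0 64 64))) (xE (xL (Dt.split 65 0 64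
  65)))))))))))

def a708 : Tr := (xE (Tr.n (Dt.step 68 3 9) Tr.z (xT (xF (xE (xF (xF (xEF (xF (xL (Dt.split 64 12
  68 60))) (xE (xL (Dt.split 65 12 68 61))))))))) Tr.z))

def a709 : Tr := Tr.n (Dt.step 74 3 4) a706 a707 a708

def a710 : Tr := Tr.n Dt.none Tr.z Tr.z a709

def a711 : Tr := (Tr.n (Dt.split 68 0 64 68) Tr.z (xT (xF (xT (xF (xE (xF (xF (xEF (xF (xL
  (Dt.split 64 10 68 60))) (xE (xL (Dt.split 65 10 68 61))))))))))) Tr.z)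

def a712 : Tr := (xT (xF (xT (xF (xE (xF (xEF (xF (xF (xL (Dt.step 64 0 332170)))) (xEF (xF (xL
  (Dt.step 65 9 332170))) (xE (xL (Dt.step 65 9 4490)))))))))))

def a713 : Tr := (xEF (xF (xF (xF (xF (xF (xT (xE (xE (xL (Dt.split 65 9 68 61)))))))))) (xEF
  (Tr.n Dt.none (xT (xF (xF (xF (xF (xE (xL (Dt.split 65 9 68 61)))))))) (xF (xE (xEF (xF (xF (xF
  (xL (Dt.split 65 9 71 58))))) (xEF (xF (xF (xL (Dt.split 65 9 72 57)))) (xEF (xF (xL (Dt.split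
  64 9 72 56))) (xE (xL (Dt.split 65 9 72 57)))))))) (xEF (xT (xF (xF (xF (xE (xL (Dt.split 65 9
  72 57))))))) (xEF (xT (xF (xF (xE (xL (Dt.split 65 9 71 58)))))) (xE (xT (xF (xE (xL (Dt.split
  65 9 70 59))))))))) (xET (xT (xE (xE (xF (xF (xF (xL (Dt.split 65 9 71 58)))))))) (xE (xE (xE
  (xF (xF (xF (xL (Dt.split 65 9 72 57)))))))))))

def a714 : Tr := (xET (Tr.n (Dt.step 70 3 4) Tr.z (xT (xEF (xF (xF (xEF (xF (xF (xL (Dt.split 64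
  12 70 58)))) (xE (xF (xL (Dt.split 65 12 70 59))))))) (xE (xF (xEF (xF (xF (xL (Dt.split 65 12
  70 59)))) (xEF (xF (xL (Dt.split 65 12 69 60))) (xE (xL (Dt.split 65 12 68 61))))))))) Tr.z) (xE
  (xT (xE (xF (xF (xE (xF (xF (xL (Dt.step 65 11 12684)))))))))))

def a715 : Tr := Tr.n Dt.none a712 a713 a714

def a716 : Tr := Tr.n (Dt.step 72 3 4) a711 a715 Tr.z

def a717 : Tr := Tr.n Dt.none a705 a710 a716

def a718 : Tr := (xF (xT (xEF (xF (xF (xEF (xF (xF (xF (xE (xL (Dt.split 64 0 64 64)))))) (xEF (xF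
  (xEF (xF (xL (Dt.split 64 0 64 64))) (xE (xL (Dt.split 65 0 64 65))))) (xE (xE (xF (xL (Dt.split
  65 0 64 65))))))))) (xEF (xEF (xF (xF (xF (xF (xE (xL (Dt.split 64 0 64 64))))))) (xEF (xF (xF
  (xEF (xF (xL (Dt.step 64 0 270602))) (xE (xL (Dt.step 65 7 8458)))))) (xE (xEF (xF (xF (xL
  (Dt.step 64 0 8458)))) (xE (xF (xL (Dt.step 65 7 270602)))))))) (xE (xEF (xEF (xF (xF (xF (xL
  (Dt.step 64 0 266))))) (xEF (xF (xF (xL (Dt.step 65 7 8458)))) (xE (xF (xL (Dt.step 65 7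
  8458)))))) (xE (xE (xF (xF (xL (Dt.step 65 7 8458))))))))))))

def a719 : Tr := (xT (xF (xT (xF (xEF (xF (xEF (xF (xF (xL (Dt.step 64 0 266632)))) (xEF (xF (xL
  (Dt.step 65 7 266632))) (xE (xL (Dt.step 65 7 4488)))))) (xE (xEF (xF (xF (xL (Dt.step 65 3
  4484)))) (xE (xF (xL (Dt.step 65 3 135556)))))))))))

def a720 : Tr := (Tr.n Dt.none (xF (xT (xF (xE (xE (xF (xF (xF (xL (Dt.step 64 0 11524))))))))))
  (xF (xE (xE (xF (xEF (xF (xF (xF (xL (Dt.split 64 10 75 53))))) (xE (xF (xF (xL (Dt.split 65 10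
  75 54)))))))))) (xEF (xT (xEF (xF (xF (xF (xF (xE (xL (Dt.split 64 0 64 64))))))) (xE (xEF (xF
  (xF (xF (xL (Dt.step 65 7 8648))))) (xEF (xF (xF (xL (Dt.step 65 7 270600)))) (xEF (xF (xL
  (Dt.step 64 0 270600))) (xE (xL (Dt.step 65 7 8456))))))))) (xET (xT (xE (xE (xF (xF (xF (xL
  (Dt.step 65 7 264)))))))) (xE (xE (xE (xF (xF (xF (xL (Dt.step 65 13 264)))))))))))

def a721 : Tr := (xE (Tr.n (Dt.step 69 3 4) Tr.z (xT (xF (xEF (xF (xEF (xF (xF (xL (Dt.split 64 12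
  69 59)))) (xEF (xF (xL (Dt.split 65 12 69 60))) (xE (xL (Dt.split 65 12 68 61)))))) (xE (xEF (xF
  (xF (xL (Dt.split 65 12 69 60)))) (xE (xF (xL (Dt.split 65 12 68 61))))))))) Tr.z))

def a722 : Tr := Tr.n (Dt.step 75 7 4) a719 a720 a721

def a723 : Tr := Tr.n Dt.none Tr.z a718 a722

def a724 : Tr := (xTF (xF (xEF (xF (xF (xF (xF (xE (xL (Dt.split 64 7 76 52))))))) (xEF (xF (xEF
  (xF (xF (xL (Dt.split 64 7 76 52)))) (xEF (xF (xL (Dt.split 65 7 76 53))) (xE (xL (Dt.split 65 7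
  75 54)))))) (xE (xEF (xF (xF (xL (Dt.split 65 7 76 53)))) (xE (xF (xL (Dt.split 65 7 75
  54))))))))) (xT (xF (xEF (xEF (xF (xF (xF (xL (Dt.split 64 7 76 52))))) (xEF (xF (xF (xL
  (Dt.split 65 7 76 53)))) (xE (xF (xL (Dt.split 65 7 75 54)))))) (xE (xE (xF (xF (xL (Dt.split 65
  7 75 54))))))))))

def a725 : Tr := (xEF (xF (xF (xE (xF (xF (xEF (xF (xL (Dt.split 65 7 75 54))) (xE (xL (Dt.split
  65 7 76 53))))))))) (xE (xE (xF (xEF (xF (xF (xF (xL (Dt.split 64 7 76 52))))) (xEF (xF (xF (xL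
  (Dt.split 65 7 76 53)))) (xE (xF (xL (Dt.split 65 7 75 54))))))))))

def a726 : Tr := (Tr.n Dt.none (xT (xEF (xF (xF (xF (xF (xE (xL (Dt.split 64 7 73 55))))))) (xEF
  (xEF (xF (xF (xF (xL (Dt.split 65 7 76 53))))) (xEF (xF (xF (xL (Dt.split 65 7 75 54)))) (xEF
  (xF (xL (Dt.split 64 7 73 55))) (xE (xL (Dt.split 65 7 73 56)))))) (xE (xEF (xF (xF (xL
  (Dt.split 64 7 73 55)))) (xE (xF (xL (Dt.split 65 7 73 56))))))))) (xE (xF (xE (xEF (xF (xF (xF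
  (xL (Dt.split 64 7 76 52))))) (xE (xF (xF (xL (Dt.split 65 7 76 53))))))))) (xT (xE (xF (xE (xE
  (xF (xF (xL (Dt.split 65 7 75 54))))))))))

def a727 : Tr := Tr.n Dt.none a724 a725 a726

def a728 : Tr := Tr.n Dt.none Tr.z Tr.z a727

def a729 : Tr := (xF (xE (xE (xEF (xF (xF (xF (xEF (xF (xF (xL (Dt.split 64 7 76 52)))) (xE (xF
  (xL (Dt.split 65 7 76 53)))))))) (xE (xF (xEF (xF (xF (xF (xL (Dt.split 64 7 76 52))))) (xE (xF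
  (xF (xL (Dt.split 65 7 76 53))))))))))))

def a730 : Tr := (xT (xF (xEF (xF (xF (xF (xEF (xF (xL (Dt.split 64 7 76 52))) (xE (xL (Dt.split
  65 7 76 53))))))) (xEF (xEF (xF (xF (xF (xL (Dt.split 64 7 76 52))))) (xE (xF (xF (xL (Dt.split
  65 7 76 53)))))) (xE (xE (xF (xF (xL (Dt.split 65 7 75 54))))))))))

def a731 : Tr := (xEF (xEF (xF (xF (xF (xF (xEF (xF (xL (Dt.split 64 7 76 52))) (xE (xL (Dt.split
  65 7 75 54)))))))) (xEF (xF (xF (xF (xF (xE (xL (Dt.split 65 7 74 55))))))) (xEF (xEF (xF (xF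
  (xF (xL (Dt.split 65 7 76 53))))) (xF (xEF (xF (xL (Dt.split 65 7 74 55))) (xE (xL (Dt.split 65
  7 75 54)))))) (xE (xEF (xF (xF (xL (Dt.split 65 7 76 53)))) (xE (xF (xL (Dt.split 65 7 76
  53))))))))) (xE (xF (xEF (xEF (xF (xF (xF (xL (Dt.split 65 7 76 53))))) (xEF (xF (xF (xL
  (Dt.split 65 7 76 53)))) (xE (xF (xL (Dt.split 65 7 76 53)))))) (xE (xE (xF (xF (xL (Dt.split 65
  7 76 53))))))))))

def a732 : Tr := (xE (xT (xF (xF (xE (xE (xF (xF (xL (Dt.split 65 7 73 56))))))))))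

def a733 : Tr := Tr.n Dt.none a730 a731 a732

def a734 : Tr := (xE (xF (xEF (xEF (xF (xEF (xF (xF (xF (xL (Dt.split 64 7 76 52))))) (xEF (xF (xF
  (xL (Dt.split 65 7 76 53)))) (xE (xF (xL (Dt.split 65 7 76 53))))))) (xE (xEF (xF (xF (xF (xL
  (Dt.split 65 7 76 53))))) (xE (xF (xF (xL (Dt.split 65 7 76 53)))))))) (xE (xE (xE (xF (xF (xF
  (xL (Dt.split 65 7 76 53)))))))))))

def a735 : Tr := Tr.n Dt.none a733 a734 Tr.z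

def a736 : Tr := Tr.n Dt.none a728 a729 a735

def a737 : Tr := (xT (xF (xT (xF (xEF (xF (xEF (xF (xF (xL (Dt.step 65 7 266632)))) (xE (xF (xL
  (Dt.step 65 7 266632)))))) (xE (xE (xF (xF (xL (Dt.step 65 3 4488)))))))))))

def a738 : Tr := (xF (Tr.n Dt.none (xT (xF (xF (xF (xF (xE (xL (Dt.step 65 3 15624)))))))) (xEF
  (xF (xF (xF (xE (xF (xL (Dt.step 65 3 470152))))))) (xE (xEF (xF (xF (xF (xL (Dt.step 65 3
  11528))))) (xE (xF (xF (xL (Dt.step 65 3 371976)))))))) (xEF (xT (xF (xF (xF (xE (xL (Dt.step 65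
  3 16648))))))) (xEF (xT (xF (xF (xE (xL (Dt.step 65 3 17672)))))) (xE (xT (xF (xE (xL (Dt.step
  65 3 8456))))))))))

def a739 : Tr := (xEF (xF (xEF (xF (xF (xEF (xF (xF (xL (Dt.split 64 10 75 53)))) (xE (xF (xL
  (Dt.split 65 10 75 54))))))) (xE (xEF (xF (xF (xF (xL (Dt.split 64 10 75 53))))) (xE (xF (xF (xL
  (Dt.split 65 10 75 54))))))))) (xEF (xEF (xEF (xF (xF (xF (xF (xL (Dt.step 64 0 132)))))) (xE
  (xF (xF (xF (xL (Dt.step 65 3 4488))))))) (xEF (xF (xF (xEF (xF (xL (Dt.split 64 10 72 56))) (xE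
  (xL (Dt.split 65 10 72 57)))))) (xE (xEF (xF (xF (xL (Dt.split 64 10 72 56)))) (xE (xF (xL
  (Dt.split 65 10 72 57)))))))) (xE (xEF (xEF (xF (xF (xF (xL (Dt.split 64 10 73 55))))) (xEF (xF
  (xF (xL (Dt.split 65 10 73 56)))) (xE (xF (xL (Dt.split 65 10 72 57)))))) (xE (xE (xF (xF (xL
  (Dt.split 65 10 72 57))))))))))

def a740 : Tr := (xE (xT (xE (xF (xF (xEF (xF (xF (xL (Dt.step 65 3 139624)))) (xEF (xF (xL
  (Dt.step 64 0 139624))) (xE (xL (Dt.step 65 3 8552))))))))))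

def a741 : Tr := Tr.n Dt.none a738 a739 a740

def a742 : Tr := (xET (Tr.n (Dt.step 71 3 136) Tr.z (xT (xEF (xF (xE (xF (xF (xF (xL (Dt.split 64
  12 71 57))))))) (xEF (xEF (xF (xF (xF (xL (Dt.split 65 12 71 58))))) (xEF (xF (xF (xL (Dt.split
  65 12 70 59)))) (xE (xF (xL (Dt.split 65 12 69 60)))))) (xE (xE (xF (xF (xL (Dt.split 65 12 69
  60))))))))) Tr.z) (xE (xT (xE (xF (xE (xF (xF (xF (xL (Dt.step 65 11 274824)))))))))))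

def a743 : Tr := Tr.n (Dt.step 75 3 8) a737 a741 a742

def a744 : Tr := (xF (xE (xE (xT (xE (xE (xF (xF (xF (xF (xL (Dt.step 65 3 328))))))))))))

def a745 : Tr := (xE (xET (Tr.n (Dt.step 72 3 8) Tr.z (xT (xEF (xF (xE (xF (xF (xF (xL (Dt.split
  65 12 72 57))))))) (xE (xF (xE (xF (xF (xL (Dt.split 65 12 70 59))))))))) Tr.z) (xE (xT (xE (xF
  (xF (xEF (xF (xF (xL (Dt.step 65 3 4488)))) (xEF (xF (xL (Dt.split 64 0 64 64))) (xE (xL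
  (Dt.split 65 0 64 65))))))))))))

def a746 : Tr := Tr.n Dt.none a743 a744 a745

def a747 : Tr := Tr.n Dt.none a723 a736 a746

def a748 : Tr := (Tr.n (Dt.split 69 0 64 69) Tr.z (xT (xF (xT (xF (xE (xF (xEF (xF (xF (xL
  (Dt.split 64 10 69 59)))) (xEF (xF (xL (Dt.split 65 10 69 60))) (xE (xL (Dt.split 65 10 68
  61))))))))))) Tr.z)

def a749 : Tr := (xT (xF (xT (xF (xE (xF (xF (xEF (xF (xL (Dt.step 64 0 332170))) (xE (xL (Dt.step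
  65 9 4490)))))))))))

def a750 : Tr := (xF (xEF (xT (xF (xF (xF (xF (xE (xL (Dt.split 65 9 69 60)))))))) (xEF (xT (xF
  (xF (xF (xE (xL (Dt.split 65 9 69 60))))))) (xEF (xT (xF (xF (xE (xL (Dt.split 65 9 72 57))))))
  (xE (xTF (xF (xE (xL (Dt.split 65 9 71 58)))) (xT (xE (xL (Dt.split 64 9 69 59))))))))))

def a751 : Tr := (xEF (Tr.n Dt.none (xT (xF (xF (xF (xE (xF (xL (Dt.split 65 9 70 59)))))))) (xEF
  (xF (xF (xE (xF (xF (xL (Dt.split 65 9 72 57))))))) (xEF (xEF (xF (xF (xF (xL (Dt.split 65 9 71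
  58))))) (xEF (xF (xF (xL (Dt.split 65 9 72 57)))) (xE (xF (xL (Dt.split 65 9 69 60)))))) (xE (xE
  (xF (xF (xL (Dt.split 65 9 71 58)))))))) (xEF (xT (xF (xF (xE (xF (xL (Dt.split 65 9 69
  60))))))) (xEF (xT (xF (xE (xF (xL (Dt.split 65 9 72 57)))))) (xE (xET (xT (xF (xL (Dt.split 64
  9 70 58)))) (xE (xF (xL (Dt.split 65 9 71 58))))))))) (xET (xT (xE (xEF (xF (xF (xF (xL
  (Dt.split 64 9 70 58))))) (xEF (xF (xF (xL (Dt.split 65 9 72 57)))) (xE (xF (xL (Dt.split 65 9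
  72 57)))))))) (xE (xE (xF (xE (xF (xF (xL (Dt.split 65 9 72 57))))))))))

def a752 : Tr := Tr.n Dt.none a750 Tr.z a751

def a753 : Tr := (xE (Tr.n (Dt.step 71 3 324) Tr.z (xT (xEF (xF (xF (xE (xF (xF (xL (Dt.split 65
  12 71 58))))))) (xE (xF (xF (xEF (xF (xL (Dt.split 64 12 68 60))) (xE (xL (Dt.split 65 12 68
  61))))))))) Tr.z))

def a754 : Tr := Tr.n Dt.none a749 a752 a753

def a755 : Tr := Tr.n (Dt.step 72 3 4) a748 a754 Tr.z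

def a756 : Tr := (xT (xET (xF (Tr.n Dt.none (xT (xF (xF (xF (xE (xF (xL (Dt.step 65 3
  310569)))))))) (xEF (xF (xF (xE (xF (xF (xL (Dt.step 65 3 463150))))))) (xE (xE (xF (xF (xF (xL
  (Dt.step 65 3 4393)))))))) (xEF (xT (xF (xF (xE (xF (xL (Dt.step 65 3 311593))))))) (xEF (xT (xF
  (xE (xF (xL (Dt.step 65 3 312617)))))) (xE (xET (xT (xF (xL (Dt.step 64 0 9513)))) (xE (xF (xL
  (Dt.step 65 17 9513)))))))))) (xE (xF (xF (xE (xE (xF (xF (xF (xL (Dt.step 65 3 4492))))))))))))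

def a757 : Tr := (xET (xET (Tr.n (Dt.step 71 3 4) Tr.z (xT (xEF (xF (xF (xE (xF (xF (xL (Dt.split
  65 12 71 58))))))) (xE (xE (xF (xF (xF (xL (Dt.split 65 12 71 58))))))))) Tr.z) (xE (xT (xE (xF
  (xE (xF (xF (xF (xL (Dt.step 65 3 12681))))))))))) (xE (xE (xT (xE (xE (xF (xF (xF (xF (xL
  (Dt.step 65 3 363))))))))))))

def a758 : Tr := Tr.n Dt.none a756 Tr.z a757

def a759 : Tr := (xE (xET (xL (Dt.step 70 3 4)) (xE (xL (Dt.step 71 10 4)))))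

def a760 : Tr := Tr.n Dt.none a755 a758 a759

def a761 : Tr := Tr.n Dt.none a717 a747 a760

def a762 : Tr := (xEF (xT (xF (xF (xF (xEF (xF (xF (xF (xE (xL (Dt.split 64 0 64 64)))))) (xE (xF
  (xEF (xF (xL (Dt.split 64 0 64 64))) (xE (xL (Dt.split 65 0 64 65))))))))))) (xT (xEF (xF (xF
  (xEF (xF (xF (xEF (xF (xL (Dt.step 64 0 236778))) (xE (xL (Dt.step 65 6 7402)))))) (xE (xEF (xF
  (xF (xL (Dt.step 64 0 7402)))) (xE (xF (xL (Dt.step 65 6 236778))))))))) (xEF (xEF (xF (xF (xF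
  (xEF (xF (xL (Dt.step 64 0 7402))) (xE (xL (Dt.step 65 6 234))))))) (xEF (xF (xEF (xF (xF (xL
  (Dt.step 64 0 236778)))) (xE (xF (xL (Dt.step 65 6 236778)))))) (xE (xE (xF (xF (xL (Dt.step 65
  6 7402)))))))) (xE (xE (xEF (xF (xF (xF (xL (Dt.step 65 6 234))))) (xE (xF (xF (xL (Dt.step 65 6
  7402))))))))))))

def a763 : Tr := (xT (xF (xT (xF (xEF (xF (xEF (xF (xF (xL (Dt.step 65 6 236935)))) (xE (xF (xL
  (Dt.step 65 6 236935)))))) (xE (xE (xF (xF (xL (Dt.step 65 6 7559)))))))))))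

def a764 : Tr := (Tr.n Dt.none (xF (xT (xF (xE (xEF (xF (xF (xF (xL (Dt.step 65 6 11495))))) (xE
  (xF (xF (xL (Dt.step 65 10 371943)))))))))) (xEF (xF (xEF (xF (xF (xEF (xF (xF (xL (Dt.split 64
  10 75 53)))) (xE (xF (xL (Dt.split 65 10 75 54))))))) (xE (xEF (xF (xF (xF (xL (Dt.split 64 10
  75 53))))) (xE (xF (xF (xL (Dt.split 65 10 75 54))))))))) (xE (xE (xEF (xF (xF (xF (xF (xL
  (Dt.step 64 0 231)))))) (xEF (xF (xF (xF (xL (Dt.step 65 6 7559))))) (xE (xF (xF (xL (Dt.split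
  65 10 75 54)))))))))) (xE (xT (xEF (xF (xF (xF (xEF (xF (xL (Dt.step 64 0 7399))) (xE (xL
  (Dt.step 65 6 231))))))) (xE (xE (xF (xF (xF (xL (Dt.step 65 6 7403)))))))))))

def a765 : Tr := (xE (Tr.n (Dt.step 70 6 7) Tr.z (xT (xF (xEF (xF (xEF (xF (xF (xL (Dt.split 65 12
  70 59)))) (xE (xF (xL (Dt.split 65 12 69 60)))))) (xE (xE (xF (xF (xL (Dt.split 65 12 69
  60))))))))) Tr.z))

def a766 : Tr := Tr.n (Dt.step 75 6 7) a763 a764 a765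

def a767 : Tr := Tr.n Dt.none Tr.z a762 a766

def a768 : Tr := (xT (xF (xF (xF (xE (xF (xF (xEF (xF (xL (Dt.step 64 0 9511))) (xE (xL (Dt.step
  65 8 295)))))))))))

def a769 : Tr := (xF (xEF (xF (xF (xEF (xF (xEF (xF (xF (xL (Dt.step 64 0 304427)))) (xE (xF (xL
  (Dt.step 65 8 304427)))))) (xE (xE (xF (xF (xL (Dt.step 65 8 9515))))))))) (xEF (xEF (xF (xEF
  (xF (xF (xF (xL (Dt.step 64 0 9511))))) (xEF (xF (xF (xL (Dt.step 65 8 9511)))) (xE (xF (xL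
  (Dt.step 65 8 9511))))))) (xE (xEF (xF (xF (xF (xL (Dt.step 65 8 9511))))) (xE (xF (xF (xL
  (Dt.step 65 8 304423)))))))) (xE (xE (xE (xF (xF (xF (xL (Dt.step 65 8 295)))))))))))

def a770 : Tr := (xTF (xF (xEF (xF (xF (xF (xEF (xF (xL (Dt.step 64 0 236967))) (xE (xL (Dt.step
  65 6 7591))))))) (xEF (xEF (xF (xF (xF (xL (Dt.step 64 0 7399))))) (xE (xF (xF (xL (Dt.step 65 6
  236775)))))) (xE (xE (xF (xF (xL (Dt.step 65 6 7591))))))))) (xT (xF (xE (xEF (xF (xF (xF (xL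
  (Dt.step 65 6 7401))))) (xE (xF (xF (xL (Dt.step 65 6 236777))))))))))

def a771 : Tr := (xEF (xF (xEF (xF (xF (xEF (xF (xF (xL (Dt.step 64 0 405737)))) (xEF (xF (xL
  (Dt.step 65 11 400617))) (xE (xL (Dt.step 65 11 7463))))))) (xEF (xEF (xF (xF (xF (xL (Dt.step
  65 11 12679))))) (xEF (xF (xF (xL (Dt.step 65 11 242057)))) (xE (xF (xL (Dt.step 65 6
  238887)))))) (xE (xE (xF (xF (xL (Dt.step 65 8 9511))))))))) (xE (xEF (xEF (xF (xF (xF (xF (xL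
  (Dt.step 64 0 233)))))) (xEF (xF (xF (xF (xL (Dt.step 65 6 7561))))) (xE (xF (xF (xL (Dt.step 65
  6 7561))))))) (xE (xE (xF (xF (xF (xL (Dt.step 65 11 12583))))))))))

def a772 : Tr := (xE (xT (xEF (xF (xF (xF (xEF (xF (xL (Dt.step 64 0 7401))) (xE (xL (Dt.step 65 6
  233))))))) (xF (xE (xE (xF (xF (xL (Dt.step 65 6 7399))))))))))

def a773 : Tr := Tr.n Dt.none a770 a771 a772

def a774 : Tr := Tr.n Dt.none a768 a769 a773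

def a775 : Tr := (xEF (xF (xEF (xF (xF (xE (xF (xE (xF (xF (xL (Dt.step 65 9 338250))))))))) (xE
  (xEF (xEF (xF (xF (xF (xF (xL (Dt.step 64 0 330)))))) (xEF (xF (xF (xF (xL (Dt.step 65 9
  10570))))) (xE (xF (xF (xL (Dt.step 65 9 10570))))))) (xE (xE (xF (xF (xF (xL (Dt.step 65 9
  10570))))))))))) (xE (xE (xEF (xF (xF (xEF (xF (xF (xF (xL (Dt.step 64 0 231))))) (xE (xF (xF
  (xL (Dt.step 65 6 231)))))))) (xE (xEF (xF (xF (xF (xF (xL (Dt.step 64 0 234)))))) (xE (xF (xF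
  (xF (xL (Dt.step 65 6 7498))))))))))))

def a776 : Tr := (xE (xT (xE (xEF (xF (xF (xF (xEF (xF (xF (xL (Dt.step 64 0 7465)))) (xEF (xF (xL
  (Dt.step 65 6 7465))) (xE (xL (Dt.step 65 6 233)))))))) (xF (xEF (xF (xEF (xF (xF (xL (Dt.step
  65 8 236777)))) (xE (xF (xL (Dt.step 65 6 236777)))))) (xE (xE (xF (xF (xL (Dt.step 65 6
  7401))))))))))))

def a777 : Tr := Tr.n Dt.none a774 a775 a776

def a778 : Tr := (xF (Tr.n (Dt.step 71 3 228) Tr.z (xT (xF (xE (xE (xF (xF (xF (xL (Dt.split 65 12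
  71 58))))))))) Tr.z))

def a779 : Tr := (xTF (xE (xF (xF (xF (xF (xEF (xF (xL (Dt.split 64 0 64 64))) (xE (xL (Dt.split
  65 0 64 65))))))))) (xT (xEF (xF (xF (xE (xF (xF (xL (Dt.step 65 3 236775))))))) (xE (xE (xF (xF
  (xF (xL (Dt.step 65 3 7527))))))))))

def a780 : Tr := (xEF (xF (xF (xF (xEF (xF (xF (xL (Dt.step 64 0 12524)))) (xEF (xF (xL (Dt.step
  65 11 12524))) (xE (xL (Dt.split 65 10 75 54)))))))) (xEF (xF (xEF (xF (xF (xF (xL (Dt.step 64 0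
  236772))))) (xEF (xF (xF (xL (Dt.step 65 6 236932)))) (xE (xF (xL (Dt.split 65 10 75 54)))))))
  (xEF (xEF (xF (xF (xF (xL (Dt.step 65 6 7559))))) (xEF (xF (xF (xL (Dt.split 65 10 75 54))))
  (xEF (xF (xL (Dt.split 64 10 73 55))) (xE (xL (Dt.split 65 10 73 56)))))) (xE (xEF (xF (xF (xL
  (Dt.split 64 10 73 55)))) (xE (xF (xL (Dt.split 65 10 73 56)))))))))

def a781 : Tr := (xEF (xEF (xEF (xF (xF (xF (xF (xL (Dt.step 65 6 228)))))) (xEF (xF (xF (xF (xL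
  (Dt.step 65 6 12684))))) (xEF (xF (xF (xL (Dt.split 65 10 75 54)))) (xEF (xF (xL (Dt.split 64 10
  73 55))) (xE (xL (Dt.split 65 10 73 56))))))) (xEF (xF (xEF (xF (xF (xL (Dt.split 64 10 73
  55)))) (xE (xF (xL (Dt.split 65 10 73 56)))))) (xE (xE (xF (xF (xL (Dt.split 65 10 73 56))))))))
  (xE (xE (xEF (xF (xF (xF (xL (Dt.split 65 10 74 55))))) (xE (xF (xF (xL (Dt.split 65 10 73
  56)))))))))

def a782 : Tr := Tr.n Dt.none a780 Tr.z a781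

def a783 : Tr := (xE (xT (xE (xF (xE (xF (xF (xF (xL (Dt.step 65 3 241003))))))))))

def a784 : Tr := Tr.n Dt.none a779 a782 a783

def a785 : Tr := Tr.n (Dt.step 75 6 4) a778 a784 Tr.z

def a786 : Tr := (xE (Tr.n Dt.none (xF (xT (xE (xF (xE (xF (xF (xF (xL (Dt.step 65 3
  338250)))))))))) (xE (xEF (xF (xF (xEF (xF (xF (xF (xL (Dt.step 64 0 10570))))) (xEF (xF (xF (xL
  (Dt.step 65 9 10570)))) (xE (xF (xL (Dt.step 65 9 10570)))))))) (xE (xEF (xF (xF (xF (xF (xL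
  (Dt.step 64 0 10570)))))) (xEF (xF (xF (xF (xL (Dt.step 65 9 338250))))) (xE (xF (xF (xL
  (Dt.step 65 9 338250)))))))))) (xE (xT (xE (xE (xF (xF (xF (xF (xL (Dt.step 65 3
  10474))))))))))))

def a787 : Tr := (xE (xET (Tr.n (Dt.step 71 3 7) Tr.z (xT (xF (xE (xE (xF (xF (xF (xL (Dt.split 65
  12 71 58))))))))) Tr.z) (xE (xT (xE (xF (xE (xF (xF (xF (xL (Dt.step 65 3 7559))))))))))))

def a788 : Tr := Tr.n Dt.none a785 a786 a787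

def a789 : Tr := Tr.n Dt.none a767 a777 a788

def a790 : Tr := (xF (xE (xE (xET (xF (xT (xE (xE (xF (xF (xF (xF (xL (Dt.step 65 3 264))))))))))
  (xE (xEF (xF (xEF (xF (xF (xF (xF (xL (Dt.step 64 0 264)))))) (xEF (xF (xF (xF (xL (Dt.step 65 7
  264))))) (xE (xF (xF (xL (Dt.step 65 7 264)))))))) (xE (xE (xF (xF (xF (xF (xL (Dt.step 65 7
  268))))))))))))))

def a791 : Tr := (xF (Tr.n (Dt.step 72 3 135) Tr.z (xT (xE (xF (xE (xF (xF (xF (xL (Dt.split 65 12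
  72 57))))))))) Tr.z))

def a792 : Tr := (xTF (xE (xF (xF (xF (xEF (xF (xF (xL (Dt.split 64 0 64 64)))) (xE (xF (xL
  (Dt.split 65 0 64 65))))))))) (xT (xE (xF (xE (xF (xF (xF (xL (Dt.step 65 3 236907))))))))))

def a793 : Tr := (xEF (xF (xF (xEF (xF (xF (xF (xL (Dt.step 64 0 12428))))) (xEF (xF (xF (xL
  (Dt.step 65 11 12428)))) (xEF (xF (xL (Dt.split 65 10 76 53))) (xE (xL (Dt.split 65 10 75
  54)))))))) (xEF (xEF (xF (xF (xF (xF (xL (Dt.step 64 0 4231)))))) (xEF (xF (xF (xF (xL (Dt.step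
  65 3 138631))))) (xEF (xF (xF (xL (Dt.split 65 10 76 53)))) (xEF (xF (xL (Dt.split 65 10 75
  54))) (xE (xL (Dt.split 65 10 74 55))))))) (xEF (xEF (xF (xF (xF (xL (Dt.split 65 10 76 53)))))
  (xEF (xF (xF (xL (Dt.split 64 10 74 54)))) (xEF (xF (xL (Dt.split 65 10 74 55))) (xE (xL
  (Dt.split 65 10 73 56)))))) (xE (xEF (xF (xF (xL (Dt.split 65 10 74 55)))) (xE (xF (xL (Dt.split
  65 10 73 56)))))))))

def a794 : Tr := (xE (xEF (xEF (xF (xF (xF (xF (xL (Dt.step 65 3 391)))))) (xE (xF (xF (xF (xL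
  (Dt.split 65 10 76 53))))))) (xEF (xF (xEF (xF (xF (xL (Dt.split 65 10 74 55)))) (xE (xF (xL
  (Dt.split 65 10 73 56)))))) (xE (xE (xF (xF (xL (Dt.split 65 10 73 56)))))))))

def a795 : Tr := Tr.n Dt.none a793 Tr.z a794

def a796 : Tr := (xE (xT (xE (xE (xF (xF (xF (xF (xL (Dt.step 65 3 11499))))))))))

def a797 : Tr := Tr.n Dt.none a792 a795 a796

def a798 : Tr := Tr.n (Dt.step 76 3 7) a791 a797 Tr.z

def a799 : Tr := (xE (xT (xE (xEF (xF (xF (xF (xEF (xF (xF (xL (Dt.step 64 0 10570)))) (xEF (xF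
  (xL (Dt.step 65 9 10570))) (xE (xL (Dt.step 65 9 330)))))))) (xF (xEF (xF (xEF (xF (xF (xL
  (Dt.step 65 9 338250)))) (xE (xF (xL (Dt.step 65 9 338250)))))) (xE (xE (xF (xF (xL (Dt.step 65
  9 10570))))))))))))

def a800 : Tr := Tr.n Dt.none a798 a799 Tr.z

def a801 : Tr := Tr.n Dt.none a800 Tr.z Tr.z

def a802 : Tr := Tr.n Dt.none a789 a790 a801

def a803 : Tr := (Tr.n (Dt.split 68 0 63 69) Tr.z (xT (xF (xT (xF (xE (xF (xF (xEF (xF (xL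
  (Dt.split 64 10 68 60))) (xE (xL (Dt.split 65 10 68 61))))))))))) Tr.z)

def a804 : Tr := (xT (xF (xT (xF (xE (xF (xEF (xF (xF (xL (Dt.step 64 0 332164)))) (xEF (xF (xL
  (Dt.step 65 9 332164))) (xE (xL (Dt.step 65 9 4484)))))))))))

def a805 : Tr := (xF (Tr.n Dt.none (xT (xF (xF (xF (xE (xF (xL (Dt.split 65 9 71 58)))))))) (xF
  (xE (xE (xF (xF (xF (xL (Dt.split 65 9 72 57)))))))) (xEF (xT (xF (xF (xE (xF (xL (Dt.split 65 9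
  74 55))))))) (Tr.n Dt.none (xT (xF (xE (xF (xL (Dt.split 65 9 73 56)))))) (xE (xE (xF (xF (xL
  (Dt.split 65 9 74 55)))))) (xE (xET (xT (xF (xL (Dt.split 64 9 71 57)))) (xE (xF (xL (Dt.split
  65 9 72 57))))))))))

def a806 : Tr := (xET (Tr.n Dt.none (xT (xF (xF (xE (xF (xF (xL (Dt.split 65 9 71 58)))))))) (xF
  (xE (xEF (xF (xF (xF (xL (Dt.split 65 9 71 58))))) (xE (xF (xF (xL (Dt.split 65 9 74 55))))))))
  (xE (xT (xF (xE (xF (xF (xL (Dt.split 65 9 74 55))))))))) (xE (xEF (xF (xF (xF (xE (xF (xL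
  (Dt.split 65 9 74 55))))))) (xE (xEF (xF (xF (xF (xL (Dt.split 65 9 74 55))))) (xE (xF (xF (xL
  (Dt.split 65 9 74 55))))))))))

def a807 : Tr := Tr.n Dt.none a805 Tr.z a806

def a808 : Tr := (xE (Tr.n (Dt.step 69 3 132) Tr.z (xT (xF (xE (xF (xEF (xF (xF (xL (Dt.split 64
  12 69 59)))) (xEF (xF (xL (Dt.split 65 12 69 60))) (xE (xL (Dt.split 65 12 68 61))))))))) Tr.z))

def a809 : Tr := Tr.n Dt.none a804 a807 a808

def a810 : Tr := (xET (xL (Dt.step 70 3 132)) (xET (Tr.n (Dt.step 71 10 132) Tr.z (xT (xEF (xF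
  (xEF (xF (xF (xF (xL (Dt.split 64 12 71 57))))) (xE (xF (xF (xL (Dt.split 65 12 71 58))))))) (xE
  (xE (xF (xF (xF (xL (Dt.split 65 12 71 58))))))))) Tr.z) (xE (xT (xE (xF (xE (xF (xF (xF (xL
  (Dt.step 65 11 405900))))))))))))

def a811 : Tr := Tr.n (Dt.step 74 3 4) a803 a809 a810

def a812 : Tr := (Tr.n (Dt.split 70 0 64 70) Tr.z (xTF (xF (xEF (xF (xF (xF (xF (xE (xL (Dt.split
  65 11 69 60))))))) (xEF (xF (xF (xE (xF (xL (Dt.split 65 11 69 60)))))) (xE (xE (xF (xF (xL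
  (Dt.split 65 11 69 60))))))))) (xT (xF (xEF (xF (xEF (xF (xF (xL (Dt.step 65 8 299396)))) (xE
  (xF (xL (Dt.step 65 8 299396)))))) (xE (xE (xF (xF (xL (Dt.step 65 3 4484)))))))))) Tr.z)

def a813 : Tr := (xTF (xF (xEF (xF (xF (xF (xE (xF (xL (Dt.step 65 3 372011))))))) (xE (xEF (xF
  (xF (xF (xL (Dt.step 65 3 4395))))) (xE (xF (xF (xL (Dt.step 65 3 372011))))))))) (Tr.n Dt.none
  (xT (xF (xF (xEF (xF (xF (xL (Dt.step 65 3 310569)))) (xF (xE (xL (Dt.split 65 0 64 65))))))))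
  (xEF (xF (xF (xF (xE (xF (xL (Dt.step 65 3 470155))))))) (xE (xEF (xF (xF (xF (xL (Dt.step 65 3
  4388))))) (xE (xF (xF (xL (Dt.step 65 3 372011)))))))) (xEF (xT (xF (xEF (xF (xF (xL (Dt.step 65
  3 304425)))) (xF (xE (xL (Dt.split 65 0 64 65))))))) (xEF (xT (xF (xF (xE (xL (Dt.split 65 0 64
  65)))))) (xE (xT (xF (xE (xL (Dt.split 65 0 64 65))))))))))

def a814 : Tr := (xEF (xF (xEF (xF (xF (xE (xF (xF (xL (Dt.step 65 3 405644))))))) (xE (xE (xF (xF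
  (xF (xL (Dt.step 65 3 12684))))))))) (xE (xE (xF (xE (xF (xF (xF (xL (Dt.step 65 3
  4484))))))))))

def a815 : Tr := (xE (xT (xE (xF (xF (xEF (xF (xF (xL (Dt.step 65 3 140649)))) (xEF (xF (xL
  (Dt.split 64 0 64 64))) (xE (xL (Dt.split 65 0 64 65))))))))))

def a816 : Tr := Tr.n Dt.none a813 a814 a815

def a817 : Tr := (xET (Tr.n (Dt.step 71 3 132) Tr.z (xT (xEF (xF (xF (xE (xF (xF (xL (Dt.split 65
  12 71 58))))))) (xEF (xEF (xF (xF (xF (xL (Dt.split 65 12 71 58))))) (xEF (xF (xF (xL (Dt.split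
  65 12 70 59)))) (xE (xF (xL (Dt.split 65 12 69 60)))))) (xE (xE (xF (xF (xL (Dt.split 65 12 69
  60))))))))) Tr.z) (xE (xT (xE (xF (xE (xF (xF (xF (xL (Dt.step 65 3 405796)))))))))))

def a818 : Tr := Tr.n (Dt.step 75 8 9) a812 a816 a817

def a819 : Tr := (xF (xE (xE (xT (xE (xE (xF (xF (xF (xF (xL (Dt.step 65 3 324))))))))))))

def a820 : Tr := (xE (xET (Tr.n (Dt.step 72 3 132) Tr.z (xT (xF (xE (xF (xE (xF (xF (xL (Dt.split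
  65 12 70 59))))))))) Tr.z) (xE (xT (xE (xEF (xF (xF (xF (xF (xL (Dt.step 65 3 9612)))))) (xF (xE
  (xF (xF (xL (Dt.step 65 3 143492))))))))))))

def a821 : Tr := Tr.n Dt.none a818 a819 a820

def a822 : Tr := (xE (xET (Tr.n (Dt.step 68 3 132) Tr.z (xT (xF (xET (xT (xF (xE (xF (xF (xL
  (Dt.split 64 11 66 62))))))) (xE (xF (xE (xF (xF (xL (Dt.split 65 11 68 61)))))))))) Tr.z) (xEF
  (xET (Tr.n (Dt.split 66 0 64 66) Tr.z (xT (xF (xF (xEF (xF (xF (xL (Dt.split 64 13 66 62)))) (xE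
  (xF (xL (Dt.split 65 13 66 63)))))))) Tr.z) (Tr.n Dt.none (xT (xF (xEF (xF (xF (xF (xL (Dt.step
  64 0 441476))))) (xE (xF (xF (xL (Dt.step 65 12 437380)))))))) (xE (xF (xE (xF (xF (xF (xL
  (Dt.step 65 13 462980)))))))) (xE (xT (xE (xF (xF (xF (xL (Dt.step 64 0 373892)))))))))) (xE
  (xET (Tr.n (Dt.step 66 3 4228) Tr.z (xT (xF (xE (xF (xF (xL (Dt.split 64 14 66 62))))))) Tr.z)
  (xE (xT (xE (xF (xF (xF (xL (Dt.step 64 0 462980)))))))))))))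

def a823 : Tr := Tr.n Dt.none a811 a821 a822

def a824 : Tr := (xE (xE (xT (xT (xEF (xF (xE (xF (xE (xF (xF (xF (xL (Dt.step 65 3
  270600))))))))) (xE (xE (xE (xF (xF (xF (xF (xL (Dt.step 65 3 260))))))))))))))

def a825 : Tr := (xT (xE (xE (xE (xT (xET (xT (xE (xF (xF (xF (xF (xL (Dt.split 64 1 64 64))))))))
  (xE (xE (xF (xF (xF (xF (xL (Dt.step 65 13 142))))))))))))))

def a826 : Tr := Tr.n Dt.none a823 a824 a825

def a827 : Tr := Tr.n Dt.none a761 a802 a826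

def a828 : Tr := (xEF (xT (xF (xF (xEF (xF (xF (xF (xF (xE (xL (Dt.split 64 0 64 64))))))) (xF (xE
  (xEF (xF (xF (xL (Dt.step 64 0 326)))) (xE (xF (xL (Dt.step 65 9 10566))))))))))) (xET (xT (xE
  (xF (xF (xF (xF (xF (xE (xL (Dt.split 64 0 64 64)))))))))) (xEF (xF (xF (xEF (xF (xEF (xF (xF
  (xL (Dt.step 64 0 202954)))) (xE (xF (xL (Dt.step 65 5 202954)))))) (xE (xE (xF (xF (xL (Dt.step
  65 5 6346))))))))) (xE (xEF (xF (xF (xEF (xF (xF (xL (Dt.step 64 0 6346)))) (xE (xF (xL (Dt.step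
  65 5 6346))))))) (xE (xF (xE (xF (xF (xL (Dt.step 65 5 202954))))))))))))

def a829 : Tr := (Tr.n (Dt.step 75 5 6) Tr.z (xET (xTF (xE (xF (xF (xF (xF (xEF (xF (xL (Dt.split
  64 0 64 64))) (xE (xL (Dt.split 65 0 64 65))))))))) (xT (xF (xE (xE (xF (xF (xF (xL (Dt.step 65
  5 6342)))))))))) (xEF (xF (xEF (xF (xEF (xF (xF (xF (xL (Dt.step 64 0 202950))))) (xEF (xF (xF
  (xL (Dt.step 65 5 202950)))) (xEF (xF (xL (Dt.split 65 10 75 54))) (xE (xL (Dt.split 65 10 74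
  55))))))) (xE (xE (xF (xF (xF (xL (Dt.step 65 5 6534))))))))) (xE (xEF (xEF (xF (xF (xF (xF (xL
  (Dt.step 65 5 198)))))) (xEF (xF (xF (xF (xL (Dt.step 65 5 6534))))) (xEF (xF (xF (xL (Dt.split
  65 10 75 54)))) (xE (xF (xL (Dt.split 65 10 74 55))))))) (xE (xF (xE (xF (xF (xL (Dt.split 65 10
  74 55))))))))))) Tr.z)

def a830 : Tr := Tr.n Dt.none Tr.z a828 a829

def a831 : Tr := (xT (xF (xF (xEF (xF (xF (xF (xEF (xF (xL (Dt.step 64 0 9414))) (xE (xL (Dt.step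
  65 8 198))))))) (xEF (xF (xEF (xF (xF (xL (Dt.step 64 0 6438)))) (xE (xF (xL (Dt.step 65 5
  6438)))))) (xE (xE (xF (xF (xL (Dt.step 65 8 294)))))))))))

def a832 : Tr := (xF (xE (xF (xE (xF (xF (xEF (xF (xF (xL (Dt.step 64 0 304427)))) (xE (xF (xL
  (Dt.step 65 8 304427)))))))))))

def a833 : Tr := (xET (xT (xE (xF (xF (xF (xF (xEF (xF (xL (Dt.step 64 0 9417))) (xE (xL (Dt.step
  65 8 201)))))))))) (xEF (xEF (xF (xF (xF (xEF (xF (xF (xL (Dt.step 64 0 12486)))) (xEF (xF (xL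
  (Dt.step 65 11 12486))) (xE (xL (Dt.step 65 11 198)))))))) (xEF (xF (xEF (xF (xF (xF (xL
  (Dt.step 64 0 202953))))) (xEF (xF (xF (xL (Dt.step 65 5 202953)))) (xE (xF (xL (Dt.step 65 5
  203049))))))) (xE (xE (xF (xF (xF (xL (Dt.step 65 5 6345))))))))) (xE (xE (xEF (xF (xF (xF (xF
  (xL (Dt.step 65 5 201)))))) (xE (xF (xF (xF (xL (Dt.step 65 5 6345)))))))))))

def a834 : Tr := Tr.n Dt.none a831 a832 a833

def a835 : Tr := (xEF (xF (xEF (xF (xE (xF (xF (xE (xF (xF (xL (Dt.step 65 9 334026))))))))) (xE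
  (xE (xEF (xF (xF (xF (xF (xL (Dt.step 65 5 202)))))) (xE (xF (xF (xF (xL (Dt.step 65 5
  6346))))))))))) (xE (xE (xEF (xF (xEF (xF (xF (xF (xF (xL (Dt.step 64 0 198)))))) (xE (xF (xF
  (xF (xL (Dt.step 65 5 198)))))))) (xE (xE (xF (xF (xF (xF (xL (Dt.step 65 5 202))))))))))))

def a836 : Tr := (xE (xT (xE (xF (xEF (xF (xEF (xF (xF (xF (xL (Dt.step 65 8 304425))))) (xEF (xF
  (xF (xL (Dt.step 65 8 301353)))) (xE (xF (xL (Dt.step 65 8 301353))))))) (xE (xF (xE (xF (xF (xL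
  (Dt.step 65 5 203049))))))))))))

def a837 : Tr := Tr.n Dt.none a834 a835 a836

def a838 : Tr := (xET (Tr.n (Dt.step 76 5 6) Tr.z (xT (xEF (xF (xEF (xEF (xF (xF (xF (xF (xL
  (Dt.step 64 0 6342)))))) (xE (xF (xF (xF (xL (Dt.split 64 10 76 52))))))) (xEF (xEF (xF (xF (xF
  (xL (Dt.split 65 10 76 53))))) (xEF (xF (xF (xL (Dt.split 64 10 74 54)))) (xE (xF (xL (Dt.split
  65 10 74 55)))))) (xE (xE (xF (xF (xL (Dt.split 65 10 74 55))))))))) (xE (xEF (xEF (xF (xF (xF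
  (xF (xL (Dt.step 65 5 198)))))) (xEF (xF (xF (xF (xL (Dt.split 65 10 76 53))))) (xEF (xF (xF (xL
  (Dt.split 64 10 74 54)))) (xE (xF (xL (Dt.split 65 10 74 55))))))) (xE (xF (xE (xF (xF (xL
  (Dt.split 65 10 74 55))))))))))) Tr.z) (xE (xT (xE (xF (xE (xF (xE (xF (xF (xF (xL (Dt.step 65 5
  207178)))))))))))))

def a839 : Tr := Tr.n Dt.none a830 a837 a838

def a840 : Tr := (xF (xE (xE (xT (xE (xE (xEF (xF (xF (xF (xF (xF (xL (Dt.step 64 0 200)))))))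
  (xEF (xF (xF (xF (xF (xL (Dt.step 65 5 6344)))))) (xE (xF (xF (xF (xL (Dt.step 65 5
  6408))))))))))))))

def a841 : Tr := (Tr.n (Dt.step 76 5 4) Tr.z (xT (xEF (xF (xEF (xEF (xF (xF (xF (xF (xL (Dt.step
  64 0 6340)))))) (xEF (xF (xF (xF (xL (Dt.step 65 5 202950))))) (xEF (xF (xF (xL (Dt.split 65 10
  76 53)))) (xEF (xF (xL (Dt.split 65 10 75 54))) (xE (xL (Dt.split 65 10 74 55))))))) (xE (xE (xF
  (xF (xF (xL (Dt.split 65 10 76 53))))))))) (xE (xEF (xEF (xF (xF (xF (xF (xL (Dt.step 65 5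
  198)))))) (xEF (xF (xF (xF (xL (Dt.split 65 10 76 53))))) (xEF (xF (xF (xL (Dt.split 65 10 75
  54)))) (xE (xF (xL (Dt.split 65 10 74 55))))))) (xE (xF (xE (xF (xF (xL (Dt.split 65 10 74
  55))))))))))) Tr.z)

def a842 : Tr := (xE (xT (xE (xF (xEF (xF (xEF (xF (xF (xF (xL (Dt.step 65 9 338250))))) (xEF (xF
  (xF (xL (Dt.step 65 9 334154)))) (xE (xF (xL (Dt.step 65 9 334154))))))) (xE (xF (xE (xF (xF (xL
  (Dt.step 65 5 203082))))))))))))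

def a843 : Tr := Tr.n Dt.none a841 a842 Tr.z

def a844 : Tr := Tr.n Dt.none a843 Tr.z Tr.z

def a845 : Tr := Tr.n Dt.none a839 a840 a844

def a846 : Tr := (Tr.n (Dt.step 77 3 6) Tr.z (xT (xEF (xEF (xF (xF (xEF (xF (xF (xF (xL (Dt.split
  64 10 77 51))))) (xEF (xF (xF (xL (Dt.split 65 10 77 52)))) (xE (xF (xL (Dt.split 65 10 76
  53)))))))) (xEF (xEF (xF (xF (xF (xF (xL (Dt.step 65 3 6342)))))) (xEF (xF (xF (xF (xL (Dt.split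
  65 10 77 52))))) (xEF (xF (xF (xL (Dt.split 65 10 76 53)))) (xE (xF (xL (Dt.split 65 10 75
  54))))))) (xE (xEF (xF (xF (xF (xL (Dt.split 65 10 76 53))))) (xE (xF (xF (xL (Dt.split 65 10 75
  54))))))))) (xE (xE (xEF (xF (xF (xF (xF (xL (Dt.split 65 10 77 52)))))) (xE (xF (xF (xF (xL
  (Dt.split 65 10 76 53))))))))))) Tr.z)

def a847 : Tr := (xE (xT (xE (xEF (xF (xEF (xF (xF (xF (xF (xL (Dt.step 64 0 10570)))))) (xEF (xF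
  (xF (xF (xL (Dt.step 65 9 10572))))) (xE (xF (xF (xL (Dt.step 65 9 10572)))))))) (xE (xEF (xF
  (xF (xF (xF (xL (Dt.step 65 9 10572)))))) (xE (xF (xF (xF (xL (Dt.step 65 9 338250))))))))))))

def a848 : Tr := Tr.n Dt.none a846 a847 Tr.z

def a849 : Tr := (xE (xE (xT (xE (xE (xEF (xF (xF (xF (xF (xF (xL (Dt.step 64 0 297))))))) (xEF
  (xF (xF (xF (xF (xL (Dt.step 65 8 9516)))))) (xE (xF (xF (xF (xL (Dt.step 65 8 9513)))))))))))))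

def a850 : Tr := Tr.n Dt.none a848 a849 Tr.z

def a851 : Tr := Tr.n Dt.none a850 Tr.z Tr.z

def a852 : Tr := Tr.n Dt.none a845 Tr.z a851

def a853 : Tr := (Tr.n Dt.none (xT (xF (xT (xE (xF (xF (xF (xF (xE (xL (Dt.step 65 3
  4484))))))))))) (xEF (xF (xEF (xT (xF (xF (xE (xF (xF (xL (Dt.split 65 9 72 57)))))))) (xE (xT
  (xF (xE (xF (xF (xL (Dt.split 65 9 75 54)))))))))) (xET (xT (xE (xF (xF (xE (xF (xF (xL
  (Dt.split 65 9 75 54))))))))) (xE (xEF (xF (xF (xE (xF (xF (xL (Dt.split 65 9 75 54))))))) (xE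
  (xE (xF (xF (xF (xL (Dt.split 65 9 75 54))))))))))) (xE (Tr.n (Dt.step 69 3 132) Tr.z (xT (xE
  (xF (xF (xF (xF (xE (xL (Dt.split 65 12 69 60))))))))) Tr.z)))

def a854 : Tr := (xET (Tr.n (Dt.step 68 3 132) Tr.z (xT (xF (xET (xT (xF (xE (xF (xF (xL (Dt.split
  64 11 66 62))))))) (xE (xF (xE (xF (xF (xL (Dt.split 65 11 68 61)))))))))) Tr.z) (xEF (xET (Tr.n
  (Dt.split 66 0 64 66) Tr.z (xT (xF (xF (xEF (xF (xF (xL (Dt.split 64 13 66 62)))) (xE (xF (xL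
  (Dt.split 65 13 66 63)))))))) Tr.z) (Tr.n Dt.none (xT (xF (xEF (xF (xF (xF (xL (Dt.step 64 0
  441485))))) (xE (xF (xF (xL (Dt.step 65 12 437389)))))))) (xE (xF (xE (xF (xF (xF (xL (Dt.step
  65 13 462990)))))))) (xE (xT (xE (xF (xF (xF (xL (Dt.step 64 0 373899)))))))))) (xE (xET (Tr.n
  (Dt.step 66 3 132) Tr.z (xT (xF (xE (xF (xF (xL (Dt.split 64 14 66 62))))))) Tr.z) (xE (xT (xE
  (xF (xF (xF (xL (Dt.step 64 0 14468))))))))))))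

def a855 : Tr := Tr.n (Dt.step 75 3 4) Tr.z a853 a854

def a856 : Tr := (Tr.n Dt.none (Tr.n (Dt.split 71 0 64 71) Tr.z (xTF (xF (xEF (xF (xF (xF (xE (xF
  (xL (Dt.split 65 11 70 59))))))) (xE (xEF (xF (xF (xF (xL (Dt.split 65 11 71 58))))) (xE (xF (xF
  (xL (Dt.split 65 11 70 59))))))))) (xT (xEF (xF (xF (xF (xE (xF (xL (Dt.step 65 3 299140)))))))
  (xE (xF (xE (xF (xF (xL (Dt.step 65 3 135556)))))))))) Tr.z) (xET (xT (xF (xEF (xF (xF (xE (xF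
  (xF (xL (Dt.step 65 3 372011))))))) (xE (xE (xF (xF (xF (xL (Dt.step 65 3 11563)))))))))) (xE
  (xF (xE (xF (xE (xF (xF (xF (xL (Dt.step 65 3 405644))))))))))) (xE (Tr.n (Dt.step 70 3 132)
  Tr.z (xT (xF (xE (xF (xE (xF (xF (xL (Dt.split 65 12 70 59))))))))) Tr.z)))

def a857 : Tr := (xE (xE (xT (xET (xT (xE (xF (xF (xF (xF (xL (Dt.split 64 1 64 64)))))))) (xE (xE
  (xF (xF (xF (xF (xL (Dt.step 65 13 4558))))))))))))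

def a858 : Tr := Tr.n Dt.none a856 Tr.z a857

def a859 : Tr := Tr.n Dt.none a855 a858 Tr.z

def a860 : Tr := (xE (xE (Tr.n (Dt.step 77 3 8) (xTF (xF (xT (xEF (xF (xF (xE (xF (xF (xL (Dt.step
  65 3 270728))))))) (xE (xE (xF (xF (xF (xL (Dt.step 65 3 8584)))))))))) (xL (Dt.step 72 3 136)))
  (xT (xEF (xF (xE (xEF (xF (xF (xF (xF (xL (Dt.split 64 10 77 51)))))) (xE (xF (xF (xF (xL
  (Dt.split 65 10 77 52))))))))) (xE (xE (xE (xF (xF (xF (xF (xL (Dt.split 65 10 77 52)))))))))))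
  (xET (Tr.n (Dt.step 73 3 136) Tr.z (xT (xEF (xF (xEF (xF (xF (xF (xL (Dt.split 64 12 71 57)))))
  (xE (xF (xF (xL (Dt.split 65 12 71 58))))))) (xE (xE (xF (xF (xF (xL (Dt.split 65 12 71
  58))))))))) Tr.z) (xE (xT (xE (xF (xE (xF (xF (xF (xL (Dt.step 65 11 405644))))))))))))))

def a861 : Tr := (xT (xE (xE (xE (xT (xE (xT (xE (xF (xF (xF (xF (xL (Dt.split 65 1 64
  65))))))))))))))

def a862 : Tr := Tr.n Dt.none a859 a860 a861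

def a863 : Tr := (xE (xE (xE (Tr.n (Dt.step 78 6 7) (xTF (xF (xT (xE (xF (xE (xF (xF (xF (xL
  (Dt.step 65 3 236775)))))))))) (Tr.n (Dt.step 73 6 231) Tr.z (xT (xE (xE (xF (xF (xF (xF (xL
  (Dt.split 65 12 73 56))))))))) Tr.z)) (xET (xT (xE (xF (xF (xEF (xF (xF (xF (xL (Dt.split 64 1
  64 64))))) (xE (xF (xF (xL (Dt.split 65 1 64 65)))))))))) (xE (xEF (xF (xF (xF (xEF (xF (xF (xL
  (Dt.split 64 10 76 52)))) (xEF (xF (xL (Dt.split 65 10 76 53))) (xE (xL (Dt.split 65 10 75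
  54)))))))) (xF (xEF (xF (xEF (xF (xF (xL (Dt.split 65 10 75 54)))) (xE (xF (xL (Dt.split 65 10
  74 55)))))) (xE (xE (xF (xF (xL (Dt.split 65 10 74 55))))))))))) Tr.z))))

def a864 : Tr := Tr.n Dt.none a862 a863 Tr.z

def a865 : Tr := Tr.n Dt.none a827 a852 a864

def a866 : Tr := (xEF (xT (xF (xE (xF (xF (xF (xF (xF (xE (xL (Dt.split 64 0 64 64))))))))))) (xT
  (xEF (xF (xF (xE (xF (xE (xF (xF (xL (Dt.step 65 4 169130))))))))) (xE (xE (xF (xF (xE (xF (xF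
  (xL (Dt.step 65 4 5290))))))))))))

def a867 : Tr := (Tr.n (Dt.step 76 4 5) Tr.z (xET (xT (xE (xF (xF (xF (xEF (xF (xF (xL (Dt.split
  64 0 64 64)))) (xE (xF (xL (Dt.split 65 0 64 65)))))))))) (xEF (xEF (xF (xF (xEF (xF (xF (xF (xL
  (Dt.step 64 0 12460))))) (xEF (xF (xF (xL (Dt.step 65 11 12460)))) (xEF (xF (xL (Dt.split 65 10
  76 53))) (xE (xL (Dt.split 65 10 75 54)))))))) (xEF (xE (xF (xF (xF (xF (xL (Dt.step 64 0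
  5285))))))) (xE (xE (xF (xF (xF (xL (Dt.split 65 10 76 53))))))))) (xE (xEF (xEF (xF (xF (xF (xF
  (xL (Dt.step 65 4 165)))))) (xE (xF (xF (xF (xL (Dt.split 65 10 76 53))))))) (xE (xE (xF (xF (xF
  (xL (Dt.split 65 10 75 54))))))))))) Tr.z)

def a868 : Tr := Tr.n Dt.none Tr.z a866 a867

def a869 : Tr := (xT (xF (xEF (xF (xF (xF (xF (xEF (xF (xL (Dt.step 64 0 9381))) (xE (xL (Dt.step
  65 8 165)))))))) (xEF (xF (xF (xEF (xF (xF (xL (Dt.step 64 0 5285)))) (xE (xF (xL (Dt.step 65 4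
  5285))))))) (xE (xEF (xF (xF (xF (xL (Dt.step 64 0 165))))) (xE (xF (xF (xL (Dt.step 65 4
  5289)))))))))))

def a870 : Tr := (xEF (xF (xEF (xF (xF (xF (xF (xF (xE (xL (Dt.split 65 0 64 65)))))))) (xEF (xF
  (xF (xEF (xF (xF (xL (Dt.split 65 0 64 65)))) (xE (xF (xL (Dt.split 65 0 64 65))))))) (xE (xEF
  (xF (xF (xF (xL (Dt.split 65 0 64 65))))) (xE (xF (xF (xL (Dt.split 65 0 64 65)))))))))) (xE
  (xEF (xF (xF (xEF (xF (xF (xF (xL (Dt.step 64 0 9515))))) (xEF (xF (xF (xL (Dt.step 65 8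
  9515)))) (xE (xF (xL (Dt.step 65 8 9515)))))))) (xEF (xEF (xF (xF (xF (xF (xL (Dt.step 64 0
  9515)))))) (xE (xF (xF (xF (xL (Dt.step 65 8 304427))))))) (xE (xE (xF (xF (xF (xL (Dt.step 65 8
  9515)))))))))))

def a871 : Tr := (xT (xEF (xEF (xF (xF (xEF (xF (xF (xF (xL (Dt.step 64 0 5289))))) (xEF (xF (xF
  (xL (Dt.step 65 4 5289)))) (xE (xF (xL (Dt.step 65 4 5289)))))))) (xE (xEF (xF (xF (xF (xF (xL
  (Dt.step 64 0 5289)))))) (xEF (xF (xF (xF (xL (Dt.step 65 4 169125))))) (xE (xF (xF (xL (Dt.step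
  65 4 173349))))))))) (xE (xE (xE (xF (xF (xF (xF (xL (Dt.step 65 4 169)))))))))))

def a872 : Tr := Tr.n Dt.none a869 a870 a871

def a873 : Tr := (xEF (xEF (xF (xF (xE (xF (xF (xE (xF (xF (xL (Dt.step 65 9 10565)))))))))) (xEF
  (xEF (xF (xF (xF (xE (xF (xF (xL (Dt.step 65 9 10410)))))))) (xE (xEF (xF (xF (xF (xF (xL
  (Dt.step 65 9 10405)))))) (xE (xF (xF (xF (xL (Dt.step 65 9 174250))))))))) (xE (xE (xE (xF (xF
  (xF (xF (xL (Dt.step 65 4 170))))))))))) (xE (xE (xE (xEF (xF (xF (xF (xF (xF (xL (Dt.step 64 0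
  5))))))) (xE (xF (xF (xF (xF (xL (Dt.step 65 4 165))))))))))))

def a874 : Tr := (xE (xT (xE (xEF (xF (xEF (xF (xF (xF (xF (xL (Dt.step 64 0 9513)))))) (xEF (xF
  (xF (xF (xL (Dt.step 65 8 9385))))) (xEF (xF (xF (xL (Dt.step 65 8 9385)))) (xE (xF (xL (Dt.step
  65 8 9385)))))))) (xEF (xEF (xF (xF (xF (xF (xL (Dt.step 65 8 5417)))))) (xE (xF (xF (xF (xL
  (Dt.step 65 4 173353))))))) (xE (xE (xF (xF (xF (xL (Dt.step 65 8 5417))))))))))))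

def a875 : Tr := Tr.n Dt.none a872 a873 a874

def a876 : Tr := (xET (Tr.n (Dt.step 75 4 5) Tr.z (xET (xT (xE (xF (xF (xEF (xF (xF (xF (xL
  (Dt.split 64 0 64 64))))) (xE (xF (xF (xL (Dt.split 65 0 64 65)))))))))) (xEF (xF (xEF (xE (xF
  (xF (xF (xF (xL (Dt.step 64 0 5285))))))) (xE (xF (xE (xF (xF (xL (Dt.split 65 10 75 54)))))))))
  (xE (xE (xEF (xF (xF (xF (xF (xL (Dt.step 65 4 165)))))) (xF (xE (xF (xF (xL (Dt.split 65 10 75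
  54))))))))))) Tr.z) (xE (xT (xE (xF (xE (xE (xF (xF (xF (xF (xL (Dt.step 65 9 5450)))))))))))))

def a877 : Tr := Tr.n Dt.none a868 a875 a876

def a878 : Tr := (xET (xT (xF (xF (xF (xF (xF (xF (xE (xL (Dt.split 64 1 64 64)))))))))) (xEF (xF
  (xF (xF (xF (xF (xEF (xF (xL (Dt.step 64 0 392))) (xE (xL (Dt.step 65 11 8))))))))) (xEF (xF (xF
  (xF (xEF (xF (xF (xL (Dt.step 64 0 8456)))) (xE (xF (xL (Dt.step 65 7 8456)))))))) (xE (xF (xEF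
  (xF (xF (xF (xL (Dt.step 64 0 8456))))) (xE (xF (xF (xL (Dt.step 65 7 8456)))))))))))

def a879 : Tr := (xEF (xEF (xF (xF (xF (xF (xF (xF (xE (xL (Dt.split 65 0 64 65))))))))) (xEF (xF
  (xF (xF (xEF (xF (xF (xL (Dt.step 64 0 11528)))) (xE (xF (xL (Dt.step 65 10 8456)))))))) (xEF
  (xEF (xF (xF (xF (xF (xL (Dt.step 64 0 360)))))) (xE (xF (xF (xF (xL (Dt.step 65 10 8456)))))))
  (xE (xE (xF (xF (xF (xL (Dt.step 65 7 264)))))))))) (xE (xE (xF (xEF (xF (xF (xF (xF (xL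
  (Dt.step 64 0 8459)))))) (xE (xF (xF (xF (xL (Dt.step 65 7 8459)))))))))))

def a880 : Tr := (xT (xE (xEF (xF (xEF (xF (xF (xF (xF (xL (Dt.step 64 0 8456)))))) (xEF (xF (xF
  (xF (xL (Dt.step 65 7 8456))))) (xE (xF (xF (xL (Dt.step 65 7 8456)))))))) (xE (xE (xF (xF (xF
  (xF (xL (Dt.step 65 7 8456)))))))))))

def a881 : Tr := Tr.n Dt.none a878 a879 a880

def a882 : Tr := (xEF (xEF (xF (xEF (xF (xF (xF (xE (xF (xF (xL (Dt.step 65 9 10504)))))))) (xE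
  (xEF (xF (xF (xF (xF (xL (Dt.step 65 9 328)))))) (xE (xF (xF (xF (xL (Dt.step 65 9
  8520)))))))))) (xE (xEF (xF (xEF (xF (xF (xF (xF (xL (Dt.step 65 9 10504)))))) (xE (xF (xF (xF
  (xL (Dt.step 65 9 8458)))))))) (xE (xE (xF (xF (xF (xF (xL (Dt.step 65 7 8458))))))))))) (xE (xE
  (xE (xE (xF (xF (xF (xF (xF (xL (Dt.step 65 7 266))))))))))))

def a883 : Tr := (xE (xT (xE (xE (xEF (xF (xF (xF (xF (xF (xL (Dt.step 64 0 261))))))) (xEF (xF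
  (xF (xF (xF (xL (Dt.step 65 7 8453)))))) (xE (xF (xF (xF (xL (Dt.step 65 7 8453))))))))))))

def a884 : Tr := Tr.n Dt.none a881 a882 a883

def a885 : Tr := (xE (xET (xT (xE (xE (xEF (xF (xF (xF (xF (xF (xL (Dt.step 65 4 168))))))) (xE
  (xF (xF (xF (xF (xL (Dt.step 65 4 5384))))))))))) (xE (xE (xE (xE (xF (xF (xF (xF (xF (xL
  (Dt.step 65 10 363)))))))))))))

def a886 : Tr := Tr.n Dt.none a884 Tr.z a885

def a887 : Tr := (Tr.n (Dt.step 77 4 5) Tr.z (xT (xEF (xEF (xF (xF (xEF (xF (xF (xF (xL (Dt.split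
  64 10 77 51))))) (xEF (xF (xF (xL (Dt.split 65 10 77 52)))) (xEF (xF (xL (Dt.split 65 10 76
  53))) (xE (xL (Dt.split 65 10 75 54)))))))) (xEF (xE (xF (xF (xF (xF (xL (Dt.step 65 4
  5285))))))) (xE (xE (xF (xF (xF (xL (Dt.split 65 10 76 53))))))))) (xE (xEF (xEF (xF (xF (xF (xF
  (xL (Dt.split 65 10 77 52)))))) (xE (xF (xF (xF (xL (Dt.split 65 10 76 53))))))) (xE (xE (xF (xF
  (xF (xL (Dt.split 65 10 75 54))))))))))) Tr.z)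

def a888 : Tr := (xE (xT (xE (xEF (xF (xEF (xF (xF (xF (xF (xL (Dt.step 64 0 10565)))))) (xEF (xF
  (xF (xF (xL (Dt.step 65 9 10405))))) (xEF (xF (xF (xL (Dt.step 65 9 10405)))) (xE (xF (xL
  (Dt.step 65 9 10410)))))))) (xEF (xEF (xF (xF (xF (xF (xL (Dt.step 65 9 5445)))))) (xE (xF (xF
  (xF (xL (Dt.step 65 4 174405))))))) (xE (xE (xF (xF (xF (xL (Dt.step 65 9 5450))))))))))))

def a889 : Tr := Tr.n Dt.none a887 a888 Tr.z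

def a890 : Tr := Tr.n Dt.none a889 Tr.z Tr.z

def a891 : Tr := Tr.n Dt.none a877 a886 a890

def a892 : Tr := (Tr.n Dt.none (xT (xEF (xF (xF (xF (xF (xEF (xF (xF (xL (Dt.step 64 0 231)))) (xE
  (xF (xL (Dt.step 65 6 231))))))))) (xE (xF (xF (xEF (xF (xF (xF (xL (Dt.step 64 0 7399))))) (xE
  (xF (xF (xL (Dt.step 65 6 7399))))))))))) (xEF (xEF (xF (xF (xF (xF (xEF (xF (xF (xL (Dt.step 64
  0 359)))) (xE (xF (xL (Dt.step 65 10 231))))))))) (xE (xF (xEF (xF (xF (xF (xF (xL (Dt.step 64 0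
  11495)))))) (xE (xF (xF (xF (xL (Dt.step 65 10 11495)))))))))) (xE (xE (xE (xF (xF (xF (xF (xF
  (xL (Dt.step 64 0 235))))))))))) (xT (xE (xE (xEF (xF (xF (xF (xF (xF (xL (Dt.step 64 0
  231))))))) (xE (xF (xF (xF (xF (xL (Dt.step 65 6 7399))))))))))))

def a893 : Tr := (xE (xEF (xEF (xF (xF (xF (xF (xE (xF (xF (xL (Dt.step 65 9 327))))))))) (xEF (xF
  (xEF (xF (xF (xF (xF (xL (Dt.step 65 9 10471)))))) (xE (xF (xF (xF (xL (Dt.step 65 9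
  7399)))))))) (xE (xE (xF (xF (xF (xF (xL (Dt.step 65 6 231)))))))))) (xE (xE (xEF (xF (xF (xF
  (xF (xF (xL (Dt.step 65 9 231))))))) (xE (xF (xF (xF (xF (xL (Dt.step 65 6 7402))))))))))))

def a894 : Tr := (xE (xT (xE (xE (xE (xF (xF (xF (xF (xF (xL (Dt.step 65 6 231))))))))))))

def a895 : Tr := Tr.n Dt.none a892 a893 a894

def a896 : Tr := Tr.n Dt.none a895 Tr.z Tr.z

def a897 : Tr := Tr.n Dt.none a896 Tr.z Tr.z

def a898 : Tr := (xET (xET (xET (Tr.n (Dt.step 77 4 5) Tr.z (xT (xEF (xEF (xF (xF (xF (xF (xE (xF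
  (xL (Dt.split 65 10 76 53)))))))) (xF (xE (xE (xF (xF (xF (xL (Dt.split 65 10 76 53))))))))) (xE
  (xE (xE (xF (xF (xF (xF (xL (Dt.split 65 10 77 52))))))))))) Tr.z) (xE (xT (xE (xF (xE (xE (xF
  (xF (xF (xF (xL (Dt.step 65 4 5450))))))))))))) (xE (xE (xT (xE (xE (xEF (xF (xF (xF (xF (xF (xL
  (Dt.step 65 4 169))))))) (xE (xF (xF (xF (xF (xL (Dt.step 65 4 5417)))))))))))))) (xE (xE (xE
  (xT (xE (xE (xE (xF (xF (xF (xF (xF (xL (Dt.step 65 7 264)))))))))))))))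

def a899 : Tr := Tr.n Dt.none a891 a897 a898

def a900 : Tr := (Tr.n Dt.none (xT (xE (xF (xF (xF (xEF (xF (xF (xF (xL (Dt.step 64 0 198))))) (xE
  (xF (xF (xL (Dt.step 65 5 198))))))))))) (xE (xEF (xF (xF (xEF (xF (xF (xF (xF (xL (Dt.step 64 0
  358)))))) (xE (xF (xF (xF (xL (Dt.step 65 10 358))))))))) (xE (xE (xF (xF (xF (xF (xF (xL
  (Dt.step 64 0 198))))))))))) (xT (xE (xE (xE (xF (xF (xF (xF (xF (xL (Dt.step 65 5
  198))))))))))))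

def a901 : Tr := (xE (xEF (xEF (xF (xEF (xF (xF (xF (xF (xF (xL (Dt.step 64 0 330))))))) (xEF (xF
  (xF (xF (xF (xL (Dt.step 65 9 326)))))) (xE (xF (xF (xF (xL (Dt.step 65 9 198))))))))) (xE (xEF
  (xF (xF (xF (xF (xF (xL (Dt.step 65 9 198))))))) (xE (xF (xF (xF (xF (xL (Dt.step 65 5
  6342)))))))))) (xE (xE (xE (xF (xF (xF (xF (xF (xL (Dt.step 65 5 202))))))))))))

def a902 : Tr := Tr.n Dt.none a900 a901 Tr.z

def a903 : Tr := (xE (xE (xE (xEF (xEF (xF (xF (xF (xF (xF (xF (xL (Dt.step 64 0 9)))))))) (xEF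
  (xF (xF (xF (xF (xF (xL (Dt.step 65 8 297))))))) (xE (xF (xF (xF (xF (xL (Dt.step 65 8
  297))))))))) (xE (xE (xF (xF (xF (xF (xF (xL (Dt.step 65 8 297)))))))))))))

def a904 : Tr := Tr.n Dt.none a902 a903 Tr.z

def a905 : Tr := (xE (xE (xE (xE (xE (xEF (xF (xF (xF (xF (xF (xF (xL (Dt.step 65 7 8)))))))) (xE
  (xF (xF (xF (xF (xF (xL (Dt.step 65 7 264))))))))))))))

def a906 : Tr := Tr.n Dt.none a904 a905 Tr.z

def a907 : Tr := (xE (xE (xE (xE (xE (xE (xE (xF (xF (xF (xF (xF (xF (xL (Dt.step 65 6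
  7)))))))))))))))

def a908 : Tr := Tr.n Dt.none a906 a907 Tr.z

def a909 : Tr := (xE (xE (xET (xET (Tr.n (Dt.step 79 4 0) Tr.z (xT (xE (xEF (xF (xEF (xF (xF (xF
  (xF (xL (Dt.split 65 10 79 50)))))) (xE (xF (xF (xF (xL (Dt.split 65 10 78 51)))))))) (xE (xE
  (xF (xF (xF (xF (xL (Dt.split 65 10 78 51))))))))))) Tr.z) (xE (xET (xT (xE (xE (xF (xF (xF (xF
  (xF (xL (Dt.split 64 1 64 64)))))))))) (xE (xE (xEF (xF (xF (xF (xF (xF (xL (Dt.step 65 11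
  10))))))) (xE (xF (xF (xF (xF (xL (Dt.step 65 9 330))))))))))))) (xE (xE (xT (xE (xE (xE (xF (xF
  (xF (xF (xF (xL (Dt.step 65 8 9))))))))))))))))

def a910 : Tr := Tr.n Dt.none a899 a908 a909

def a911 : Tr := (Tr.n (Dt.split 69 0 61 72) Tr.z (xT (xF (xT (xF (xE (xF (xE (xF (xF (xL
  (Dt.split 64 10 69 59))))))))))) Tr.z)

def a912 : Tr := (Tr.n Dt.none (xT (xF (xT (xF (xE (xE (xF (xF (xF (xL (Dt.step 64 0
  332))))))))))) (xF (xT (xE (xE (xF (xE (xF (xF (xF (xL (Dt.split 65 9 76 53))))))))))) (xE (Tr.n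
  (Dt.step 72 3 4) Tr.z (xT (xF (xE (xE (xF (xF (xF (xL (Dt.split 64 12 70 58))))))))) Tr.z)))

def a913 : Tr := (xET (Tr.n (Dt.step 67 3 4) Tr.z (xT (xF (xET (xT (xE (xF (xF (xF (xL (Dt.split
  64 11 67 61))))))) (xE (xE (xF (xF (xF (xL (Dt.split 65 11 67 62)))))))))) Tr.z) (xE (xET (Tr.n
  (Dt.split 67 0 64 67) Tr.z (xT (xF (xEF (xF (xF (xF (xL (Dt.split 64 13 67 61))))) (xE (xF (xF
  (xL (Dt.split 65 13 67 62)))))))) Tr.z) (xE (xT (xF (xE (xF (xF (xF (xL (Dt.step 65 12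
  13677))))))))))))

def a914 : Tr := Tr.n (Dt.step 76 3 0) a911 a912 a913

def a915 : Tr := (Tr.n (Dt.step 77 8 0) (Tr.n (Dt.split 71 0 64 71) Tr.z (xTF (xF (xEF (xF (xEF
  (xF (xF (xF (xL (Dt.split 64 11 71 57))))) (xE (xF (xF (xL (Dt.split 65 11 71 58))))))) (xE (xE
  (xF (xF (xF (xL (Dt.split 65 11 71 58))))))))) (xT (xEF (xF (xEF (xF (xF (xF (xL (Dt.step 64 0
  4396))))) (xE (xF (xF (xL (Dt.step 65 3 4236))))))) (xE (xE (xF (xF (xF (xL (Dt.step 65 8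
  140)))))))))) (xL (Dt.step 72 3 9))) (xE (xT (xF (xE (xF (xE (xF (xF (xF (xL (Dt.step 65 10
  11625))))))))))) (xE (Tr.n (Dt.step 73 8 4) Tr.z (xT (xEF (xF (xEF (xF (xF (xF (xL (Dt.split 64
  12 71 57))))) (xE (xF (xF (xL (Dt.split 65 12 71 58))))))) (xE (xE (xF (xF (xF (xL (Dt.split 65
  12 71 58))))))))) Tr.z)))

def a916 : Tr := (xE (xE (xT (xE (xT (xE (xF (xF (xF (xF (xL (Dt.split 65 1 64 65))))))))))))

def a917 : Tr := Tr.n Dt.none a915 Tr.z a916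

def a918 : Tr := (xE (xT (xE (xE (Tr.n (Dt.split 68 0 64 68) Tr.z (xT (xF (xE (xF (xF (xF (xL
  (Dt.split 65 13 68 61)))))))) Tr.z)))))

def a919 : Tr := Tr.n Dt.none a914 a917 a918

def a920 : Tr := (xEF (Tr.n Dt.none (Tr.n (Dt.step 78 7 0) (xTF (xF (xT (xE (xF (xE (xF (xF (xF
  (xL (Dt.step 65 7 8460)))))))))) (xL (Dt.step 73 7 8))) Tr.z (xET (Tr.n (Dt.step 72 3 4) Tr.z
  (xT (xE (xF (xE (xF (xF (xF (xL (Dt.split 65 12 72 57))))))))) Tr.z) (xE (xT (xE (xF (xEF (xF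
  (xF (xF (xL (Dt.split 64 0 64 64))))) (xE (xF (xF (xL (Dt.split 65 0 64 65)))))))))))) (xF (xE
  (xE (xT (xE (xE (xF (xF (xF (xF (xL (Dt.split 64 0 64 64)))))))))))) (xE (xE (xL (Dt.step 71 3
  4))))) (xE (xE (xE (xL (Dt.step 72 3 4))))))

def a921 : Tr := Tr.n Dt.none a919 a920 Tr.z

def a922 : Tr := (Tr.n Dt.none (Tr.n (Dt.step 78 6 0) (xF (xL (Dt.split 70 0 64 70))) (xTF (xE (xF
  (xE (xE (xF (xF (xF (xF (xL (Dt.split 65 10 78 51)))))))))) (xE (xT (xE (xF (xEF (xF (xF (xF (xL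
  (Dt.split 64 0 64 64))))) (xE (xF (xF (xL (Dt.split 65 0 64 65))))))))))) (xET (Tr.n (Dt.step 71
  6 7) Tr.z (xT (xF (xE (xE (xF (xF (xF (xL (Dt.split 65 12 71 58))))))))) Tr.z) (xE (xT (xE (xF
  (xE (xF (xF (xF (xL (Dt.step 65 6 7564)))))))))))) (xF (xE (xE (xT (xE (xE (xF (xF (xF (xF (xL
  (Dt.step 65 6 330)))))))))))) (xE (xE (Tr.n (Dt.step 72 6 7) Tr.z (xT (xE (xF (xE (xF (xF (xF
  (xL (Dt.split 65 12 72 57))))))))) Tr.z))))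

def a923 : Tr := (xE (xT (xE (xE (xT (xE (xE (xF (xF (xF (xF (xL (Dt.split 65 0 64 65)))))))))))))

def a924 : Tr := Tr.n Dt.none a922 Tr.z a923

def a925 : Tr := Tr.n Dt.none a924 Tr.z Tr.z

def a926 : Tr := Tr.n Dt.none a921 a925 Tr.z

def a927 : Tr := (Tr.n (Dt.split 71 1 64 71) Tr.z (xT (xF (xEF (xF (xEF (xF (xF (xF (xL (Dt.split
  64 11 71 57))))) (xE (xF (xF (xL (Dt.split 65 11 71 58))))))) (xE (xE (xF (xF (xF (xL (Dt.split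
  65 11 71 58)))))))))) (Tr.n (Dt.step 71 5 6) Tr.z (xT (xF (xE (xE (xF (xF (xF (xL (Dt.split 65
  12 71 58))))))))) Tr.z))

def a928 : Tr := (Tr.n Dt.none (xT (xEF (xF (xF (xEF (xF (xF (xF (xL (Dt.split 64 1 64 64))))) (xE
  (xF (xF (xL (Dt.split 65 1 64 65)))))))) (xE (xEF (xF (xF (xF (xF (xL (Dt.split 64 0 64 64))))))
  (xE (xF (xF (xF (xL (Dt.step 65 10 11629)))))))))) (xE (xEF (xF (xE (xF (xF (xF (xF (xL
  (Dt.split 64 10 78 50)))))))) (xE (xF (xE (xF (xF (xF (xL (Dt.split 65 10 77 52)))))))))) (xE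
  (xT (xE (xEF (xF (xF (xF (xF (xL (Dt.split 64 0 64 64)))))) (xE (xF (xF (xF (xL (Dt.step 65 5
  6507)))))))))))

def a929 : Tr := Tr.n (Dt.step 78 5 0) a927 a928 Tr.z

def a930 : Tr := (xE (Tr.n Dt.none (xT (xEF (xF (xF (xEF (xF (xF (xF (xL (Dt.step 65 9 330)))))
  (xE (xF (xF (xL (Dt.split 65 0 64 65)))))))) (xE (xE (xF (xF (xF (xF (xL (Dt.step 65 9
  333)))))))))) (xE (xE (xEF (xF (xF (xF (xF (xF (xL (Dt.split 64 0 64 64))))))) (xF (xE (xF (xF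
  (xF (xL (Dt.step 65 11 394)))))))))) (xE (xT (xE (xE (xF (xF (xF (xF (xL (Dt.step 65 9
  326))))))))))))

def a931 : Tr := (xE (xT (xE (xT (xE (xF (xE (xF (xF (xF (xL (Dt.split 65 0 64 65))))))))))))

def a932 : Tr := Tr.n Dt.none a929 a930 a931

def a933 : Tr := (xE (xE (xE (xET (xT (xF (xE (xF (xF (xF (xF (xL (Dt.split 64 0 64 64)))))))))
  (xE (xF (xE (xF (xF (xF (xF (xL (Dt.step 65 12 297)))))))))))))

def a934 : Tr := Tr.n Dt.none a932 a933 Tr.z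

def a935 : Tr := Tr.n Dt.none a934 Tr.z Tr.z

def a936 : Tr := Tr.n Dt.none a935 Tr.z Tr.z

def a937 : Tr := Tr.n Dt.none a926 a936 Tr.z

def a938 : Tr := Tr.n Dt.none a865 a910 a937

def a939 : Tr := (Tr.n (Dt.step 70 2 0) (Tr.n (Dt.step 73 2 0) (Tr.n (Dt.split 66 0 64 66) Tr.z
  (xT (xF (xL (Dt.split 66 9 66 64)))) Tr.z) (Tr.n Dt.none (xT (xF (xL (Dt.step 67 8 11)))) (xF
  (xE (xL (Dt.split 71 8 71 64)))) (xE (xL (Dt.step 69 2 3)))) Tr.z) (Tr.n Dt.none (Tr.n (Dt.step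
  74 7 0) (xT (xF (xL (Dt.step 68 7 11)))) (xF (xE (xL (Dt.step 70 7 3)))) (xET (xL (Dt.step 70 7
  3)) (xE (Tr.n (Dt.step 71 10 3) Tr.z (xT (xE (xF (xE (xF (xF (xF (xL (Dt.split 64 12 71
  57))))))))) Tr.z)))) (xEF (xF (xET (Tr.n (Dt.step 71 8 9) Tr.z (xT (xE (xF (xE (xF (xF (xF (xL
  (Dt.split 64 12 71 57))))))))) Tr.z) (xE (xT (xE (xE (xF (xF (xF (xF (xL (Dt.split 64 7 70
  58)))))))))))) (xE (xE (xL (Dt.step 72 8 0))))) (xEF (xET (xL (Dt.step 69 2 8)) (xF (xE (xE (xL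
  (Dt.split 66 0 64 66)))))) (xT (xE (xE (xE (xL (Dt.split 67 0 64 67)))))))) Tr.z)

def a940 : Tr := (Tr.n Dt.none (Tr.n (Dt.step 75 6 0) (xT (xF (xL (Dt.step 69 6 11)))) (xEF (xTF
  (xF (xT (xF (xEF (xF (xEF (xF (xF (xL (Dt.split 64 0 64 64)))) (xE (xF (xL (Dt.split 65 0 64
  65)))))) (xE (xE (xF (xF (xL (Dt.split 65 0 64 65)))))))))) (xL (Dt.step 70 9 7))) (xE (xL
  (Dt.step 71 6 10)))) (xET (xL (Dt.step 69 6 7)) (xF (xE (xE (xL (Dt.split 66 0 64 66))))))) (xEF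
  (xF (xE (Tr.n (Dt.step 70 6 7) Tr.z (xT (xE (xF (xF (xEF (xF (xF (xL (Dt.split 64 12 70 58))))
  (xE (xF (xL (Dt.split 65 12 70 59))))))))) Tr.z))) (xE (xE (xL (Dt.step 73 6 9))))) (xE (xET (xL
  (Dt.step 70 6 3)) (xEF (xL (Dt.step 71 10 11)) (xE (xE (Tr.n (Dt.step 67 6 227) Tr.z (xT (xE (xF
  (xF (xF (xL (Dt.split 64 14 67 61))))))) Tr.z)))))))

def a941 : Tr := (xET (xET (xET (Tr.n (Dt.step 71 2 3) Tr.z (xF (xE (xL (Dt.split 66 0 64 66))))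
  Tr.z) (xE (Tr.n (Dt.step 72 10 3) (Tr.n (Dt.split 68 0 64 68) Tr.z (xT (xF (xE (xF (xF (xF (xL
  (Dt.split 65 13 68 61)))))))) (xL (Dt.split 66 0 64 66))) (xF (xE (xT (xE (xF (xF (xF (xL
  (Dt.split 64 0 64 64))))))))) Tr.z))) (xE (xE (xL (Dt.step 73 9 3))))) (xE (xE (xE (xL (Dt.step
  72 8 3))))))

def a942 : Tr := Tr.n Dt.none a940 Tr.z a941

def a943 : Tr := (xE (xET (xET (xL (Dt.step 67 2 3)) (xE (xL (Dt.step 68 9 3)))) (xE (xE (xL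
  (Dt.step 69 8 3))))))

def a944 : Tr := Tr.n Dt.none a939 a942 a943

def a945 : Tr := (Tr.n (Dt.step 75 5 0) (xT (xF (xL (Dt.split 68 0 64 68)))) (xEF (xTF (xF (xT
  (xEF (xF (xF (xEF (xF (xF (xL (Dt.split 64 0 64 64)))) (xE (xF (xL (Dt.split 65 0 64 65)))))))
  (xE (xF (xE (xF (xF (xL (Dt.step 65 5 6348)))))))))) (xL (Dt.step 71 5 6))) (xE (Tr.n (Dt.step
  70 5 10) Tr.z (xT (xF (xE (xF (xE (xF (xF (xL (Dt.split 65 12 70 59))))))))) Tr.z))) (xET (xL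
  (Dt.step 70 5 6)) (xF (xE (xE (Tr.n (Dt.step 67 5 6) Tr.z (xT (xE (xF (xF (xF (xL (Dt.split 64
  14 67 61))))))) Tr.z))))))

def a946 : Tr := (xEF (xF (xE (xL (Dt.step 71 5 6)))) (xE (xET (Tr.n (Dt.step 72 5 6) (xF (xL
  (Dt.split 66 0 64 66))) Tr.z Tr.z) (xE (xT (xE (xF (xF (xE (xF (xF (xL (Dt.split 65 0 64
  65)))))))))))))

def a947 : Tr := (xET (xET (xL (Dt.step 71 5 6)) (xEF (xL (Dt.step 72 10 6)) (xE (xET (xL
  (Dt.split 66 0 64 66)) (xE (xT (xE (xF (xF (xF (xL (Dt.split 64 0 64 64)))))))))))) (xE (xE (xL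
  (Dt.step 71 9 6)))))

def a948 : Tr := Tr.n Dt.none a945 a946 a947

def a949 : Tr := (xF (xE (xE (xE (xL (Dt.step 72 7 3))))))

def a950 : Tr := (xT (xE (xE (xE (xL (Dt.step 73 5 3))))))

def a951 : Tr := Tr.n Dt.none a948 a949 a950

def a952 : Tr := Tr.n Dt.none a951 Tr.z Tr.z

def a953 : Tr := Tr.n Dt.none a944 a952 Tr.z

def a954 : Tr := (xTF (xF (xT (xEF (xF (xF (xF (xE (xF (xL (Dt.split 64 0 64 64))))))) (xEF (xEF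
  (xF (xF (xF (xL (Dt.split 64 0 64 64))))) (xEF (xF (xF (xL (Dt.step 65 9 10572)))) (xE (xF (xL
  (Dt.split 65 0 64 65)))))) (xE (xE (xF (xF (xL (Dt.split 65 0 64 65)))))))))) (xL (Dt.step 70 4
  5)))

def a955 : Tr := (Tr.n Dt.none (xF (xEF (xT (xF (xF (xEF (xF (xF (xL (Dt.split 64 9 75 53)))) (xE
  (xF (xL (Dt.split 65 9 75 54)))))))) (xEF (xT (xF (xEF (xF (xF (xL (Dt.split 64 9 74 54)))) (xE
  (xF (xL (Dt.split 65 9 74 55))))))) (xE (xT (xF (xE (xF (xL (Dt.split 65 9 73 56)))))))))) (xF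
  (xE (xE (xF (xE (xF (xF (xF (xL (Dt.split 65 9 76 53)))))))))) (xE (xT (xE (xF (xE (xF (xF (xF
  (xL (Dt.split 64 9 75 53)))))))))))

def a956 : Tr := (xE (Tr.n (Dt.step 70 4 5) Tr.z (xT (xF (xE (xF (xE (xF (xF (xL (Dt.split 65 12
  70 59))))))))) Tr.z))

def a957 : Tr := Tr.n Dt.none a954 a955 a956

def a958 : Tr := (xET (xL (Dt.step 71 4 5)) (Tr.n Dt.none (xT (xF (xE (xT (xE (xF (xF (xF (xL
  (Dt.split 64 0 64 64)))))))))) (xE (xT (xE (xF (xE (xF (xF (xF (xL (Dt.split 64 0 64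
  64)))))))))) (xE (xET (xL (Dt.split 66 0 64 66)) (xE (xT (xE (xF (xF (xF (xL (Dt.split 64 0 64
  64))))))))))))

def a959 : Tr := Tr.n (Dt.step 76 4 0) Tr.z a957 a958

def a960 : Tr := (xTF (xF (xT (xEF (xF (xF (xE (xF (xF (xL (Dt.split 64 0 64 64))))))) (xE (xE (xF
  (xF (xF (xL (Dt.step 65 8 300)))))))))) (xL (Dt.step 71 8 5)))

def a961 : Tr := (Tr.n Dt.none (xTF (xF (xE (xF (xE (xF (xF (xF (xL (Dt.split 64 0 64 64)))))))))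
  (xET (xT (xF (xF (xE (xF (xF (xL (Dt.split 65 0 64 65)))))))) (xE (xE (xF (xF (xF (xF (xL
  (Dt.split 64 0 64 64)))))))))) (xF (xE (xE (xE (xF (xF (xF (xF (xL (Dt.split 65 10 77
  52)))))))))) (xE (xT (xE (xE (xF (xF (xF (xF (xL (Dt.split 64 0 64 64)))))))))))

def a962 : Tr := (xET (Tr.n (Dt.step 72 4 5) Tr.z (xT (xEF (xF (xEF (xF (xF (xF (xL (Dt.split 65
  12 72 57))))) (xEF (xF (xF (xL (Dt.split 64 12 70 58)))) (xE (xF (xL (Dt.split 65 12 70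
  59))))))) (xE (xE (xF (xF (xF (xL (Dt.split 65 12 71 58))))))))) Tr.z) (xE (xET (xT (xE (xF (xF
  (xF (xF (xL (Dt.split 64 0 64 64)))))))) (xE (xE (xF (xF (xF (xF (xL (Dt.step 65 13
  396)))))))))))

def a963 : Tr := Tr.n (Dt.step 77 8 0) a960 a961 a962

def a964 : Tr := (xE (xE (Tr.n (Dt.step 73 4 5) (xT (xT (xF (xE (xF (xF (xF (xL (Dt.split 64 0 64
  64))))))))) (xET (xT (xE (xF (xF (xF (xF (xL (Dt.split 64 0 64 64)))))))) (xE (xE (xF (xF (xF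
  (xF (xL (Dt.split 65 12 73 56))))))))) Tr.z)))

def a965 : Tr := Tr.n Dt.none a963 Tr.z a964

def a966 : Tr := (xE (xET (xT (xT (xF (xE (xT (xE (xF (xF (xF (xL (Dt.split 64 0 64 64)))))))))))
  (xE (xET (xT (xT (xF (xEF (xF (xF (xF (xL (Dt.split 64 0 64 64))))) (xE (xF (xF (xL (Dt.split 65
  0 64 65))))))))) (xE (xT (xF (xE (xF (xF (xF (xL (Dt.split 65 0 64 65)))))))))))))

def a967 : Tr := Tr.n Dt.none a959 a965 a966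

def a968 : Tr := (xEF (xEF (xEF (xT (xF (xT (xE (xF (xE (xF (xF (xF (xL (Dt.split 64 0 64
  64))))))))))) (xE (xL (Dt.split 71 0 64 71)))) (xE (xE (Tr.n (Dt.step 72 7 5) Tr.z (xT (xE (xEF
  (xF (xF (xF (xF (xL (Dt.split 64 12 72 56)))))) (xE (xF (xF (xF (xL (Dt.split 65 12 72
  57))))))))) Tr.z)))) (xE (xE (xE (xT (xE (xT (xE (xF (xF (xF (xF (xL (Dt.split 64 1 64
  64))))))))))))))

def a969 : Tr := Tr.n Dt.none a967 a968 Tr.z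

def a970 : Tr := Tr.n Dt.none a969 Tr.z Tr.z

def a971 : Tr := Tr.n Dt.none a970 Tr.z Tr.z

def a972 : Tr := Tr.n Dt.none a953 a971 Tr.z

def a973 : Tr := Tr.n Dt.none a704 a938 a972

def a974 : Tr := (Tr.n (Dt.step 72 1 0) Tr.z (xT (xF (xET (xE (xF (xF (xF (xF (xL (Dt.split 64 8
  72 56))))))) (xF (xF (xEF (xF (xF (xE (xL (Dt.split 64 8 66 62))))) (xE (xEF (xF (xL (Dt.split
  64 8 66 62))) (xE (xL (Dt.split 65 8 66 63))))))))))) Tr.z)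

def a975 : Tr := (Tr.n Dt.none (Tr.n (Dt.step 71 7 0) Tr.z (xEF (xF (xE (xF (xF (xF (xF (xL
  (Dt.step 64 0 72)))))))) (xT (xF (xEF (xF (xF (xF (xE (xL (Dt.step 64 0 266)))))) (xEF (xF (xEF
  (xF (xL (Dt.step 64 0 8458))) (xE (xL (Dt.step 65 7 266))))) (xE (xE (xF (xL (Dt.step 65 7
  266)))))))))) Tr.z) (xF (xE (xT (xEF (xF (xF (xF (xF (xE (xL (Dt.split 64 7 68 60))))))) (xE (xF
  (xF (xEF (xF (xL (Dt.split 64 7 68 60))) (xE (xL (Dt.split 65 7 68 61))))))))))) (xE (Tr.n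
  (Dt.step 68 1 8) Tr.z (xT (xF (xEF (xF (xF (xF (xE (xL (Dt.split 64 10 67 61)))))) (xEF (xF (xEF
  (xF (xL (Dt.split 64 10 67 61))) (xE (xL (Dt.split 65 10 67 62))))) (xE (xE (xF (xL (Dt.split 65
  10 67 62))))))))) Tr.z)))

def a976 : Tr := (xET (xET (xL (Dt.step 65 1 2)) (xE (xL (Dt.step 66 9 2)))) (xE (xE (xL (Dt.step
  67 8 2)))))

def a977 : Tr := Tr.n (Dt.step 70 1 0) a974 a975 a976

def a978 : Tr := (Tr.n (Dt.step 71 6 0) (Tr.n (Dt.step 71 6 0) Tr.z (Tr.n Dt.none (xE (xF (xF (xF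
  (xF (xF (xL (Dt.step 64 0 7)))))))) (xF (xF (xEF (xF (xF (xF (xE (xL (Dt.split 64 9 67 61))))))
  (xEF (xF (xEF (xF (xL (Dt.split 64 9 67 61))) (xE (xL (Dt.split 65 9 67 62))))) (xE (xE (xF (xL
  (Dt.split 65 9 67 62))))))))) (xT (xF (xEF (xF (xF (xF (xE (xL (Dt.step 64 0 234)))))) (xE (xF
  (xE (xF (xL (Dt.step 64 0 7402)))))))))) (xL (Dt.step 68 1 7))) (xF (xE (xT (xE (xF (xF (xF (xEF
  (xF (xL (Dt.step 64 0 7401))) (xE (xL (Dt.step 65 6 233))))))))))) (xE (Tr.n (Dt.step 69 6 2)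
  Tr.z (xT (xF (xEF (xF (xF (xF (xE (xL (Dt.split 64 10 67 61)))))) (xE (xF (xE (xF (xL (Dt.split
  64 10 67 61))))))))) Tr.z)))

def a979 : Tr := (xTF (xF (xE (xE (xL (Dt.step 70 1 0))))) (xE (xE (xL (Dt.step 69 1 0)))))

def a980 : Tr := (xE (xET (Tr.n (Dt.step 70 1 2) Tr.z (xT (xEF (xF (xF (xEF (xF (xF (xL (Dt.split
  64 10 70 58)))) (xEF (xF (xL (Dt.split 65 10 70 59))) (xE (xL (Dt.split 64 10 68 60))))))) (xEF
  (xEF (xF (xF (xF (xL (Dt.split 64 10 70 58))))) (xEF (xF (xF (xL (Dt.split 65 10 70 59)))) (xEF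
  (xF (xL (Dt.split 65 10 69 60))) (xE (xL (Dt.split 65 10 68 61)))))) (xE (xE (xF (xF (xL
  (Dt.split 65 10 69 60))))))))) Tr.z) (xE (xT (xE (xF (xF (xEF (xF (xF (xL (Dt.step 65 9
  10570)))) (xEF (xF (xL (Dt.step 64 0 10570))) (xE (xL (Dt.step 65 9 330))))))))))))

def a981 : Tr := Tr.n Dt.none a978 a979 a980

def a982 : Tr := (Tr.n (Dt.step 64 0 2) (xT (xEF (Tr.n (Dt.step 68 1 9) (Tr.n (Dt.step 68 1 9)
  Tr.z (xF (xT (xF (xF (xF (xE (xL (Dt.step 64 0 386)))))))) Tr.z) Tr.z (xE (Tr.n (Dt.step 66 1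
  66) Tr.z (xT (xF (xF (xF (xE (xL (Dt.split 64 12 64 64))))))) Tr.z))) (xE (xE (xL (Dt.step 67 1
  66)))))) (xEF (xE (xEF (xT (xF (xT (xF (xF (xEF (xF (xL (Dt.step 64 0 8578))) (xE (xL (Dt.step
  65 7 386))))))))) (xE (Tr.n (Dt.step 67 7 258) Tr.z (xT (xF (xF (xEF (xF (xL (Dt.split 64 12 65
  63))) (xE (xL (Dt.split 65 12 65 64))))))) Tr.z)))) (xE (xE (Tr.n (Dt.step 64 0 2) (Tr.n
  (Dt.step 66 1 2) Tr.z (xT (xF (xE (xF (xF (xL (Dt.split 64 12 66 62))))))) Tr.z) (xE (xT (xE (xF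
  (xF (xF (xL (Dt.step 64 0 396)))))))) Tr.z)))) Tr.z)

def a983 : Tr := Tr.n (Dt.step 68 1 0) a977 a981 a982

def a984 : Tr := (xTF (xF (xT (xEF (xF (xF (xF (xF (xE (xL (Dt.step 64 0 202))))))) (xEF (xF (xF
  (xE (xF (xL (Dt.step 64 0 6346)))))) (xE (xE (xF (xF (xL (Dt.step 64 0 202)))))))))) (Tr.n
  (Dt.step 69 5 6) Tr.z (xT (xF (xE (xF (xEF (xF (xF (xL (Dt.split 64 10 69 59)))) (xEF (xF (xL
  (Dt.split 65 10 69 60))) (xE (xL (Dt.split 65 10 68 61))))))))) Tr.z))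

def a985 : Tr := (xF (xE (xT (xE (xF (xF (xEF (xF (xF (xL (Dt.step 64 0 6441)))) (xEF (xF (xL
  (Dt.step 65 5 6441))) (xE (xL (Dt.step 65 5 297)))))))))))

def a986 : Tr := (xET (Tr.n (Dt.step 70 5 6) Tr.z (xT (xEF (xF (xF (xEF (xF (xF (xL (Dt.split 64
  10 70 58)))) (xEF (xF (xL (Dt.split 65 10 70 59))) (xE (xL (Dt.split 64 10 68 60))))))) (xEF
  (xEF (xF (xF (xF (xL (Dt.split 64 10 70 58))))) (xEF (xF (xF (xL (Dt.split 65 10 70 59)))) (xE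
  (xF (xL (Dt.split 65 10 69 60)))))) (xE (xE (xF (xF (xL (Dt.split 65 10 69 60))))))))) Tr.z) (xE
  (xT (xE (xF (xEF (xF (xF (xF (xL (Dt.step 64 0 10570))))) (xEF (xF (xF (xL (Dt.step 65 9
  10566)))) (xE (xF (xL (Dt.step 64 0 10566)))))))))))

def a987 : Tr := Tr.n (Dt.step 72 5 0) a984 a985 a986

def a988 : Tr := (xF (xE (xE (Tr.n (Dt.step 70 5 8) Tr.z (xE (xE (xF (xF (xF (xF (xL (Dt.step 64 0
  264)))))))) Tr.z))))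

def a989 : Tr := (xET (xET (Tr.n (Dt.step 69 5 2) Tr.z (xT (xEF (xF (xE (xF (xF (xF (xL (Dt.step
  64 0 6348))))))) (xE (xF (xEF (xF (xF (xL (Dt.step 65 5 6348)))) (xEF (xF (xL (Dt.split 65 10 69
  60))) (xE (xL (Dt.split 65 10 68 61))))))))) Tr.z) (xE (xT (xE (xF (xF (xEF (xF (xF (xL (Dt.step
  64 0 6474)))) (xEF (xF (xL (Dt.step 65 5 6474))) (xE (xL (Dt.step 65 5 330))))))))))) (xF (xT
  (xE (xE (xE (xL (Dt.split 67 0 64 67))))))))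

def a990 : Tr := Tr.n (Dt.step 69 5 0) a987 a988 a989

def a991 : Tr := (xTF (xF (xE (xE (xE (xL (Dt.step 72 1 0)))))) (xE (xET (xET (Tr.n (Dt.step 70 1
  0) Tr.z (xF (xE (xL (Dt.split 65 0 64 65)))) Tr.z) (xEF (Tr.n (Dt.step 71 10 0) Tr.z Tr.z (xE
  (xL (Dt.step 66 10 2)))) (xE (xE (xL (Dt.step 67 1 7)))))) (xE (xE (xL (Dt.step 70 9 0)))))))

def a992 : Tr := (Tr.n (Dt.step 70 1 2) (Tr.n (Dt.step 66 1 2) Tr.z (xTF (xF (xF (xE (xF (xF (xL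
  (Dt.split 64 11 66 62))))))) (xT (xF (xEF (xF (xF (xL (Dt.step 64 0 6530)))) (xE (xF (xL
  (Dt.step 65 5 6530)))))))) (Tr.n (Dt.step 67 1 194) Tr.z (xT (xF (xE (xF (xF (xL (Dt.split 65 12
  67 62))))))) Tr.z)) (Tr.n Dt.none (xTF (xF (xE (xF (xF (xF (xL (Dt.step 64 0 11691))))))) (xT
  (xF (xE (xF (xF (xL (Dt.step 65 10 11618)))))))) (xEF (xF (xF (xEF (xF (xF (xL (Dt.split 64 10
  70 58)))) (xEF (xF (xL (Dt.split 65 10 70 59))) (xE (xL (Dt.split 65 10 69 60))))))) (xE (xE (xF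
  (xF (xF (xL (Dt.split 64 10 70 58)))))))) (xE (xT (xE (xF (xF (xF (xL (Dt.step 64 0
  11618))))))))) (xE (Tr.n (Dt.step 66 5 66) Tr.z (xT (xF (xEF (xF (xF (xL (Dt.split 64 12 66
  62)))) (xE (xF (xL (Dt.split 65 12 66 63))))))) Tr.z)))

def a993 : Tr := (xET (Tr.n (Dt.step 69 9 2) Tr.z (xE (xF (xE (xF (xF (xF (xL (Dt.step 64 0
  10562)))))))) Tr.z) (xF (xE (xE (xL (Dt.split 66 9 66 64))))))

def a994 : Tr := (xE (Tr.n (Dt.step 64 0 194) (Tr.n (Dt.step 66 1 194) Tr.z (xT (xF (xE (xF (xF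
  (xL (Dt.split 64 12 66 62))))))) Tr.z) (xE (xT (xE (xF (xF (xF (xL (Dt.step 64 0 12482))))))))
  Tr.z))

def a995 : Tr := Tr.n (Dt.step 67 1 2) a992 a993 a994

def a996 : Tr := (xE (xE (Tr.n (Dt.step 70 8 2) Tr.z (xE (xE (xF (xF (xF (xF (xL (Dt.step 64 0
  290)))))))) Tr.z)))

def a997 : Tr := Tr.n Dt.none a995 a996 Tr.z

def a998 : Tr := (xE (xE (xET (xL (Dt.step 71 7 2)) (xE (xL (Dt.step 70 10 2))))))

def a999 : Tr := Tr.n Dt.none a997 a998 Tr.z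

def a1000 : Tr := Tr.n Dt.none a990 a991 a999

def a1001 : Tr := (xET (xET (xET (Tr.n (Dt.step 68 1 2) (xL (Dt.step 67 1 2)) (xE (xL (Dt.step 68
  9 2))) Tr.z) (xE (xL (Dt.step 66 8 2)))) (xF (xE (xE (xE (Tr.n (Dt.step 67 1 66) Tr.z (xT (xE
  (xF (xF (xF (xL (Dt.split 64 12 67 61))))))) Tr.z)))))) (xE (xE (xE (Tr.n (Dt.step 71 1 2) Tr.z
  (xT (xE (xF (xF (xEF (xF (xF (xL (Dt.split 65 10 71 58)))) (xEF (xF (xL (Dt.split 64 10 69 59)))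
  (xE (xL (Dt.split 65 10 69 60))))))))) Tr.z)))))

def a1002 : Tr := Tr.n (Dt.step 66 1 0) a983 a1000 a1001

def a1003 : Tr := (Tr.n (Dt.step 71 4 0) (Tr.n (Dt.step 72 1 0) Tr.z (xF (xT (xEF (xF (xF (xF (xE
  (xF (xL (Dt.step 64 0 5285))))))) (xE (xF (xE (xF (xF (xL (Dt.step 64 0 5290)))))))))) (Tr.n
  (Dt.step 70 4 5) Tr.z (xT (xF (xEF (xEF (xF (xF (xF (xL (Dt.split 64 10 70 58))))) (xEF (xF (xF
  (xL (Dt.split 65 10 70 59)))) (xE (xF (xL (Dt.split 65 10 69 60)))))) (xE (xE (xF (xF (xL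
  (Dt.split 65 10 69 60))))))))) Tr.z)) (xF (xE (Tr.n (Dt.step 67 8 9) Tr.z (xE (xF (xEF (xF (xF
  (xF (xL (Dt.step 64 0 5417))))) (xEF (xF (xF (xL (Dt.step 65 4 5417)))) (xE (xF (xL (Dt.step 65
  4 5417)))))))) Tr.z))) (xE (Tr.n (Dt.step 69 4 5) Tr.z (xT (xF (xE (xF (xE (xF (xF (xL (Dt.step
  65 4 5285))))))))) Tr.z)))

def a1004 : Tr := (xTF (xF (xE (xE (xL (Dt.split 70 7 70 64))))) (xE (xET (xL (Dt.step 71 4 5))
  (xEF (xL (Dt.step 70 10 11)) (xE (xE (xL (Dt.split 66 0 64 66))))))))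

def a1005 : Tr := (xE (xET (Tr.n (Dt.step 70 4 5) Tr.z (xT (xF (xE (xEF (xF (xF (xF (xL (Dt.split
  64 10 70 58))))) (xEF (xF (xF (xL (Dt.split 65 10 70 59)))) (xE (xF (xL (Dt.split 65 10 69
  60))))))))) Tr.z) (xE (Tr.n (Dt.step 69 9 10) Tr.z (xE (xF (xEF (xF (xF (xF (xL (Dt.step 64 0
  5445))))) (xEF (xF (xF (xL (Dt.step 65 4 5450)))) (xE (xF (xL (Dt.step 65 4 5450))))))))
  Tr.z))))

def a1006 : Tr := Tr.n (Dt.step 70 4 0) a1003 a1004 a1005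

def a1007 : Tr := (xTF (xF (xE (xE (xE (xL (Dt.step 73 4 0)))))) (xE (xE (xET (xL (Dt.step 69 4
  2)) (xF (xE (xET (xL (Dt.split 66 0 63 67)) (xE (xT (xE (xF (xF (xF (xL (Dt.split 64 0 64
  64)))))))))))))))

def a1008 : Tr := (xET (xET (xET (Tr.n (Dt.step 71 4 2) Tr.z (xT (xEF (xF (xEF (xF (xF (xF (xL
  (Dt.split 64 10 71 57))))) (xEF (xF (xF (xL (Dt.split 65 10 71 58)))) (xE (xF (xL (Dt.split 65
  10 70 59))))))) (xE (xEF (xF (xF (xF (xL (Dt.split 65 10 71 58))))) (xE (xF (xF (xL (Dt.split 65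
  10 70 59))))))))) Tr.z) (xE (Tr.n (Dt.step 68 9 2) Tr.z (xE (xF (xEF (xF (xF (xF (xL (Dt.step 65
  4 10562))))) (xE (xF (xF (xL (Dt.step 65 9 10562)))))))) Tr.z))) (xE (xE (xT (xE (xE (xF (xF (xF
  (xF (xL (Dt.step 65 4 290)))))))))))) (xE (xE (xET (xL (Dt.step 70 4 2)) (xE (xL (Dt.step 71 10
  2)))))))

def a1009 : Tr := Tr.n Dt.none a1006 a1007 a1008

def a1010 : Tr := (xF (xE (xE (xET (xT (xE (xL (Dt.step 72 5 0)))) (xE (xE (xL (Dt.step 73 9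
  0))))))))

def a1011 : Tr := (xE (xE (xE (xE (xL (Dt.split 66 0 64 66))))))

def a1012 : Tr := Tr.n Dt.none a1009 a1010 a1011

def a1013 : Tr := Tr.n Dt.none a1002 a1012 Tr.z

def a1014 : Tr := (Tr.n (Dt.step 71 3 0) Tr.z (Tr.n Dt.none (xT (xF (xF (xF (xF (xE (xF (xL
  (Dt.step 64 0 324))))))))) (xEF (xF (xF (xF (xF (xEF (xF (xL (Dt.split 64 9 70 58))) (xE (xL
  (Dt.split 65 9 70 59)))))))) (xEF (xF (xEF (xF (xF (xF (xL (Dt.split 64 9 71 57))))) (xEF (xF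
  (xF (xL (Dt.split 64 9 70 58)))) (xE (xF (xL (Dt.split 65 9 70 59))))))) (xE (xF (xE (xF (xF (xL
  (Dt.split 65 9 70 59))))))))) (xT (xEF (xF (xF (xE (xF (xF (xL (Dt.step 64 0 4234))))))) (xE (xE
  (xF (xF (xF (xL (Dt.step 64 0 138)))))))))) (xT (xT (xF (xE (xF (xE (xF (xF (xL (Dt.step 65 3
  4228)))))))))))

def a1015 : Tr := (xEF (Tr.n Dt.none (xT (xF (xF (xF (xE (xF (xF (xL (Dt.step 64 0 297)))))))))
  (xEF (xF (xF (xF (xEF (xF (xF (xL (Dt.step 64 0 297)))) (xE (xF (xL (Dt.step 65 8 297))))))))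
  (xE (xEF (xF (xF (xF (xF (xL (Dt.step 64 0 299)))))) (xF (xE (xF (xF (xL (Dt.step 65 8
  9515))))))))) (xT (xE (xF (xE (xF (xF (xF (xL (Dt.step 64 0 9508)))))))))) (xE (xT (xE (xEF (xF
  (xF (xF (xF (xL (Dt.step 64 0 137)))))) (xF (xE (xF (xF (xL (Dt.step 65 3 4393)))))))))))

def a1016 : Tr := (xE (Tr.n (Dt.step 70 3 4) Tr.z (xT (xEF (xF (xF (xE (xF (xF (xL (Dt.split 64 10
  70 58))))))) (xE (xE (xF (xF (xF (xL (Dt.split 64 10 70 58))))))))) Tr.z))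

def a1017 : Tr := Tr.n (Dt.step 71 3 0) a1014 a1015 a1016

def a1018 : Tr := (Tr.n Dt.none (Tr.n (Dt.step 72 7 0) (Tr.n Dt.none (xT (xF (xF (xE (xF (xF (xF
  (xL (Dt.step 64 0 264))))))))) (xE (xF (xEF (xF (xF (xF (xF (xL (Dt.step 64 0 360)))))) (xF (xE
  (xF (xF (xL (Dt.step 65 7 264))))))))) (xT (xE (xE (xF (xF (xF (xF (xL (Dt.step 64 0
  264)))))))))) (xEF (xE (xE (xF (xF (xF (xF (xF (xL (Dt.step 64 0 10))))))))) (xE (xL (Dt.split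
  69 0 64 69)))) (xE (xL (Dt.split 67 0 64 67)))) (xF (xE (xE (xL (Dt.split 71 7 71 64))))) (xET
  (xET (xL (Dt.split 68 0 64 68)) (xEF (Tr.n (Dt.step 71 3 4) Tr.z (xT (xE (xF (xE (xF (xF (xF (xL
  (Dt.split 64 12 71 57))))))))) Tr.z) (xE (xE (xL (Dt.split 65 0 64 65)))))) (xE (xE (xL
  (Dt.split 70 0 64 70))))))

def a1019 : Tr := (xE (xET (Tr.n (Dt.step 71 3 4) Tr.z (xT (xF (xE (xEF (xF (xF (xF (xL (Dt.split
  65 10 71 58))))) (xE (xF (xF (xL (Dt.split 65 10 70 59))))))))) Tr.z) (xE (Tr.n (Dt.step 68 9 4)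
  Tr.z (xE (xEF (xF (xF (xF (xF (xL (Dt.step 64 0 138)))))) (xEF (xF (xF (xF (xL (Dt.step 65 3
  4420))))) (xE (xF (xF (xL (Dt.step 65 3 4420)))))))) Tr.z))))

def a1020 : Tr := Tr.n (Dt.step 71 3 0) a1017 a1018 a1019

def a1021 : Tr := (xE (xE (xE (xE (xT (xF (xE (xF (xF (xF (xF (xL (Dt.step 64 0 231)))))))))))))

def a1022 : Tr := (xE (xE (xE (xT (xT (xE (xE (xF (xF (xF (xF (xL (Dt.step 64 0 140)))))))))))))

def a1023 : Tr := Tr.n Dt.none a1020 a1021 a1022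

def a1024 : Tr := (xE (xE (xE (xE (xT (xE (xT (xE (xF (xF (xF (xF (xL (Dt.split 64 0 64
  64))))))))))))))

def a1025 : Tr := Tr.n Dt.none a1023 Tr.z a1024

def a1026 : Tr := Tr.n Dt.none a1025 Tr.z Tr.z

def a1027 : Tr := Tr.n Dt.none a1013 a1026 Tr.z

def a1028 : Tr := Tr.n Dt.none a475 a973 a1027

def a1029 : Tr := (Tr.n (Dt.step 67 0 0) (Tr.n (Dt.step 66 0 0) (Tr.n (Dt.step 68 0 0) Tr.z (xT
  (xE (xF (xF (xF (xF (xL (Dt.split 64 8 68 60)))))))) Tr.z) (xF (xE (xL (Dt.step 64 0 8)))) Tr.z)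
  (Tr.n Dt.none (xTF (xF (xL (Dt.step 65 6 9))) (xE (xL (Dt.step 64 0 1)))) (xF (xT (xE (xF (xF
  (xF (xF (xE (xE (xL (Dt.split 64 6 67 61))))))))))) (xE (xL (Dt.step 65 0 7)))) (Tr.n (Dt.step
  63 0 1) (xT (xE (xL (Dt.step 64 0 1)))) Tr.z (xL (Dt.step 60 0 1))))

def a1030 : Tr := (Tr.n Dt.none (Tr.n Dt.none (xF (xL (Dt.step 64 0 6))) (xF (Tr.n (Dt.step 66 5
  9) Tr.z (xF (xF (xF (xF (xE (xE (xL (Dt.step 64 0 9)))))))) Tr.z)) (xL (Dt.step 64 0 1))) (xEF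
  (xT (xF (xF (xF (xF (xF (xE (xE (xL (Dt.step 64 0 6)))))))))) (xEF (xL (Dt.step 68 0 8)) (xE (xE
  (xL (Dt.step 64 0 8)))))) (Tr.n Dt.none (Tr.n (Dt.step 66 5 1) (xL (Dt.step 64 0 1)) (xT (xF (xF
  (xF (xF (xE (xE (xL (Dt.split 64 9 64 64))))))))) Tr.z) (xF (xE (xE (xL (Dt.step 65 0 1))))) (xT
  (xE (xE (xL (Dt.step 64 0 1)))))))

def a1031 : Tr := (xTF (xTF (xF (xE (xE (xL (Dt.split 68 5 66 66))))) (xE (xE (xL (Dt.split 67 5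
  66 65))))) (xE (xE (xF (xE (xL (Dt.step 65 0 7)))))))

def a1032 : Tr := (Tr.n Dt.none (Tr.n (Dt.step 65 0 1) (Tr.n (Dt.step 67 0 1) (Tr.n (Dt.step 68 0
  6) Tr.z (xT (xEF (xF (xF (xF (xF (xL (Dt.split 64 10 68 60)))))) (xE (xF (xF (xF (xL (Dt.split
  65 10 68 61)))))))) Tr.z) (xEF (xT (xE (xF (xF (xF (xF (xL (Dt.step 65 9 330)))))))) (xE (xL
  (Dt.step 64 0 33)))) Tr.z) (xEF (Tr.n (Dt.step 68 0 9) (Tr.n (Dt.step 64 0 1) Tr.z Tr.z (xL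
  (Dt.step 64 0 297))) (xT (xF (xF (xE (xF (xE (xF (xL (Dt.split 64 10 67 61))))))))) (xE (xL
  (Dt.step 64 0 41)))) (xE (xE (xL (Dt.step 66 0 38))))) (xT (xE (xE (xL (Dt.step 64 0 42))))))
  (xE (xE (Tr.n (Dt.step 69 7 8) Tr.z (xT (xF (xF (xE (xE (xF (xF (xL (Dt.split 64 10 68
  60))))))))) Tr.z))) (xET (Tr.n (Dt.step 62 0 6) Tr.z (xE (xE (xL (Dt.step 65 0 6)))) Tr.z) (xE
  (xE (xE (xL (Dt.step 67 0 6)))))))

def a1033 : Tr := Tr.n Dt.none a1030 a1031 a1032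

def a1034 : Tr := (Tr.n Dt.none (xT (xE (Tr.n (Dt.step 65 0 1) Tr.z (xF (xE (xL (Dt.step 64 0
  40)))) Tr.z))) (xF (xET (xET (xET (xL (Dt.step 64 0 1)) (xE (xL (Dt.step 65 0 11)))) (xE (xE (xL
  (Dt.step 66 0 10))))) (xE (xE (xET (Tr.n (Dt.step 67 0 9) Tr.z (xT (xF (xE (xF (xF (xL (Dt.split
  64 12 66 62))))))) Tr.z) (xE (xT (xE (xF (xF (xF (xL (Dt.step 64 0 396))))))))))))) (xF (xEF (xF
  (xF (xL (Dt.step 52 0 0)))) (xE (xF (xL (Dt.step 53 0 32)))))))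

def a1035 : Tr := Tr.n (Dt.step 66 0 0) a1029 a1033 a1034

def a1036 : Tr := (Tr.n (Dt.step 68 0 0) (xT (xF (xT (xF (xF (xF (xF (xE (xL (Dt.step 64 0
  10)))))))))) (xTF (xF (xT (xF (xEF (xF (xF (xEF (xF (xL (Dt.split 64 8 68 60))) (xE (xL
  (Dt.split 65 8 68 61)))))) (xE (xEF (xF (xF (xL (Dt.split 64 8 68 60)))) (xE (xF (xL (Dt.split
  65 8 68 61)))))))))) (Tr.n (Dt.step 67 4 9) Tr.z (xF (xEF (xT (xF (xF (xF (xE (xL (Dt.step 64 0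
  457))))))) (xEF (xT (xF (xF (xE (xL (Dt.step 64 0 489)))))) (Tr.n Dt.none (xTF (xF (xE (xL
  (Dt.step 64 0 521)))) (xT (xE (xL (Dt.step 64 0 553))))) (xE (xF (xE (xL (Dt.step 64 0 489)))))
  (xET (xET (xL (Dt.step 64 0 9)) (xE (xL (Dt.step 64 0 9)))) (xE (xE (xL (Dt.step 64 0 9)))))))))
  Tr.z)) (Tr.n (Dt.step 65 4 5) (Tr.n (Dt.step 64 0 5) Tr.z (xT (xF (xF (xF (xF (xE (xL (Dt.split
  64 10 64 64)))))))) Tr.z) Tr.z Tr.z))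

def a1037 : Tr := (xEF (xT (xF (xT (xF (xEF (xF (xEF (xF (xF (xL (Dt.step 64 0 8458)))) (xE (xF
  (xL (Dt.step 65 7 8458)))))) (xE (xE (xF (xF (xL (Dt.step 65 7 266))))))))))) (xEF (Tr.n
  (Dt.step 69 4 5) Tr.z (xT (xF (xEF (xF (xEF (xF (xF (xL (Dt.split 64 10 69 59)))) (xE (xF (xL
  (Dt.split 65 10 69 60)))))) (xE (xE (xF (xF (xL (Dt.split 65 10 69 60))))))))) (xE (xL (Dt.step
  64 0 168)))) (xE (xE (xL (Dt.step 65 4 1))))))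

def a1038 : Tr := (xET (Tr.n (Dt.step 67 4 5) (xL (Dt.step 64 0 5)) (xTF (xF (xEF (xT (xF (xF (xF
  (xE (xL (Dt.split 64 9 67 61))))))) (xEF (xT (xF (xF (xE (xL (Dt.split 64 9 66 62)))))) (Tr.n
  Dt.none (xTF (xF (xE (xL (Dt.split 64 9 65 63)))) (xT (xE (xL (Dt.split 64 9 64 64))))) (xE (xF
  (xE (xL (Dt.split 64 9 65 63))))) (xET (xET (xL (Dt.split 64 9 64 64)) (xE (xL (Dt.split 64 9 63
  65)))) (xE (xE (xL (Dt.split 64 9 62 66))))))))) (xE (xL (Dt.step 64 0 165)))) Tr.z) (xEF (Tr.n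
  (Dt.step 68 8 5) (Tr.n (Dt.step 64 0 5) Tr.z Tr.z (xL (Dt.step 64 0 293))) (xET (xF (xT (xF (xF
  (xF (xE (xL (Dt.step 64 0 299)))))))) (xE (xF (xF (xF (xF (xE (xL (Dt.split 64 10 68 60)))))))))
  Tr.z) (xE (xE (xL (Dt.step 66 4 5))))))

def a1039 : Tr := Tr.n Dt.none a1036 a1037 a1038

def a1040 : Tr := (xTF (xTF (xF (xE (xE (xL (Dt.step 69 4 0))))) (xE (xE (xL (Dt.step 68 4 0)))))
  (Tr.n (Dt.step 64 0 1) (xE (Tr.n (Dt.step 69 6 7) (Tr.n (Dt.step 65 4 1) Tr.z Tr.z (xL (Dt.step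
  65 6 167))) Tr.z (xE (xL (Dt.step 66 4 231))))) Tr.z Tr.z))

def a1041 : Tr := (Tr.n Dt.none (Tr.n (Dt.step 66 4 1) (xL (Dt.step 65 4 1)) (xET (xF (xL (Dt.step
  64 0 161))) (xF (xE (xT (xF (xF (xF (xE (xL (Dt.split 64 9 64 64)))))))))) Tr.z) (xEF (Tr.n
  Dt.none (xTF (xF (xT (xF (xF (xF (xE (xL (Dt.step 64 0 393)))))))) (xL (Dt.step 64 0 169))) (xET
  (xF (xT (xF (xF (xF (xE (xL (Dt.step 64 0 299)))))))) (xF (xE (xF (xF (xE (xF (xL (Dt.step 64 0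
  12460))))))))) (xE (Tr.n (Dt.step 65 4 169) Tr.z (xT (xF (xF (xF (xE (xL (Dt.split 64 12 64
  64))))))) Tr.z))) (xE (xE (xL (Dt.step 66 4 161))))) (Tr.n (Dt.step 60 0 161) Tr.z (xE (xE (xL
  (Dt.step 65 4 161)))) Tr.z))

def a1042 : Tr := (xEF (xEF (xET (xF (xL (Dt.step 65 7 264))) (xT (xF (xE (xF (xE (xF (xF (xL
  (Dt.step 64 0 8364)))))))))) (xE (xE (xL (Dt.step 65 0 264))))) (xE (xE (xE (xL (Dt.step 66 7
  8))))))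

def a1043 : Tr := (xET (Tr.n Dt.none (xET (xL (Dt.step 64 0 5)) (xE (xL (Dt.step 65 10 5)))) (xE
  (xE (xL (Dt.step 66 4 5)))) (xF (xL (Dt.step 55 0 32)))) (xE (xE (xET (Tr.n (Dt.step 67 4 5)
  Tr.z (xT (xF (xE (xF (xF (xL (Dt.split 64 12 66 62))))))) Tr.z) (xE (xT (xE (xF (xF (xF (xL
  (Dt.step 64 0 389))))))))))))

def a1044 : Tr := Tr.n Dt.none a1041 a1042 a1043

def a1045 : Tr := Tr.n Dt.none a1039 a1040 a1044

def a1046 : Tr := (xTF (xTF (xF (xE (xE (xE (xL (Dt.step 71 0 0)))))) (xE (xE (xET (xL (Dt.step 71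
  0 0)) (xF (xE (xE (xL (Dt.split 66 4 65 65))))))))) (xE (xE (xEF (Tr.n (Dt.step 69 0 0) (xF (xL
  (Dt.step 66 5 1))) Tr.z Tr.z) (xE (xE (xL (Dt.step 66 5 6))))))))

def a1047 : Tr := (Tr.n (Dt.step 67 0 1) (xL (Dt.step 66 0 1)) (Tr.n Dt.none (xTF (xF (xT (xF (xF
  (xF (xE (xL (Dt.step 64 0 394)))))))) (xL (Dt.step 65 0 33))) (xF (xE (xT (xF (xEF (xF (xF (xL
  (Dt.split 64 9 66 62)))) (xEF (xF (xL (Dt.split 64 9 65 63))) (xE (xL (Dt.split 64 9 67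
  61))))))))) (xE (Tr.n (Dt.step 66 0 33) Tr.z (xT (xF (xF (xF (xE (xL (Dt.split 64 12 64
  64))))))) Tr.z))) Tr.z)

def a1048 : Tr := (xEF (Tr.n (Dt.step 68 0 1) (Tr.n (Dt.step 68 0 1) Tr.z (xF (xT (xF (xF (xF (xE
  (xL (Dt.step 64 0 385)))))))) (xL (Dt.step 66 8 289))) (xEF (xF (xT (xF (xF (xEF (xF (xL
  (Dt.step 64 0 11553))) (xE (xL (Dt.step 64 0 289)))))))) (xE (xT (xE (xF (xF (xF (xL (Dt.step 64
  0 9569))))))))) (xE (Tr.n (Dt.step 66 8 33) Tr.z (xT (xF (xF (xF (xE (xL (Dt.split 64 12 64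
  64))))))) Tr.z))) (xE (xET (Tr.n (Dt.step 67 0 161) Tr.z (xT (xF (xE (xF (xF (xL (Dt.split 64 12
  66 62))))))) Tr.z) (xE (xT (xE (xF (xF (xF (xL (Dt.step 64 0 12449)))))))))))

def a1049 : Tr := (Tr.n Dt.none (xET (xL (Dt.step 64 0 161)) (xE (xL (Dt.step 65 0 161)))) (xE (xE
  (xL (Dt.step 66 0 161)))) (xF (xL (Dt.step 55 0 1))))

def a1050 : Tr := Tr.n (Dt.step 65 0 1) a1047 a1048 a1049

def a1051 : Tr := (xEF (xE (Tr.n (Dt.step 69 7 1) (xTF (xF (xT (xF (xF (xEF (xF (xL (Dt.step 64 0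
  8577))) (xE (xL (Dt.step 65 7 385)))))))) (Tr.n (Dt.step 66 7 257) Tr.z (xT (xF (xE (xF (xF (xL
  (Dt.split 64 12 66 62))))))) Tr.z)) (xE (xF (xT (xF (xE (xF (xF (xL (Dt.step 64 0 8552)))))))))
  (xE (Tr.n (Dt.step 67 7 257) Tr.z (xT (xF (xF (xEF (xF (xL (Dt.split 64 12 65 63))) (xE (xL
  (Dt.split 65 12 65 64))))))) Tr.z)))) (xE (xE (xL (Dt.step 64 0 257)))))

def a1052 : Tr := (xEF (xF (xF (xL (Dt.step 56 0 1)))) (xEF (xF (xL (Dt.step 57 0 33))) (xE (xL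
  (Dt.step 58 0 33)))))

def a1053 : Tr := Tr.n (Dt.step 64 0 1) a1050 a1051 a1052

def a1054 : Tr := (xE (Tr.n (Dt.step 65 0 1) (xE (xE (xF (xL (Dt.step 66 6 225))))) (xT (xF (xE
  (xE (xE (xL (Dt.split 65 8 65 64))))))) Tr.z))

def a1055 : Tr := (xE (xET (xEF (xL (Dt.step 64 0 1)) (xF (xL (Dt.step 57 0 33)))) (xE (xE (xL
  (Dt.step 64 0 1))))))

def a1056 : Tr := Tr.n Dt.none a1053 a1054 a1055

def a1057 : Tr := Tr.n Dt.none a1045 a1046 a1056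

def a1058 : Tr := (Tr.n Dt.none (xET (Tr.n (Dt.step 65 0 1) (xL (Dt.step 65 0 1)) (xET (xL
  (Dt.step 66 8 1)) (xF (xE (xL (Dt.split 64 8 64 64))))) Tr.z) (xET (xE (xL (Dt.step 67 7 1)))
  (xF (xE (xE (xL (Dt.step 65 0 1))))))) (xEF (xET (xE (xL (Dt.step 68 6 1))) (xF (xE (xE (xL
  (Dt.step 66 6 289)))))) (xET (Tr.n (Dt.step 62 0 1) (xET (xL (Dt.step 65 0 33)) (xE (xL (Dt.step
  66 10 33)))) (xE (xE (xL (Dt.step 67 9 33)))) Tr.z) (xE (xE (xE (Tr.n (Dt.step 67 8 33) Tr.z (xT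
  (xE (xF (xF (xF (xL (Dt.split 64 12 67 61))))))) Tr.z)))))) (xEF (xF (xF (xF (xL (Dt.step 52 0
  33))))) (xEF (xF (xF (xL (Dt.step 53 0 33)))) (Tr.n (Dt.step 56 0 33) (xF (xL (Dt.step 54 0
  1057))) Tr.z Tr.z))))

def a1059 : Tr := (Tr.n Dt.none (xE (Tr.n Dt.none (Tr.n (Dt.step 68 0 1) (Tr.n (Dt.step 69 5 1)
  Tr.z (xT (xE (xF (xF (xF (xF (xL (Dt.split 65 10 69 60)))))))) Tr.z) (xEF (xF (xL (Dt.step 64 0
  33))) (xE (xL (Dt.step 64 0 321)))) Tr.z) (xE (xL (Dt.step 69 8 1))) (xE (xET (xL (Dt.step 64 0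
  33)) (xE (xL (Dt.step 64 0 33))))))) (xF (xE (xE (xE (xE (xL (Dt.step 67 0 1))))))) (xET (xT (xE
  (xE (xE (xL (Dt.step 67 0 1)))))) (xE (xE (xE (xE (xL (Dt.step 67 0 1))))))))

def a1060 : Tr := (Tr.n Dt.none (xF (xF (xL (Dt.step 56 0 33)))) (xE (xE (xL (Dt.step 63 0 1))))
  (Tr.n (Dt.step 61 0 1) (xF (xL (Dt.step 56 0 33))) Tr.z (xE (xL (Dt.step 59 0 1)))))

def a1061 : Tr := Tr.n Dt.none a1058 a1059 a1060

def a1062 : Tr := Tr.n (Dt.step 65 0 0) a1035 a1057 a1061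

def a1063 : Tr := (Tr.n (Dt.step 72 0 0) Tr.z (xTF (xEF (xF (xF (xEF (xF (xF (xF (xL (Dt.split 64
  8 72 56))))) (xE (xF (xF (xL (Dt.split 65 8 72 57)))))))) (xT (xE (xF (xF (xF (xEF (xF (xL
  (Dt.split 64 8 69 59))) (xE (xL (Dt.split 65 8 69 60)))))))))) (Tr.n (Dt.step 68 3 4) (xL
  (Dt.step 64 0 4)) (xF (xEF (xT (xF (xF (xF (xE (xL (Dt.step 64 0 457))))))) (xEF (xT (xF (xF (xE
  (xL (Dt.step 64 0 137)))))) (xE (xT (xF (xE (xL (Dt.step 64 0 137))))))))) Tr.z)) (Tr.n (Dt.step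
  66 3 4) Tr.z (xT (xF (xET (xT (xF (xF (xF (xE (xL (Dt.split 64 9 64 64))))))) (xE (xF (xF (xEF
  (xF (xL (Dt.split 64 9 66 62))) (xE (xL (Dt.split 65 9 66 63)))))))))) Tr.z))

def a1064 : Tr := (xTF (xF (xT (xEF (xF (xF (xEF (xF (xF (xL (Dt.step 64 0 8330)))) (xE (xF (xL
  (Dt.step 65 7 8330))))))) (xF (xF (xEF (xF (xE (xL (Dt.step 64 0 266)))) (xE (xE (xL (Dt.step 65
  7 10)))))))))) (xL (Dt.step 67 7 4)))

def a1065 : Tr := (xF (xE (xE (xF (xT (xF (xF (xE (xF (xL (Dt.split 64 7 69 59)))))))))))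

def a1066 : Tr := (xEF (Tr.n (Dt.step 68 3 8) (Tr.n (Dt.step 64 0 1) Tr.z (xT (xF (xF (xF (xF (xE
  (xL (Dt.split 64 11 64 64)))))))) (xL (Dt.step 64 0 132))) (xET (xTF (xF (xF (xF (xEF (xF (xL
  (Dt.step 64 0 11528))) (xE (xL (Dt.step 65 10 264))))))) (xT (xF (xF (xF (xE (xL (Dt.step 64 0
  267)))))))) (xEF (xF (xF (xEF (xF (xF (xL (Dt.step 64 0 12424)))) (xEF (xF (xL (Dt.step 65 11
  12424))) (xE (xL (Dt.split 64 10 68 60))))))) (xEF (xF (xE (xF (xF (xL (Dt.step 64 0 4228))))))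
  (xF (xEF (xF (xE (xL (Dt.split 64 10 65 63)))) (xE (xE (xL (Dt.split 65 10 65 64))))))))) (xE
  (xL (Dt.step 65 3 136)))) (xE (xE (xL (Dt.step 66 3 8)))))

def a1067 : Tr := Tr.n Dt.none a1064 a1065 a1066

def a1068 : Tr := (Tr.n Dt.none (Tr.n (Dt.step 65 3 4) Tr.z (xT (xF (xEF (xT (xF (xF (xF (xE (xL
  (Dt.split 64 9 64 64))))))) (xEF (xT (xF (xF (xE (xL (Dt.split 64 9 64 64)))))) (xE (xT (xF (xE
  (xL (Dt.split 64 9 65 63)))))))))) Tr.z) (xF (xE (xE (xL (Dt.step 65 3 4))))) (xT (xE (xE (xL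
  (Dt.step 64 0 4))))))

def a1069 : Tr := Tr.n (Dt.step 70 0 0) a1063 a1067 a1068

def a1070 : Tr := (xTF (xTF (xF (xE (xE (xL (Dt.split 68 6 68 64))))) (xE (xE (xL (Dt.split 67 6
  67 64))))) (Tr.n (Dt.step 65 3 4) (xET (Tr.n (Dt.step 70 3 7) (Tr.n (Dt.step 66 3 1) Tr.z Tr.z
  (xL (Dt.step 66 3 132))) (xT (xEF (xF (xF (xEF (xF (xF (xL (Dt.split 64 10 70 58)))) (xE (xF (xL
  (Dt.split 65 10 70 59))))))) (xE (xF (xE (xF (xF (xL (Dt.split 65 10 70 59))))))))) Tr.z) (xE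
  (xT (xE (xF (xF (xE (xF (xF (xL (Dt.step 65 9 10570))))))))))) (xT (xF (xE (xE (xE (xL (Dt.split
  65 8 65 64))))))) Tr.z))

def a1071 : Tr := (Tr.n (Dt.step 67 3 4) (xL (Dt.step 66 3 4)) (Tr.n Dt.none (xL (Dt.step 67 9
  10)) (xF (xET (xT (xF (xEF (xF (xF (xL (Dt.split 64 9 66 62)))) (xE (xF (xL (Dt.split 65 9 66
  63))))))) (xE (xF (xF (xEF (xF (xL (Dt.split 64 9 66 62))) (xE (xL (Dt.split 65 9 66 63)))))))))
  (xE (xL (Dt.step 64 0 132)))) Tr.z)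

def a1072 : Tr := (xEF (Tr.n (Dt.step 68 8 9) (Tr.n (Dt.step 67 8 4) Tr.z (xTF (xF (xF (xF (xF (xE
  (xL (Dt.split 64 11 64 64))))))) (xT (xF (xF (xEF (xF (xL (Dt.step 64 0 4489))) (xE (xL (Dt.step
  65 3 393)))))))) (xL (Dt.step 64 0 132))) (xET (xTF (xF (xF (xF (xEF (xF (xL (Dt.step 64 0
  11563))) (xE (xL (Dt.step 65 10 299))))))) (xT (xF (xEF (xF (xF (xL (Dt.step 64 0 11561)))) (xE
  (xF (xL (Dt.step 65 10 11561)))))))) (xE (xF (xF (xEF (xF (xF (xL (Dt.step 64 0 12684)))) (xEF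
  (xF (xL (Dt.step 65 11 12684))) (xE (xL (Dt.split 64 10 68 60))))))))) (xE (Tr.n (Dt.step 65 3
  132) Tr.z (xT (xF (xF (xEF (xF (xL (Dt.split 64 12 65 63))) (xE (xL (Dt.split 65 12 65 64)))))))
  Tr.z))) (xE (xET (Tr.n (Dt.step 66 3 132) Tr.z (xT (xF (xE (xF (xF (xL (Dt.split 64 12 66
  62))))))) Tr.z) (xE (xT (xE (xF (xF (xF (xL (Dt.step 64 0 12420)))))))))))

def a1073 : Tr := Tr.n Dt.none a1071 a1072 Tr.z

def a1074 : Tr := (xE (xE (xEF (Tr.n (Dt.step 65 0 1) Tr.z (xF (xT (xF (xF (xF (xE (xL (Dt.step 64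
  0 388)))))))) Tr.z) (xE (Tr.n (Dt.step 66 7 260) Tr.z (xT (xF (xF (xF (xE (xL (Dt.split 64 12 64
  64))))))) Tr.z)))))

def a1075 : Tr := Tr.n (Dt.step 64 0 4) a1073 a1074 Tr.z

def a1076 : Tr := Tr.n (Dt.step 68 0 0) a1069 a1070 a1075

def a1077 : Tr := (xTF (xTF (xF (xE (xE (xE (xL (Dt.step 70 3 0)))))) (xE (xE (xE (xL (Dt.step 70
  3 0)))))) (xE (Tr.n (Dt.step 65 3 1) (Tr.n (Dt.step 64 0 1) (xL (Dt.step 67 3 1)) Tr.z Tr.z)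
  Tr.z Tr.z)))

def a1078 : Tr := (Tr.n (Dt.step 68 3 1) (xL (Dt.step 67 3 1)) (Tr.n Dt.none (xT (xF (xT (xF (xF
  (xEF (xF (xL (Dt.step 64 0 4490))) (xE (xL (Dt.step 65 3 394))))))))) (xEF (xF (xT (xF (xEF (xF
  (xF (xL (Dt.split 64 9 67 61)))) (xE (xF (xL (Dt.split 65 9 67 62)))))))) (xET (xT (xF (xEF (xF
  (xF (xL (Dt.split 64 9 66 62)))) (xE (xF (xL (Dt.split 64 9 68 60))))))) (xE (xF (xEF (xF (xF
  (xL (Dt.split 64 9 67 61)))) (xE (xF (xL (Dt.split 65 9 67 62))))))))) (xE (Tr.n (Dt.step 65 3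
  129) Tr.z (xT (xF (xF (xEF (xF (xL (Dt.split 64 12 65 63))) (xE (xL (Dt.split 65 12 65 64)))))))
  Tr.z))) Tr.z)

def a1079 : Tr := (xEF (Tr.n (Dt.step 69 8 1) (Tr.n (Dt.step 67 3 4) Tr.z (xT (xF (xF (xF (xEF (xF
  (xL (Dt.split 64 11 65 63))) (xE (xL (Dt.split 65 11 65 64)))))))) (xL (Dt.step 65 3 129))) (xET
  (xTF (xF (xF (xEF (xF (xF (xL (Dt.step 64 0 11563)))) (xE (xF (xL (Dt.step 65 10 11563)))))))
  (xT (xF (xEF (xF (xF (xL (Dt.step 64 0 4385)))) (xE (xF (xL (Dt.step 64 0 4385)))))))) (xEF (xF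
  (xF (xF (xE (xF (xL (Dt.split 64 10 69 59))))))) (xE (xE (xF (xF (xF (xL (Dt.step 64 0
  385))))))))) Tr.z) (xE (xE (xL (Dt.step 65 0 289)))))

def a1080 : Tr := Tr.n Dt.none a1078 a1079 Tr.z

def a1081 : Tr := (xEF (xE (xL (Dt.step 70 3 1))) (xE (xE (xE (xL (Dt.step 67 0 257))))))

def a1082 : Tr := (xE (xET (xT (xE (xL (Dt.step 64 0 33)))) (xE (xE (xL (Dt.step 65 0 33))))))

def a1083 : Tr := Tr.n Dt.none a1080 a1081 a1082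

def a1084 : Tr := (xEF (xET (xEF (Tr.n (Dt.step 71 6 1) (Tr.n (Dt.step 67 0 1) Tr.z (xT (xF (xE
  (xF (xF (xF (xL (Dt.split 64 11 67 61)))))))) (xL (Dt.step 65 3 33))) (xET (xT (xE (xF (xF (xF
  (xF (xL (Dt.step 64 0 353)))))))) (xE (xF (xF (xE (xF (xF (xL (Dt.split 65 10 71 58)))))))))
  Tr.z) (xE (xE (xL (Dt.step 65 0 33))))) (xT (xF (xE (xE (xE (xL (Dt.step 66 3 1)))))))) (xE (xE
  (xE (xE (xL (Dt.step 67 0 4)))))))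

def a1085 : Tr := (xE (xT (xE (xE (xE (xL (Dt.step 67 0 4)))))))

def a1086 : Tr := Tr.n Dt.none a1083 a1084 a1085

def a1087 : Tr := Tr.n Dt.none a1076 a1077 a1086

def a1088 : Tr := (xF (xE (xE (xE (xE (xL (Dt.step 69 0 0)))))))

def a1089 : Tr := (Tr.n Dt.none (Tr.n (Dt.step 72 4 0) (Tr.n (Dt.step 66 4 0) Tr.z (xT (xF (xF (xE
  (xF (xF (xL (Dt.split 64 11 66 62)))))))) (Tr.n (Dt.step 66 4 1) Tr.z (xT (xF (xE (xF (xF (xL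
  (Dt.split 64 12 66 62))))))) Tr.z)) (Tr.n Dt.none (xT (xF (xE (xF (xF (xF (xL (Dt.step 64 0
  365)))))))) (xE (xF (xEF (xF (xF (xF (xL (Dt.split 65 10 72 57))))) (xE (xF (xF (xL (Dt.split 65
  10 71 58)))))))) (xE (xT (xE (xF (xF (xF (xL (Dt.step 64 0 363))))))))) Tr.z) (xE (Tr.n (Dt.step
  69 9 0) (xT (xE (xF (xF (xF (xF (xL (Dt.step 64 0 10)))))))) (xE (xE (xF (xF (xF (xF (xL
  (Dt.step 65 11 10)))))))) Tr.z)) (xE (xET (Tr.n (Dt.step 66 4 1) Tr.z (xT (xF (xE (xF (xF (xL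
  (Dt.split 64 12 66 62))))))) Tr.z) (xE (xT (xE (xF (xF (xF (xL (Dt.step 64 0 396)))))))))))

def a1090 : Tr := (xE (xE (xL (Dt.step 70 8 0))))

def a1091 : Tr := (xE (xE (xE (Tr.n (Dt.step 67 0 5) Tr.z (xT (xE (xF (xF (xF (xL (Dt.split 64 12
  67 61))))))) Tr.z))))

def a1092 : Tr := Tr.n (Dt.step 66 0 0) a1089 a1090 a1091

def a1093 : Tr := (xE (xE (xE (xL (Dt.step 71 7 0)))))

def a1094 : Tr := Tr.n Dt.none a1092 a1093 Tr.z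

def a1095 : Tr := (xE (xE (xE (xET (xL (Dt.step 72 6 0)) (xE (xL (Dt.step 73 10 0)))))))

def a1096 : Tr := Tr.n Dt.none a1094 a1095 Tr.z

def a1097 : Tr := Tr.n Dt.none Tr.z a1088 a1096

def a1098 : Tr := (xET (Tr.n (Dt.step 66 3 4) (Tr.n (Dt.step 65 3 4) Tr.z (xT (xF (xT (xF (xF (xEF
  (xF (xL (Dt.split 64 10 65 63))) (xE (xL (Dt.split 65 10 65 64))))))))) Tr.z) (xT (xF (xE (xT
  (xF (xE (xF (xF (xL (Dt.split 64 9 66 62)))))))))) Tr.z) (xEF (xET (Tr.n (Dt.step 68 3 4) Tr.z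
  (xT (xF (xF (xEF (xF (xF (xL (Dt.split 64 11 66 62)))) (xE (xF (xL (Dt.split 65 11 66 63))))))))
  Tr.z) (xET (xF (xT (xF (xE (xF (xF (xL (Dt.step 64 0 1321)))))))) (xF (xE (xE (xF (xF (xF (xL
  (Dt.step 64 0 393)))))))))) (xE (xE (xL (Dt.step 67 0 36))))))

def a1099 : Tr := (xEF (xE (xEF (xT (xF (xT (xF (xF (xEF (xF (xL (Dt.step 64 0 1416))) (xE (xL
  (Dt.step 65 0 392))))))))) (xE (Tr.n (Dt.step 67 0 264) Tr.z (xT (xF (xF (xEF (xF (xL (Dt.split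
  64 12 65 63))) (xE (xL (Dt.split 65 12 65 64))))))) Tr.z)))) (xE (xE (Tr.n (Dt.step 64 0 36) (xL
  (Dt.step 67 0 132)) Tr.z Tr.z))))

def a1100 : Tr := Tr.n (Dt.step 64 0 4) a1098 a1099 Tr.z

def a1101 : Tr := (xE (xEF (xEF (Tr.n (Dt.step 71 0 4) (xTF (xF (xT (xF (xEF (xF (xF (xL (Dt.step
  64 0 7559)))) (xE (xF (xL (Dt.step 65 6 7559)))))))) (Tr.n (Dt.step 67 0 231) Tr.z (xT (xF (xE
  (xF (xF (xL (Dt.split 64 12 66 62))))))) Tr.z)) (xF (xE (xT (xE (xF (xF (xF (xL (Dt.step 64 0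
  11623))))))))) (xE (Tr.n (Dt.step 66 6 39) Tr.z (xT (xF (xEF (xF (xF (xL (Dt.split 64 12 66
  62)))) (xE (xF (xL (Dt.split 65 12 66 63))))))) Tr.z))) (xE (Tr.n (Dt.step 64 0 231) (Tr.n
  (Dt.step 67 0 231) Tr.z (xT (xF (xE (xF (xF (xL (Dt.split 64 12 66 62))))))) Tr.z) (xE (xT (xE
  (xF (xF (xF (xL (Dt.step 64 0 12679)))))))) Tr.z))) (xE (xE (xE (Tr.n (Dt.step 67 6 135) Tr.z
  (xT (xE (xF (xF (xF (xL (Dt.split 64 12 67 61))))))) Tr.z))))))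

def a1102 : Tr := Tr.n Dt.none a1100 a1101 Tr.z

def a1103 : Tr := (xE (xE (xE (xET (Tr.n (Dt.step 71 0 4) (xT (xF (xT (xF (xE (xF (xF (xL (Dt.step
  65 5 6534))))))))) (xT (xE (xF (xE (xF (xF (xF (xL (Dt.split 64 10 71 57))))))))) (xE (Tr.n
  (Dt.step 67 5 198) Tr.z (xT (xF (xE (xF (xF (xL (Dt.split 65 12 67 62))))))) Tr.z))) (xE (xT (xE
  (xE (xF (xF (xF (xF (xL (Dt.step 64 0 330))))))))))))))

def a1104 : Tr := (xEF (xF (xF (xE (xL (Dt.step 60 0 36))))) (xEF (xF (xE (xL (Dt.step 60 0 36))))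
  (xE (xE (xL (Dt.step 61 0 4))))))

def a1105 : Tr := Tr.n Dt.none a1102 a1103 a1104

def a1106 : Tr := Tr.n Dt.none a1087 a1097 a1105

def a1107 : Tr := (xT (xE (xE (xE (xET (xT (xT (xF (xE (xT (xF (xE (xF (xF (xL (Dt.split 64 9 66
  62))))))))))) (xE (xT (xE (xF (xT (xF (xE (xF (xF (xL (Dt.step 64 0 1321))))))))))))))))

def a1108 : Tr := Tr.n Dt.none a1062 a1106 a1107

def a1109 : Tr := (Tr.n (Dt.step 71 2 0) Tr.z (Tr.n Dt.none (xT (xF (xT (xF (xF (xE (xF (xL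
  (Dt.step 64 0 299))))))))) (xEF (xF (xF (xF (xEF (xF (xF (xL (Dt.split 64 8 71 57)))) (xE (xF
  (xL (Dt.split 65 8 71 58)))))))) (xE (xF (xEF (xF (xF (xF (xL (Dt.split 64 8 71 57))))) (xE (xF
  (xF (xL (Dt.split 65 8 71 58))))))))) (xET (Tr.n (Dt.step 65 2 9) Tr.z (xT (xF (xF (xE (xF (xL
  (Dt.split 64 11 65 63))))))) Tr.z) (xF (xEF (xT (xF (xF (xE (xF (xL (Dt.step 64 0 3529)))))))
  (xEF (xT (xF (xE (xF (xL (Dt.step 64 0 3561)))))) (xE (xT (xE (xF (xL (Dt.step 64 0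
  105))))))))))) Tr.z)

def a1110 : Tr := (xT (xEF (xF (xF (xEF (xF (xF (xF (xL (Dt.step 64 0 264))))) (xE (xF (xF (xL
  (Dt.step 65 7 264)))))))) (xT (xEF (xF (xF (xF (xE (xF (xL (Dt.step 64 0 8458))))))) (xEF (xEF
  (xF (xF (xF (xL (Dt.step 64 0 266))))) (xEF (xF (xF (xL (Dt.step 64 0 8458)))) (xE (xF (xL
  (Dt.step 65 7 8458)))))) (xE (xE (xF (xF (xL (Dt.step 65 7 266)))))))))))

def a1111 : Tr := (xF (xEF (xT (xF (xF (xEF (xF (xF (xL (Dt.split 64 7 71 57)))) (xE (xF (xL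
  (Dt.split 65 7 71 58)))))))) (xEF (xT (xF (xEF (xF (xF (xL (Dt.split 64 7 70 58)))) (xE (xF (xL
  (Dt.split 65 7 70 59))))))) (xEF (xT (xF (xE (xF (xL (Dt.split 65 7 70 59)))))) (xE (xEF (xT (xF
  (xL (Dt.split 64 7 71 57)))) (xE (xL (Dt.split 64 7 70 58)))))))))

def a1112 : Tr := (xE (Tr.n Dt.none (xT (xF (xEF (xF (xF (xF (xL (Dt.split 64 7 71 57))))) (xEF
  (xF (xF (xL (Dt.split 65 7 71 58)))) (xE (xF (xL (Dt.split 64 7 69 59)))))))) (xEF (xEF (xF (xF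
  (xF (xF (xL (Dt.split 64 7 71 57)))))) (xEF (xF (xF (xF (xL (Dt.split 64 7 71 57))))) (xE (xF
  (xF (xL (Dt.split 64 7 71 57))))))) (xE (xE (xF (xF (xF (xL (Dt.split 64 7 70 58)))))))) (xEF
  (xT (xEF (xF (xF (xF (xL (Dt.split 64 7 71 57))))) (xE (xF (xF (xL (Dt.split 65 7 70 59)))))))
  (xE (Tr.n Dt.none (xT (xF (xF (xL (Dt.split 64 7 71 57))))) (xE (xF (xF (xL (Dt.split 65 7 71
  58))))) (xEF (xT (xF (xL (Dt.split 64 7 71 57)))) (xE (xL (Dt.split 64 7 70 58)))))))))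

def a1113 : Tr := Tr.n Dt.none a1111 Tr.z a1112

def a1114 : Tr := (xEF (Tr.n (Dt.step 69 2 8) (Tr.n (Dt.step 65 2 3) Tr.z Tr.z (xL (Dt.step 65 2
  104))) (xT (xEF (xF (xF (xF (xE (xF (xL (Dt.split 64 10 69 59))))))) (xEF (xEF (xF (xF (xF (xL
  (Dt.step 64 0 104))))) (xEF (xF (xF (xL (Dt.split 64 10 69 59)))) (xE (xF (xL (Dt.split 65 10 69
  60)))))) (xE (xE (xF (xF (xL (Dt.split 65 10 69 60))))))))) (xE (xL (Dt.step 66 2 99)))) (xE (xE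
  (xL (Dt.step 65 2 8)))))

def a1115 : Tr := Tr.n Dt.none a1110 a1113 a1114

def a1116 : Tr := (Tr.n (Dt.step 66 2 3) (xL (Dt.step 64 0 3)) (Tr.n Dt.none (Tr.n (Dt.step 65 9
  3) Tr.z (xF (xT (xF (xF (xF (xE (xL (Dt.step 64 0 394)))))))) Tr.z) (xF (Tr.n Dt.none (xT (xF
  (xEF (xF (xF (xL (Dt.split 64 9 66 62)))) (xE (xF (xL (Dt.split 64 9 65 63))))))) (xE (xF (xF
  (xE (xF (xL (Dt.split 64 9 66 62))))))) (xEF (xT (xF (xE (xF (xL (Dt.split 64 9 65 63)))))) (xE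
  (xT (xE (xF (xL (Dt.split 64 9 66 62))))))))) (xE (Tr.n (Dt.step 64 0 99) Tr.z (xT (xF (xF (xF
  (xE (xL (Dt.split 64 12 64 64))))))) Tr.z))) Tr.z)

def a1117 : Tr := (Tr.n Dt.none (Tr.n (Dt.step 64 0 3) Tr.z (xTF (xF (xF (xF (xF (xE (xL (Dt.split
  64 11 64 64))))))) (xT (xF (xF (xE (xF (xL (Dt.step 64 0 9603)))))))) Tr.z) (Tr.n Dt.none (xTF
  (xF (xF (xF (xE (xF (xL (Dt.step 64 0 11555))))))) (xT (xF (xE (xF (xF (xL (Dt.step 64 0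
  11555)))))))) (xEF (xF (xF (xE (xF (xF (xL (Dt.step 64 0 12675))))))) (xE (xE (xF (xF (xF (xL
  (Dt.step 64 0 393)))))))) (xE (xT (xE (xF (xF (xF (xL (Dt.step 64 0 9577))))))))) (xE (Tr.n
  (Dt.step 65 8 99) Tr.z (xT (xF (xF (xE (xF (xL (Dt.split 64 12 65 63))))))) Tr.z)))

def a1118 : Tr := (xE (xT (xE (xF (xE (xF (xF (xF (xL (Dt.step 64 0 10570))))))))))

def a1119 : Tr := (xE (xET (Tr.n (Dt.step 66 2 3) Tr.z (xT (xF (xE (xF (xF (xL (Dt.split 64 12 66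
  62))))))) Tr.z) (xE (xT (xE (xF (xF (xF (xL (Dt.step 64 0 387))))))))))

def a1120 : Tr := Tr.n Dt.none a1117 a1118 a1119

def a1121 : Tr := Tr.n Dt.none a1116 a1120 Tr.z

def a1122 : Tr := Tr.n (Dt.step 71 2 0) a1109 a1115 a1121

def a1123 : Tr := (xT (xF (xT (xEF (xF (xF (xE (xF (xF (xL (Dt.step 64 0 7402))))))) (xE (xE (xF
  (xF (xF (xL (Dt.step 64 0 234)))))))))))

def a1124 : Tr := (xEF (xTF (xF (xE (xF (xE (xF (xF (xF (xL (Dt.step 64 0 9515))))))))) (Tr.n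
  Dt.none (xT (xF (xEF (xF (xF (xF (xL (Dt.step 64 0 7591))))) (xE (xF (xF (xL (Dt.step 65 6
  7591)))))))) (xE (xE (xF (xF (xF (xF (xL (Dt.step 64 0 391)))))))) (xEF (xT (xEF (xF (xF (xF (xL
  (Dt.step 64 0 231))))) (xE (xF (xF (xL (Dt.step 65 6 7623))))))) (xE (Tr.n Dt.none (xT (xF (xF
  (xL (Dt.step 64 0 519))))) (xE (xF (xF (xL (Dt.step 65 14 231))))) (xEF (xT (xF (xL (Dt.step 64
  0 17639)))) (xE (xL (Dt.step 64 0 231))))))))) (xE (xT (xE (xEF (xF (xF (xF (xF (xL (Dt.step 64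
  0 233)))))) (xE (xF (xF (xF (xL (Dt.step 64 0 7401)))))))))))

def a1125 : Tr := (Tr.n Dt.none (Tr.n (Dt.step 70 6 3) (Tr.n (Dt.step 66 6 3) Tr.z (xT (xF (xF (xE
  (xF (xF (xL (Dt.split 64 11 66 62)))))))) (Tr.n (Dt.step 66 6 227) Tr.z (xT (xF (xE (xF (xF (xL
  (Dt.split 64 12 66 62))))))) Tr.z)) (Tr.n Dt.none (xT (xF (xE (xF (xF (xF (xL (Dt.step 64 0
  11691)))))))) (xEF (xF (xF (xE (xF (xF (xL (Dt.split 64 10 70 58))))))) (xE (xE (xF (xF (xF (xL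
  (Dt.split 64 10 70 58)))))))) (xE (xT (xE (xF (xF (xF (xL (Dt.step 64 0 11623))))))))) Tr.z) (xE
  (xE (xT (xE (xF (xF (xF (xF (xL (Dt.step 64 0 330)))))))))) (xE (xET (Tr.n (Dt.step 66 6 7) Tr.z
  (xT (xF (xE (xF (xF (xL (Dt.split 64 12 66 62))))))) Tr.z) (xE (xT (xE (xF (xF (xF (xL (Dt.step
  64 0 391)))))))))))

def a1126 : Tr := Tr.n Dt.none a1123 a1124 a1125

def a1127 : Tr := (xT (xF (xE (xE (xL (Dt.split 69 6 69 64))))))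

def a1128 : Tr := (Tr.n (Dt.step 64 0 7) (xET (Tr.n (Dt.step 71 2 3) (Tr.n (Dt.step 67 2 3) Tr.z
  (xT (xF (xE (xF (xF (xF (xL (Dt.split 64 11 67 61)))))))) Tr.z) (xET (xT (xE (xF (xF (xF (xF (xL
  (Dt.step 64 0 355)))))))) (xEF (xF (xF (xF (xEF (xF (xL (Dt.split 64 10 69 59))) (xE (xL
  (Dt.split 65 10 69 60))))))) (xE (xE (xF (xF (xF (xL (Dt.split 64 10 70 58))))))))) Tr.z) (xE
  (Tr.n (Dt.step 66 9 3) Tr.z (xE (xEF (xF (xF (xF (xF (xL (Dt.step 64 0 234)))))) (xE (xF (xF (xF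
  (xL (Dt.step 64 0 3402)))))))) Tr.z))) (xT (xF (xE (xE (xE (xL (Dt.step 66 2 3))))))) Tr.z)

def a1129 : Tr := Tr.n Dt.none a1126 a1127 a1128

def a1130 : Tr := (Tr.n (Dt.step 67 2 3) (Tr.n (Dt.step 64 0 3) Tr.z (xT (xF (xT (xF (xF (xF (xE
  (xL (Dt.split 64 10 64 64))))))))) Tr.z) (xT (Tr.n Dt.none (xF (xT (xF (xF (xF (xE (xL (Dt.split
  64 9 65 63)))))))) (xF (xE (xE (xF (xF (xF (xL (Dt.split 64 9 67 61)))))))) (xET (xT (xEF (xF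
  (xF (xF (xL (Dt.split 64 9 67 61))))) (xE (xF (xF (xL (Dt.split 64 9 66 62))))))) (xE (xE (xF
  (xF (xF (xL (Dt.split 65 9 67 62)))))))))) Tr.z)

def a1131 : Tr := (xEF (Tr.n (Dt.step 69 2 3) (Tr.n (Dt.step 67 2 3) Tr.z (xT (xF (xEF (xF (xF (xF
  (xL (Dt.split 64 11 67 61))))) (xE (xF (xF (xL (Dt.split 65 11 67 62)))))))) (xL (Dt.step 65 2
  99))) (xET (xTF (xF (xE (xF (xF (xF (xL (Dt.step 65 10 11563))))))) (xT (xF (xE (xF (xF (xL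
  (Dt.step 64 0 3363)))))))) (xEF (xF (xE (xF (xF (xF (xL (Dt.step 64 0 3372))))))) (xE (xE (xF
  (xF (xF (xL (Dt.step 64 0 387))))))))) Tr.z) (xE (xE (xL (Dt.step 65 2 291)))))

def a1132 : Tr := Tr.n Dt.none a1130 a1131 Tr.z

def a1133 : Tr := (xE (xET (xT (xE (xL (Dt.step 64 0 3)))) (xE (xE (xL (Dt.step 65 9 3))))))

def a1134 : Tr := Tr.n Dt.none a1132 Tr.z a1133

def a1135 : Tr := Tr.n (Dt.step 69 2 0) a1122 a1129 a1134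

def a1136 : Tr := (xEF (Tr.n (Dt.step 70 5 0) (xEF (xT (xF (xT (xE (xF (xE (xF (xF (xF (xL
  (Dt.step 64 0 6346))))))))))) (xE (Tr.n (Dt.step 71 5 6) Tr.z (xT (xE (xF (xE (xF (xF (xF (xL
  (Dt.split 64 10 71 57))))))))) Tr.z))) (xF (xE (xE (xL (Dt.step 65 5 3))))) (xL (Dt.step 65 5
  3))) (xE (xE (xET (xL (Dt.step 67 2 3)) (xE (xL (Dt.step 68 9 3)))))))

def a1137 : Tr := (Tr.n (Dt.step 64 0 3) (xET (Tr.n (Dt.step 66 2 3) Tr.z (xT (xF (xET (xT (xF (xE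
  (xF (xF (xL (Dt.split 64 9 66 62))))))) (xE (xE (xF (xF (xF (xL (Dt.split 64 9 66 62))))))))))
  Tr.z) (xE (xET (Tr.n (Dt.step 68 2 3) Tr.z (xT (xF (xE (xF (xF (xF (xL (Dt.split 65 11 68
  61)))))))) Tr.z) (xET (xTF (xF (xE (xF (xF (xF (xL (Dt.step 64 0 3371))))))) (xT (xF (xE (xF (xF
  (xL (Dt.step 64 0 3363)))))))) (xEF (xF (xF (xE (xF (xF (xL (Dt.step 64 0 3468))))))) (xE (xE
  (xF (xF (xF (xL (Dt.step 64 0 387)))))))))))) (xE (xE (xT (xT (xE (xF (xE (xF (xF (xF (xL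
  (Dt.step 64 0 8456)))))))))))) Tr.z)

def a1138 : Tr := (xE (xE (xE (Tr.n (Dt.step 71 2 3) Tr.z (xT (xE (xEF (xF (xF (xF (xF (xL
  (Dt.step 64 0 236)))))) (xE (xF (xF (xF (xL (Dt.split 64 10 71 57))))))))) Tr.z))))

def a1139 : Tr := Tr.n Dt.none a1137 a1138 Tr.z

def a1140 : Tr := Tr.n Dt.none a1135 a1136 a1139

def a1141 : Tr := (xE (xE (xT (xF (xE (xE (xL (Dt.step 66 4 3))))))))

def a1142 : Tr := (xE (xET (xE (xET (Tr.n (Dt.step 67 2 3) Tr.z (xT (xF (xT (xE (xF (xE (xF (xF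
  (xL (Dt.split 64 9 67 61)))))))))) Tr.z) (xE (xET (Tr.n (Dt.step 67 2 3) Tr.z (xT (xF (xE (xF
  (xF (xF (xL (Dt.split 64 11 67 61)))))))) Tr.z) (xET (xT (xF (xF (xE (xF (xF (xL (Dt.step 64 0
  11563)))))))) (xE (xF (xE (xF (xF (xF (xL (Dt.step 64 0 12396))))))))))))) (xE (xE (xE (xT (xE
  (xT (xE (xF (xF (xF (xF (xL (Dt.step 64 0 363)))))))))))))))

def a1143 : Tr := Tr.n Dt.none a1140 a1141 a1142

def a1144 : Tr := (xE (xE (xE (xE (xET (Tr.n (Dt.step 66 2 0) Tr.z (xT (xF (xT (xE (xE (xF (xF (xF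
  (xL (Dt.split 64 9 66 62)))))))))) Tr.z) (xE (xT (xE (xT (xF (xE (xF (xF (xF (xL (Dt.step 64 0
  361))))))))))))))))

def a1145 : Tr := Tr.n Dt.none a1143 Tr.z a1144

def a1146 : Tr := (xET (xT (xEF (xT (xF (xE (xE (xL (Dt.step 65 6 9)))))) (xET (xT (xE (xE (xL
  (Dt.step 65 6 7))))) (xE (xE (xE (xL (Dt.step 66 8 7)))))))) (xEF (Tr.n Dt.none (Tr.n Dt.none
  (xT (xF (xE (xL (Dt.step 64 0 10))))) (xF (xE (xE (xL (Dt.step 66 5 6))))) (xET (xT (xE (xL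
  (Dt.step 64 0 11)))) (xE (xE (xL (Dt.step 65 9 6)))))) (xF (xE (xE (xE (xL (Dt.step 66 7 8))))))
  (xE (xE (xE (xL (Dt.step 64 0 6)))))) (xE (xET (xE (xE (xL (Dt.step 65 5 6)))) (xE (xE (xE (xL
  (Dt.step 66 5 6)))))))))

def a1147 : Tr := (xEF (xEF (Tr.n Dt.none (Tr.n Dt.none (xTF (xTF (xE (xF (xT (xF (xE (xF (xF (xL
  (Dt.split 64 9 67 61))))))))) (xE (xL (Dt.step 65 4 5)))) (xT (xE (xL (Dt.step 64 0 11))))) (xF
  (xE (xE (xL (Dt.step 67 4 9))))) (xE (xE (xL (Dt.step 64 0 5))))) (xF (xE (xE (Tr.n (Dt.step 64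
  0 5) (xL (Dt.step 67 4 8)) Tr.z Tr.z)))) (xE (xET (xET (xL (Dt.step 65 4 5)) (xE (xL (Dt.step 66
  10 11)))) (xE (xE (xL (Dt.step 67 9 10))))))) (xE (xET (xE (xET (xL (Dt.step 66 4 5)) (xE (xL
  (Dt.step 67 10 5))))) (xE (xE (xE (xL (Dt.step 67 4 5)))))))) (xEF (xEF (xE (xE (xE (xL (Dt.step
  65 4 5))))) (xF (xE (xL (Dt.step 60 0 5))))) (xEF (xF (xE (xL (Dt.step 61 0 5)))) (xE (xE (xL
  (Dt.step 62 0 5)))))))

def a1148 : Tr := Tr.n Dt.none a1146 a1147 Tr.z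

def a1149 : Tr := (Tr.n Dt.none (xET (xT (xF (xL (Dt.step 64 0 4)))) (Tr.n Dt.none (xTF (xF (xT
  (xF (xF (xF (xE (xL (Dt.step 64 0 12)))))))) (xL (Dt.step 65 9 4))) (xET (xF (xT (xF (xE (xF (xF
  (xL (Dt.split 64 9 67 61)))))))) (xF (xE (xE (xF (xF (xF (xL (Dt.split 64 9 67 61))))))))) (xE
  (Tr.n (Dt.step 66 3 10) Tr.z (xT (xF (xF (xF (xE (xL (Dt.split 64 12 64 64))))))) Tr.z)))) (xEF
  (xEF (xTF (xF (xT (xF (xF (xEF (xF (xL (Dt.step 64 0 300))) (xE (xL (Dt.step 65 8 12)))))))) (xL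
  (Dt.step 66 8 9))) (xE (Tr.n (Dt.step 67 8 4) Tr.z (xT (xF (xF (xEF (xF (xL (Dt.split 64 12 65
  63))) (xE (xL (Dt.split 65 12 65 64))))))) Tr.z))) (xE (xE (xL (Dt.step 66 3 9))))) (xE (xET (xL
  (Dt.step 65 3 4)) (xE (xL (Dt.step 66 10 4))))))

def a1150 : Tr := (xEF (xEF (Tr.n Dt.none (xTF (xF (xT (xF (xEF (xF (xF (xL (Dt.step 64 0 268))))
  (xE (xF (xL (Dt.step 65 7 268)))))))) (Tr.n (Dt.step 67 7 8) Tr.z (xT (xF (xE (xF (xF (xL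
  (Dt.split 64 12 66 62))))))) Tr.z)) (xF (xE (xT (xE (xF (xF (xF (xL (Dt.step 64 0 363)))))))))
  (xE (Tr.n (Dt.step 66 7 8) Tr.z (xT (xF (xEF (xF (xF (xL (Dt.split 64 12 66 62)))) (xE (xF (xL
  (Dt.split 65 12 66 63))))))) Tr.z))) (xE (Tr.n (Dt.step 64 0 4) (Tr.n (Dt.step 67 7 4) Tr.z (xT
  (xF (xE (xF (xF (xL (Dt.split 64 12 66 62))))))) Tr.z) (xE (xT (xE (xF (xF (xF (xL (Dt.step 64 0
  396)))))))) Tr.z))) (xE (xE (xE (Tr.n (Dt.step 67 3 8) Tr.z (xT (xE (xF (xF (xF (xL (Dt.split 64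
  12 67 61))))))) Tr.z)))))

def a1151 : Tr := (xE (xT (xE (xE (xL (Dt.step 66 3 10))))))

def a1152 : Tr := Tr.n Dt.none a1149 a1150 a1151

def a1153 : Tr := (xE (xE (xE (xEF (xT (xF (xT (xF (xE (xF (xF (xL (Dt.step 65 6 236))))))))) (xE
  (Tr.n (Dt.step 67 6 7) Tr.z (xT (xF (xE (xF (xF (xL (Dt.split 65 12 67 62))))))) Tr.z))))))

def a1154 : Tr := (xEF (xET (xE (xT (xE (xL (Dt.step 66 3 11))))) (xE (xE (xE (xL (Dt.step 67 3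
  9)))))) (xF (xE (xL (Dt.step 60 0 4)))))

def a1155 : Tr := Tr.n Dt.none a1152 a1153 a1154

def a1156 : Tr := (xE (xE (xE (xET (xET (xL (Dt.step 66 3 4)) (xE (xL (Dt.step 66 10 4)))) (xE (xE
  (xL (Dt.step 67 9 4))))))))

def a1157 : Tr := Tr.n Dt.none a1155 Tr.z a1156

def a1158 : Tr := Tr.n Dt.none a1157 Tr.z Tr.z

def a1159 : Tr := Tr.n Dt.none a1148 a1158 Tr.z

def a1160 : Tr := Tr.n Dt.none a1108 a1145 a1159

def a1161 : Tr := Tr.n Dt.none a369 a1028 a1160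

def a1162 : Tr := Tr.n Dt.none a139 a1161 Tr.z

def rt : Tr := a1162

end Pool.Agent.Helper807.TF
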