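import Mathlib

/-!
# Toads and Frogs: game forms, normal play, positions

Definitions used in the statement about the positions `T^a E^a F^(a-1)` (E an empty square).
-/

set_option autoImplicit false
set_option linter.unnecessarySeqFocus false

namespace Pool.Agent.Helper807.TF

/-- A partizan game: `L a` are the options of Left, `R b` the options of Right. -/
inductive Gm : Type 1
  | mk (α β : Type) (L : α → Gm) (R : β → Gm) : Gm

namespace Gm

/-- The negative `-G`: the two players exchange their roles. -/
def neg : Gm → Gm
  | mk α β L R => mk β α (fun b => neg (R b)) (fun a => neg (L a))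

/-- The disjunctive sum `G + H`: a move is a move in exactly one of the two components, that is
`G + H = {G^L + H, G + H^L | G^R + H, G + H^R}`, see `add_mk`. -/
noncomputable def add (G : Gm) : Gm → Gm :=
  Gm.rec (motive := fun _ => Gm → Gm)
    (fun α β _ _ addL addR H =>
      Gm.rec (motive := fun _ => Gm)
        (fun γ δ L' R' gL gR =>
          mk (α ⊕ γ) (β ⊕ δ)
            (Sum.elim (fun a => addL a (mk γ δ L' R')) gL)
            (Sum.elim (fun b => addR b (mk γ δ L' R')) gR))
        H) G

/-- The recursion for the sum. -/
theorem add_mk (α β γ δ : Type) (L : α → Gm) (R : β → Gm) (L' : γ → Gm) (R' : δ → Gm) :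
    add (mk α β L R) (mk γ δ L' R') = mk (α ⊕ γ) (β ⊕ δ)
      (Sum.elim (fun a => add (L a) (mk γ δ L' R')) (fun c => add (mk α β L R) (L' c)))
      (Sum.elim (fun b => add (R b) (mk γ δ L' R')) (fun d => add (mk α β L R) (R' d))) := rfl

/-- Normal play (a player who cannot move loses). `(wins G).1`: Left, moving first, wins `G`;
`(wins G).2`: Right, moving first, wins `G`. -/
def wins : Gm → Prop × Prop
  | mk _ _ L R => (∃ a, ¬ (wins (L a)).2, ∃ b, ¬ (wins (R b)).1)

/-- `G` is a second-player win. -/
def SecondWins (G : Gm) : Prop := ¬ (wins G).1 ∧ ¬ (wins G).2

/-- Equality of values: `G = H` when `G - H` is a second-player win. -/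
def Eqv (G H : Gm) : Prop := SecondWins (add G (neg H))

/-- `0 = { | }` -/
def zero : Gm := mk Empty Empty Empty.elim Empty.elim

/-- `1 = {0 | }` -/
def one : Gm := mk Unit Empty (fun _ => zero) Empty.elim

/-- `1* = {1 | 1}` -/
def oneStar : Gm := mk Unit Unit (fun _ => one) (fun _ => one)

end Gm

/-- A square of the strip. -/
inductive Cell
  | toad
  | frog
  | empty

open Cell

/-- The moves of Left on a strip, read from left to right: a toad steps right onto an empty square,
or jumps right over one frog onto the empty square immediately beyond. -/
inductive LeftMove : List Cell → List Cell → Prop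
  | step (v : List Cell) : LeftMove (toad :: empty :: v) (empty :: toad :: v)
  | jump (v : List Cell) : LeftMove (toad :: frog :: empty :: v) (empty :: frog :: toad :: v)
  | cons (c : Cell) {v w : List Cell} : LeftMove v w → LeftMove (c :: v) (c :: w)

/-- The moves of Right: a frog steps left onto an empty square, or jumps left over one toad onto
the empty square immediately beyond. -/
inductive RightMove : List Cell → List Cell → Prop
  | step (v : List Cell) : RightMove (empty :: frog :: v) (frog :: empty :: v)
  | jump (v : List Cell) : RightMove (empty :: toad :: frog :: v) (frog :: toad :: empty :: v)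
  | cons (c : Cell) {v w : List Cell} : RightMove v w → RightMove (c :: v) (c :: w)

/-- the number of frogs -/
def frogs : List Cell → ℕ
  | [] => 0
  | frog :: v => frogs v + 1
  | toad :: v => frogs v
  | empty :: v => frogs v

/-- the sum over the toads of the number of squares to their right and over the frogs of the
number of squares to their left; it drops with every move -/
def pot : List Cell → ℕ
  | [] => 0
  | toad :: v => pot v + frogs v + v.length
  | frog :: v => pot v + frogs v
  | empty :: v => pot v + frogs v

theorem LeftMove.inv {v w : List Cell} (h : LeftMove v w) :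
    frogs w = frogs v ∧ w.length = v.length ∧ pot w < pot v := by
  induction h with
  | step v => refine ⟨?_, ?_, ?_⟩ <;> simp only [frogs, pot, List.length_cons] <;> omega
  | jump v => refine ⟨?_, ?_, ?_⟩ <;> simp only [frogs, pot, List.length_cons] <;> omega
  | cons c h ih =>
    obtain ⟨h1, h2, h3⟩ := ih
    refine ⟨?_, ?_, ?_⟩ <;> cases c <;> simp only [frogs, pot, List.length_cons] <;> omega

theorem RightMove.inv {v w : List Cell} (h : RightMove v w) :
    frogs w = frogs v ∧ w.length = v.length ∧ pot w < pot v := by
  induction h with
  | step v => refine ⟨?_, ?_, ?_⟩ <;> simp only [frogs, pot, List.length_cons] <;> omega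
  | jump v => refine ⟨?_, ?_, ?_⟩ <;> simp only [frogs, pot, List.length_cons] <;> omega
  | cons c h ih =>
    obtain ⟨h1, h2, h3⟩ := ih
    refine ⟨?_, ?_, ?_⟩ <;> cases c <;> simp only [frogs, pot, List.length_cons] <;> omega

/-- The game of a position: the options are the positions after one move. -/
noncomputable def value (P : List Cell) : Gm :=
  Gm.mk {Q : List Cell // LeftMove P Q} {Q : List Cell // RightMove P Q}
    (fun Q => value Q.1) (fun Q => value Q.1)
termination_by pot P
decreasing_by
  · exact Q.2.inv.2.2
  · exact Q.2.inv.2.2

/-- The position `T^a E^a F^(a-1)`: `a` toads, `a` empty squares, `a - 1` frogs. -/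
def start (a : ℕ) : List Cell :=
  List.replicate a toad ++ List.replicate a empty ++ List.replicate (a - 1) frog

end Pool.Agent.Helper807.TF
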