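import Pool.Agent.Helper807.TF.Check

/-!
# Toads and Frogs: the bounds `Ge P 0`, `Ge P 1` and the values of positions
-/

set_option autoImplicit false

namespace Pool.Agent.Helper807.TF

open Cell Gm

theorem value_eq (P : List Cell) : value P =
    Gm.mk {Q : List Cell // LeftMove P Q} {Q : List Cell // RightMove P Q}
      (fun Q => value Q.1) (fun Q => value Q.1) := by
  rw [value]

theorem wins1_add (P : List Cell) (γ δ : Type) (L' : γ → Gm) (R' : δ → Gm) :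
    (wins (add (value P) (mk γ δ L' R'))).1 ↔
      (∃ Q, LeftMove P Q ∧ ¬ (wins (add (value Q) (mk γ δ L' R'))).2) ∨
      (∃ c, ¬ (wins (add (value P) (L' c))).2) := by
  have hv := value_eq P
  generalize value P = G at hv ⊢
  subst hv
  rw [add_mk]
  simp only [wins]
  constructor
  · rintro ⟨a | c, h⟩
    · exact Or.inl ⟨a.1, a.2, h⟩
    · exact Or.inr ⟨c, h⟩
  · rintro (⟨Q, hQ, h⟩ | ⟨c, h⟩)
    · exact ⟨Sum.inl ⟨Q, hQ⟩, h⟩
    · exact ⟨Sum.inr c, h⟩

theorem wins2_add (P : List Cell) (γ δ : Type) (L' : γ → Gm) (R' : δ → Gm) :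
    (wins (add (value P) (mk γ δ L' R'))).2 ↔
      (∃ Q, RightMove P Q ∧ ¬ (wins (add (value Q) (mk γ δ L' R'))).1) ∨
      (∃ d, ¬ (wins (add (value P) (R' d))).1) := by
  have hv := value_eq P
  generalize value P = G at hv ⊢
  subst hv
  rw [add_mk]
  simp only [wins]
  constructor
  · rintro ⟨a | c, h⟩
    · exact Or.inl ⟨a.1, a.2, h⟩
    · exact Or.inr ⟨c, h⟩
  · rintro (⟨Q, hQ, h⟩ | ⟨c, h⟩)
    · exact ⟨Sum.inl ⟨Q, hQ⟩, h⟩
    · exact ⟨Sum.inr c, h⟩

theorem neg_zero_eq : neg zero = mk Empty Empty (fun b => neg (Empty.elim b))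
    (fun a => neg (Empty.elim a)) := rfl

theorem neg_one_eq : neg one = mk Empty Unit (fun b => neg (Empty.elim b))
    (fun _ => neg zero) := rfl

theorem neg_oneStar_eq : neg oneStar = mk Unit Unit (fun _ => neg one) (fun _ => neg one) := rfl

theorem link0 (n : ℕ) : ∀ P : List Cell, pot P ≤ n → Ge P 0 →
    ¬ (wins (add (value P) (neg zero))).2 := by
  induction n using Nat.strong_induction_on with
  | _ n ih =>
  intro P hn h
  rw [neg_zero_eq, wins2_add, ← neg_zero_eq]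
  rintro (⟨Q, hQ, h1⟩ | ⟨d, h1⟩)
  · apply h1
    have hp := hQ.inv.2.2
    rw [neg_zero_eq, wins1_add, ← neg_zero_eq]
    rcases ((ge_iff _ _).1 h).1 Q hQ with ⟨Q', h2, h3⟩ | ⟨h2, h3⟩
    · have hq := h2.inv.2.2
      exact Or.inl ⟨Q', h2, ih (pot Q') (by omega) Q' le_rfl h3⟩
    · omega
  · exact d.elim

theorem link1 (n : ℕ) : ∀ P : List Cell, pot P ≤ n → Ge P 1 →
    ¬ (wins (add (value P) (neg one))).2 := by
  induction n using Nat.strong_induction_on with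
  | _ n ih =>
  intro P hn h
  rw [neg_one_eq, wins2_add, ← neg_one_eq]
  rintro (⟨Q, hQ, h1⟩ | ⟨d, h1⟩)
  · apply h1
    have hp := hQ.inv.2.2
    rw [neg_one_eq, wins1_add, ← neg_one_eq]
    rcases ((ge_iff _ _).1 h).1 Q hQ with ⟨Q', h2, h3⟩ | ⟨h2, h3⟩
    · have hq := h2.inv.2.2
      exact Or.inl ⟨Q', h2, ih (pot Q') (by omega) Q' le_rfl h3⟩
    · omega
  · apply h1
    rw [neg_zero_eq, wins1_add, ← neg_zero_eq]
    obtain ⟨Q, h2, h3⟩ := ((ge_iff _ _).1 h).2 (by omega)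
    exact Or.inl ⟨Q, h2, link0 _ Q le_rfl h3⟩

/-- If `P ≥ 1` and some option of Left from `P` is `≥ 1` then `P` is neither `1` nor `1*`. -/
theorem not_one {P Q : List Cell} (h : Ge P 1) (hQ : LeftMove P Q) (h' : Ge Q 1) :
    ¬ Eqv (value P) one ∧ ¬ Eqv (value P) oneStar := by
  refine ⟨fun h1 => h1.1 ?_, fun h1 => h1.1 ?_⟩
  · rw [neg_one_eq, wins1_add, ← neg_one_eq]
    exact Or.inl ⟨Q, hQ, link1 _ Q le_rfl h'⟩
  · rw [neg_oneStar_eq, wins1_add]
    exact Or.inr ⟨(), link1 _ P le_rfl h⟩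

end Pool.Agent.Helper807.TF
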