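import Pool.Agent.Helper807.TF.Data

/-!
# Toads and Frogs: checks
-/

set_option autoImplicit false

namespace Pool.Agent.Helper807.TF

open Cell

theorem ok_a570 : chk rt a570 [empty, frog, empty, empty, empty, toad, empty, toad, toad, toad] = true := by decide +kernel

theorem ok_a571 : chk rt a571 [toad, frog, empty, empty, empty, toad, empty, toad, toad, toad] = true := by decide +kernel

theorem ok_a574 : chk rt a574 [empty, toad, empty, empty, toad, empty, toad, toad, toad] = true := by decide +kernel

theorem ok_a575 : chk rt a575 [empty, empty, frog, toad, empty, empty, toad, empty, toad, toad, toad] = true := by decide +kernel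

theorem ok_a576 : chk rt a576 [toad, empty, frog, toad, empty, empty, toad, empty, toad, toad, toad] = true := by decide +kernel

theorem ok_a577 : chk rt a577 [frog, empty, frog, toad, empty, empty, toad, empty, toad, toad, toad] = true := by decide +kernel

theorem ok_a579 : chk rt a579 [toad, frog, toad, empty, empty, toad, empty, toad, toad, toad] = true := by decide +kernel

theorem ok_a580 : chk rt a580 [frog, frog, toad, empty, empty, toad, empty, toad, toad, toad] = true := by decide +kernel

theorem ok_a583 : chk rt a583 [empty, empty, frog, empty, empty, toad, empty, toad, toad, toad] = true := by decide +kernel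

theorem ok_a584 : chk rt a584 [empty, toad, empty, frog, empty, empty, toad, empty, toad, toad, toad] = true := by decide +kernel

theorem ok_a585 : chk rt a585 [empty, toad, toad, empty, frog, empty, empty, toad, empty, toad, toad, toad] = true := by decide +kernel

theorem ok_a586 : chk rt a586 [toad, toad, toad, empty, frog, empty, empty, toad, empty, toad, toad, toad] = true := by decide +kernel

theorem ok_a587 : chk rt a587 [empty, frog, toad, toad, empty, frog, empty, empty, toad, empty, toad, toad, toad] = true := by decide +kernel

theorem ok_a588 : chk rt a588 [toad, frog, toad, toad, empty, frog, empty, empty, toad, empty, toad, toad, toad] = true := by decide +kernel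

theorem ok_a589 : chk rt a589 [empty, frog, frog, toad, toad, empty, frog, empty, empty, toad, empty, toad, toad, toad] = true := by decide +kernel

theorem ok_a590 : chk rt a590 [toad, frog, frog, toad, toad, empty, frog, empty, empty, toad, empty, toad, toad, toad] = true := by decide +kernel

theorem ok_a591 : chk rt a591 [frog, frog, frog, toad, toad, empty, frog, empty, empty, toad, empty, toad, toad, toad] = true := by decide +kernel

theorem ok_a595 : chk rt a595 [frog, toad, empty, frog, empty, empty, toad, empty, toad, toad, toad] = true := by decide +kernel

theorem ok_a598 : chk rt a598 [empty, empty, toad, frog, empty, empty, toad, empty, toad, toad, toad] = true := by decide +kernel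

theorem ok_a599 : chk rt a599 [empty, toad, empty, toad, frog, empty, empty, toad, empty, toad, toad, toad] = true := by decide +kernel

theorem ok_a600 : chk rt a600 [toad, toad, empty, toad, frog, empty, empty, toad, empty, toad, toad, toad] = true := by decide +kernel

theorem ok_a601 : chk rt a601 [frog, toad, empty, toad, frog, empty, empty, toad, empty, toad, toad, toad] = true := by decide +kernel

theorem ok_a604 : chk rt a604 [frog, toad, frog, empty, empty, toad, empty, toad, toad, toad] = true := by decide +kernel

theorem ok_a606 : chk rt a606 [frog, frog, empty, empty, toad, empty, toad, toad, toad] = true := by decide +kernel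

theorem ok_a609 : chk rt a609 [empty, toad, empty, toad, empty, toad, toad, toad] = true := by decide +kernel

theorem ok_a610 : chk rt a610 [toad, toad, empty, toad, empty, toad, toad, toad] = true := by decide +kernel

theorem ok_a611 : chk rt a611 [frog, toad, empty, toad, empty, toad, toad, toad] = true := by decide +kernel

theorem ok_a613 : chk rt a613 [empty, empty, empty, frog, empty, toad, empty, toad, toad, toad] = true := by decide +kernel

theorem ok_a614 : chk rt a614 [empty, toad, empty, empty, frog, empty, toad, empty, toad, toad, toad] = true := by decide +kernel

theorem ok_a615 : chk rt a615 [empty, toad, toad, empty, empty, frog, empty, toad, empty, toad, toad, toad] = true := by decide +kernel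

theorem ok_a616 : chk rt a616 [toad, toad, toad, empty, empty, frog, empty, toad, empty, toad, toad, toad] = true := by decide +kernel

theorem ok_a617 : chk rt a617 [frog, toad, toad, empty, empty, frog, empty, toad, empty, toad, toad, toad] = true := by decide +kernel

theorem ok_a619 : chk rt a619 [frog, toad, empty, empty, frog, empty, toad, empty, toad, toad, toad] = true := by decide +kernel

theorem ok_a621 : chk rt a621 [frog, empty, empty, frog, empty, toad, empty, toad, toad, toad] = true := by decide +kernel

theorem ok_a623 : chk rt a623 [empty, empty, toad, empty, frog, empty, toad, empty, toad, toad, toad] = true := by decide +kernel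

theorem ok_a624 : chk rt a624 [empty, toad, empty, toad, empty, frog, empty, toad, empty, toad, toad, toad] = true := by decide +kernel

theorem ok_a625 : chk rt a625 [toad, toad, empty, toad, empty, frog, empty, toad, empty, toad, toad, toad] = true := by decide +kernel

theorem ok_a626 : chk rt a626 [frog, toad, empty, toad, empty, frog, empty, toad, empty, toad, toad, toad] = true := by decide +kernel

theorem ok_a628 : chk rt a628 [frog, empty, toad, empty, frog, empty, toad, empty, toad, toad, toad] = true := by decide +kernel

theorem ok_a630 : chk rt a630 [toad, toad, empty, frog, empty, toad, empty, toad, toad, toad] = true := by decide +kernel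

theorem ok_a631 : chk rt a631 [frog, toad, empty, frog, empty, toad, empty, toad, toad, toad] = true := by decide +kernel

theorem ok_a633 : chk rt a633 [frog, empty, frog, empty, toad, empty, toad, toad, toad] = true := by decide +kernel

theorem ok_a635 : chk rt a635 [toad, frog, empty, toad, empty, toad, toad, toad] = true := by decide +kernel

theorem ok_a636 : chk rt a636 [empty, frog, frog, empty, toad, empty, toad, toad, toad] = true := by decide +kernel

theorem ok_a637 : chk rt a637 [toad, frog, frog, empty, toad, empty, toad, toad, toad] = true := by decide +kernel

theorem ok_a641 : chk rt a641 [toad, toad, empty, toad, toad, toad] = true := by decide +kernel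

theorem ok_a642 : chk rt a642 [empty, empty, empty, empty, frog, toad, empty, toad, toad, toad] = true := by decide +kernel

theorem ok_a643 : chk rt a643 [empty, toad, empty, empty, empty, frog, toad, empty, toad, toad, toad] = true := by decide +kernel

theorem ok_a644 : chk rt a644 [empty, toad, toad, empty, empty, empty, frog, toad, empty, toad, toad, toad] = true := by decide +kernel

theorem ok_a645 : chk rt a645 [toad, toad, toad, empty, empty, empty, frog, toad, empty, toad, toad, toad] = true := by decide +kernel

theorem ok_a646 : chk rt a646 [frog, toad, toad, empty, empty, empty, frog, toad, empty, toad, toad, toad] = true := by decide +kernel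

theorem ok_a648 : chk rt a648 [frog, toad, empty, empty, empty, frog, toad, empty, toad, toad, toad] = true := by decide +kernel

theorem ok_a650 : chk rt a650 [frog, empty, empty, empty, frog, toad, empty, toad, toad, toad] = true := by decide +kernel

theorem ok_a652 : chk rt a652 [empty, empty, toad, empty, empty, frog, toad, empty, toad, toad, toad] = true := by decide +kernel

theorem ok_a653 : chk rt a653 [empty, toad, empty, toad, empty, empty, frog, toad, empty, toad, toad, toad] = true := by decide +kernel

theorem ok_a654 : chk rt a654 [toad, toad, empty, toad, empty, empty, frog, toad, empty, toad, toad, toad] = true := by decide +kernel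

theorem ok_a655 : chk rt a655 [frog, toad, empty, toad, empty, empty, frog, toad, empty, toad, toad, toad] = true := by decide +kernel

theorem ok_a657 : chk rt a657 [frog, empty, toad, empty, empty, frog, toad, empty, toad, toad, toad] = true := by decide +kernel

theorem ok_a659 : chk rt a659 [toad, toad, empty, empty, frog, toad, empty, toad, toad, toad] = true := by decide +kernel

theorem ok_a660 : chk rt a660 [empty, empty, frog, toad, empty, empty, frog, toad, empty, toad, toad, toad] = true := by decide +kernel

theorem ok_a661 : chk rt a661 [toad, empty, frog, toad, empty, empty, frog, toad, empty, toad, toad, toad] = true := by decide +kernel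

theorem ok_a662 : chk rt a662 [frog, empty, frog, toad, empty, empty, frog, toad, empty, toad, toad, toad] = true := by decide +kernel

theorem ok_a666 : chk rt a666 [frog, empty, empty, frog, toad, empty, toad, toad, toad] = true := by decide +kernel

theorem ok_a668 : chk rt a668 [empty, empty, toad, empty, frog, toad, empty, toad, toad, toad] = true := by decide +kernel

theorem ok_a669 : chk rt a669 [frog, empty, toad, empty, frog, toad, empty, toad, toad, toad] = true := by decide +kernel

theorem ok_a671 : chk rt a671 [frog, toad, empty, frog, toad, empty, toad, toad, toad] = true := by decide +kernel

theorem ok_a673 : chk rt a673 [frog, empty, frog, toad, empty, toad, toad, toad] = true := by decide +kernel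

theorem ok_a675 : chk rt a675 [toad, frog, toad, empty, toad, toad, toad] = true := by decide +kernel

theorem ok_a676 : chk rt a676 [frog, frog, toad, empty, toad, toad, toad] = true := by decide +kernel

theorem ok_a679 : chk rt a679 [empty, empty, empty, frog, empty, toad, toad, toad] = true := by decide +kernel

theorem ok_a680 : chk rt a680 [empty, toad, empty, empty, frog, empty, toad, toad, toad] = true := by decide +kernel

theorem ok_a681 : chk rt a681 [toad, toad, empty, empty, frog, empty, toad, toad, toad] = true := by decide +kernel

theorem ok_a684 : chk rt a684 [empty, empty, toad, empty, frog, empty, toad, toad, toad] = true := by decide +kernel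

theorem ok_a685 : chk rt a685 [toad, empty, toad, empty, frog, empty, toad, toad, toad] = true := by decide +kernel

theorem ok_a686 : chk rt a686 [frog, empty, toad, empty, frog, empty, toad, toad, toad] = true := by decide +kernel

theorem ok_a688 : chk rt a688 [toad, toad, empty, frog, empty, toad, toad, toad] = true := by decide +kernel

theorem ok_a689 : chk rt a689 [empty, frog, toad, empty, frog, empty, toad, toad, toad] = true := by decide +kernel

theorem ok_a690 : chk rt a690 [toad, frog, toad, empty, frog, empty, toad, toad, toad] = true := by decide +kernel

theorem ok_a694 : chk rt a694 [empty, empty, empty, toad, frog, empty, toad, toad, toad] = true := by decide +kernel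

theorem ok_a695 : chk rt a695 [toad, empty, empty, toad, frog, empty, toad, toad, toad] = true := by decide +kernel

theorem ok_a696 : chk rt a696 [frog, empty, empty, toad, frog, empty, toad, toad, toad] = true := by decide +kernel

theorem ok_a698 : chk rt a698 [toad, empty, toad, frog, empty, toad, toad, toad] = true := by decide +kernel

theorem ok_a700 : chk rt a700 [frog, toad, frog, empty, toad, toad, toad] = true := by decide +kernel

theorem ok_a702 : chk rt a702 [frog, frog, empty, toad, toad, toad] = true := by decide +kernel

theorem ok_a705 : chk rt a705 [empty, empty, empty, empty, empty, toad, toad, toad, toad] = true := by decide +kernel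

theorem ok_a706 : chk rt a706 [empty, frog, toad, empty, empty, empty, empty, toad, toad, toad, toad] = true := by decide +kernel

theorem ok_a707 : chk rt a707 [toad, frog, toad, empty, empty, empty, empty, toad, toad, toad, toad] = true := by decide +kernel

theorem ok_a708 : chk rt a708 [frog, frog, toad, empty, empty, empty, empty, toad, toad, toad, toad] = true := by decide +kernel

theorem ok_a711 : chk rt a711 [empty, frog, empty, empty, empty, empty, toad, toad, toad, toad] = true := by decide +kernel

theorem ok_a712 : chk rt a712 [empty, toad, frog, empty, empty, empty, empty, toad, toad, toad, toad] = true := by decide +kernel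

theorem ok_a713 : chk rt a713 [toad, toad, frog, empty, empty, empty, empty, toad, toad, toad, toad] = true := by decide +kernel

theorem ok_a714 : chk rt a714 [frog, toad, frog, empty, empty, empty, empty, toad, toad, toad, toad] = true := by decide +kernel

theorem ok_a718 : chk rt a718 [toad, empty, toad, empty, empty, empty, toad, toad, toad, toad] = true := by decide +kernel

theorem ok_a719 : chk rt a719 [empty, frog, empty, toad, empty, empty, empty, toad, toad, toad, toad] = true := by decide +kernel

theorem ok_a720 : chk rt a720 [toad, frog, empty, toad, empty, empty, empty, toad, toad, toad, toad] = true := by decide +kernel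

theorem ok_a721 : chk rt a721 [frog, frog, empty, toad, empty, empty, empty, toad, toad, toad, toad] = true := by decide +kernel

theorem ok_a724 : chk rt a724 [empty, frog, empty, toad, toad, empty, empty, empty, toad, toad, toad, toad] = true := by decide +kernel

theorem ok_a725 : chk rt a725 [toad, frog, empty, toad, toad, empty, empty, empty, toad, toad, toad, toad] = true := by decide +kernel

theorem ok_a726 : chk rt a726 [frog, frog, empty, toad, toad, empty, empty, empty, toad, toad, toad, toad] = true := by decide +kernel

theorem ok_a729 : chk rt a729 [toad, toad, toad, empty, empty, empty, toad, toad, toad, toad] = true := by decide +kernel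

theorem ok_a730 : chk rt a730 [empty, empty, frog, toad, toad, empty, empty, empty, toad, toad, toad, toad] = true := by decide +kernel

theorem ok_a731 : chk rt a731 [toad, empty, frog, toad, toad, empty, empty, empty, toad, toad, toad, toad] = true := by decide +kernel

theorem ok_a732 : chk rt a732 [frog, empty, frog, toad, toad, empty, empty, empty, toad, toad, toad, toad] = true := by decide +kernel

theorem ok_a734 : chk rt a734 [toad, frog, toad, toad, empty, empty, empty, toad, toad, toad, toad] = true := by decide +kernel

theorem ok_a737 : chk rt a737 [empty, empty, frog, toad, empty, empty, empty, toad, toad, toad, toad] = true := by decide +kernel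

theorem ok_a738 : chk rt a738 [empty, toad, empty, frog, toad, empty, empty, empty, toad, toad, toad, toad] = true := by decide +kernel

theorem ok_a739 : chk rt a739 [toad, toad, empty, frog, toad, empty, empty, empty, toad, toad, toad, toad] = true := by decide +kernel

theorem ok_a740 : chk rt a740 [frog, toad, empty, frog, toad, empty, empty, empty, toad, toad, toad, toad] = true := by decide +kernel

theorem ok_a742 : chk rt a742 [frog, empty, frog, toad, empty, empty, empty, toad, toad, toad, toad] = true := by decide +kernel

theorem ok_a744 : chk rt a744 [toad, frog, toad, empty, empty, empty, toad, toad, toad, toad] = true := by decide +kernel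

theorem ok_a745 : chk rt a745 [frog, frog, toad, empty, empty, empty, toad, toad, toad, toad] = true := by decide +kernel

theorem ok_a748 : chk rt a748 [empty, empty, frog, empty, empty, empty, toad, toad, toad, toad] = true := by decide +kernel

theorem ok_a749 : chk rt a749 [empty, toad, empty, frog, empty, empty, empty, toad, toad, toad, toad] = true := by decide +kernel

theorem ok_a750 : chk rt a750 [empty, toad, toad, empty, frog, empty, empty, empty, toad, toad, toad, toad] = true := by decide +kernel

theorem ok_a751 : chk rt a751 [frog, toad, toad, empty, frog, empty, empty, empty, toad, toad, toad, toad] = true := by decide +kernel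

theorem ok_a753 : chk rt a753 [frog, toad, empty, frog, empty, empty, empty, toad, toad, toad, toad] = true := by decide +kernel

theorem ok_a756 : chk rt a756 [empty, toad, frog, empty, empty, empty, toad, toad, toad, toad] = true := by decide +kernel

theorem ok_a757 : chk rt a757 [frog, toad, frog, empty, empty, empty, toad, toad, toad, toad] = true := by decide +kernel

theorem ok_a759 : chk rt a759 [frog, frog, empty, empty, empty, toad, toad, toad, toad] = true := by decide +kernel

theorem ok_a762 : chk rt a762 [toad, empty, empty, toad, empty, empty, toad, toad, toad, toad] = true := by decide +kernel

theorem ok_a763 : chk rt a763 [empty, frog, empty, empty, toad, empty, empty, toad, toad, toad, toad] = true := by decide +kernel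

theorem ok_a764 : chk rt a764 [toad, frog, empty, empty, toad, empty, empty, toad, toad, toad, toad] = true := by decide +kernel

theorem ok_a765 : chk rt a765 [frog, frog, empty, empty, toad, empty, empty, toad, toad, toad, toad] = true := by decide +kernel

theorem ok_a768 : chk rt a768 [empty, empty, toad, empty, toad, empty, empty, toad, toad, toad, toad] = true := by decide +kernel

theorem ok_a769 : chk rt a769 [toad, empty, toad, empty, toad, empty, empty, toad, toad, toad, toad] = true := by decide +kernel

theorem ok_a770 : chk rt a770 [empty, frog, empty, toad, empty, toad, empty, empty, toad, toad, toad, toad] = true := by decide +kernel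

theorem ok_a771 : chk rt a771 [toad, frog, empty, toad, empty, toad, empty, empty, toad, toad, toad, toad] = true := by decide +kernel

theorem ok_a772 : chk rt a772 [frog, frog, empty, toad, empty, toad, empty, empty, toad, toad, toad, toad] = true := by decide +kernel

theorem ok_a775 : chk rt a775 [toad, toad, empty, toad, empty, empty, toad, toad, toad, toad] = true := by decide +kernel

theorem ok_a776 : chk rt a776 [frog, toad, empty, toad, empty, empty, toad, toad, toad, toad] = true := by decide +kernel

theorem ok_a778 : chk rt a778 [empty, empty, frog, empty, toad, empty, empty, toad, toad, toad, toad] = true := by decide +kernel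

theorem ok_a779 : chk rt a779 [empty, toad, empty, frog, empty, toad, empty, empty, toad, toad, toad, toad] = true := by decide +kernel

theorem ok_a780 : chk rt a780 [empty, toad, toad, empty, frog, empty, toad, empty, empty, toad, toad, toad, toad] = true := by decide +kernel

theorem ok_a781 : chk rt a781 [frog, toad, toad, empty, frog, empty, toad, empty, empty, toad, toad, toad, toad] = true := by decide +kernel

theorem ok_a783 : chk rt a783 [frog, toad, empty, frog, empty, toad, empty, empty, toad, toad, toad, toad] = true := by decide +kernel

theorem ok_a786 : chk rt a786 [toad, frog, empty, toad, empty, empty, toad, toad, toad, toad] = true := by decide +kernel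

theorem ok_a787 : chk rt a787 [frog, frog, empty, toad, empty, empty, toad, toad, toad, toad] = true := by decide +kernel

theorem ok_a790 : chk rt a790 [toad, toad, empty, empty, toad, toad, toad, toad] = true := by decide +kernel

theorem ok_a791 : chk rt a791 [empty, empty, empty, frog, toad, empty, empty, toad, toad, toad, toad] = true := by decide +kernel

theorem ok_a792 : chk rt a792 [empty, toad, empty, empty, frog, toad, empty, empty, toad, toad, toad, toad] = true := by decide +kernel

theorem ok_a793 : chk rt a793 [empty, toad, toad, empty, empty, frog, toad, empty, empty, toad, toad, toad, toad] = true := by decide +kernel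

theorem ok_a794 : chk rt a794 [frog, toad, toad, empty, empty, frog, toad, empty, empty, toad, toad, toad, toad] = true := by decide +kernel

theorem ok_a796 : chk rt a796 [frog, toad, empty, empty, frog, toad, empty, empty, toad, toad, toad, toad] = true := by decide +kernel

theorem ok_a799 : chk rt a799 [toad, empty, frog, toad, empty, empty, toad, toad, toad, toad] = true := by decide +kernel

theorem ok_a803 : chk rt a803 [empty, empty, empty, frog, empty, empty, toad, toad, toad, toad] = true := by decide +kernel

theorem ok_a804 : chk rt a804 [empty, toad, empty, empty, frog, empty, empty, toad, toad, toad, toad] = true := by decide +kernel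

theorem ok_a805 : chk rt a805 [empty, toad, toad, empty, empty, frog, empty, empty, toad, toad, toad, toad] = true := by decide +kernel

theorem ok_a806 : chk rt a806 [frog, toad, toad, empty, empty, frog, empty, empty, toad, toad, toad, toad] = true := by decide +kernel

theorem ok_a808 : chk rt a808 [frog, toad, empty, empty, frog, empty, empty, toad, toad, toad, toad] = true := by decide +kernel

theorem ok_a810 : chk rt a810 [frog, empty, empty, frog, empty, empty, toad, toad, toad, toad] = true := by decide +kernel

theorem ok_a812 : chk rt a812 [empty, empty, toad, empty, frog, empty, empty, toad, toad, toad, toad] = true := by decide +kernel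

theorem ok_a813 : chk rt a813 [empty, toad, empty, toad, empty, frog, empty, empty, toad, toad, toad, toad] = true := by decide +kernel

theorem ok_a814 : chk rt a814 [toad, toad, empty, toad, empty, frog, empty, empty, toad, toad, toad, toad] = true := by decide +kernel

theorem ok_a815 : chk rt a815 [frog, toad, empty, toad, empty, frog, empty, empty, toad, toad, toad, toad] = true := by decide +kernel

theorem ok_a817 : chk rt a817 [frog, empty, toad, empty, frog, empty, empty, toad, toad, toad, toad] = true := by decide +kernel

theorem ok_a819 : chk rt a819 [toad, toad, empty, frog, empty, empty, toad, toad, toad, toad] = true := by decide +kernel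

theorem ok_a820 : chk rt a820 [frog, toad, empty, frog, empty, empty, toad, toad, toad, toad] = true := by decide +kernel

theorem ok_a822 : chk rt a822 [frog, empty, frog, empty, empty, toad, toad, toad, toad] = true := by decide +kernel

theorem ok_a824 : chk rt a824 [toad, frog, empty, empty, toad, toad, toad, toad] = true := by decide +kernel

theorem ok_a825 : chk rt a825 [frog, frog, empty, empty, toad, toad, toad, toad] = true := by decide +kernel

theorem ok_a828 : chk rt a828 [toad, empty, empty, empty, toad, empty, toad, toad, toad, toad] = true := by decide +kernel

theorem ok_a829 : chk rt a829 [frog, empty, empty, empty, toad, empty, toad, toad, toad, toad] = true := by decide +kernel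

theorem ok_a831 : chk rt a831 [empty, empty, toad, empty, empty, toad, empty, toad, toad, toad, toad] = true := by decide +kernel

theorem ok_a832 : chk rt a832 [toad, empty, toad, empty, empty, toad, empty, toad, toad, toad, toad] = true := by decide +kernel

theorem ok_a833 : chk rt a833 [frog, empty, toad, empty, empty, toad, empty, toad, toad, toad, toad] = true := by decide +kernel

theorem ok_a835 : chk rt a835 [toad, toad, empty, empty, toad, empty, toad, toad, toad, toad] = true := by decide +kernel

theorem ok_a836 : chk rt a836 [frog, toad, empty, empty, toad, empty, toad, toad, toad, toad] = true := by decide +kernel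

theorem ok_a838 : chk rt a838 [frog, empty, empty, toad, empty, toad, toad, toad, toad] = true := by decide +kernel

theorem ok_a840 : chk rt a840 [toad, empty, toad, empty, toad, toad, toad, toad] = true := by decide +kernel

theorem ok_a841 : chk rt a841 [empty, empty, frog, empty, toad, empty, toad, toad, toad, toad] = true := by decide +kernel

theorem ok_a842 : chk rt a842 [toad, empty, frog, empty, toad, empty, toad, toad, toad, toad] = true := by decide +kernel

theorem ok_a846 : chk rt a846 [empty, empty, empty, frog, toad, empty, toad, toad, toad, toad] = true := by decide +kernel

theorem ok_a847 : chk rt a847 [toad, empty, empty, frog, toad, empty, toad, toad, toad, toad] = true := by decide +kernel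

theorem ok_a849 : chk rt a849 [toad, empty, frog, toad, empty, toad, toad, toad, toad] = true := by decide +kernel

theorem ok_a853 : chk rt a853 [toad, empty, empty, empty, frog, empty, toad, toad, toad, toad] = true := by decide +kernel

theorem ok_a854 : chk rt a854 [frog, empty, empty, empty, frog, empty, toad, toad, toad, toad] = true := by decide +kernel

theorem ok_a856 : chk rt a856 [empty, toad, empty, empty, frog, empty, toad, toad, toad, toad] = true := by decide +kernel

theorem ok_a857 : chk rt a857 [frog, toad, empty, empty, frog, empty, toad, toad, toad, toad] = true := by decide +kernel

theorem ok_a860 : chk rt a860 [toad, empty, frog, empty, toad, toad, toad, toad] = true := by decide +kernel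

theorem ok_a861 : chk rt a861 [frog, empty, frog, empty, toad, toad, toad, toad] = true := by decide +kernel

theorem ok_a863 : chk rt a863 [toad, frog, empty, toad, toad, toad, toad] = true := by decide +kernel

theorem ok_a866 : chk rt a866 [toad, empty, empty, empty, empty, toad, toad, toad, toad, toad] = true := by decide +kernel

theorem ok_a867 : chk rt a867 [frog, empty, empty, empty, empty, toad, toad, toad, toad, toad] = true := by decide +kernel

theorem ok_a869 : chk rt a869 [empty, empty, toad, empty, empty, empty, toad, toad, toad, toad, toad] = true := by decide +kernel

theorem ok_a870 : chk rt a870 [toad, empty, toad, empty, empty, empty, toad, toad, toad, toad, toad] = true := by decide +kernel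

theorem ok_a871 : chk rt a871 [frog, empty, toad, empty, empty, empty, toad, toad, toad, toad, toad] = true := by decide +kernel

theorem ok_a873 : chk rt a873 [toad, toad, empty, empty, empty, toad, toad, toad, toad, toad] = true := by decide +kernel

theorem ok_a874 : chk rt a874 [frog, toad, empty, empty, empty, toad, toad, toad, toad, toad] = true := by decide +kernel

theorem ok_a876 : chk rt a876 [frog, empty, empty, empty, toad, toad, toad, toad, toad] = true := by decide +kernel

theorem ok_a878 : chk rt a878 [empty, empty, empty, toad, empty, empty, toad, toad, toad, toad, toad] = true := by decide +kernel

theorem ok_a879 : chk rt a879 [toad, empty, empty, toad, empty, empty, toad, toad, toad, toad, toad] = true := by decide +kernel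

theorem ok_a880 : chk rt a880 [frog, empty, empty, toad, empty, empty, toad, toad, toad, toad, toad] = true := by decide +kernel

theorem ok_a882 : chk rt a882 [toad, empty, toad, empty, empty, toad, toad, toad, toad, toad] = true := by decide +kernel

theorem ok_a883 : chk rt a883 [frog, empty, toad, empty, empty, toad, toad, toad, toad, toad] = true := by decide +kernel

theorem ok_a885 : chk rt a885 [frog, toad, empty, empty, toad, toad, toad, toad, toad] = true := by decide +kernel

theorem ok_a887 : chk rt a887 [empty, empty, frog, empty, empty, toad, toad, toad, toad, toad] = true := by decide +kernel

theorem ok_a888 : chk rt a888 [toad, empty, frog, empty, empty, toad, toad, toad, toad, toad] = true := by decide +kernel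

theorem ok_a892 : chk rt a892 [empty, empty, empty, toad, empty, toad, toad, toad, toad, toad] = true := by decide +kernel

theorem ok_a893 : chk rt a893 [toad, empty, empty, toad, empty, toad, toad, toad, toad, toad] = true := by decide +kernel

theorem ok_a894 : chk rt a894 [frog, empty, empty, toad, empty, toad, toad, toad, toad, toad] = true := by decide +kernel

theorem ok_a898 : chk rt a898 [frog, empty, toad, toad, toad, toad, toad] = true := by decide +kernel

theorem ok_a900 : chk rt a900 [empty, empty, empty, empty, toad, toad, toad, toad, toad, toad] = true := by decide +kernel

theorem ok_a901 : chk rt a901 [toad, empty, empty, empty, toad, toad, toad, toad, toad, toad] = true := by decide +kernel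

theorem ok_a903 : chk rt a903 [toad, empty, empty, toad, toad, toad, toad, toad, toad] = true := by decide +kernel

theorem ok_a905 : chk rt a905 [toad, empty, toad, toad, toad, toad, toad, toad] = true := by decide +kernel

theorem ok_a907 : chk rt a907 [toad, toad, toad, toad, toad, toad, toad] = true := by decide +kernel

theorem ok_a909 : chk rt a909 [frog, toad, toad, toad, toad, toad] = true := by decide +kernel

theorem ok_a911 : chk rt a911 [empty, empty, empty, empty, empty, frog, toad, toad, toad, toad] = true := by decide +kernel

theorem ok_a912 : chk rt a912 [toad, empty, empty, empty, empty, frog, toad, toad, toad, toad] = true := by decide +kernel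

theorem ok_a913 : chk rt a913 [frog, empty, empty, empty, empty, frog, toad, toad, toad, toad] = true := by decide +kernel

theorem ok_a915 : chk rt a915 [empty, toad, empty, empty, empty, frog, toad, toad, toad, toad] = true := by decide +kernel

theorem ok_a916 : chk rt a916 [frog, toad, empty, empty, empty, frog, toad, toad, toad, toad] = true := by decide +kernel

theorem ok_a918 : chk rt a918 [frog, empty, empty, empty, frog, toad, toad, toad, toad] = true := by decide +kernel

theorem ok_a920 : chk rt a920 [toad, empty, empty, frog, toad, toad, toad, toad] = true := by decide +kernel

theorem ok_a922 : chk rt a922 [empty, empty, toad, empty, frog, toad, toad, toad, toad] = true := by decide +kernel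

theorem ok_a923 : chk rt a923 [frog, empty, toad, empty, frog, toad, toad, toad, toad] = true := by decide +kernel

theorem ok_a927 : chk rt a927 [empty, empty, empty, empty, empty, toad, frog, toad, toad, toad, toad] = true := by decide +kernel

theorem ok_a928 : chk rt a928 [toad, empty, empty, empty, empty, toad, frog, toad, toad, toad, toad] = true := by decide +kernel

theorem ok_a930 : chk rt a930 [toad, empty, empty, empty, toad, frog, toad, toad, toad, toad] = true := by decide +kernel

theorem ok_a931 : chk rt a931 [frog, empty, empty, empty, toad, frog, toad, toad, toad, toad] = true := by decide +kernel

theorem ok_a933 : chk rt a933 [toad, empty, empty, toad, frog, toad, toad, toad, toad] = true := by decide +kernel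

theorem ok_a939 : chk rt a939 [empty, empty, empty, frog, toad, toad, toad] = true := by decide +kernel

theorem ok_a940 : chk rt a940 [empty, toad, empty, empty, frog, toad, toad, toad] = true := by decide +kernel

theorem ok_a941 : chk rt a941 [frog, toad, empty, empty, frog, toad, toad, toad] = true := by decide +kernel

theorem ok_a943 : chk rt a943 [frog, empty, empty, frog, toad, toad, toad] = true := by decide +kernel

theorem ok_a945 : chk rt a945 [empty, empty, empty, toad, empty, frog, toad, toad, toad] = true := by decide +kernel

theorem ok_a946 : chk rt a946 [toad, empty, empty, toad, empty, frog, toad, toad, toad] = true := by decide +kernel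

theorem ok_a947 : chk rt a947 [frog, empty, empty, toad, empty, frog, toad, toad, toad] = true := by decide +kernel

theorem ok_a949 : chk rt a949 [toad, empty, toad, empty, frog, toad, toad, toad] = true := by decide +kernel

theorem ok_a950 : chk rt a950 [frog, empty, toad, empty, frog, toad, toad, toad] = true := by decide +kernel

theorem ok_a954 : chk rt a954 [empty, toad, empty, empty, empty, empty, toad, frog, toad, toad, toad] = true := by decide +kernel

theorem ok_a955 : chk rt a955 [toad, toad, empty, empty, empty, empty, toad, frog, toad, toad, toad] = true := by decide +kernel

theorem ok_a956 : chk rt a956 [frog, toad, empty, empty, empty, empty, toad, frog, toad, toad, toad] = true := by decide +kernel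

theorem ok_a958 : chk rt a958 [frog, empty, empty, empty, empty, toad, frog, toad, toad, toad] = true := by decide +kernel

theorem ok_a960 : chk rt a960 [empty, empty, toad, empty, empty, empty, toad, frog, toad, toad, toad] = true := by decide +kernel

theorem ok_a961 : chk rt a961 [toad, empty, toad, empty, empty, empty, toad, frog, toad, toad, toad] = true := by decide +kernel

theorem ok_a962 : chk rt a962 [frog, empty, toad, empty, empty, empty, toad, frog, toad, toad, toad] = true := by decide +kernel

theorem ok_a964 : chk rt a964 [frog, toad, empty, empty, empty, toad, frog, toad, toad, toad] = true := by decide +kernel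

theorem ok_a966 : chk rt a966 [frog, empty, empty, empty, toad, frog, toad, toad, toad] = true := by decide +kernel

theorem ok_a968 : chk rt a968 [toad, empty, empty, toad, frog, toad, toad, toad] = true := by decide +kernel

theorem ok_a974 : chk rt a974 [empty, empty, empty, empty, empty, frog, toad, toad] = true := by decide +kernel

theorem ok_a975 : chk rt a975 [toad, empty, empty, empty, empty, frog, toad, toad] = true := by decide +kernel

theorem ok_a976 : chk rt a976 [frog, empty, empty, empty, empty, frog, toad, toad] = true := by decide +kernel

theorem ok_a978 : chk rt a978 [empty, toad, empty, empty, empty, frog, toad, toad] = true := by decide +kernel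

theorem ok_a979 : chk rt a979 [toad, toad, empty, empty, empty, frog, toad, toad] = true := by decide +kernel

theorem ok_a980 : chk rt a980 [frog, toad, empty, empty, empty, frog, toad, toad] = true := by decide +kernel

theorem ok_a982 : chk rt a982 [frog, empty, empty, empty, frog, toad, toad] = true := by decide +kernel

theorem ok_a984 : chk rt a984 [empty, empty, empty, toad, empty, empty, frog, toad, toad] = true := by decide +kernel

theorem ok_a985 : chk rt a985 [toad, empty, empty, toad, empty, empty, frog, toad, toad] = true := by decide +kernel

theorem ok_a986 : chk rt a986 [frog, empty, empty, toad, empty, empty, frog, toad, toad] = true := by decide +kernel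

theorem ok_a988 : chk rt a988 [toad, empty, toad, empty, empty, frog, toad, toad] = true := by decide +kernel

theorem ok_a989 : chk rt a989 [frog, empty, toad, empty, empty, frog, toad, toad] = true := by decide +kernel

theorem ok_a991 : chk rt a991 [toad, toad, empty, empty, frog, toad, toad] = true := by decide +kernel

theorem ok_a992 : chk rt a992 [empty, empty, empty, frog, toad, empty, empty, frog, toad, toad] = true := by decide +kernel

theorem ok_a993 : chk rt a993 [toad, empty, empty, frog, toad, empty, empty, frog, toad, toad] = true := by decide +kernel

theorem ok_a994 : chk rt a994 [frog, empty, empty, frog, toad, empty, empty, frog, toad, toad] = true := by decide +kernel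

theorem ok_a996 : chk rt a996 [toad, empty, frog, toad, empty, empty, frog, toad, toad] = true := by decide +kernel

theorem ok_a998 : chk rt a998 [toad, frog, toad, empty, empty, frog, toad, toad] = true := by decide +kernel

theorem ok_a1001 : chk rt a1001 [frog, empty, empty, frog, toad, toad] = true := by decide +kernel

theorem ok_a1003 : chk rt a1003 [empty, empty, empty, toad, empty, frog, toad, toad] = true := by decide +kernel

theorem ok_a1004 : chk rt a1004 [toad, empty, empty, toad, empty, frog, toad, toad] = true := by decide +kernel

theorem ok_a1005 : chk rt a1005 [frog, empty, empty, toad, empty, frog, toad, toad] = true := by decide +kernel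

theorem ok_a1007 : chk rt a1007 [toad, empty, toad, empty, frog, toad, toad] = true := by decide +kernel

theorem ok_a1008 : chk rt a1008 [frog, empty, toad, empty, frog, toad, toad] = true := by decide +kernel

theorem ok_a1010 : chk rt a1010 [toad, toad, empty, frog, toad, toad] = true := by decide +kernel

theorem ok_a1011 : chk rt a1011 [frog, toad, empty, frog, toad, toad] = true := by decide +kernel

theorem ok_a1014 : chk rt a1014 [empty, empty, empty, empty, empty, toad, frog, toad, toad] = true := by decide +kernel

theorem ok_a1015 : chk rt a1015 [toad, empty, empty, empty, empty, toad, frog, toad, toad] = true := by decide +kernel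

theorem ok_a1016 : chk rt a1016 [frog, empty, empty, empty, empty, toad, frog, toad, toad] = true := by decide +kernel

theorem ok_a1018 : chk rt a1018 [toad, empty, empty, empty, toad, frog, toad, toad] = true := by decide +kernel

theorem ok_a1019 : chk rt a1019 [frog, empty, empty, empty, toad, frog, toad, toad] = true := by decide +kernel

theorem ok_a1021 : chk rt a1021 [toad, empty, empty, toad, frog, toad, toad] = true := by decide +kernel

theorem ok_a1022 : chk rt a1022 [frog, empty, empty, toad, frog, toad, toad] = true := by decide +kernel

theorem ok_a1024 : chk rt a1024 [frog, empty, toad, frog, toad, toad] = true := by decide +kernel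

theorem ok_a1029 : chk rt a1029 [empty, empty, empty, empty, frog, toad] = true := by decide +kernel

theorem ok_a1030 : chk rt a1030 [empty, toad, empty, empty, empty, frog, toad] = true := by decide +kernel

theorem ok_a1031 : chk rt a1031 [toad, toad, empty, empty, empty, frog, toad] = true := by decide +kernel

theorem ok_a1032 : chk rt a1032 [frog, toad, empty, empty, empty, frog, toad] = true := by decide +kernel

theorem ok_a1034 : chk rt a1034 [frog, empty, empty, empty, frog, toad] = true := by decide +kernel

theorem ok_a1036 : chk rt a1036 [empty, empty, empty, toad, empty, empty, frog, toad] = true := by decide +kernel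

theorem ok_a1037 : chk rt a1037 [toad, empty, empty, toad, empty, empty, frog, toad] = true := by decide +kernel

theorem ok_a1038 : chk rt a1038 [frog, empty, empty, toad, empty, empty, frog, toad] = true := by decide +kernel

theorem ok_a1040 : chk rt a1040 [toad, empty, toad, empty, empty, frog, toad] = true := by decide +kernel

theorem ok_a1041 : chk rt a1041 [empty, frog, empty, toad, empty, empty, frog, toad] = true := by decide +kernel

theorem ok_a1042 : chk rt a1042 [toad, frog, empty, toad, empty, empty, frog, toad] = true := by decide +kernel

theorem ok_a1043 : chk rt a1043 [frog, frog, empty, toad, empty, empty, frog, toad] = true := by decide +kernel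

theorem ok_a1046 : chk rt a1046 [toad, toad, empty, empty, frog, toad] = true := by decide +kernel

theorem ok_a1047 : chk rt a1047 [empty, empty, empty, frog, toad, empty, empty, frog, toad] = true := by decide +kernel

theorem ok_a1048 : chk rt a1048 [toad, empty, empty, frog, toad, empty, empty, frog, toad] = true := by decide +kernel

theorem ok_a1049 : chk rt a1049 [frog, empty, empty, frog, toad, empty, empty, frog, toad] = true := by decide +kernel

theorem ok_a1051 : chk rt a1051 [toad, empty, frog, toad, empty, empty, frog, toad] = true := by decide +kernel

theorem ok_a1052 : chk rt a1052 [frog, empty, frog, toad, empty, empty, frog, toad] = true := by decide +kernel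

theorem ok_a1054 : chk rt a1054 [toad, frog, toad, empty, empty, frog, toad] = true := by decide +kernel

theorem ok_a1055 : chk rt a1055 [frog, frog, toad, empty, empty, frog, toad] = true := by decide +kernel

theorem ok_a1058 : chk rt a1058 [empty, frog, empty, empty, frog, toad] = true := by decide +kernel

theorem ok_a1059 : chk rt a1059 [toad, frog, empty, empty, frog, toad] = true := by decide +kernel

theorem ok_a1060 : chk rt a1060 [frog, frog, empty, empty, frog, toad] = true := by decide +kernel

theorem ok_a1063 : chk rt a1063 [empty, empty, empty, empty, toad, empty, frog, toad] = true := by decide +kernel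

theorem ok_a1064 : chk rt a1064 [empty, toad, empty, empty, empty, toad, empty, frog, toad] = true := by decide +kernel

theorem ok_a1065 : chk rt a1065 [toad, toad, empty, empty, empty, toad, empty, frog, toad] = true := by decide +kernel

theorem ok_a1066 : chk rt a1066 [frog, toad, empty, empty, empty, toad, empty, frog, toad] = true := by decide +kernel

theorem ok_a1068 : chk rt a1068 [frog, empty, empty, empty, toad, empty, frog, toad] = true := by decide +kernel

theorem ok_a1070 : chk rt a1070 [toad, empty, empty, toad, empty, frog, toad] = true := by decide +kernel

theorem ok_a1071 : chk rt a1071 [empty, empty, frog, empty, empty, toad, empty, frog, toad] = true := by decide +kernel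

theorem ok_a1072 : chk rt a1072 [toad, empty, frog, empty, empty, toad, empty, frog, toad] = true := by decide +kernel

theorem ok_a1074 : chk rt a1074 [toad, frog, empty, empty, toad, empty, frog, toad] = true := by decide +kernel

theorem ok_a1077 : chk rt a1077 [toad, empty, toad, empty, frog, toad] = true := by decide +kernel

theorem ok_a1078 : chk rt a1078 [empty, empty, empty, frog, empty, toad, empty, frog, toad] = true := by decide +kernel

theorem ok_a1079 : chk rt a1079 [toad, empty, empty, frog, empty, toad, empty, frog, toad] = true := by decide +kernel

theorem ok_a1081 : chk rt a1081 [toad, empty, frog, empty, toad, empty, frog, toad] = true := by decide +kernel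

theorem ok_a1082 : chk rt a1082 [frog, empty, frog, empty, toad, empty, frog, toad] = true := by decide +kernel

theorem ok_a1084 : chk rt a1084 [toad, frog, empty, toad, empty, frog, toad] = true := by decide +kernel

theorem ok_a1085 : chk rt a1085 [frog, frog, empty, toad, empty, frog, toad] = true := by decide +kernel

theorem ok_a1088 : chk rt a1088 [toad, toad, toad, empty, frog, toad] = true := by decide +kernel

theorem ok_a1089 : chk rt a1089 [empty, empty, empty, frog, toad, toad, empty, frog, toad] = true := by decide +kernel

theorem ok_a1090 : chk rt a1090 [toad, empty, empty, frog, toad, toad, empty, frog, toad] = true := by decide +kernel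

theorem ok_a1091 : chk rt a1091 [frog, empty, empty, frog, toad, toad, empty, frog, toad] = true := by decide +kernel

theorem ok_a1093 : chk rt a1093 [toad, empty, frog, toad, toad, empty, frog, toad] = true := by decide +kernel

theorem ok_a1095 : chk rt a1095 [toad, frog, toad, toad, empty, frog, toad] = true := by decide +kernel

theorem ok_a1098 : chk rt a1098 [empty, empty, empty, frog, toad, empty, frog, toad] = true := by decide +kernel

theorem ok_a1099 : chk rt a1099 [toad, empty, empty, frog, toad, empty, frog, toad] = true := by decide +kernel

theorem ok_a1101 : chk rt a1101 [toad, empty, frog, toad, empty, frog, toad] = true := by decide +kernel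

theorem ok_a1103 : chk rt a1103 [toad, frog, toad, empty, frog, toad] = true := by decide +kernel

theorem ok_a1104 : chk rt a1104 [frog, frog, toad, empty, frog, toad] = true := by decide +kernel

theorem ok_a1107 : chk rt a1107 [frog, empty, frog, toad] = true := by decide +kernel

theorem ok_a1109 : chk rt a1109 [empty, empty, empty, empty, empty, toad, frog, toad] = true := by decide +kernel

theorem ok_a1110 : chk rt a1110 [empty, toad, empty, empty, empty, empty, toad, frog, toad] = true := by decide +kernel

theorem ok_a1111 : chk rt a1111 [empty, toad, toad, empty, empty, empty, empty, toad, frog, toad] = true := by decide +kernel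

theorem ok_a1112 : chk rt a1112 [frog, toad, toad, empty, empty, empty, empty, toad, frog, toad] = true := by decide +kernel

theorem ok_a1114 : chk rt a1114 [frog, toad, empty, empty, empty, empty, toad, frog, toad] = true := by decide +kernel

theorem ok_a1116 : chk rt a1116 [empty, frog, empty, empty, empty, empty, toad, frog, toad] = true := by decide +kernel

theorem ok_a1117 : chk rt a1117 [empty, toad, frog, empty, empty, empty, empty, toad, frog, toad] = true := by decide +kernel

theorem ok_a1118 : chk rt a1118 [toad, toad, frog, empty, empty, empty, empty, toad, frog, toad] = true := by decide +kernel

theorem ok_a1119 : chk rt a1119 [frog, toad, frog, empty, empty, empty, empty, toad, frog, toad] = true := by decide +kernel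

theorem ok_a1123 : chk rt a1123 [empty, empty, toad, empty, empty, empty, toad, frog, toad] = true := by decide +kernel

theorem ok_a1124 : chk rt a1124 [toad, empty, toad, empty, empty, empty, toad, frog, toad] = true := by decide +kernel

theorem ok_a1125 : chk rt a1125 [frog, empty, toad, empty, empty, empty, toad, frog, toad] = true := by decide +kernel

theorem ok_a1127 : chk rt a1127 [toad, toad, empty, empty, empty, toad, frog, toad] = true := by decide +kernel

theorem ok_a1128 : chk rt a1128 [frog, toad, empty, empty, empty, toad, frog, toad] = true := by decide +kernel

theorem ok_a1130 : chk rt a1130 [empty, empty, frog, empty, empty, empty, toad, frog, toad] = true := by decide +kernel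

theorem ok_a1131 : chk rt a1131 [toad, empty, frog, empty, empty, empty, toad, frog, toad] = true := by decide +kernel

theorem ok_a1133 : chk rt a1133 [frog, frog, empty, empty, empty, toad, frog, toad] = true := by decide +kernel

theorem ok_a1136 : chk rt a1136 [toad, empty, empty, toad, frog, toad] = true := by decide +kernel

theorem ok_a1137 : chk rt a1137 [empty, frog, empty, empty, toad, frog, toad] = true := by decide +kernel

theorem ok_a1138 : chk rt a1138 [toad, frog, empty, empty, toad, frog, toad] = true := by decide +kernel

theorem ok_a1141 : chk rt a1141 [toad, empty, toad, frog, toad] = true := by decide +kernel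

theorem ok_a1142 : chk rt a1142 [frog, empty, toad, frog, toad] = true := by decide +kernel

theorem ok_a1144 : chk rt a1144 [frog, toad, frog, toad] = true := by decide +kernel

theorem ok_a1146 : chk rt a1146 [empty, empty, frog, frog, toad] = true := by decide +kernel

theorem ok_a1147 : chk rt a1147 [toad, empty, frog, frog, toad] = true := by decide +kernel

theorem ok_a1149 : chk rt a1149 [empty, empty, empty, empty, toad, frog, frog, toad] = true := by decide +kernel

theorem ok_a1150 : chk rt a1150 [toad, empty, empty, empty, toad, frog, frog, toad] = true := by decide +kernel

theorem ok_a1151 : chk rt a1151 [frog, empty, empty, empty, toad, frog, frog, toad] = true := by decide +kernel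

theorem ok_a1153 : chk rt a1153 [toad, empty, empty, toad, frog, frog, toad] = true := by decide +kernel

theorem ok_a1154 : chk rt a1154 [frog, empty, empty, toad, frog, frog, toad] = true := by decide +kernel

theorem ok_a1156 : chk rt a1156 [frog, empty, toad, frog, frog, toad] = true := by decide +kernel

end Pool.Agent.Helper807.TF
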