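import Pool.Agent.Helper807.TF.Ok0
import Pool.Agent.Helper807.TF.Ok1

/-!
# Toads and Frogs: the certificate is correct
-/

set_option autoImplicit false

namespace Pool.Agent.Helper807.TF

open Cell

theorem ok_a2 : chk rt a2 [empty, empty, empty] = true :=
  chk_n (by decide +kernel) ok_a0 ok_a1 rfl

theorem ok_a6 : chk rt a6 [empty, toad, empty, empty] = true :=
  chk_n (by decide +kernel) ok_a3 ok_a4 ok_a5

theorem ok_a10 : chk rt a10 [toad, toad, empty, empty] = true :=
  chk_n (by decide +kernel) ok_a7 ok_a8 ok_a9

theorem ok_a14 : chk rt a14 [empty, frog, toad, empty, empty] = true :=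
  chk_n (by decide +kernel) ok_a11 ok_a12 ok_a13

theorem ok_a18 : chk rt a18 [empty, toad, frog, toad, empty, empty] = true :=
  chk_n (by decide +kernel) ok_a15 ok_a16 ok_a17

theorem ok_a23 : chk rt a23 [frog, toad, frog, toad, empty, empty] = true :=
  chk_n (by decide +kernel) ok_a20 ok_a21 ok_a22

theorem ok_a24 : chk rt a24 [toad, frog, toad, empty, empty] = true :=
  chk_n (by decide +kernel) ok_a18 ok_a19 ok_a23

theorem ok_a28 : chk rt a28 [frog, frog, toad, empty, empty] = true :=
  chk_n (by decide +kernel) ok_a25 ok_a26 ok_a27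

theorem ok_a29 : chk rt a29 [frog, toad, empty, empty] = true :=
  chk_n (by decide +kernel) ok_a14 ok_a24 ok_a28

theorem ok_a30 : chk rt a30 [toad, empty, empty] = true :=
  chk_n (by decide +kernel) ok_a6 ok_a10 ok_a29

theorem ok_a31 : chk rt a31 [empty, empty] = true :=
  chk_n (by decide +kernel) ok_a2 ok_a30 rfl

theorem ok_a36 : chk rt a36 [toad, empty, empty, toad, empty] = true :=
  chk_n (by decide +kernel) ok_a33 ok_a34 ok_a35

theorem ok_a38 : chk rt a38 [empty, empty, toad, empty] = true :=
  chk_n (by decide +kernel) ok_a32 ok_a36 ok_a37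

theorem ok_a44 : chk rt a44 [empty, frog, toad, empty, toad, empty] = true :=
  chk_n (by decide +kernel) ok_a41 ok_a42 ok_a43

theorem ok_a47 : chk rt a47 [frog, toad, empty, toad, empty] = true :=
  chk_n (by decide +kernel) ok_a44 ok_a45 ok_a46

theorem ok_a48 : chk rt a48 [toad, empty, toad, empty] = true :=
  chk_n (by decide +kernel) ok_a39 ok_a40 ok_a47

theorem ok_a53 : chk rt a53 [empty, empty, toad, frog, empty, toad, empty] = true :=
  chk_n (by decide +kernel) ok_a50 ok_a51 ok_a52

theorem ok_a56 : chk rt a56 [empty, toad, frog, empty, toad, empty] = true :=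
  chk_n (by decide +kernel) ok_a53 ok_a54 ok_a55

theorem ok_a59 : chk rt a59 [toad, frog, empty, toad, empty] = true :=
  chk_n (by decide +kernel) ok_a56 ok_a57 ok_a58

theorem ok_a61 : chk rt a61 [frog, empty, toad, empty] = true :=
  chk_n (by decide +kernel) ok_a49 ok_a59 ok_a60

theorem ok_a62 : chk rt a62 [empty, toad, empty] = true :=
  chk_n (by decide +kernel) ok_a38 ok_a48 ok_a61

theorem ok_a65 : chk rt a65 [empty, toad, toad, empty] = true :=
  chk_n (by decide +kernel) rfl ok_a63 ok_a64

theorem ok_a70 : chk rt a70 [empty, empty, empty, frog, toad, toad, empty] = true :=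
  chk_n (by decide +kernel) ok_a67 ok_a68 ok_a69

theorem ok_a73 : chk rt a73 [empty, empty, frog, toad, toad, empty] = true :=
  chk_n (by decide +kernel) ok_a70 ok_a71 ok_a72

theorem ok_a75 : chk rt a75 [empty, frog, toad, toad, empty] = true :=
  chk_n (by decide +kernel) ok_a73 ok_a74 rfl

theorem ok_a77 : chk rt a77 [frog, toad, toad, empty] = true :=
  chk_n (by decide +kernel) ok_a75 ok_a76 rfl

theorem ok_a78 : chk rt a78 [toad, toad, empty] = true :=
  chk_n (by decide +kernel) ok_a65 ok_a66 ok_a77

theorem ok_a83 : chk rt a83 [toad, empty, empty, frog, toad, empty] = true :=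
  chk_n (by decide +kernel) ok_a80 ok_a81 ok_a82

theorem ok_a85 : chk rt a85 [empty, empty, frog, toad, empty] = true :=
  chk_n (by decide +kernel) ok_a79 ok_a83 ok_a84

theorem ok_a89 : chk rt a89 [empty, empty, toad, empty, frog, toad, empty] = true :=
  chk_n (by decide +kernel) ok_a86 ok_a87 ok_a88

theorem ok_a92 : chk rt a92 [empty, toad, empty, frog, toad, empty] = true :=
  chk_n (by decide +kernel) ok_a89 ok_a90 ok_a91

theorem ok_a97 : chk rt a97 [frog, toad, empty, frog, toad, empty] = true :=
  chk_n (by decide +kernel) ok_a94 ok_a95 ok_a96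

theorem ok_a98 : chk rt a98 [toad, empty, frog, toad, empty] = true :=
  chk_n (by decide +kernel) ok_a92 ok_a93 ok_a97

theorem ok_a102 : chk rt a102 [frog, empty, frog, toad, empty] = true :=
  chk_n (by decide +kernel) ok_a99 ok_a100 ok_a101

theorem ok_a103 : chk rt a103 [empty, frog, toad, empty] = true :=
  chk_n (by decide +kernel) ok_a85 ok_a98 ok_a102

theorem ok_a107 : chk rt a107 [empty, empty, empty, toad, frog, toad, empty] = true :=
  chk_n (by decide +kernel) ok_a104 ok_a105 ok_a106

theorem ok_a110 : chk rt a110 [empty, empty, toad, frog, toad, empty] = true :=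
  chk_n (by decide +kernel) ok_a107 ok_a108 ok_a109

theorem ok_a113 : chk rt a113 [empty, toad, frog, toad, empty] = true :=
  chk_n (by decide +kernel) ok_a110 ok_a111 ok_a112

theorem ok_a116 : chk rt a116 [empty, frog, toad, frog, toad, empty] = true :=
  chk_n (by decide +kernel) ok_a114 ok_a115 rfl

theorem ok_a119 : chk rt a119 [frog, toad, frog, toad, empty] = true :=
  chk_n (by decide +kernel) ok_a116 ok_a117 ok_a118

theorem ok_a120 : chk rt a120 [toad, frog, toad, empty] = true :=
  chk_n (by decide +kernel) ok_a113 rfl ok_a119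

theorem ok_a124 : chk rt a124 [empty, empty, frog, frog, toad, empty] = true :=
  chk_n (by decide +kernel) ok_a121 ok_a122 ok_a123

theorem ok_a127 : chk rt a127 [empty, frog, frog, toad, empty] = true :=
  chk_n (by decide +kernel) ok_a124 ok_a125 ok_a126

theorem ok_a130 : chk rt a130 [empty, toad, frog, frog, toad, empty] = true :=
  chk_n (by decide +kernel) ok_a128 rfl ok_a129

theorem ok_a131 : chk rt a131 [toad, frog, frog, toad, empty] = true :=
  chk_n (by decide +kernel) ok_a130 rfl rfl

theorem ok_a135 : chk rt a135 [frog, frog, frog, toad, empty] = true :=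
  chk_n (by decide +kernel) ok_a132 ok_a133 ok_a134

theorem ok_a136 : chk rt a136 [frog, frog, toad, empty] = true :=
  chk_n (by decide +kernel) ok_a127 ok_a131 ok_a135

theorem ok_a137 : chk rt a137 [frog, toad, empty] = true :=
  chk_n (by decide +kernel) ok_a103 ok_a120 ok_a136

theorem ok_a138 : chk rt a138 [toad, empty] = true :=
  chk_n (by decide +kernel) ok_a62 ok_a78 ok_a137

theorem ok_a139 : chk rt a139 [empty] = true :=
  chk_n (by decide +kernel) ok_a31 ok_a138 rfl

theorem ok_a147 : chk rt a147 [frog, frog, toad, frog, toad, empty, toad, empty, empty, empty, toad] = true :=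
  chk_n (by decide +kernel) ok_a145 rfl ok_a146

theorem ok_a148 : chk rt a148 [frog, toad, frog, toad, empty, toad, empty, empty, empty, toad] = true :=
  chk_n (by decide +kernel) ok_a144 rfl ok_a147

theorem ok_a149 : chk rt a149 [toad, frog, toad, empty, toad, empty, empty, empty, toad] = true :=
  chk_n (by decide +kernel) rfl rfl ok_a148

theorem ok_a151 : chk rt a151 [frog, toad, empty, toad, empty, empty, empty, toad] = true :=
  chk_n (by decide +kernel) ok_a143 ok_a149 ok_a150

theorem ok_a152 : chk rt a152 [toad, empty, toad, empty, empty, empty, toad] = true :=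
  chk_n (by decide +kernel) rfl ok_a142 ok_a151

theorem ok_a154 : chk rt a154 [empty, toad, empty, empty, empty, toad] = true :=
  chk_n (by decide +kernel) ok_a141 ok_a152 ok_a153

theorem ok_a161 : chk rt a161 [frog, frog, toad, toad, empty, frog, toad, empty, empty, empty, toad] = true :=
  chk_n (by decide +kernel) ok_a159 rfl ok_a160

theorem ok_a162 : chk rt a162 [frog, toad, toad, empty, frog, toad, empty, empty, empty, toad] = true :=
  chk_n (by decide +kernel) ok_a158 rfl ok_a161

theorem ok_a163 : chk rt a163 [toad, toad, empty, frog, toad, empty, empty, empty, toad] = true :=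
  chk_n (by decide +kernel) rfl rfl ok_a162

theorem ok_a165 : chk rt a165 [toad, empty, frog, toad, empty, empty, empty, toad] = true :=
  chk_n (by decide +kernel) ok_a157 ok_a163 ok_a164

theorem ok_a167 : chk rt a167 [empty, frog, toad, empty, empty, empty, toad] = true :=
  chk_n (by decide +kernel) ok_a156 ok_a165 ok_a166

theorem ok_a170 : chk rt a170 [frog, toad, empty, empty, empty, toad] = true :=
  chk_n (by decide +kernel) ok_a167 ok_a168 ok_a169

theorem ok_a171 : chk rt a171 [toad, empty, empty, empty, toad] = true :=
  chk_n (by decide +kernel) ok_a154 ok_a155 ok_a170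

theorem ok_a173 : chk rt a173 [empty, empty, empty, toad] = true :=
  chk_n (by decide +kernel) ok_a140 ok_a171 ok_a172

theorem ok_a179 : chk rt a179 [frog, frog, toad, frog, toad, empty, empty, toad, empty, empty, toad] = true :=
  chk_n (by decide +kernel) ok_a177 rfl ok_a178

theorem ok_a180 : chk rt a180 [frog, toad, frog, toad, empty, empty, toad, empty, empty, toad] = true :=
  chk_n (by decide +kernel) ok_a176 rfl ok_a179

theorem ok_a181 : chk rt a181 [toad, frog, toad, empty, empty, toad, empty, empty, toad] = true :=
  chk_n (by decide +kernel) rfl rfl ok_a180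

theorem ok_a183 : chk rt a183 [frog, toad, empty, empty, toad, empty, empty, toad] = true :=
  chk_n (by decide +kernel) ok_a175 ok_a181 ok_a182

theorem ok_a184 : chk rt a184 [toad, empty, empty, toad, empty, empty, toad] = true :=
  chk_n (by decide +kernel) rfl rfl ok_a183

theorem ok_a186 : chk rt a186 [empty, empty, toad, empty, empty, toad] = true :=
  chk_n (by decide +kernel) ok_a174 ok_a184 ok_a185

theorem ok_a194 : chk rt a194 [frog, frog, toad, toad, empty, frog, empty, toad, empty, empty, toad] = true :=
  chk_n (by decide +kernel) ok_a192 rfl ok_a193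

theorem ok_a195 : chk rt a195 [frog, toad, toad, empty, frog, empty, toad, empty, empty, toad] = true :=
  chk_n (by decide +kernel) ok_a191 rfl ok_a194

theorem ok_a196 : chk rt a196 [toad, toad, empty, frog, empty, toad, empty, empty, toad] = true :=
  chk_n (by decide +kernel) ok_a190 rfl ok_a195

theorem ok_a198 : chk rt a198 [toad, empty, frog, empty, toad, empty, empty, toad] = true :=
  chk_n (by decide +kernel) ok_a189 ok_a196 ok_a197

theorem ok_a200 : chk rt a200 [empty, frog, empty, toad, empty, empty, toad] = true :=
  chk_n (by decide +kernel) ok_a188 ok_a198 ok_a199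

theorem ok_a203 : chk rt a203 [frog, empty, toad, empty, empty, toad] = true :=
  chk_n (by decide +kernel) ok_a200 ok_a201 ok_a202

theorem ok_a204 : chk rt a204 [empty, toad, empty, empty, toad] = true :=
  chk_n (by decide +kernel) ok_a186 ok_a187 ok_a203

theorem ok_a210 : chk rt a210 [toad, empty, empty, frog, toad, empty, empty, toad] = true :=
  chk_n (by decide +kernel) ok_a207 ok_a208 ok_a209

theorem ok_a212 : chk rt a212 [empty, empty, frog, toad, empty, empty, toad] = true :=
  chk_n (by decide +kernel) ok_a206 ok_a210 ok_a211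

theorem ok_a216 : chk rt a216 [toad, empty, frog, toad, empty, empty, toad] = true :=
  chk_n (by decide +kernel) ok_a213 ok_a214 ok_a215

theorem ok_a218 : chk rt a218 [empty, frog, toad, empty, empty, toad] = true :=
  chk_n (by decide +kernel) ok_a212 ok_a216 ok_a217

theorem ok_a222 : chk rt a222 [toad, frog, toad, empty, empty, toad] = true :=
  chk_n (by decide +kernel) ok_a219 ok_a220 ok_a221

theorem ok_a226 : chk rt a226 [frog, frog, toad, empty, empty, toad] = true :=
  chk_n (by decide +kernel) ok_a223 ok_a224 ok_a225

theorem ok_a227 : chk rt a227 [frog, toad, empty, empty, toad] = true :=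
  chk_n (by decide +kernel) ok_a218 ok_a222 ok_a226

theorem ok_a228 : chk rt a228 [toad, empty, empty, toad] = true :=
  chk_n (by decide +kernel) ok_a204 ok_a205 ok_a227

theorem ok_a232 : chk rt a232 [empty, frog, empty, empty, toad] = true :=
  chk_n (by decide +kernel) ok_a229 ok_a230 ok_a231

theorem ok_a237 : chk rt a237 [frog, toad, frog, empty, empty, toad] = true :=
  chk_n (by decide +kernel) ok_a235 ok_a236 rfl

theorem ok_a238 : chk rt a238 [toad, frog, empty, empty, toad] = true :=
  chk_n (by decide +kernel) ok_a233 ok_a234 ok_a237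

theorem ok_a240 : chk rt a240 [frog, empty, empty, toad] = true :=
  chk_n (by decide +kernel) ok_a232 ok_a238 ok_a239

theorem ok_a241 : chk rt a241 [empty, empty, toad] = true :=
  chk_n (by decide +kernel) ok_a173 ok_a228 ok_a240

theorem ok_a247 : chk rt a247 [frog, toad, empty, empty, empty, toad, empty, toad] = true :=
  chk_n (by decide +kernel) ok_a244 ok_a245 ok_a246

theorem ok_a248 : chk rt a248 [toad, empty, empty, empty, toad, empty, toad] = true :=
  chk_n (by decide +kernel) ok_a243 rfl ok_a247

theorem ok_a250 : chk rt a250 [empty, empty, empty, toad, empty, toad] = true :=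
  chk_n (by decide +kernel) ok_a242 ok_a248 ok_a249

theorem ok_a255 : chk rt a255 [frog, toad, empty, empty, toad, empty, toad] = true :=
  chk_n (by decide +kernel) ok_a252 ok_a253 ok_a254

theorem ok_a256 : chk rt a256 [toad, empty, empty, toad, empty, toad] = true :=
  chk_n (by decide +kernel) ok_a251 rfl ok_a255

theorem ok_a261 : chk rt a261 [toad, empty, frog, empty, empty, toad, empty, toad] = true :=
  chk_n (by decide +kernel) ok_a258 ok_a259 ok_a260

theorem ok_a262 : chk rt a262 [empty, frog, empty, empty, toad, empty, toad] = true :=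
  chk_n (by decide +kernel) ok_a257 ok_a261 rfl

theorem ok_a265 : chk rt a265 [frog, empty, empty, toad, empty, toad] = true :=
  chk_n (by decide +kernel) ok_a262 ok_a263 ok_a264

theorem ok_a266 : chk rt a266 [empty, empty, toad, empty, toad] = true :=
  chk_n (by decide +kernel) ok_a250 ok_a256 ok_a265

theorem ok_a270 : chk rt a270 [toad, empty, toad, empty, toad] = true :=
  chk_n (by decide +kernel) ok_a267 ok_a268 ok_a269

theorem ok_a275 : chk rt a275 [toad, empty, empty, frog, empty, toad, empty, toad] = true :=
  chk_n (by decide +kernel) ok_a272 ok_a273 ok_a274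

theorem ok_a277 : chk rt a277 [empty, empty, frog, empty, toad, empty, toad] = true :=
  chk_n (by decide +kernel) ok_a271 ok_a275 ok_a276

theorem ok_a281 : chk rt a281 [toad, empty, frog, empty, toad, empty, toad] = true :=
  chk_n (by decide +kernel) ok_a278 ok_a279 ok_a280

theorem ok_a283 : chk rt a283 [empty, frog, empty, toad, empty, toad] = true :=
  chk_n (by decide +kernel) ok_a277 ok_a281 ok_a282

theorem ok_a286 : chk rt a286 [frog, empty, toad, empty, toad] = true :=
  chk_n (by decide +kernel) ok_a283 ok_a284 ok_a285

theorem ok_a287 : chk rt a287 [empty, toad, empty, toad] = true :=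
  chk_n (by decide +kernel) ok_a266 ok_a270 ok_a286

theorem ok_a291 : chk rt a291 [toad, toad, empty, toad] = true :=
  chk_n (by decide +kernel) ok_a288 ok_a289 ok_a290

theorem ok_a296 : chk rt a296 [toad, empty, empty, empty, frog, toad, empty, toad] = true :=
  chk_n (by decide +kernel) ok_a293 ok_a294 ok_a295

theorem ok_a298 : chk rt a298 [empty, empty, empty, frog, toad, empty, toad] = true :=
  chk_n (by decide +kernel) ok_a292 ok_a296 ok_a297

theorem ok_a301 : chk rt a301 [empty, empty, frog, toad, empty, toad] = true :=
  chk_n (by decide +kernel) ok_a298 ok_a299 ok_a300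

theorem ok_a303 : chk rt a303 [empty, frog, toad, empty, toad] = true :=
  chk_n (by decide +kernel) ok_a301 ok_a302 rfl

theorem ok_a306 : chk rt a306 [frog, toad, empty, toad] = true :=
  chk_n (by decide +kernel) ok_a303 ok_a304 ok_a305

theorem ok_a307 : chk rt a307 [toad, empty, toad] = true :=
  chk_n (by decide +kernel) ok_a287 ok_a291 ok_a306

theorem ok_a311 : chk rt a311 [empty, empty, frog, empty, toad] = true :=
  chk_n (by decide +kernel) ok_a308 ok_a309 ok_a310

theorem ok_a315 : chk rt a315 [empty, empty, toad, empty, frog, empty, toad] = true :=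
  chk_n (by decide +kernel) ok_a312 ok_a313 ok_a314

theorem ok_a318 : chk rt a318 [empty, toad, empty, frog, empty, toad] = true :=
  chk_n (by decide +kernel) ok_a315 ok_a316 ok_a317

theorem ok_a323 : chk rt a323 [empty, frog, toad, empty, frog, empty, toad] = true :=
  chk_n (by decide +kernel) ok_a320 ok_a321 ok_a322

theorem ok_a326 : chk rt a326 [frog, toad, empty, frog, empty, toad] = true :=
  chk_n (by decide +kernel) ok_a323 ok_a324 ok_a325

theorem ok_a327 : chk rt a327 [toad, empty, frog, empty, toad] = true :=
  chk_n (by decide +kernel) ok_a318 ok_a319 ok_a326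

theorem ok_a329 : chk rt a329 [empty, frog, empty, toad] = true :=
  chk_n (by decide +kernel) ok_a311 ok_a327 ok_a328

theorem ok_a333 : chk rt a333 [empty, empty, empty, toad, frog, empty, toad] = true :=
  chk_n (by decide +kernel) ok_a330 ok_a331 ok_a332

theorem ok_a338 : chk rt a338 [frog, empty, empty, toad, frog, empty, toad] = true :=
  chk_n (by decide +kernel) ok_a335 ok_a336 ok_a337

theorem ok_a339 : chk rt a339 [empty, empty, toad, frog, empty, toad] = true :=
  chk_n (by decide +kernel) ok_a333 ok_a334 ok_a338

theorem ok_a343 : chk rt a343 [empty, frog, empty, toad, frog, empty, toad] = true :=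
  chk_n (by decide +kernel) ok_a341 ok_a342 rfl

theorem ok_a346 : chk rt a346 [frog, empty, toad, frog, empty, toad] = true :=
  chk_n (by decide +kernel) ok_a343 ok_a344 ok_a345

theorem ok_a347 : chk rt a347 [empty, toad, frog, empty, toad] = true :=
  chk_n (by decide +kernel) ok_a339 ok_a340 ok_a346

theorem ok_a351 : chk rt a351 [empty, frog, toad, frog, empty, toad] = true :=
  chk_n (by decide +kernel) ok_a349 ok_a350 rfl

theorem ok_a355 : chk rt a355 [empty, empty, empty, toad, frog, toad, frog, empty, toad] = true :=
  chk_n (by decide +kernel) ok_a352 ok_a353 ok_a354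

theorem ok_a358 : chk rt a358 [empty, empty, toad, frog, toad, frog, empty, toad] = true :=
  chk_n (by decide +kernel) ok_a355 ok_a356 ok_a357

theorem ok_a360 : chk rt a360 [empty, toad, frog, toad, frog, empty, toad] = true :=
  chk_n (by decide +kernel) ok_a358 ok_a359 rfl

theorem ok_a361 : chk rt a361 [toad, frog, toad, frog, empty, toad] = true :=
  chk_n (by decide +kernel) ok_a360 rfl rfl

theorem ok_a362 : chk rt a362 [frog, toad, frog, empty, toad] = true :=
  chk_n (by decide +kernel) ok_a351 ok_a361 rfl

theorem ok_a363 : chk rt a363 [toad, frog, empty, toad] = true :=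
  chk_n (by decide +kernel) ok_a347 ok_a348 ok_a362

theorem ok_a367 : chk rt a367 [frog, frog, empty, toad] = true :=
  chk_n (by decide +kernel) ok_a364 ok_a365 ok_a366

theorem ok_a368 : chk rt a368 [frog, empty, toad] = true :=
  chk_n (by decide +kernel) ok_a329 ok_a363 ok_a367

theorem ok_a369 : chk rt a369 [empty, toad] = true :=
  chk_n (by decide +kernel) ok_a241 ok_a307 ok_a368

theorem ok_a373 : chk rt a373 [empty, empty, empty, empty, toad, toad] = true :=
  chk_n (by decide +kernel) ok_a370 ok_a371 ok_a372

theorem ok_a378 : chk rt a378 [empty, frog, toad, empty, empty, empty, toad, toad] = true :=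
  chk_n (by decide +kernel) ok_a375 ok_a376 ok_a377

theorem ok_a381 : chk rt a381 [frog, toad, empty, empty, empty, toad, toad] = true :=
  chk_n (by decide +kernel) ok_a378 ok_a379 ok_a380

theorem ok_a382 : chk rt a382 [toad, empty, empty, empty, toad, toad] = true :=
  chk_n (by decide +kernel) ok_a374 rfl ok_a381

theorem ok_a385 : chk rt a385 [frog, empty, empty, empty, toad, toad] = true :=
  chk_n (by decide +kernel) ok_a383 ok_a384 rfl

theorem ok_a386 : chk rt a386 [empty, empty, empty, toad, toad] = true :=
  chk_n (by decide +kernel) ok_a373 ok_a382 ok_a385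

theorem ok_a390 : chk rt a390 [empty, toad, empty, empty, toad, toad] = true :=
  chk_n (by decide +kernel) ok_a387 ok_a388 ok_a389

theorem ok_a395 : chk rt a395 [empty, frog, toad, empty, empty, toad, toad] = true :=
  chk_n (by decide +kernel) ok_a392 ok_a393 ok_a394

theorem ok_a398 : chk rt a398 [frog, toad, empty, empty, toad, toad] = true :=
  chk_n (by decide +kernel) ok_a395 ok_a396 ok_a397

theorem ok_a399 : chk rt a399 [toad, empty, empty, toad, toad] = true :=
  chk_n (by decide +kernel) ok_a390 ok_a391 ok_a398

theorem ok_a404 : chk rt a404 [toad, empty, empty, frog, empty, empty, toad, toad] = true :=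
  chk_n (by decide +kernel) ok_a401 ok_a402 ok_a403

theorem ok_a405 : chk rt a405 [empty, empty, frog, empty, empty, toad, toad] = true :=
  chk_n (by decide +kernel) ok_a400 ok_a404 rfl

theorem ok_a410 : chk rt a410 [toad, empty, toad, empty, frog, empty, empty, toad, toad] = true :=
  chk_n (by decide +kernel) ok_a407 ok_a408 ok_a409

theorem ok_a412 : chk rt a412 [empty, toad, empty, frog, empty, empty, toad, toad] = true :=
  chk_n (by decide +kernel) ok_a406 ok_a410 ok_a411

theorem ok_a415 : chk rt a415 [toad, empty, frog, empty, empty, toad, toad] = true :=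
  chk_n (by decide +kernel) ok_a412 ok_a413 ok_a414

theorem ok_a417 : chk rt a417 [empty, frog, empty, empty, toad, toad] = true :=
  chk_n (by decide +kernel) ok_a405 ok_a415 ok_a416

theorem ok_a421 : chk rt a421 [toad, frog, empty, empty, toad, toad] = true :=
  chk_n (by decide +kernel) ok_a418 ok_a419 ok_a420

theorem ok_a422 : chk rt a422 [frog, empty, empty, toad, toad] = true :=
  chk_n (by decide +kernel) ok_a417 ok_a421 rfl

theorem ok_a423 : chk rt a423 [empty, empty, toad, toad] = true :=
  chk_n (by decide +kernel) ok_a386 ok_a399 ok_a422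

theorem ok_a427 : chk rt a427 [empty, empty, toad, empty, toad, toad] = true :=
  chk_n (by decide +kernel) ok_a424 ok_a425 ok_a426

theorem ok_a433 : chk rt a433 [toad, frog, empty, toad, empty, toad, toad] = true :=
  chk_n (by decide +kernel) ok_a430 ok_a431 ok_a432

theorem ok_a435 : chk rt a435 [frog, empty, toad, empty, toad, toad] = true :=
  chk_n (by decide +kernel) ok_a429 ok_a433 ok_a434

theorem ok_a436 : chk rt a436 [empty, toad, empty, toad, toad] = true :=
  chk_n (by decide +kernel) ok_a427 ok_a428 ok_a435

theorem ok_a441 : chk rt a441 [empty, empty, frog, toad, toad, empty, toad, toad] = true :=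
  chk_n (by decide +kernel) ok_a438 ok_a439 ok_a440

theorem ok_a442 : chk rt a442 [empty, frog, toad, toad, empty, toad, toad] = true :=
  chk_n (by decide +kernel) ok_a441 rfl rfl

theorem ok_a443 : chk rt a443 [frog, toad, toad, empty, toad, toad] = true :=
  chk_n (by decide +kernel) ok_a442 rfl rfl

theorem ok_a444 : chk rt a444 [toad, toad, empty, toad, toad] = true :=
  chk_n (by decide +kernel) rfl ok_a437 ok_a443

theorem ok_a447 : chk rt a447 [empty, frog, toad, empty, toad, toad] = true :=
  chk_n (by decide +kernel) ok_a445 ok_a446 rfl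

theorem ok_a449 : chk rt a449 [frog, toad, empty, toad, toad] = true :=
  chk_n (by decide +kernel) ok_a447 rfl ok_a448

theorem ok_a450 : chk rt a450 [toad, empty, toad, toad] = true :=
  chk_n (by decide +kernel) ok_a436 ok_a444 ok_a449

theorem ok_a455 : chk rt a455 [toad, empty, empty, empty, frog, empty, toad, toad] = true :=
  chk_n (by decide +kernel) ok_a452 ok_a453 ok_a454

theorem ok_a457 : chk rt a457 [empty, empty, empty, frog, empty, toad, toad] = true :=
  chk_n (by decide +kernel) ok_a451 ok_a455 ok_a456

theorem ok_a461 : chk rt a461 [toad, empty, empty, frog, empty, toad, toad] = true :=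
  chk_n (by decide +kernel) ok_a458 ok_a459 ok_a460

theorem ok_a462 : chk rt a462 [empty, empty, frog, empty, toad, toad] = true :=
  chk_n (by decide +kernel) ok_a457 ok_a461 rfl

theorem ok_a466 : chk rt a466 [toad, empty, frog, empty, toad, toad] = true :=
  chk_n (by decide +kernel) ok_a463 ok_a464 ok_a465

theorem ok_a468 : chk rt a468 [empty, frog, empty, toad, toad] = true :=
  chk_n (by decide +kernel) ok_a462 ok_a466 ok_a467

theorem ok_a472 : chk rt a472 [toad, frog, empty, toad, toad] = true :=
  chk_n (by decide +kernel) ok_a469 ok_a470 ok_a471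

theorem ok_a474 : chk rt a474 [frog, empty, toad, toad] = true :=
  chk_n (by decide +kernel) ok_a468 ok_a472 ok_a473

theorem ok_a475 : chk rt a475 [empty, toad, toad] = true :=
  chk_n (by decide +kernel) ok_a423 ok_a450 ok_a474

theorem ok_a482 : chk rt a482 [frog, frog, toad, frog, toad, empty, toad, empty, empty, empty, toad, toad, toad] = true :=
  chk_n (by decide +kernel) ok_a479 ok_a480 ok_a481

theorem ok_a483 : chk rt a483 [frog, toad, frog, toad, empty, toad, empty, empty, empty, toad, toad, toad] = true :=
  chk_n (by decide +kernel) ok_a478 rfl ok_a482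

theorem ok_a484 : chk rt a484 [toad, frog, toad, empty, toad, empty, empty, empty, toad, toad, toad] = true :=
  chk_n (by decide +kernel) rfl rfl ok_a483

theorem ok_a485 : chk rt a485 [frog, toad, empty, toad, empty, empty, empty, toad, toad, toad] = true :=
  chk_n (by decide +kernel) rfl ok_a484 rfl

theorem ok_a486 : chk rt a486 [toad, empty, toad, empty, empty, empty, toad, toad, toad] = true :=
  chk_n (by decide +kernel) ok_a477 rfl ok_a485

theorem ok_a488 : chk rt a488 [empty, toad, empty, empty, empty, toad, toad, toad] = true :=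
  chk_n (by decide +kernel) rfl ok_a486 ok_a487

theorem ok_a491 : chk rt a491 [toad, empty, empty, empty, toad, toad, toad] = true :=
  chk_n (by decide +kernel) ok_a488 ok_a489 ok_a490

theorem ok_a493 : chk rt a493 [empty, empty, empty, toad, toad, toad] = true :=
  chk_n (by decide +kernel) ok_a476 ok_a491 ok_a492

theorem ok_a498 : chk rt a498 [frog, frog, toad, frog, toad, empty, empty, toad, empty, empty, toad, toad, toad] = true :=
  chk_n (by decide +kernel) ok_a496 rfl ok_a497

theorem ok_a499 : chk rt a499 [frog, toad, frog, toad, empty, empty, toad, empty, empty, toad, toad, toad] = true :=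
  chk_n (by decide +kernel) ok_a495 rfl ok_a498

theorem ok_a500 : chk rt a500 [toad, frog, toad, empty, empty, toad, empty, empty, toad, toad, toad] = true :=
  chk_n (by decide +kernel) rfl rfl ok_a499

theorem ok_a502 : chk rt a502 [frog, toad, empty, empty, toad, empty, empty, toad, toad, toad] = true :=
  chk_n (by decide +kernel) rfl ok_a500 ok_a501

theorem ok_a503 : chk rt a503 [toad, empty, empty, toad, empty, empty, toad, toad, toad] = true :=
  chk_n (by decide +kernel) ok_a494 rfl ok_a502

theorem ok_a505 : chk rt a505 [empty, empty, toad, empty, empty, toad, toad, toad] = true :=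
  chk_n (by decide +kernel) rfl ok_a503 ok_a504

theorem ok_a514 : chk rt a514 [frog, toad, toad, empty, frog, empty, toad, empty, empty, toad, toad, toad] = true :=
  chk_n (by decide +kernel) ok_a511 ok_a512 ok_a513

theorem ok_a515 : chk rt a515 [toad, toad, empty, frog, empty, toad, empty, empty, toad, toad, toad] = true :=
  chk_n (by decide +kernel) ok_a509 ok_a510 ok_a514

theorem ok_a517 : chk rt a517 [toad, empty, frog, empty, toad, empty, empty, toad, toad, toad] = true :=
  chk_n (by decide +kernel) ok_a508 ok_a515 ok_a516

theorem ok_a518 : chk rt a518 [empty, frog, empty, toad, empty, empty, toad, toad, toad] = true :=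
  chk_n (by decide +kernel) ok_a507 ok_a517 rfl

theorem ok_a522 : chk rt a522 [empty, toad, frog, empty, toad, empty, empty, toad, toad, toad] = true :=
  chk_n (by decide +kernel) ok_a519 ok_a520 ok_a521

theorem ok_a524 : chk rt a524 [toad, frog, empty, toad, empty, empty, toad, toad, toad] = true :=
  chk_n (by decide +kernel) ok_a522 rfl ok_a523

theorem ok_a526 : chk rt a526 [frog, empty, toad, empty, empty, toad, toad, toad] = true :=
  chk_n (by decide +kernel) ok_a518 ok_a524 ok_a525

theorem ok_a527 : chk rt a527 [empty, toad, empty, empty, toad, toad, toad] = true :=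
  chk_n (by decide +kernel) ok_a505 ok_a506 ok_a526

theorem ok_a533 : chk rt a533 [toad, empty, empty, frog, toad, empty, empty, toad, toad, toad] = true :=
  chk_n (by decide +kernel) ok_a530 ok_a531 ok_a532

theorem ok_a535 : chk rt a535 [empty, empty, frog, toad, empty, empty, toad, toad, toad] = true :=
  chk_n (by decide +kernel) ok_a529 ok_a533 ok_a534

theorem ok_a538 : chk rt a538 [empty, frog, toad, empty, empty, toad, toad, toad] = true :=
  chk_n (by decide +kernel) ok_a535 ok_a536 ok_a537

theorem ok_a541 : chk rt a541 [frog, toad, empty, empty, toad, toad, toad] = true :=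
  chk_n (by decide +kernel) ok_a538 ok_a539 ok_a540

theorem ok_a542 : chk rt a542 [toad, empty, empty, toad, toad, toad] = true :=
  chk_n (by decide +kernel) ok_a527 ok_a528 ok_a541

theorem ok_a546 : chk rt a546 [empty, frog, empty, empty, toad, toad, toad] = true :=
  chk_n (by decide +kernel) ok_a543 ok_a544 ok_a545

theorem ok_a550 : chk rt a550 [empty, toad, frog, empty, empty, toad, toad, toad] = true :=
  chk_n (by decide +kernel) ok_a547 ok_a548 ok_a549

theorem ok_a554 : chk rt a554 [frog, toad, frog, empty, empty, toad, toad, toad] = true :=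
  chk_n (by decide +kernel) ok_a552 ok_a553 rfl

theorem ok_a555 : chk rt a555 [toad, frog, empty, empty, toad, toad, toad] = true :=
  chk_n (by decide +kernel) ok_a550 ok_a551 ok_a554

theorem ok_a556 : chk rt a556 [frog, empty, empty, toad, toad, toad] = true :=
  chk_n (by decide +kernel) ok_a546 ok_a555 rfl

theorem ok_a557 : chk rt a557 [empty, empty, toad, toad, toad] = true :=
  chk_n (by decide +kernel) ok_a493 ok_a542 ok_a556

theorem ok_a564 : chk rt a564 [frog, frog, toad, frog, toad, empty, empty, empty, toad, empty, toad, toad, toad] = true :=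
  chk_n (by decide +kernel) ok_a561 ok_a562 ok_a563

theorem ok_a565 : chk rt a565 [frog, toad, frog, toad, empty, empty, empty, toad, empty, toad, toad, toad] = true :=
  chk_n (by decide +kernel) ok_a560 rfl ok_a564

theorem ok_a566 : chk rt a566 [toad, frog, toad, empty, empty, empty, toad, empty, toad, toad, toad] = true :=
  chk_n (by decide +kernel) rfl rfl ok_a565

theorem ok_a568 : chk rt a568 [frog, toad, empty, empty, empty, toad, empty, toad, toad, toad] = true :=
  chk_n (by decide +kernel) ok_a559 ok_a566 ok_a567

theorem ok_a569 : chk rt a569 [toad, empty, empty, empty, toad, empty, toad, toad, toad] = true :=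
  chk_n (by decide +kernel) rfl rfl ok_a568

theorem ok_a572 : chk rt a572 [frog, empty, empty, empty, toad, empty, toad, toad, toad] = true :=
  chk_n (by decide +kernel) ok_a570 ok_a571 rfl

theorem ok_a573 : chk rt a573 [empty, empty, empty, toad, empty, toad, toad, toad] = true :=
  chk_n (by decide +kernel) ok_a558 ok_a569 ok_a572

theorem ok_a578 : chk rt a578 [empty, frog, toad, empty, empty, toad, empty, toad, toad, toad] = true :=
  chk_n (by decide +kernel) ok_a575 ok_a576 ok_a577

theorem ok_a581 : chk rt a581 [frog, toad, empty, empty, toad, empty, toad, toad, toad] = true :=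
  chk_n (by decide +kernel) ok_a578 ok_a579 ok_a580

theorem ok_a582 : chk rt a582 [toad, empty, empty, toad, empty, toad, toad, toad] = true :=
  chk_n (by decide +kernel) ok_a574 rfl ok_a581

theorem ok_a592 : chk rt a592 [frog, frog, toad, toad, empty, frog, empty, empty, toad, empty, toad, toad, toad] = true :=
  chk_n (by decide +kernel) ok_a589 ok_a590 ok_a591

theorem ok_a593 : chk rt a593 [frog, toad, toad, empty, frog, empty, empty, toad, empty, toad, toad, toad] = true :=
  chk_n (by decide +kernel) ok_a587 ok_a588 ok_a592

theorem ok_a594 : chk rt a594 [toad, toad, empty, frog, empty, empty, toad, empty, toad, toad, toad] = true :=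
  chk_n (by decide +kernel) ok_a585 ok_a586 ok_a593

theorem ok_a596 : chk rt a596 [toad, empty, frog, empty, empty, toad, empty, toad, toad, toad] = true :=
  chk_n (by decide +kernel) ok_a584 ok_a594 ok_a595

theorem ok_a597 : chk rt a597 [empty, frog, empty, empty, toad, empty, toad, toad, toad] = true :=
  chk_n (by decide +kernel) ok_a583 ok_a596 rfl

theorem ok_a602 : chk rt a602 [toad, empty, toad, frog, empty, empty, toad, empty, toad, toad, toad] = true :=
  chk_n (by decide +kernel) ok_a599 ok_a600 ok_a601

theorem ok_a603 : chk rt a603 [empty, toad, frog, empty, empty, toad, empty, toad, toad, toad] = true :=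
  chk_n (by decide +kernel) ok_a598 ok_a602 rfl

theorem ok_a605 : chk rt a605 [toad, frog, empty, empty, toad, empty, toad, toad, toad] = true :=
  chk_n (by decide +kernel) ok_a603 rfl ok_a604

theorem ok_a607 : chk rt a607 [frog, empty, empty, toad, empty, toad, toad, toad] = true :=
  chk_n (by decide +kernel) ok_a597 ok_a605 ok_a606

theorem ok_a608 : chk rt a608 [empty, empty, toad, empty, toad, toad, toad] = true :=
  chk_n (by decide +kernel) ok_a573 ok_a582 ok_a607

theorem ok_a612 : chk rt a612 [toad, empty, toad, empty, toad, toad, toad] = true :=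
  chk_n (by decide +kernel) ok_a609 ok_a610 ok_a611

theorem ok_a618 : chk rt a618 [toad, toad, empty, empty, frog, empty, toad, empty, toad, toad, toad] = true :=
  chk_n (by decide +kernel) ok_a615 ok_a616 ok_a617

theorem ok_a620 : chk rt a620 [toad, empty, empty, frog, empty, toad, empty, toad, toad, toad] = true :=
  chk_n (by decide +kernel) ok_a614 ok_a618 ok_a619

theorem ok_a622 : chk rt a622 [empty, empty, frog, empty, toad, empty, toad, toad, toad] = true :=
  chk_n (by decide +kernel) ok_a613 ok_a620 ok_a621

theorem ok_a627 : chk rt a627 [toad, empty, toad, empty, frog, empty, toad, empty, toad, toad, toad] = true :=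
  chk_n (by decide +kernel) ok_a624 ok_a625 ok_a626

theorem ok_a629 : chk rt a629 [empty, toad, empty, frog, empty, toad, empty, toad, toad, toad] = true :=
  chk_n (by decide +kernel) ok_a623 ok_a627 ok_a628

theorem ok_a632 : chk rt a632 [toad, empty, frog, empty, toad, empty, toad, toad, toad] = true :=
  chk_n (by decide +kernel) ok_a629 ok_a630 ok_a631

theorem ok_a634 : chk rt a634 [empty, frog, empty, toad, empty, toad, toad, toad] = true :=
  chk_n (by decide +kernel) ok_a622 ok_a632 ok_a633

theorem ok_a638 : chk rt a638 [frog, frog, empty, toad, empty, toad, toad, toad] = true :=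
  chk_n (by decide +kernel) ok_a636 ok_a637 rfl

theorem ok_a639 : chk rt a639 [frog, empty, toad, empty, toad, toad, toad] = true :=
  chk_n (by decide +kernel) ok_a634 ok_a635 ok_a638

theorem ok_a640 : chk rt a640 [empty, toad, empty, toad, toad, toad] = true :=
  chk_n (by decide +kernel) ok_a608 ok_a612 ok_a639

theorem ok_a647 : chk rt a647 [toad, toad, empty, empty, empty, frog, toad, empty, toad, toad, toad] = true :=
  chk_n (by decide +kernel) ok_a644 ok_a645 ok_a646

theorem ok_a649 : chk rt a649 [toad, empty, empty, empty, frog, toad, empty, toad, toad, toad] = true :=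
  chk_n (by decide +kernel) ok_a643 ok_a647 ok_a648

theorem ok_a651 : chk rt a651 [empty, empty, empty, frog, toad, empty, toad, toad, toad] = true :=
  chk_n (by decide +kernel) ok_a642 ok_a649 ok_a650

theorem ok_a656 : chk rt a656 [toad, empty, toad, empty, empty, frog, toad, empty, toad, toad, toad] = true :=
  chk_n (by decide +kernel) ok_a653 ok_a654 ok_a655

theorem ok_a658 : chk rt a658 [empty, toad, empty, empty, frog, toad, empty, toad, toad, toad] = true :=
  chk_n (by decide +kernel) ok_a652 ok_a656 ok_a657

theorem ok_a663 : chk rt a663 [empty, frog, toad, empty, empty, frog, toad, empty, toad, toad, toad] = true :=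
  chk_n (by decide +kernel) ok_a660 ok_a661 ok_a662

theorem ok_a664 : chk rt a664 [frog, toad, empty, empty, frog, toad, empty, toad, toad, toad] = true :=
  chk_n (by decide +kernel) ok_a663 rfl rfl

theorem ok_a665 : chk rt a665 [toad, empty, empty, frog, toad, empty, toad, toad, toad] = true :=
  chk_n (by decide +kernel) ok_a658 ok_a659 ok_a664

theorem ok_a667 : chk rt a667 [empty, empty, frog, toad, empty, toad, toad, toad] = true :=
  chk_n (by decide +kernel) ok_a651 ok_a665 ok_a666

theorem ok_a670 : chk rt a670 [empty, toad, empty, frog, toad, empty, toad, toad, toad] = true :=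
  chk_n (by decide +kernel) ok_a668 rfl ok_a669

theorem ok_a672 : chk rt a672 [toad, empty, frog, toad, empty, toad, toad, toad] = true :=
  chk_n (by decide +kernel) ok_a670 rfl ok_a671

theorem ok_a674 : chk rt a674 [empty, frog, toad, empty, toad, toad, toad] = true :=
  chk_n (by decide +kernel) ok_a667 ok_a672 ok_a673

theorem ok_a677 : chk rt a677 [frog, toad, empty, toad, toad, toad] = true :=
  chk_n (by decide +kernel) ok_a674 ok_a675 ok_a676

theorem ok_a678 : chk rt a678 [toad, empty, toad, toad, toad] = true :=
  chk_n (by decide +kernel) ok_a640 ok_a641 ok_a677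

theorem ok_a682 : chk rt a682 [toad, empty, empty, frog, empty, toad, toad, toad] = true :=
  chk_n (by decide +kernel) ok_a680 ok_a681 rfl

theorem ok_a683 : chk rt a683 [empty, empty, frog, empty, toad, toad, toad] = true :=
  chk_n (by decide +kernel) ok_a679 ok_a682 rfl

theorem ok_a687 : chk rt a687 [empty, toad, empty, frog, empty, toad, toad, toad] = true :=
  chk_n (by decide +kernel) ok_a684 ok_a685 ok_a686

theorem ok_a691 : chk rt a691 [frog, toad, empty, frog, empty, toad, toad, toad] = true :=
  chk_n (by decide +kernel) ok_a689 ok_a690 rfl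

theorem ok_a692 : chk rt a692 [toad, empty, frog, empty, toad, toad, toad] = true :=
  chk_n (by decide +kernel) ok_a687 ok_a688 ok_a691

theorem ok_a693 : chk rt a693 [empty, frog, empty, toad, toad, toad] = true :=
  chk_n (by decide +kernel) ok_a683 ok_a692 rfl

theorem ok_a697 : chk rt a697 [empty, empty, toad, frog, empty, toad, toad, toad] = true :=
  chk_n (by decide +kernel) ok_a694 ok_a695 ok_a696

theorem ok_a699 : chk rt a699 [empty, toad, frog, empty, toad, toad, toad] = true :=
  chk_n (by decide +kernel) ok_a697 ok_a698 rfl

theorem ok_a701 : chk rt a701 [toad, frog, empty, toad, toad, toad] = true :=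
  chk_n (by decide +kernel) ok_a699 rfl ok_a700

theorem ok_a703 : chk rt a703 [frog, empty, toad, toad, toad] = true :=
  chk_n (by decide +kernel) ok_a693 ok_a701 ok_a702

theorem ok_a704 : chk rt a704 [empty, toad, toad, toad] = true :=
  chk_n (by decide +kernel) ok_a557 ok_a678 ok_a703

theorem ok_a709 : chk rt a709 [frog, toad, empty, empty, empty, empty, toad, toad, toad, toad] = true :=
  chk_n (by decide +kernel) ok_a706 ok_a707 ok_a708

theorem ok_a710 : chk rt a710 [toad, empty, empty, empty, empty, toad, toad, toad, toad] = true :=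
  chk_n (by decide +kernel) rfl rfl ok_a709

theorem ok_a715 : chk rt a715 [toad, frog, empty, empty, empty, empty, toad, toad, toad, toad] = true :=
  chk_n (by decide +kernel) ok_a712 ok_a713 ok_a714

theorem ok_a716 : chk rt a716 [frog, empty, empty, empty, empty, toad, toad, toad, toad] = true :=
  chk_n (by decide +kernel) ok_a711 ok_a715 rfl

theorem ok_a717 : chk rt a717 [empty, empty, empty, empty, toad, toad, toad, toad] = true :=
  chk_n (by decide +kernel) ok_a705 ok_a710 ok_a716

theorem ok_a722 : chk rt a722 [frog, empty, toad, empty, empty, empty, toad, toad, toad, toad] = true :=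
  chk_n (by decide +kernel) ok_a719 ok_a720 ok_a721

theorem ok_a723 : chk rt a723 [empty, toad, empty, empty, empty, toad, toad, toad, toad] = true :=
  chk_n (by decide +kernel) rfl ok_a718 ok_a722

theorem ok_a727 : chk rt a727 [frog, empty, toad, toad, empty, empty, empty, toad, toad, toad, toad] = true :=
  chk_n (by decide +kernel) ok_a724 ok_a725 ok_a726

theorem ok_a728 : chk rt a728 [empty, toad, toad, empty, empty, empty, toad, toad, toad, toad] = true :=
  chk_n (by decide +kernel) rfl rfl ok_a727

theorem ok_a733 : chk rt a733 [empty, frog, toad, toad, empty, empty, empty, toad, toad, toad, toad] = true :=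
  chk_n (by decide +kernel) ok_a730 ok_a731 ok_a732

theorem ok_a735 : chk rt a735 [frog, toad, toad, empty, empty, empty, toad, toad, toad, toad] = true :=
  chk_n (by decide +kernel) ok_a733 ok_a734 rfl

theorem ok_a736 : chk rt a736 [toad, toad, empty, empty, empty, toad, toad, toad, toad] = true :=
  chk_n (by decide +kernel) ok_a728 ok_a729 ok_a735

theorem ok_a741 : chk rt a741 [toad, empty, frog, toad, empty, empty, empty, toad, toad, toad, toad] = true :=
  chk_n (by decide +kernel) ok_a738 ok_a739 ok_a740

theorem ok_a743 : chk rt a743 [empty, frog, toad, empty, empty, empty, toad, toad, toad, toad] = true :=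
  chk_n (by decide +kernel) ok_a737 ok_a741 ok_a742

theorem ok_a746 : chk rt a746 [frog, toad, empty, empty, empty, toad, toad, toad, toad] = true :=
  chk_n (by decide +kernel) ok_a743 ok_a744 ok_a745

theorem ok_a747 : chk rt a747 [toad, empty, empty, empty, toad, toad, toad, toad] = true :=
  chk_n (by decide +kernel) ok_a723 ok_a736 ok_a746

theorem ok_a752 : chk rt a752 [toad, toad, empty, frog, empty, empty, empty, toad, toad, toad, toad] = true :=
  chk_n (by decide +kernel) ok_a750 rfl ok_a751

theorem ok_a754 : chk rt a754 [toad, empty, frog, empty, empty, empty, toad, toad, toad, toad] = true :=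
  chk_n (by decide +kernel) ok_a749 ok_a752 ok_a753

theorem ok_a755 : chk rt a755 [empty, frog, empty, empty, empty, toad, toad, toad, toad] = true :=
  chk_n (by decide +kernel) ok_a748 ok_a754 rfl

theorem ok_a758 : chk rt a758 [toad, frog, empty, empty, empty, toad, toad, toad, toad] = true :=
  chk_n (by decide +kernel) ok_a756 rfl ok_a757

theorem ok_a760 : chk rt a760 [frog, empty, empty, empty, toad, toad, toad, toad] = true :=
  chk_n (by decide +kernel) ok_a755 ok_a758 ok_a759

theorem ok_a761 : chk rt a761 [empty, empty, empty, toad, toad, toad, toad] = true :=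
  chk_n (by decide +kernel) ok_a717 ok_a747 ok_a760

theorem ok_a766 : chk rt a766 [frog, empty, empty, toad, empty, empty, toad, toad, toad, toad] = true :=
  chk_n (by decide +kernel) ok_a763 ok_a764 ok_a765

theorem ok_a767 : chk rt a767 [empty, empty, toad, empty, empty, toad, toad, toad, toad] = true :=
  chk_n (by decide +kernel) rfl ok_a762 ok_a766

theorem ok_a773 : chk rt a773 [frog, empty, toad, empty, toad, empty, empty, toad, toad, toad, toad] = true :=
  chk_n (by decide +kernel) ok_a770 ok_a771 ok_a772

theorem ok_a774 : chk rt a774 [empty, toad, empty, toad, empty, empty, toad, toad, toad, toad] = true :=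
  chk_n (by decide +kernel) ok_a768 ok_a769 ok_a773

theorem ok_a777 : chk rt a777 [toad, empty, toad, empty, empty, toad, toad, toad, toad] = true :=
  chk_n (by decide +kernel) ok_a774 ok_a775 ok_a776

theorem ok_a782 : chk rt a782 [toad, toad, empty, frog, empty, toad, empty, empty, toad, toad, toad, toad] = true :=
  chk_n (by decide +kernel) ok_a780 rfl ok_a781

theorem ok_a784 : chk rt a784 [toad, empty, frog, empty, toad, empty, empty, toad, toad, toad, toad] = true :=
  chk_n (by decide +kernel) ok_a779 ok_a782 ok_a783

theorem ok_a785 : chk rt a785 [empty, frog, empty, toad, empty, empty, toad, toad, toad, toad] = true :=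
  chk_n (by decide +kernel) ok_a778 ok_a784 rfl

theorem ok_a788 : chk rt a788 [frog, empty, toad, empty, empty, toad, toad, toad, toad] = true :=
  chk_n (by decide +kernel) ok_a785 ok_a786 ok_a787

theorem ok_a789 : chk rt a789 [empty, toad, empty, empty, toad, toad, toad, toad] = true :=
  chk_n (by decide +kernel) ok_a767 ok_a777 ok_a788

theorem ok_a795 : chk rt a795 [toad, toad, empty, empty, frog, toad, empty, empty, toad, toad, toad, toad] = true :=
  chk_n (by decide +kernel) ok_a793 rfl ok_a794

theorem ok_a797 : chk rt a797 [toad, empty, empty, frog, toad, empty, empty, toad, toad, toad, toad] = true :=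
  chk_n (by decide +kernel) ok_a792 ok_a795 ok_a796

theorem ok_a798 : chk rt a798 [empty, empty, frog, toad, empty, empty, toad, toad, toad, toad] = true :=
  chk_n (by decide +kernel) ok_a791 ok_a797 rfl

theorem ok_a800 : chk rt a800 [empty, frog, toad, empty, empty, toad, toad, toad, toad] = true :=
  chk_n (by decide +kernel) ok_a798 ok_a799 rfl

theorem ok_a801 : chk rt a801 [frog, toad, empty, empty, toad, toad, toad, toad] = true :=
  chk_n (by decide +kernel) ok_a800 rfl rfl

theorem ok_a802 : chk rt a802 [toad, empty, empty, toad, toad, toad, toad] = true :=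
  chk_n (by decide +kernel) ok_a789 ok_a790 ok_a801

theorem ok_a807 : chk rt a807 [toad, toad, empty, empty, frog, empty, empty, toad, toad, toad, toad] = true :=
  chk_n (by decide +kernel) ok_a805 rfl ok_a806

theorem ok_a809 : chk rt a809 [toad, empty, empty, frog, empty, empty, toad, toad, toad, toad] = true :=
  chk_n (by decide +kernel) ok_a804 ok_a807 ok_a808

theorem ok_a811 : chk rt a811 [empty, empty, frog, empty, empty, toad, toad, toad, toad] = true :=
  chk_n (by decide +kernel) ok_a803 ok_a809 ok_a810

theorem ok_a816 : chk rt a816 [toad, empty, toad, empty, frog, empty, empty, toad, toad, toad, toad] = true :=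
  chk_n (by decide +kernel) ok_a813 ok_a814 ok_a815

theorem ok_a818 : chk rt a818 [empty, toad, empty, frog, empty, empty, toad, toad, toad, toad] = true :=
  chk_n (by decide +kernel) ok_a812 ok_a816 ok_a817

theorem ok_a821 : chk rt a821 [toad, empty, frog, empty, empty, toad, toad, toad, toad] = true :=
  chk_n (by decide +kernel) ok_a818 ok_a819 ok_a820

theorem ok_a823 : chk rt a823 [empty, frog, empty, empty, toad, toad, toad, toad] = true :=
  chk_n (by decide +kernel) ok_a811 ok_a821 ok_a822

theorem ok_a826 : chk rt a826 [frog, empty, empty, toad, toad, toad, toad] = true :=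
  chk_n (by decide +kernel) ok_a823 ok_a824 ok_a825

theorem ok_a827 : chk rt a827 [empty, empty, toad, toad, toad, toad] = true :=
  chk_n (by decide +kernel) ok_a761 ok_a802 ok_a826

theorem ok_a830 : chk rt a830 [empty, empty, empty, toad, empty, toad, toad, toad, toad] = true :=
  chk_n (by decide +kernel) rfl ok_a828 ok_a829

theorem ok_a834 : chk rt a834 [empty, toad, empty, empty, toad, empty, toad, toad, toad, toad] = true :=
  chk_n (by decide +kernel) ok_a831 ok_a832 ok_a833

theorem ok_a837 : chk rt a837 [toad, empty, empty, toad, empty, toad, toad, toad, toad] = true :=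
  chk_n (by decide +kernel) ok_a834 ok_a835 ok_a836

theorem ok_a839 : chk rt a839 [empty, empty, toad, empty, toad, toad, toad, toad] = true :=
  chk_n (by decide +kernel) ok_a830 ok_a837 ok_a838

theorem ok_a843 : chk rt a843 [empty, frog, empty, toad, empty, toad, toad, toad, toad] = true :=
  chk_n (by decide +kernel) ok_a841 ok_a842 rfl

theorem ok_a844 : chk rt a844 [frog, empty, toad, empty, toad, toad, toad, toad] = true :=
  chk_n (by decide +kernel) ok_a843 rfl rfl

theorem ok_a845 : chk rt a845 [empty, toad, empty, toad, toad, toad, toad] = true :=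
  chk_n (by decide +kernel) ok_a839 ok_a840 ok_a844

theorem ok_a848 : chk rt a848 [empty, empty, frog, toad, empty, toad, toad, toad, toad] = true :=
  chk_n (by decide +kernel) ok_a846 ok_a847 rfl

theorem ok_a850 : chk rt a850 [empty, frog, toad, empty, toad, toad, toad, toad] = true :=
  chk_n (by decide +kernel) ok_a848 ok_a849 rfl

theorem ok_a851 : chk rt a851 [frog, toad, empty, toad, toad, toad, toad] = true :=
  chk_n (by decide +kernel) ok_a850 rfl rfl

theorem ok_a852 : chk rt a852 [toad, empty, toad, toad, toad, toad] = true :=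
  chk_n (by decide +kernel) ok_a845 rfl ok_a851

theorem ok_a855 : chk rt a855 [empty, empty, empty, frog, empty, toad, toad, toad, toad] = true :=
  chk_n (by decide +kernel) rfl ok_a853 ok_a854

theorem ok_a858 : chk rt a858 [toad, empty, empty, frog, empty, toad, toad, toad, toad] = true :=
  chk_n (by decide +kernel) ok_a856 rfl ok_a857

theorem ok_a859 : chk rt a859 [empty, empty, frog, empty, toad, toad, toad, toad] = true :=
  chk_n (by decide +kernel) ok_a855 ok_a858 rfl

theorem ok_a862 : chk rt a862 [empty, frog, empty, toad, toad, toad, toad] = true :=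
  chk_n (by decide +kernel) ok_a859 ok_a860 ok_a861

theorem ok_a864 : chk rt a864 [frog, empty, toad, toad, toad, toad] = true :=
  chk_n (by decide +kernel) ok_a862 ok_a863 rfl

theorem ok_a865 : chk rt a865 [empty, toad, toad, toad, toad] = true :=
  chk_n (by decide +kernel) ok_a827 ok_a852 ok_a864

theorem ok_a868 : chk rt a868 [empty, empty, empty, empty, toad, toad, toad, toad, toad] = true :=
  chk_n (by decide +kernel) rfl ok_a866 ok_a867

theorem ok_a872 : chk rt a872 [empty, toad, empty, empty, empty, toad, toad, toad, toad, toad] = true :=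
  chk_n (by decide +kernel) ok_a869 ok_a870 ok_a871

theorem ok_a875 : chk rt a875 [toad, empty, empty, empty, toad, toad, toad, toad, toad] = true :=
  chk_n (by decide +kernel) ok_a872 ok_a873 ok_a874

theorem ok_a877 : chk rt a877 [empty, empty, empty, toad, toad, toad, toad, toad] = true :=
  chk_n (by decide +kernel) ok_a868 ok_a875 ok_a876

theorem ok_a881 : chk rt a881 [empty, empty, toad, empty, empty, toad, toad, toad, toad, toad] = true :=
  chk_n (by decide +kernel) ok_a878 ok_a879 ok_a880

theorem ok_a884 : chk rt a884 [empty, toad, empty, empty, toad, toad, toad, toad, toad] = true :=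
  chk_n (by decide +kernel) ok_a881 ok_a882 ok_a883

theorem ok_a886 : chk rt a886 [toad, empty, empty, toad, toad, toad, toad, toad] = true :=
  chk_n (by decide +kernel) ok_a884 rfl ok_a885

theorem ok_a889 : chk rt a889 [empty, frog, empty, empty, toad, toad, toad, toad, toad] = true :=
  chk_n (by decide +kernel) ok_a887 ok_a888 rfl

theorem ok_a890 : chk rt a890 [frog, empty, empty, toad, toad, toad, toad, toad] = true :=
  chk_n (by decide +kernel) ok_a889 rfl rfl

theorem ok_a891 : chk rt a891 [empty, empty, toad, toad, toad, toad, toad] = true :=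
  chk_n (by decide +kernel) ok_a877 ok_a886 ok_a890

theorem ok_a895 : chk rt a895 [empty, empty, toad, empty, toad, toad, toad, toad, toad] = true :=
  chk_n (by decide +kernel) ok_a892 ok_a893 ok_a894

theorem ok_a896 : chk rt a896 [empty, toad, empty, toad, toad, toad, toad, toad] = true :=
  chk_n (by decide +kernel) ok_a895 rfl rfl

theorem ok_a897 : chk rt a897 [toad, empty, toad, toad, toad, toad, toad] = true :=
  chk_n (by decide +kernel) ok_a896 rfl rfl

theorem ok_a899 : chk rt a899 [empty, toad, toad, toad, toad, toad] = true :=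
  chk_n (by decide +kernel) ok_a891 ok_a897 ok_a898

theorem ok_a902 : chk rt a902 [empty, empty, empty, toad, toad, toad, toad, toad, toad] = true :=
  chk_n (by decide +kernel) ok_a900 ok_a901 rfl

theorem ok_a904 : chk rt a904 [empty, empty, toad, toad, toad, toad, toad, toad] = true :=
  chk_n (by decide +kernel) ok_a902 ok_a903 rfl

theorem ok_a906 : chk rt a906 [empty, toad, toad, toad, toad, toad, toad] = true :=
  chk_n (by decide +kernel) ok_a904 ok_a905 rfl

theorem ok_a908 : chk rt a908 [toad, toad, toad, toad, toad, toad] = true :=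
  chk_n (by decide +kernel) ok_a906 ok_a907 rfl

theorem ok_a910 : chk rt a910 [toad, toad, toad, toad, toad] = true :=
  chk_n (by decide +kernel) ok_a899 ok_a908 ok_a909

theorem ok_a914 : chk rt a914 [empty, empty, empty, empty, frog, toad, toad, toad, toad] = true :=
  chk_n (by decide +kernel) ok_a911 ok_a912 ok_a913

theorem ok_a917 : chk rt a917 [toad, empty, empty, empty, frog, toad, toad, toad, toad] = true :=
  chk_n (by decide +kernel) ok_a915 rfl ok_a916

theorem ok_a919 : chk rt a919 [empty, empty, empty, frog, toad, toad, toad, toad] = true :=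
  chk_n (by decide +kernel) ok_a914 ok_a917 ok_a918

theorem ok_a921 : chk rt a921 [empty, empty, frog, toad, toad, toad, toad] = true :=
  chk_n (by decide +kernel) ok_a919 ok_a920 rfl

theorem ok_a924 : chk rt a924 [empty, toad, empty, frog, toad, toad, toad, toad] = true :=
  chk_n (by decide +kernel) ok_a922 rfl ok_a923

theorem ok_a925 : chk rt a925 [toad, empty, frog, toad, toad, toad, toad] = true :=
  chk_n (by decide +kernel) ok_a924 rfl rfl

theorem ok_a926 : chk rt a926 [empty, frog, toad, toad, toad, toad] = true :=
  chk_n (by decide +kernel) ok_a921 ok_a925 rfl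

theorem ok_a929 : chk rt a929 [empty, empty, empty, empty, toad, frog, toad, toad, toad, toad] = true :=
  chk_n (by decide +kernel) ok_a927 ok_a928 rfl

theorem ok_a932 : chk rt a932 [empty, empty, empty, toad, frog, toad, toad, toad, toad] = true :=
  chk_n (by decide +kernel) ok_a929 ok_a930 ok_a931

theorem ok_a934 : chk rt a934 [empty, empty, toad, frog, toad, toad, toad, toad] = true :=
  chk_n (by decide +kernel) ok_a932 ok_a933 rfl

theorem ok_a935 : chk rt a935 [empty, toad, frog, toad, toad, toad, toad] = true :=
  chk_n (by decide +kernel) ok_a934 rfl rfl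

theorem ok_a936 : chk rt a936 [toad, frog, toad, toad, toad, toad] = true :=
  chk_n (by decide +kernel) ok_a935 rfl rfl

theorem ok_a937 : chk rt a937 [frog, toad, toad, toad, toad] = true :=
  chk_n (by decide +kernel) ok_a926 ok_a936 rfl

theorem ok_a938 : chk rt a938 [toad, toad, toad, toad] = true :=
  chk_n (by decide +kernel) ok_a865 ok_a910 ok_a937

theorem ok_a942 : chk rt a942 [toad, empty, empty, frog, toad, toad, toad] = true :=
  chk_n (by decide +kernel) ok_a940 rfl ok_a941

theorem ok_a944 : chk rt a944 [empty, empty, frog, toad, toad, toad] = true :=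
  chk_n (by decide +kernel) ok_a939 ok_a942 ok_a943

theorem ok_a948 : chk rt a948 [empty, empty, toad, empty, frog, toad, toad, toad] = true :=
  chk_n (by decide +kernel) ok_a945 ok_a946 ok_a947

theorem ok_a951 : chk rt a951 [empty, toad, empty, frog, toad, toad, toad] = true :=
  chk_n (by decide +kernel) ok_a948 ok_a949 ok_a950

theorem ok_a952 : chk rt a952 [toad, empty, frog, toad, toad, toad] = true :=
  chk_n (by decide +kernel) ok_a951 rfl rfl

theorem ok_a953 : chk rt a953 [empty, frog, toad, toad, toad] = true :=
  chk_n (by decide +kernel) ok_a944 ok_a952 rfl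

theorem ok_a957 : chk rt a957 [toad, empty, empty, empty, empty, toad, frog, toad, toad, toad] = true :=
  chk_n (by decide +kernel) ok_a954 ok_a955 ok_a956

theorem ok_a959 : chk rt a959 [empty, empty, empty, empty, toad, frog, toad, toad, toad] = true :=
  chk_n (by decide +kernel) rfl ok_a957 ok_a958

theorem ok_a963 : chk rt a963 [empty, toad, empty, empty, empty, toad, frog, toad, toad, toad] = true :=
  chk_n (by decide +kernel) ok_a960 ok_a961 ok_a962

theorem ok_a965 : chk rt a965 [toad, empty, empty, empty, toad, frog, toad, toad, toad] = true :=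
  chk_n (by decide +kernel) ok_a963 rfl ok_a964

theorem ok_a967 : chk rt a967 [empty, empty, empty, toad, frog, toad, toad, toad] = true :=
  chk_n (by decide +kernel) ok_a959 ok_a965 ok_a966

theorem ok_a969 : chk rt a969 [empty, empty, toad, frog, toad, toad, toad] = true :=
  chk_n (by decide +kernel) ok_a967 ok_a968 rfl

theorem ok_a970 : chk rt a970 [empty, toad, frog, toad, toad, toad] = true :=
  chk_n (by decide +kernel) ok_a969 rfl rfl

theorem ok_a971 : chk rt a971 [toad, frog, toad, toad, toad] = true :=
  chk_n (by decide +kernel) ok_a970 rfl rfl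

theorem ok_a972 : chk rt a972 [frog, toad, toad, toad] = true :=
  chk_n (by decide +kernel) ok_a953 ok_a971 rfl

theorem ok_a973 : chk rt a973 [toad, toad, toad] = true :=
  chk_n (by decide +kernel) ok_a704 ok_a938 ok_a972

theorem ok_a977 : chk rt a977 [empty, empty, empty, empty, frog, toad, toad] = true :=
  chk_n (by decide +kernel) ok_a974 ok_a975 ok_a976

theorem ok_a981 : chk rt a981 [toad, empty, empty, empty, frog, toad, toad] = true :=
  chk_n (by decide +kernel) ok_a978 ok_a979 ok_a980

theorem ok_a983 : chk rt a983 [empty, empty, empty, frog, toad, toad] = true :=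
  chk_n (by decide +kernel) ok_a977 ok_a981 ok_a982

theorem ok_a987 : chk rt a987 [empty, empty, toad, empty, empty, frog, toad, toad] = true :=
  chk_n (by decide +kernel) ok_a984 ok_a985 ok_a986

theorem ok_a990 : chk rt a990 [empty, toad, empty, empty, frog, toad, toad] = true :=
  chk_n (by decide +kernel) ok_a987 ok_a988 ok_a989

theorem ok_a995 : chk rt a995 [empty, empty, frog, toad, empty, empty, frog, toad, toad] = true :=
  chk_n (by decide +kernel) ok_a992 ok_a993 ok_a994

theorem ok_a997 : chk rt a997 [empty, frog, toad, empty, empty, frog, toad, toad] = true :=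
  chk_n (by decide +kernel) ok_a995 ok_a996 rfl

theorem ok_a999 : chk rt a999 [frog, toad, empty, empty, frog, toad, toad] = true :=
  chk_n (by decide +kernel) ok_a997 ok_a998 rfl

theorem ok_a1000 : chk rt a1000 [toad, empty, empty, frog, toad, toad] = true :=
  chk_n (by decide +kernel) ok_a990 ok_a991 ok_a999

theorem ok_a1002 : chk rt a1002 [empty, empty, frog, toad, toad] = true :=
  chk_n (by decide +kernel) ok_a983 ok_a1000 ok_a1001

theorem ok_a1006 : chk rt a1006 [empty, empty, toad, empty, frog, toad, toad] = true :=
  chk_n (by decide +kernel) ok_a1003 ok_a1004 ok_a1005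

theorem ok_a1009 : chk rt a1009 [empty, toad, empty, frog, toad, toad] = true :=
  chk_n (by decide +kernel) ok_a1006 ok_a1007 ok_a1008

theorem ok_a1012 : chk rt a1012 [toad, empty, frog, toad, toad] = true :=
  chk_n (by decide +kernel) ok_a1009 ok_a1010 ok_a1011

theorem ok_a1013 : chk rt a1013 [empty, frog, toad, toad] = true :=
  chk_n (by decide +kernel) ok_a1002 ok_a1012 rfl

theorem ok_a1017 : chk rt a1017 [empty, empty, empty, empty, toad, frog, toad, toad] = true :=
  chk_n (by decide +kernel) ok_a1014 ok_a1015 ok_a1016

theorem ok_a1020 : chk rt a1020 [empty, empty, empty, toad, frog, toad, toad] = true :=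
  chk_n (by decide +kernel) ok_a1017 ok_a1018 ok_a1019

theorem ok_a1023 : chk rt a1023 [empty, empty, toad, frog, toad, toad] = true :=
  chk_n (by decide +kernel) ok_a1020 ok_a1021 ok_a1022

theorem ok_a1025 : chk rt a1025 [empty, toad, frog, toad, toad] = true :=
  chk_n (by decide +kernel) ok_a1023 rfl ok_a1024

theorem ok_a1026 : chk rt a1026 [toad, frog, toad, toad] = true :=
  chk_n (by decide +kernel) ok_a1025 rfl rfl

theorem ok_a1027 : chk rt a1027 [frog, toad, toad] = true :=
  chk_n (by decide +kernel) ok_a1013 ok_a1026 rfl

theorem ok_a1028 : chk rt a1028 [toad, toad] = true :=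
  chk_n (by decide +kernel) ok_a475 ok_a973 ok_a1027

theorem ok_a1033 : chk rt a1033 [toad, empty, empty, empty, frog, toad] = true :=
  chk_n (by decide +kernel) ok_a1030 ok_a1031 ok_a1032

theorem ok_a1035 : chk rt a1035 [empty, empty, empty, frog, toad] = true :=
  chk_n (by decide +kernel) ok_a1029 ok_a1033 ok_a1034

theorem ok_a1039 : chk rt a1039 [empty, empty, toad, empty, empty, frog, toad] = true :=
  chk_n (by decide +kernel) ok_a1036 ok_a1037 ok_a1038

theorem ok_a1044 : chk rt a1044 [frog, empty, toad, empty, empty, frog, toad] = true :=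
  chk_n (by decide +kernel) ok_a1041 ok_a1042 ok_a1043

theorem ok_a1045 : chk rt a1045 [empty, toad, empty, empty, frog, toad] = true :=
  chk_n (by decide +kernel) ok_a1039 ok_a1040 ok_a1044

theorem ok_a1050 : chk rt a1050 [empty, empty, frog, toad, empty, empty, frog, toad] = true :=
  chk_n (by decide +kernel) ok_a1047 ok_a1048 ok_a1049

theorem ok_a1053 : chk rt a1053 [empty, frog, toad, empty, empty, frog, toad] = true :=
  chk_n (by decide +kernel) ok_a1050 ok_a1051 ok_a1052

theorem ok_a1056 : chk rt a1056 [frog, toad, empty, empty, frog, toad] = true :=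
  chk_n (by decide +kernel) ok_a1053 ok_a1054 ok_a1055

theorem ok_a1057 : chk rt a1057 [toad, empty, empty, frog, toad] = true :=
  chk_n (by decide +kernel) ok_a1045 ok_a1046 ok_a1056

theorem ok_a1061 : chk rt a1061 [frog, empty, empty, frog, toad] = true :=
  chk_n (by decide +kernel) ok_a1058 ok_a1059 ok_a1060

theorem ok_a1062 : chk rt a1062 [empty, empty, frog, toad] = true :=
  chk_n (by decide +kernel) ok_a1035 ok_a1057 ok_a1061

theorem ok_a1067 : chk rt a1067 [toad, empty, empty, empty, toad, empty, frog, toad] = true :=
  chk_n (by decide +kernel) ok_a1064 ok_a1065 ok_a1066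

theorem ok_a1069 : chk rt a1069 [empty, empty, empty, toad, empty, frog, toad] = true :=
  chk_n (by decide +kernel) ok_a1063 ok_a1067 ok_a1068

theorem ok_a1073 : chk rt a1073 [empty, frog, empty, empty, toad, empty, frog, toad] = true :=
  chk_n (by decide +kernel) ok_a1071 ok_a1072 rfl

theorem ok_a1075 : chk rt a1075 [frog, empty, empty, toad, empty, frog, toad] = true :=
  chk_n (by decide +kernel) ok_a1073 ok_a1074 rfl

theorem ok_a1076 : chk rt a1076 [empty, empty, toad, empty, frog, toad] = true :=
  chk_n (by decide +kernel) ok_a1069 ok_a1070 ok_a1075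

theorem ok_a1080 : chk rt a1080 [empty, empty, frog, empty, toad, empty, frog, toad] = true :=
  chk_n (by decide +kernel) ok_a1078 ok_a1079 rfl

theorem ok_a1083 : chk rt a1083 [empty, frog, empty, toad, empty, frog, toad] = true :=
  chk_n (by decide +kernel) ok_a1080 ok_a1081 ok_a1082

theorem ok_a1086 : chk rt a1086 [frog, empty, toad, empty, frog, toad] = true :=
  chk_n (by decide +kernel) ok_a1083 ok_a1084 ok_a1085

theorem ok_a1087 : chk rt a1087 [empty, toad, empty, frog, toad] = true :=
  chk_n (by decide +kernel) ok_a1076 ok_a1077 ok_a1086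

theorem ok_a1092 : chk rt a1092 [empty, empty, frog, toad, toad, empty, frog, toad] = true :=
  chk_n (by decide +kernel) ok_a1089 ok_a1090 ok_a1091

theorem ok_a1094 : chk rt a1094 [empty, frog, toad, toad, empty, frog, toad] = true :=
  chk_n (by decide +kernel) ok_a1092 ok_a1093 rfl

theorem ok_a1096 : chk rt a1096 [frog, toad, toad, empty, frog, toad] = true :=
  chk_n (by decide +kernel) ok_a1094 ok_a1095 rfl

theorem ok_a1097 : chk rt a1097 [toad, toad, empty, frog, toad] = true :=
  chk_n (by decide +kernel) rfl ok_a1088 ok_a1096

theorem ok_a1100 : chk rt a1100 [empty, empty, frog, toad, empty, frog, toad] = true :=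
  chk_n (by decide +kernel) ok_a1098 ok_a1099 rfl

theorem ok_a1102 : chk rt a1102 [empty, frog, toad, empty, frog, toad] = true :=
  chk_n (by decide +kernel) ok_a1100 ok_a1101 rfl

theorem ok_a1105 : chk rt a1105 [frog, toad, empty, frog, toad] = true :=
  chk_n (by decide +kernel) ok_a1102 ok_a1103 ok_a1104

theorem ok_a1106 : chk rt a1106 [toad, empty, frog, toad] = true :=
  chk_n (by decide +kernel) ok_a1087 ok_a1097 ok_a1105

theorem ok_a1108 : chk rt a1108 [empty, frog, toad] = true :=
  chk_n (by decide +kernel) ok_a1062 ok_a1106 ok_a1107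

theorem ok_a1113 : chk rt a1113 [toad, toad, empty, empty, empty, empty, toad, frog, toad] = true :=
  chk_n (by decide +kernel) ok_a1111 rfl ok_a1112

theorem ok_a1115 : chk rt a1115 [toad, empty, empty, empty, empty, toad, frog, toad] = true :=
  chk_n (by decide +kernel) ok_a1110 ok_a1113 ok_a1114

theorem ok_a1120 : chk rt a1120 [toad, frog, empty, empty, empty, empty, toad, frog, toad] = true :=
  chk_n (by decide +kernel) ok_a1117 ok_a1118 ok_a1119

theorem ok_a1121 : chk rt a1121 [frog, empty, empty, empty, empty, toad, frog, toad] = true :=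
  chk_n (by decide +kernel) ok_a1116 ok_a1120 rfl

theorem ok_a1122 : chk rt a1122 [empty, empty, empty, empty, toad, frog, toad] = true :=
  chk_n (by decide +kernel) ok_a1109 ok_a1115 ok_a1121

theorem ok_a1126 : chk rt a1126 [empty, toad, empty, empty, empty, toad, frog, toad] = true :=
  chk_n (by decide +kernel) ok_a1123 ok_a1124 ok_a1125

theorem ok_a1129 : chk rt a1129 [toad, empty, empty, empty, toad, frog, toad] = true :=
  chk_n (by decide +kernel) ok_a1126 ok_a1127 ok_a1128

theorem ok_a1132 : chk rt a1132 [empty, frog, empty, empty, empty, toad, frog, toad] = true :=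
  chk_n (by decide +kernel) ok_a1130 ok_a1131 rfl

theorem ok_a1134 : chk rt a1134 [frog, empty, empty, empty, toad, frog, toad] = true :=
  chk_n (by decide +kernel) ok_a1132 rfl ok_a1133

theorem ok_a1135 : chk rt a1135 [empty, empty, empty, toad, frog, toad] = true :=
  chk_n (by decide +kernel) ok_a1122 ok_a1129 ok_a1134

theorem ok_a1139 : chk rt a1139 [frog, empty, empty, toad, frog, toad] = true :=
  chk_n (by decide +kernel) ok_a1137 ok_a1138 rfl

theorem ok_a1140 : chk rt a1140 [empty, empty, toad, frog, toad] = true :=
  chk_n (by decide +kernel) ok_a1135 ok_a1136 ok_a1139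

theorem ok_a1143 : chk rt a1143 [empty, toad, frog, toad] = true :=
  chk_n (by decide +kernel) ok_a1140 ok_a1141 ok_a1142

theorem ok_a1145 : chk rt a1145 [toad, frog, toad] = true :=
  chk_n (by decide +kernel) ok_a1143 rfl ok_a1144

theorem ok_a1148 : chk rt a1148 [empty, frog, frog, toad] = true :=
  chk_n (by decide +kernel) ok_a1146 ok_a1147 rfl

theorem ok_a1152 : chk rt a1152 [empty, empty, empty, toad, frog, frog, toad] = true :=
  chk_n (by decide +kernel) ok_a1149 ok_a1150 ok_a1151

theorem ok_a1155 : chk rt a1155 [empty, empty, toad, frog, frog, toad] = true :=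
  chk_n (by decide +kernel) ok_a1152 ok_a1153 ok_a1154

theorem ok_a1157 : chk rt a1157 [empty, toad, frog, frog, toad] = true :=
  chk_n (by decide +kernel) ok_a1155 rfl ok_a1156

theorem ok_a1158 : chk rt a1158 [toad, frog, frog, toad] = true :=
  chk_n (by decide +kernel) ok_a1157 rfl rfl

theorem ok_a1159 : chk rt a1159 [frog, frog, toad] = true :=
  chk_n (by decide +kernel) ok_a1148 ok_a1158 rfl

theorem ok_a1160 : chk rt a1160 [frog, toad] = true :=
  chk_n (by decide +kernel) ok_a1108 ok_a1145 ok_a1159

theorem ok_a1161 : chk rt a1161 [toad] = true :=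
  chk_n (by decide +kernel) ok_a369 ok_a1028 ok_a1160

theorem ok_a1162 : chk rt a1162 [] = true :=
  chk_n (by decide +kernel) ok_a139 ok_a1161 rfl

theorem ok_rt : chk rt rt [] = true := ok_a1162

end Pool.Agent.Helper807.TF
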