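import Pool.Agent.Helper807.TF.Data

/-!
# Toads and Frogs: checks
-/

set_option autoImplicit false

namespace Pool.Agent.Helper807.TF

open Cell

theorem ok_a0 : chk rt a0 [empty, empty, empty, empty] = true := by decide +kernel

theorem ok_a1 : chk rt a1 [toad, empty, empty, empty] = true := by decide +kernel

theorem ok_a3 : chk rt a3 [empty, empty, toad, empty, empty] = true := by decide +kernel

theorem ok_a4 : chk rt a4 [toad, empty, toad, empty, empty] = true := by decide +kernel

theorem ok_a5 : chk rt a5 [frog, empty, toad, empty, empty] = true := by decide +kernel

theorem ok_a7 : chk rt a7 [empty, toad, toad, empty, empty] = true := by decide +kernel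

theorem ok_a8 : chk rt a8 [toad, toad, toad, empty, empty] = true := by decide +kernel

theorem ok_a9 : chk rt a9 [frog, toad, toad, empty, empty] = true := by decide +kernel

theorem ok_a11 : chk rt a11 [empty, empty, frog, toad, empty, empty] = true := by decide +kernel

theorem ok_a12 : chk rt a12 [toad, empty, frog, toad, empty, empty] = true := by decide +kernel

theorem ok_a13 : chk rt a13 [frog, empty, frog, toad, empty, empty] = true := by decide +kernel

theorem ok_a15 : chk rt a15 [empty, empty, toad, frog, toad, empty, empty] = true := by decide +kernel

theorem ok_a16 : chk rt a16 [toad, empty, toad, frog, toad, empty, empty] = true := by decide +kernel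

theorem ok_a17 : chk rt a17 [frog, empty, toad, frog, toad, empty, empty] = true := by decide +kernel

theorem ok_a19 : chk rt a19 [toad, toad, frog, toad, empty, empty] = true := by decide +kernel

theorem ok_a20 : chk rt a20 [empty, frog, toad, frog, toad, empty, empty] = true := by decide +kernel

theorem ok_a21 : chk rt a21 [toad, frog, toad, frog, toad, empty, empty] = true := by decide +kernel

theorem ok_a22 : chk rt a22 [frog, frog, toad, frog, toad, empty, empty] = true := by decide +kernel

theorem ok_a25 : chk rt a25 [empty, frog, frog, toad, empty, empty] = true := by decide +kernel

theorem ok_a26 : chk rt a26 [toad, frog, frog, toad, empty, empty] = true := by decide +kernel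

theorem ok_a27 : chk rt a27 [frog, frog, frog, toad, empty, empty] = true := by decide +kernel

theorem ok_a32 : chk rt a32 [empty, empty, empty, toad, empty] = true := by decide +kernel

theorem ok_a33 : chk rt a33 [empty, toad, empty, empty, toad, empty] = true := by decide +kernel

theorem ok_a34 : chk rt a34 [toad, toad, empty, empty, toad, empty] = true := by decide +kernel

theorem ok_a35 : chk rt a35 [frog, toad, empty, empty, toad, empty] = true := by decide +kernel

theorem ok_a37 : chk rt a37 [frog, empty, empty, toad, empty] = true := by decide +kernel

theorem ok_a39 : chk rt a39 [empty, toad, empty, toad, empty] = true := by decide +kernel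

theorem ok_a40 : chk rt a40 [toad, toad, empty, toad, empty] = true := by decide +kernel

theorem ok_a41 : chk rt a41 [empty, empty, frog, toad, empty, toad, empty] = true := by decide +kernel

theorem ok_a42 : chk rt a42 [toad, empty, frog, toad, empty, toad, empty] = true := by decide +kernel

theorem ok_a43 : chk rt a43 [frog, empty, frog, toad, empty, toad, empty] = true := by decide +kernel

theorem ok_a45 : chk rt a45 [toad, frog, toad, empty, toad, empty] = true := by decide +kernel

theorem ok_a46 : chk rt a46 [frog, frog, toad, empty, toad, empty] = true := by decide +kernel

theorem ok_a49 : chk rt a49 [empty, frog, empty, toad, empty] = true := by decide +kernel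

theorem ok_a50 : chk rt a50 [empty, empty, empty, toad, frog, empty, toad, empty] = true := by decide +kernel

theorem ok_a51 : chk rt a51 [toad, empty, empty, toad, frog, empty, toad, empty] = true := by decide +kernel

theorem ok_a52 : chk rt a52 [frog, empty, empty, toad, frog, empty, toad, empty] = true := by decide +kernel

theorem ok_a54 : chk rt a54 [toad, empty, toad, frog, empty, toad, empty] = true := by decide +kernel

theorem ok_a55 : chk rt a55 [frog, empty, toad, frog, empty, toad, empty] = true := by decide +kernel

theorem ok_a57 : chk rt a57 [toad, toad, frog, empty, toad, empty] = true := by decide +kernel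

theorem ok_a58 : chk rt a58 [frog, toad, frog, empty, toad, empty] = true := by decide +kernel

theorem ok_a60 : chk rt a60 [frog, frog, empty, toad, empty] = true := by decide +kernel

theorem ok_a63 : chk rt a63 [toad, empty, toad, toad, empty] = true := by decide +kernel

theorem ok_a64 : chk rt a64 [frog, empty, toad, toad, empty] = true := by decide +kernel

theorem ok_a66 : chk rt a66 [toad, toad, toad, empty] = true := by decide +kernel

theorem ok_a67 : chk rt a67 [empty, empty, empty, empty, frog, toad, toad, empty] = true := by decide +kernel

theorem ok_a68 : chk rt a68 [toad, empty, empty, empty, frog, toad, toad, empty] = true := by decide +kernel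

theorem ok_a69 : chk rt a69 [frog, empty, empty, empty, frog, toad, toad, empty] = true := by decide +kernel

theorem ok_a71 : chk rt a71 [toad, empty, empty, frog, toad, toad, empty] = true := by decide +kernel

theorem ok_a72 : chk rt a72 [frog, empty, empty, frog, toad, toad, empty] = true := by decide +kernel

theorem ok_a74 : chk rt a74 [toad, empty, frog, toad, toad, empty] = true := by decide +kernel

theorem ok_a76 : chk rt a76 [toad, frog, toad, toad, empty] = true := by decide +kernel

theorem ok_a79 : chk rt a79 [empty, empty, empty, frog, toad, empty] = true := by decide +kernel

theorem ok_a80 : chk rt a80 [empty, toad, empty, empty, frog, toad, empty] = true := by decide +kernel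

theorem ok_a81 : chk rt a81 [toad, toad, empty, empty, frog, toad, empty] = true := by decide +kernel

theorem ok_a82 : chk rt a82 [frog, toad, empty, empty, frog, toad, empty] = true := by decide +kernel

theorem ok_a84 : chk rt a84 [frog, empty, empty, frog, toad, empty] = true := by decide +kernel

theorem ok_a86 : chk rt a86 [empty, empty, empty, toad, empty, frog, toad, empty] = true := by decide +kernel

theorem ok_a87 : chk rt a87 [toad, empty, empty, toad, empty, frog, toad, empty] = true := by decide +kernel

theorem ok_a88 : chk rt a88 [frog, empty, empty, toad, empty, frog, toad, empty] = true := by decide +kernel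

theorem ok_a90 : chk rt a90 [toad, empty, toad, empty, frog, toad, empty] = true := by decide +kernel

theorem ok_a91 : chk rt a91 [frog, empty, toad, empty, frog, toad, empty] = true := by decide +kernel

theorem ok_a93 : chk rt a93 [toad, toad, empty, frog, toad, empty] = true := by decide +kernel

theorem ok_a94 : chk rt a94 [empty, frog, toad, empty, frog, toad, empty] = true := by decide +kernel

theorem ok_a95 : chk rt a95 [toad, frog, toad, empty, frog, toad, empty] = true := by decide +kernel

theorem ok_a96 : chk rt a96 [frog, frog, toad, empty, frog, toad, empty] = true := by decide +kernel

theorem ok_a99 : chk rt a99 [empty, frog, empty, frog, toad, empty] = true := by decide +kernel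

theorem ok_a100 : chk rt a100 [toad, frog, empty, frog, toad, empty] = true := by decide +kernel

theorem ok_a101 : chk rt a101 [frog, frog, empty, frog, toad, empty] = true := by decide +kernel

theorem ok_a104 : chk rt a104 [empty, empty, empty, empty, toad, frog, toad, empty] = true := by decide +kernel

theorem ok_a105 : chk rt a105 [toad, empty, empty, empty, toad, frog, toad, empty] = true := by decide +kernel

theorem ok_a106 : chk rt a106 [frog, empty, empty, empty, toad, frog, toad, empty] = true := by decide +kernel

theorem ok_a108 : chk rt a108 [toad, empty, empty, toad, frog, toad, empty] = true := by decide +kernel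

theorem ok_a109 : chk rt a109 [frog, empty, empty, toad, frog, toad, empty] = true := by decide +kernel

theorem ok_a111 : chk rt a111 [toad, empty, toad, frog, toad, empty] = true := by decide +kernel

theorem ok_a112 : chk rt a112 [frog, empty, toad, frog, toad, empty] = true := by decide +kernel

theorem ok_a114 : chk rt a114 [empty, empty, frog, toad, frog, toad, empty] = true := by decide +kernel

theorem ok_a115 : chk rt a115 [toad, empty, frog, toad, frog, toad, empty] = true := by decide +kernel

theorem ok_a117 : chk rt a117 [toad, frog, toad, frog, toad, empty] = true := by decide +kernel

theorem ok_a118 : chk rt a118 [frog, frog, toad, frog, toad, empty] = true := by decide +kernel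

theorem ok_a121 : chk rt a121 [empty, empty, empty, frog, frog, toad, empty] = true := by decide +kernel

theorem ok_a122 : chk rt a122 [toad, empty, empty, frog, frog, toad, empty] = true := by decide +kernel

theorem ok_a123 : chk rt a123 [frog, empty, empty, frog, frog, toad, empty] = true := by decide +kernel

theorem ok_a125 : chk rt a125 [toad, empty, frog, frog, toad, empty] = true := by decide +kernel

theorem ok_a126 : chk rt a126 [frog, empty, frog, frog, toad, empty] = true := by decide +kernel

theorem ok_a128 : chk rt a128 [empty, empty, toad, frog, frog, toad, empty] = true := by decide +kernel

theorem ok_a129 : chk rt a129 [frog, empty, toad, frog, frog, toad, empty] = true := by decide +kernel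

theorem ok_a132 : chk rt a132 [empty, frog, frog, frog, toad, empty] = true := by decide +kernel

theorem ok_a133 : chk rt a133 [toad, frog, frog, frog, toad, empty] = true := by decide +kernel

theorem ok_a134 : chk rt a134 [frog, frog, frog, frog, toad, empty] = true := by decide +kernel

theorem ok_a140 : chk rt a140 [empty, empty, empty, empty, toad] = true := by decide +kernel

theorem ok_a141 : chk rt a141 [empty, empty, toad, empty, empty, empty, toad] = true := by decide +kernel

theorem ok_a142 : chk rt a142 [toad, toad, empty, toad, empty, empty, empty, toad] = true := by decide +kernel

theorem ok_a143 : chk rt a143 [empty, frog, toad, empty, toad, empty, empty, empty, toad] = true := by decide +kernel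

theorem ok_a144 : chk rt a144 [empty, frog, toad, frog, toad, empty, toad, empty, empty, empty, toad] = true := by decide +kernel

theorem ok_a145 : chk rt a145 [empty, frog, frog, toad, frog, toad, empty, toad, empty, empty, empty, toad] = true := by decide +kernel

theorem ok_a146 : chk rt a146 [frog, frog, frog, toad, frog, toad, empty, toad, empty, empty, empty, toad] = true := by decide +kernel

theorem ok_a150 : chk rt a150 [frog, frog, toad, empty, toad, empty, empty, empty, toad] = true := by decide +kernel

theorem ok_a153 : chk rt a153 [frog, empty, toad, empty, empty, empty, toad] = true := by decide +kernel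

theorem ok_a155 : chk rt a155 [toad, toad, empty, empty, empty, toad] = true := by decide +kernel

theorem ok_a156 : chk rt a156 [empty, empty, frog, toad, empty, empty, empty, toad] = true := by decide +kernel

theorem ok_a157 : chk rt a157 [empty, toad, empty, frog, toad, empty, empty, empty, toad] = true := by decide +kernel

theorem ok_a158 : chk rt a158 [empty, frog, toad, toad, empty, frog, toad, empty, empty, empty, toad] = true := by decide +kernel

theorem ok_a159 : chk rt a159 [empty, frog, frog, toad, toad, empty, frog, toad, empty, empty, empty, toad] = true := by decide +kernel

theorem ok_a160 : chk rt a160 [frog, frog, frog, toad, toad, empty, frog, toad, empty, empty, empty, toad] = true := by decide +kernel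

theorem ok_a164 : chk rt a164 [frog, toad, empty, frog, toad, empty, empty, empty, toad] = true := by decide +kernel

theorem ok_a166 : chk rt a166 [frog, empty, frog, toad, empty, empty, empty, toad] = true := by decide +kernel

theorem ok_a168 : chk rt a168 [toad, frog, toad, empty, empty, empty, toad] = true := by decide +kernel

theorem ok_a169 : chk rt a169 [frog, frog, toad, empty, empty, empty, toad] = true := by decide +kernel

theorem ok_a172 : chk rt a172 [frog, empty, empty, empty, toad] = true := by decide +kernel

theorem ok_a174 : chk rt a174 [empty, empty, empty, toad, empty, empty, toad] = true := by decide +kernel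

theorem ok_a175 : chk rt a175 [empty, frog, toad, empty, empty, toad, empty, empty, toad] = true := by decide +kernel

theorem ok_a176 : chk rt a176 [empty, frog, toad, frog, toad, empty, empty, toad, empty, empty, toad] = true := by decide +kernel

theorem ok_a177 : chk rt a177 [empty, frog, frog, toad, frog, toad, empty, empty, toad, empty, empty, toad] = true := by decide +kernel

theorem ok_a178 : chk rt a178 [frog, frog, frog, toad, frog, toad, empty, empty, toad, empty, empty, toad] = true := by decide +kernel

theorem ok_a182 : chk rt a182 [frog, frog, toad, empty, empty, toad, empty, empty, toad] = true := by decide +kernel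

theorem ok_a185 : chk rt a185 [frog, empty, empty, toad, empty, empty, toad] = true := by decide +kernel

theorem ok_a187 : chk rt a187 [toad, empty, toad, empty, empty, toad] = true := by decide +kernel

theorem ok_a188 : chk rt a188 [empty, empty, frog, empty, toad, empty, empty, toad] = true := by decide +kernel

theorem ok_a189 : chk rt a189 [empty, toad, empty, frog, empty, toad, empty, empty, toad] = true := by decide +kernel

theorem ok_a190 : chk rt a190 [empty, toad, toad, empty, frog, empty, toad, empty, empty, toad] = true := by decide +kernel

theorem ok_a191 : chk rt a191 [empty, frog, toad, toad, empty, frog, empty, toad, empty, empty, toad] = true := by decide +kernel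

theorem ok_a192 : chk rt a192 [empty, frog, frog, toad, toad, empty, frog, empty, toad, empty, empty, toad] = true := by decide +kernel

theorem ok_a193 : chk rt a193 [frog, frog, frog, toad, toad, empty, frog, empty, toad, empty, empty, toad] = true := by decide +kernel

theorem ok_a197 : chk rt a197 [frog, toad, empty, frog, empty, toad, empty, empty, toad] = true := by decide +kernel

theorem ok_a199 : chk rt a199 [frog, empty, frog, empty, toad, empty, empty, toad] = true := by decide +kernel

theorem ok_a201 : chk rt a201 [toad, frog, empty, toad, empty, empty, toad] = true := by decide +kernel

theorem ok_a202 : chk rt a202 [frog, frog, empty, toad, empty, empty, toad] = true := by decide +kernel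

theorem ok_a205 : chk rt a205 [toad, toad, empty, empty, toad] = true := by decide +kernel

theorem ok_a206 : chk rt a206 [empty, empty, empty, frog, toad, empty, empty, toad] = true := by decide +kernel

theorem ok_a207 : chk rt a207 [empty, toad, empty, empty, frog, toad, empty, empty, toad] = true := by decide +kernel

theorem ok_a208 : chk rt a208 [toad, toad, empty, empty, frog, toad, empty, empty, toad] = true := by decide +kernel

theorem ok_a209 : chk rt a209 [frog, toad, empty, empty, frog, toad, empty, empty, toad] = true := by decide +kernel

theorem ok_a211 : chk rt a211 [frog, empty, empty, frog, toad, empty, empty, toad] = true := by decide +kernel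

theorem ok_a213 : chk rt a213 [empty, toad, empty, frog, toad, empty, empty, toad] = true := by decide +kernel

theorem ok_a214 : chk rt a214 [toad, toad, empty, frog, toad, empty, empty, toad] = true := by decide +kernel

theorem ok_a215 : chk rt a215 [frog, toad, empty, frog, toad, empty, empty, toad] = true := by decide +kernel

theorem ok_a217 : chk rt a217 [frog, empty, frog, toad, empty, empty, toad] = true := by decide +kernel

theorem ok_a219 : chk rt a219 [empty, toad, frog, toad, empty, empty, toad] = true := by decide +kernel

theorem ok_a220 : chk rt a220 [toad, toad, frog, toad, empty, empty, toad] = true := by decide +kernel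

theorem ok_a221 : chk rt a221 [frog, toad, frog, toad, empty, empty, toad] = true := by decide +kernel

theorem ok_a223 : chk rt a223 [empty, frog, frog, toad, empty, empty, toad] = true := by decide +kernel

theorem ok_a224 : chk rt a224 [toad, frog, frog, toad, empty, empty, toad] = true := by decide +kernel

theorem ok_a225 : chk rt a225 [frog, frog, frog, toad, empty, empty, toad] = true := by decide +kernel

theorem ok_a229 : chk rt a229 [empty, empty, frog, empty, empty, toad] = true := by decide +kernel

theorem ok_a230 : chk rt a230 [toad, empty, frog, empty, empty, toad] = true := by decide +kernel

theorem ok_a231 : chk rt a231 [frog, empty, frog, empty, empty, toad] = true := by decide +kernel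

theorem ok_a233 : chk rt a233 [empty, toad, frog, empty, empty, toad] = true := by decide +kernel

theorem ok_a234 : chk rt a234 [toad, toad, frog, empty, empty, toad] = true := by decide +kernel

theorem ok_a235 : chk rt a235 [empty, frog, toad, frog, empty, empty, toad] = true := by decide +kernel

theorem ok_a236 : chk rt a236 [toad, frog, toad, frog, empty, empty, toad] = true := by decide +kernel

theorem ok_a239 : chk rt a239 [frog, frog, empty, empty, toad] = true := by decide +kernel

theorem ok_a242 : chk rt a242 [empty, empty, empty, empty, toad, empty, toad] = true := by decide +kernel

theorem ok_a243 : chk rt a243 [empty, toad, empty, empty, empty, toad, empty, toad] = true := by decide +kernel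

theorem ok_a244 : chk rt a244 [empty, frog, toad, empty, empty, empty, toad, empty, toad] = true := by decide +kernel

theorem ok_a245 : chk rt a245 [toad, frog, toad, empty, empty, empty, toad, empty, toad] = true := by decide +kernel

theorem ok_a246 : chk rt a246 [frog, frog, toad, empty, empty, empty, toad, empty, toad] = true := by decide +kernel

theorem ok_a249 : chk rt a249 [frog, empty, empty, empty, toad, empty, toad] = true := by decide +kernel

theorem ok_a251 : chk rt a251 [empty, toad, empty, empty, toad, empty, toad] = true := by decide +kernel

theorem ok_a252 : chk rt a252 [empty, frog, toad, empty, empty, toad, empty, toad] = true := by decide +kernel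

theorem ok_a253 : chk rt a253 [toad, frog, toad, empty, empty, toad, empty, toad] = true := by decide +kernel

theorem ok_a254 : chk rt a254 [frog, frog, toad, empty, empty, toad, empty, toad] = true := by decide +kernel

theorem ok_a257 : chk rt a257 [empty, empty, frog, empty, empty, toad, empty, toad] = true := by decide +kernel

theorem ok_a258 : chk rt a258 [empty, toad, empty, frog, empty, empty, toad, empty, toad] = true := by decide +kernel

theorem ok_a259 : chk rt a259 [toad, toad, empty, frog, empty, empty, toad, empty, toad] = true := by decide +kernel

theorem ok_a260 : chk rt a260 [frog, toad, empty, frog, empty, empty, toad, empty, toad] = true := by decide +kernel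

theorem ok_a263 : chk rt a263 [toad, frog, empty, empty, toad, empty, toad] = true := by decide +kernel

theorem ok_a264 : chk rt a264 [frog, frog, empty, empty, toad, empty, toad] = true := by decide +kernel

theorem ok_a267 : chk rt a267 [empty, toad, empty, toad, empty, toad] = true := by decide +kernel

theorem ok_a268 : chk rt a268 [toad, toad, empty, toad, empty, toad] = true := by decide +kernel

theorem ok_a269 : chk rt a269 [frog, toad, empty, toad, empty, toad] = true := by decide +kernel

theorem ok_a271 : chk rt a271 [empty, empty, empty, frog, empty, toad, empty, toad] = true := by decide +kernel

theorem ok_a272 : chk rt a272 [empty, toad, empty, empty, frog, empty, toad, empty, toad] = true := by decide +kernel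

theorem ok_a273 : chk rt a273 [toad, toad, empty, empty, frog, empty, toad, empty, toad] = true := by decide +kernel

theorem ok_a274 : chk rt a274 [frog, toad, empty, empty, frog, empty, toad, empty, toad] = true := by decide +kernel

theorem ok_a276 : chk rt a276 [frog, empty, empty, frog, empty, toad, empty, toad] = true := by decide +kernel

theorem ok_a278 : chk rt a278 [empty, toad, empty, frog, empty, toad, empty, toad] = true := by decide +kernel

theorem ok_a279 : chk rt a279 [toad, toad, empty, frog, empty, toad, empty, toad] = true := by decide +kernel

theorem ok_a280 : chk rt a280 [frog, toad, empty, frog, empty, toad, empty, toad] = true := by decide +kernel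

theorem ok_a282 : chk rt a282 [frog, empty, frog, empty, toad, empty, toad] = true := by decide +kernel

theorem ok_a284 : chk rt a284 [toad, frog, empty, toad, empty, toad] = true := by decide +kernel

theorem ok_a285 : chk rt a285 [frog, frog, empty, toad, empty, toad] = true := by decide +kernel

theorem ok_a288 : chk rt a288 [empty, toad, toad, empty, toad] = true := by decide +kernel

theorem ok_a289 : chk rt a289 [toad, toad, toad, empty, toad] = true := by decide +kernel

theorem ok_a290 : chk rt a290 [frog, toad, toad, empty, toad] = true := by decide +kernel

theorem ok_a292 : chk rt a292 [empty, empty, empty, empty, frog, toad, empty, toad] = true := by decide +kernel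

theorem ok_a293 : chk rt a293 [empty, toad, empty, empty, empty, frog, toad, empty, toad] = true := by decide +kernel

theorem ok_a294 : chk rt a294 [toad, toad, empty, empty, empty, frog, toad, empty, toad] = true := by decide +kernel

theorem ok_a295 : chk rt a295 [frog, toad, empty, empty, empty, frog, toad, empty, toad] = true := by decide +kernel

theorem ok_a297 : chk rt a297 [frog, empty, empty, empty, frog, toad, empty, toad] = true := by decide +kernel

theorem ok_a299 : chk rt a299 [toad, empty, empty, frog, toad, empty, toad] = true := by decide +kernel

theorem ok_a300 : chk rt a300 [frog, empty, empty, frog, toad, empty, toad] = true := by decide +kernel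

theorem ok_a302 : chk rt a302 [toad, empty, frog, toad, empty, toad] = true := by decide +kernel

theorem ok_a304 : chk rt a304 [toad, frog, toad, empty, toad] = true := by decide +kernel

theorem ok_a305 : chk rt a305 [frog, frog, toad, empty, toad] = true := by decide +kernel

theorem ok_a308 : chk rt a308 [empty, empty, empty, frog, empty, toad] = true := by decide +kernel

theorem ok_a309 : chk rt a309 [toad, empty, empty, frog, empty, toad] = true := by decide +kernel

theorem ok_a310 : chk rt a310 [frog, empty, empty, frog, empty, toad] = true := by decide +kernel

theorem ok_a312 : chk rt a312 [empty, empty, empty, toad, empty, frog, empty, toad] = true := by decide +kernel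

theorem ok_a313 : chk rt a313 [toad, empty, empty, toad, empty, frog, empty, toad] = true := by decide +kernel

theorem ok_a314 : chk rt a314 [frog, empty, empty, toad, empty, frog, empty, toad] = true := by decide +kernel

theorem ok_a316 : chk rt a316 [toad, empty, toad, empty, frog, empty, toad] = true := by decide +kernel

theorem ok_a317 : chk rt a317 [frog, empty, toad, empty, frog, empty, toad] = true := by decide +kernel

theorem ok_a319 : chk rt a319 [toad, toad, empty, frog, empty, toad] = true := by decide +kernel

theorem ok_a320 : chk rt a320 [empty, empty, frog, toad, empty, frog, empty, toad] = true := by decide +kernel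

theorem ok_a321 : chk rt a321 [toad, empty, frog, toad, empty, frog, empty, toad] = true := by decide +kernel

theorem ok_a322 : chk rt a322 [frog, empty, frog, toad, empty, frog, empty, toad] = true := by decide +kernel

theorem ok_a324 : chk rt a324 [toad, frog, toad, empty, frog, empty, toad] = true := by decide +kernel

theorem ok_a325 : chk rt a325 [frog, frog, toad, empty, frog, empty, toad] = true := by decide +kernel

theorem ok_a328 : chk rt a328 [frog, empty, frog, empty, toad] = true := by decide +kernel

theorem ok_a330 : chk rt a330 [empty, empty, empty, empty, toad, frog, empty, toad] = true := by decide +kernel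

theorem ok_a331 : chk rt a331 [toad, empty, empty, empty, toad, frog, empty, toad] = true := by decide +kernel

theorem ok_a332 : chk rt a332 [frog, empty, empty, empty, toad, frog, empty, toad] = true := by decide +kernel

theorem ok_a334 : chk rt a334 [toad, empty, empty, toad, frog, empty, toad] = true := by decide +kernel

theorem ok_a335 : chk rt a335 [empty, frog, empty, empty, toad, frog, empty, toad] = true := by decide +kernel

theorem ok_a336 : chk rt a336 [toad, frog, empty, empty, toad, frog, empty, toad] = true := by decide +kernel

theorem ok_a337 : chk rt a337 [frog, frog, empty, empty, toad, frog, empty, toad] = true := by decide +kernel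

theorem ok_a340 : chk rt a340 [toad, empty, toad, frog, empty, toad] = true := by decide +kernel

theorem ok_a341 : chk rt a341 [empty, empty, frog, empty, toad, frog, empty, toad] = true := by decide +kernel

theorem ok_a342 : chk rt a342 [toad, empty, frog, empty, toad, frog, empty, toad] = true := by decide +kernel

theorem ok_a344 : chk rt a344 [toad, frog, empty, toad, frog, empty, toad] = true := by decide +kernel

theorem ok_a345 : chk rt a345 [frog, frog, empty, toad, frog, empty, toad] = true := by decide +kernel

theorem ok_a348 : chk rt a348 [toad, toad, frog, empty, toad] = true := by decide +kernel

theorem ok_a349 : chk rt a349 [empty, empty, frog, toad, frog, empty, toad] = true := by decide +kernel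

theorem ok_a350 : chk rt a350 [toad, empty, frog, toad, frog, empty, toad] = true := by decide +kernel

theorem ok_a352 : chk rt a352 [empty, empty, empty, empty, toad, frog, toad, frog, empty, toad] = true := by decide +kernel

theorem ok_a353 : chk rt a353 [toad, empty, empty, empty, toad, frog, toad, frog, empty, toad] = true := by decide +kernel

theorem ok_a354 : chk rt a354 [frog, empty, empty, empty, toad, frog, toad, frog, empty, toad] = true := by decide +kernel

theorem ok_a356 : chk rt a356 [toad, empty, empty, toad, frog, toad, frog, empty, toad] = true := by decide +kernel

theorem ok_a357 : chk rt a357 [frog, empty, empty, toad, frog, toad, frog, empty, toad] = true := by decide +kernel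

theorem ok_a359 : chk rt a359 [toad, empty, toad, frog, toad, frog, empty, toad] = true := by decide +kernel

theorem ok_a364 : chk rt a364 [empty, frog, frog, empty, toad] = true := by decide +kernel

theorem ok_a365 : chk rt a365 [toad, frog, frog, empty, toad] = true := by decide +kernel

theorem ok_a366 : chk rt a366 [frog, frog, frog, empty, toad] = true := by decide +kernel

theorem ok_a370 : chk rt a370 [empty, empty, empty, empty, empty, toad, toad] = true := by decide +kernel

theorem ok_a371 : chk rt a371 [toad, empty, empty, empty, empty, toad, toad] = true := by decide +kernel

theorem ok_a372 : chk rt a372 [frog, empty, empty, empty, empty, toad, toad] = true := by decide +kernel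

theorem ok_a374 : chk rt a374 [empty, toad, empty, empty, empty, toad, toad] = true := by decide +kernel

theorem ok_a375 : chk rt a375 [empty, empty, frog, toad, empty, empty, empty, toad, toad] = true := by decide +kernel

theorem ok_a376 : chk rt a376 [toad, empty, frog, toad, empty, empty, empty, toad, toad] = true := by decide +kernel

theorem ok_a377 : chk rt a377 [frog, empty, frog, toad, empty, empty, empty, toad, toad] = true := by decide +kernel

theorem ok_a379 : chk rt a379 [toad, frog, toad, empty, empty, empty, toad, toad] = true := by decide +kernel

theorem ok_a380 : chk rt a380 [frog, frog, toad, empty, empty, empty, toad, toad] = true := by decide +kernel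

theorem ok_a383 : chk rt a383 [empty, frog, empty, empty, empty, toad, toad] = true := by decide +kernel

theorem ok_a384 : chk rt a384 [toad, frog, empty, empty, empty, toad, toad] = true := by decide +kernel

theorem ok_a387 : chk rt a387 [empty, empty, toad, empty, empty, toad, toad] = true := by decide +kernel

theorem ok_a388 : chk rt a388 [toad, empty, toad, empty, empty, toad, toad] = true := by decide +kernel

theorem ok_a389 : chk rt a389 [frog, empty, toad, empty, empty, toad, toad] = true := by decide +kernel

theorem ok_a391 : chk rt a391 [toad, toad, empty, empty, toad, toad] = true := by decide +kernel

theorem ok_a392 : chk rt a392 [empty, empty, frog, toad, empty, empty, toad, toad] = true := by decide +kernel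

theorem ok_a393 : chk rt a393 [toad, empty, frog, toad, empty, empty, toad, toad] = true := by decide +kernel

theorem ok_a394 : chk rt a394 [frog, empty, frog, toad, empty, empty, toad, toad] = true := by decide +kernel

theorem ok_a396 : chk rt a396 [toad, frog, toad, empty, empty, toad, toad] = true := by decide +kernel

theorem ok_a397 : chk rt a397 [frog, frog, toad, empty, empty, toad, toad] = true := by decide +kernel

theorem ok_a400 : chk rt a400 [empty, empty, empty, frog, empty, empty, toad, toad] = true := by decide +kernel

theorem ok_a401 : chk rt a401 [empty, toad, empty, empty, frog, empty, empty, toad, toad] = true := by decide +kernel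

theorem ok_a402 : chk rt a402 [toad, toad, empty, empty, frog, empty, empty, toad, toad] = true := by decide +kernel

theorem ok_a403 : chk rt a403 [frog, toad, empty, empty, frog, empty, empty, toad, toad] = true := by decide +kernel

theorem ok_a406 : chk rt a406 [empty, empty, toad, empty, frog, empty, empty, toad, toad] = true := by decide +kernel

theorem ok_a407 : chk rt a407 [empty, toad, empty, toad, empty, frog, empty, empty, toad, toad] = true := by decide +kernel

theorem ok_a408 : chk rt a408 [toad, toad, empty, toad, empty, frog, empty, empty, toad, toad] = true := by decide +kernel

theorem ok_a409 : chk rt a409 [frog, toad, empty, toad, empty, frog, empty, empty, toad, toad] = true := by decide +kernel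

theorem ok_a411 : chk rt a411 [frog, empty, toad, empty, frog, empty, empty, toad, toad] = true := by decide +kernel

theorem ok_a413 : chk rt a413 [toad, toad, empty, frog, empty, empty, toad, toad] = true := by decide +kernel

theorem ok_a414 : chk rt a414 [frog, toad, empty, frog, empty, empty, toad, toad] = true := by decide +kernel

theorem ok_a416 : chk rt a416 [frog, empty, frog, empty, empty, toad, toad] = true := by decide +kernel

theorem ok_a418 : chk rt a418 [empty, toad, frog, empty, empty, toad, toad] = true := by decide +kernel

theorem ok_a419 : chk rt a419 [toad, toad, frog, empty, empty, toad, toad] = true := by decide +kernel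

theorem ok_a420 : chk rt a420 [frog, toad, frog, empty, empty, toad, toad] = true := by decide +kernel

theorem ok_a424 : chk rt a424 [empty, empty, empty, toad, empty, toad, toad] = true := by decide +kernel

theorem ok_a425 : chk rt a425 [toad, empty, empty, toad, empty, toad, toad] = true := by decide +kernel

theorem ok_a426 : chk rt a426 [frog, empty, empty, toad, empty, toad, toad] = true := by decide +kernel

theorem ok_a428 : chk rt a428 [toad, empty, toad, empty, toad, toad] = true := by decide +kernel

theorem ok_a429 : chk rt a429 [empty, frog, empty, toad, empty, toad, toad] = true := by decide +kernel

theorem ok_a430 : chk rt a430 [empty, toad, frog, empty, toad, empty, toad, toad] = true := by decide +kernel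

theorem ok_a431 : chk rt a431 [toad, toad, frog, empty, toad, empty, toad, toad] = true := by decide +kernel

theorem ok_a432 : chk rt a432 [frog, toad, frog, empty, toad, empty, toad, toad] = true := by decide +kernel

theorem ok_a434 : chk rt a434 [frog, frog, empty, toad, empty, toad, toad] = true := by decide +kernel

theorem ok_a437 : chk rt a437 [toad, toad, toad, empty, toad, toad] = true := by decide +kernel

theorem ok_a438 : chk rt a438 [empty, empty, empty, frog, toad, toad, empty, toad, toad] = true := by decide +kernel

theorem ok_a439 : chk rt a439 [toad, empty, empty, frog, toad, toad, empty, toad, toad] = true := by decide +kernel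

theorem ok_a440 : chk rt a440 [frog, empty, empty, frog, toad, toad, empty, toad, toad] = true := by decide +kernel

theorem ok_a445 : chk rt a445 [empty, empty, frog, toad, empty, toad, toad] = true := by decide +kernel

theorem ok_a446 : chk rt a446 [toad, empty, frog, toad, empty, toad, toad] = true := by decide +kernel

theorem ok_a448 : chk rt a448 [frog, frog, toad, empty, toad, toad] = true := by decide +kernel

theorem ok_a451 : chk rt a451 [empty, empty, empty, empty, frog, empty, toad, toad] = true := by decide +kernel

theorem ok_a452 : chk rt a452 [empty, toad, empty, empty, empty, frog, empty, toad, toad] = true := by decide +kernel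

theorem ok_a453 : chk rt a453 [toad, toad, empty, empty, empty, frog, empty, toad, toad] = true := by decide +kernel

theorem ok_a454 : chk rt a454 [frog, toad, empty, empty, empty, frog, empty, toad, toad] = true := by decide +kernel

theorem ok_a456 : chk rt a456 [frog, empty, empty, empty, frog, empty, toad, toad] = true := by decide +kernel

theorem ok_a458 : chk rt a458 [empty, toad, empty, empty, frog, empty, toad, toad] = true := by decide +kernel

theorem ok_a459 : chk rt a459 [toad, toad, empty, empty, frog, empty, toad, toad] = true := by decide +kernel

theorem ok_a460 : chk rt a460 [frog, toad, empty, empty, frog, empty, toad, toad] = true := by decide +kernel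

theorem ok_a463 : chk rt a463 [empty, toad, empty, frog, empty, toad, toad] = true := by decide +kernel

theorem ok_a464 : chk rt a464 [toad, toad, empty, frog, empty, toad, toad] = true := by decide +kernel

theorem ok_a465 : chk rt a465 [frog, toad, empty, frog, empty, toad, toad] = true := by decide +kernel

theorem ok_a467 : chk rt a467 [frog, empty, frog, empty, toad, toad] = true := by decide +kernel

theorem ok_a469 : chk rt a469 [empty, toad, frog, empty, toad, toad] = true := by decide +kernel

theorem ok_a470 : chk rt a470 [toad, toad, frog, empty, toad, toad] = true := by decide +kernel

theorem ok_a471 : chk rt a471 [frog, toad, frog, empty, toad, toad] = true := by decide +kernel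

theorem ok_a473 : chk rt a473 [frog, frog, empty, toad, toad] = true := by decide +kernel

theorem ok_a476 : chk rt a476 [empty, empty, empty, empty, toad, toad, toad] = true := by decide +kernel

theorem ok_a477 : chk rt a477 [empty, toad, empty, toad, empty, empty, empty, toad, toad, toad] = true := by decide +kernel

theorem ok_a478 : chk rt a478 [empty, frog, toad, frog, toad, empty, toad, empty, empty, empty, toad, toad, toad] = true := by decide +kernel

theorem ok_a479 : chk rt a479 [empty, frog, frog, toad, frog, toad, empty, toad, empty, empty, empty, toad, toad, toad] = true := by decide +kernel

theorem ok_a480 : chk rt a480 [toad, frog, frog, toad, frog, toad, empty, toad, empty, empty, empty, toad, toad, toad] = true := by decide +kernel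

theorem ok_a481 : chk rt a481 [frog, frog, frog, toad, frog, toad, empty, toad, empty, empty, empty, toad, toad, toad] = true := by decide +kernel

theorem ok_a487 : chk rt a487 [frog, empty, toad, empty, empty, empty, toad, toad, toad] = true := by decide +kernel

theorem ok_a489 : chk rt a489 [toad, toad, empty, empty, empty, toad, toad, toad] = true := by decide +kernel

theorem ok_a490 : chk rt a490 [frog, toad, empty, empty, empty, toad, toad, toad] = true := by decide +kernel

theorem ok_a492 : chk rt a492 [frog, empty, empty, empty, toad, toad, toad] = true := by decide +kernel

theorem ok_a494 : chk rt a494 [empty, toad, empty, empty, toad, empty, empty, toad, toad, toad] = true := by decide +kernel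

theorem ok_a495 : chk rt a495 [empty, frog, toad, frog, toad, empty, empty, toad, empty, empty, toad, toad, toad] = true := by decide +kernel

theorem ok_a496 : chk rt a496 [empty, frog, frog, toad, frog, toad, empty, empty, toad, empty, empty, toad, toad, toad] = true := by decide +kernel

theorem ok_a497 : chk rt a497 [frog, frog, frog, toad, frog, toad, empty, empty, toad, empty, empty, toad, toad, toad] = true := by decide +kernel

theorem ok_a501 : chk rt a501 [frog, frog, toad, empty, empty, toad, empty, empty, toad, toad, toad] = true := by decide +kernel

theorem ok_a504 : chk rt a504 [frog, empty, empty, toad, empty, empty, toad, toad, toad] = true := by decide +kernel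

theorem ok_a506 : chk rt a506 [toad, empty, toad, empty, empty, toad, toad, toad] = true := by decide +kernel

theorem ok_a507 : chk rt a507 [empty, empty, frog, empty, toad, empty, empty, toad, toad, toad] = true := by decide +kernel

theorem ok_a508 : chk rt a508 [empty, toad, empty, frog, empty, toad, empty, empty, toad, toad, toad] = true := by decide +kernel

theorem ok_a509 : chk rt a509 [empty, toad, toad, empty, frog, empty, toad, empty, empty, toad, toad, toad] = true := by decide +kernel

theorem ok_a510 : chk rt a510 [toad, toad, toad, empty, frog, empty, toad, empty, empty, toad, toad, toad] = true := by decide +kernel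

theorem ok_a511 : chk rt a511 [empty, frog, toad, toad, empty, frog, empty, toad, empty, empty, toad, toad, toad] = true := by decide +kernel

theorem ok_a512 : chk rt a512 [toad, frog, toad, toad, empty, frog, empty, toad, empty, empty, toad, toad, toad] = true := by decide +kernel

theorem ok_a513 : chk rt a513 [frog, frog, toad, toad, empty, frog, empty, toad, empty, empty, toad, toad, toad] = true := by decide +kernel

theorem ok_a516 : chk rt a516 [frog, toad, empty, frog, empty, toad, empty, empty, toad, toad, toad] = true := by decide +kernel

theorem ok_a519 : chk rt a519 [empty, empty, toad, frog, empty, toad, empty, empty, toad, toad, toad] = true := by decide +kernel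

theorem ok_a520 : chk rt a520 [toad, empty, toad, frog, empty, toad, empty, empty, toad, toad, toad] = true := by decide +kernel

theorem ok_a521 : chk rt a521 [frog, empty, toad, frog, empty, toad, empty, empty, toad, toad, toad] = true := by decide +kernel

theorem ok_a523 : chk rt a523 [frog, toad, frog, empty, toad, empty, empty, toad, toad, toad] = true := by decide +kernel

theorem ok_a525 : chk rt a525 [frog, frog, empty, toad, empty, empty, toad, toad, toad] = true := by decide +kernel

theorem ok_a528 : chk rt a528 [toad, toad, empty, empty, toad, toad, toad] = true := by decide +kernel

theorem ok_a529 : chk rt a529 [empty, empty, empty, frog, toad, empty, empty, toad, toad, toad] = true := by decide +kernel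

theorem ok_a530 : chk rt a530 [empty, toad, empty, empty, frog, toad, empty, empty, toad, toad, toad] = true := by decide +kernel

theorem ok_a531 : chk rt a531 [toad, toad, empty, empty, frog, toad, empty, empty, toad, toad, toad] = true := by decide +kernel

theorem ok_a532 : chk rt a532 [frog, toad, empty, empty, frog, toad, empty, empty, toad, toad, toad] = true := by decide +kernel

theorem ok_a534 : chk rt a534 [frog, empty, empty, frog, toad, empty, empty, toad, toad, toad] = true := by decide +kernel

theorem ok_a536 : chk rt a536 [toad, empty, frog, toad, empty, empty, toad, toad, toad] = true := by decide +kernel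

theorem ok_a537 : chk rt a537 [frog, empty, frog, toad, empty, empty, toad, toad, toad] = true := by decide +kernel

theorem ok_a539 : chk rt a539 [toad, frog, toad, empty, empty, toad, toad, toad] = true := by decide +kernel

theorem ok_a540 : chk rt a540 [frog, frog, toad, empty, empty, toad, toad, toad] = true := by decide +kernel

theorem ok_a543 : chk rt a543 [empty, empty, frog, empty, empty, toad, toad, toad] = true := by decide +kernel

theorem ok_a544 : chk rt a544 [toad, empty, frog, empty, empty, toad, toad, toad] = true := by decide +kernel

theorem ok_a545 : chk rt a545 [frog, empty, frog, empty, empty, toad, toad, toad] = true := by decide +kernel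

theorem ok_a547 : chk rt a547 [empty, empty, toad, frog, empty, empty, toad, toad, toad] = true := by decide +kernel

theorem ok_a548 : chk rt a548 [toad, empty, toad, frog, empty, empty, toad, toad, toad] = true := by decide +kernel

theorem ok_a549 : chk rt a549 [frog, empty, toad, frog, empty, empty, toad, toad, toad] = true := by decide +kernel

theorem ok_a551 : chk rt a551 [toad, toad, frog, empty, empty, toad, toad, toad] = true := by decide +kernel

theorem ok_a552 : chk rt a552 [empty, frog, toad, frog, empty, empty, toad, toad, toad] = true := by decide +kernel

theorem ok_a553 : chk rt a553 [toad, frog, toad, frog, empty, empty, toad, toad, toad] = true := by decide +kernel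

theorem ok_a558 : chk rt a558 [empty, empty, empty, empty, toad, empty, toad, toad, toad] = true := by decide +kernel

theorem ok_a559 : chk rt a559 [empty, frog, toad, empty, empty, empty, toad, empty, toad, toad, toad] = true := by decide +kernel

theorem ok_a560 : chk rt a560 [empty, frog, toad, frog, toad, empty, empty, empty, toad, empty, toad, toad, toad] = true := by decide +kernel

theorem ok_a561 : chk rt a561 [empty, frog, frog, toad, frog, toad, empty, empty, empty, toad, empty, toad, toad, toad] = true := by decide +kernel

theorem ok_a562 : chk rt a562 [toad, frog, frog, toad, frog, toad, empty, empty, empty, toad, empty, toad, toad, toad] = true := by decide +kernel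

theorem ok_a563 : chk rt a563 [frog, frog, frog, toad, frog, toad, empty, empty, empty, toad, empty, toad, toad, toad] = true := by decide +kernel

theorem ok_a567 : chk rt a567 [frog, frog, toad, empty, empty, empty, toad, empty, toad, toad, toad] = true := by decide +kernel

end Pool.Agent.Helper807.TF
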