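import Pool.Agent.Helper807.TF.Defs

/-!
# Toads and Frogs: lower bounds for the value of a position

`Ge P k`: Left, moving second, wins `P - k`.
-/

set_option autoImplicit false
set_option linter.unnecessarySeqFocus false

namespace Pool.Agent.Helper807.TF

open Cell

/-- Left, moving second, wins `P - k`. -/
def Ge (P : List Cell) (k : ℤ) : Prop :=
  (∀ Q, ∀ _h : RightMove P Q,
    (∃ Q', ∃ _h' : LeftMove Q Q', Ge Q' k) ∨ (k < 0 ∧ Ge Q (k + 1))) ∧
  (0 < k → ∃ Q', ∃ _h : LeftMove P Q', Ge Q' (k - 1))
termination_by pot P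
decreasing_by
  · exact _h'.inv.2.2.trans _h.inv.2.2
  · exact _h.inv.2.2
  · exact _h.inv.2.2

/-- Left, moving first, wins `Q - k`. -/
def LW (Q : List Cell) (k : ℤ) : Prop :=
  (∃ Q', LeftMove Q Q' ∧ Ge Q' k) ∨ (k < 0 ∧ Ge Q (k + 1))

theorem ge_iff (P : List Cell) (k : ℤ) : Ge P k ↔
    (∀ Q, RightMove P Q → LW Q k) ∧ (0 < k → ∃ Q', LeftMove P Q' ∧ Ge Q' (k - 1)) := by
  rw [Ge]
  unfold LW
  simp only [exists_prop]

theorem lw_of_succ {Q : List Cell} {k : ℤ} (h : Ge Q (k + 1)) : LW Q k := by
  by_cases hk : k < 0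
  · exact Or.inr ⟨hk, h⟩
  · obtain ⟨Q', h1, h2⟩ := ((ge_iff _ _).1 h).2 (by omega)
    exact Or.inl ⟨Q', h1, by rwa [add_sub_cancel_right] at h2⟩

/-- monotonicity -/
theorem ge_pred : ∀ (n : ℕ) (P : List Cell) (k : ℤ), pot P ≤ n → Ge P (k + 1) → Ge P k := by
  intro n
  induction n using Nat.strong_induction_on with
  | _ n ih =>
  intro P k hP h
  rw [ge_iff] at h ⊢
  obtain ⟨h1, h2⟩ := h
  refine ⟨fun Q hQ => ?_, fun hk => ?_⟩
  · have hp := hQ.inv.2.2
    rcases h1 Q hQ with ⟨Q', h3, h4⟩ | ⟨h3, h4⟩
    · have hq := h3.inv.2.2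
      exact Or.inl ⟨Q', h3, ih (pot Q') (by omega) Q' k le_rfl h4⟩
    · exact Or.inr ⟨by omega, ih (pot Q) (by omega) Q (k + 1) le_rfl h4⟩
  · obtain ⟨Q', h3, h4⟩ := h2 (by omega)
    have hq := h3.inv.2.2
    refine ⟨Q', h3, ih (pot Q') (by omega) Q' (k - 1) le_rfl ?_⟩
    rw [add_sub_cancel_right] at h4
    rwa [sub_add_cancel]

theorem Ge.mono {P : List Cell} {k k' : ℤ} (h : Ge P k) (hk : k' ≤ k) : Ge P k' := by
  obtain ⟨m, rfl⟩ : ∃ m : ℕ, k = k' + m := ⟨(k - k').toNat, by omega⟩
  clear hk
  induction m with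
  | zero => simpa using h
  | succ m ih =>
    apply ih
    apply ge_pred _ _ _ le_rfl
    convert h using 1
    push_cast
    ring

/-! ## Moves -/

theorem LeftMove.app_right {u u' : List Cell} (h : LeftMove u u') (w : List Cell) :
    LeftMove (u ++ w) (u' ++ w) := by
  induction h with
  | step v => exact LeftMove.step _
  | jump v => exact LeftMove.jump _
  | cons c h ih => exact LeftMove.cons c ih

theorem LeftMove.app_left {v v' : List Cell} (h : LeftMove v v') (w : List Cell) :
    LeftMove (w ++ v) (w ++ v') := by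
  induction w with
  | nil => exact h
  | cons c w ih => exact LeftMove.cons c ih

/-- number of empty squares -/
def es : List Cell → ℕ
  | [] => 0
  | empty :: v => es v + 1
  | toad :: v => es v
  | frog :: v => es v

theorem es_app (u v : List Cell) : es (u ++ v) = es u + es v := by
  induction u with
  | nil => simp [es]
  | cons c u ih => cases c <;> simp only [List.cons_append, es, ih] <;> omega

/-- no toads -/
def NT (w : List Cell) : Prop := ∀ c ∈ w, c ≠ toad

/-- no frogs -/
def NF (w : List Cell) : Prop := ∀ c ∈ w, c ≠ frog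

theorem NT.tail {c : Cell} {w : List Cell} (h : NT (c :: w)) : NT w :=
  fun d hd => h d (List.mem_cons_of_mem _ hd)

theorem NF.tail {c : Cell} {w : List Cell} (h : NF (c :: w)) : NF w :=
  fun d hd => h d (List.mem_cons_of_mem _ hd)

theorem NT.cons {c : Cell} {w : List Cell} (hc : c ≠ toad) (h : NT w) : NT (c :: w) := by
  intro d hd
  rcases List.mem_cons.1 hd with rfl | hd
  · exact hc
  · exact h d hd

theorem NF.cons {c : Cell} {w : List Cell} (hc : c ≠ frog) (h : NF w) : NF (c :: w) := by
  intro d hd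
  rcases List.mem_cons.1 hd with rfl | hd
  · exact hc
  · exact h d hd

theorem RightMove.split {u v Q : List Cell} (h : RightMove (u ++ toad :: toad :: v) Q) :
    (∃ u', RightMove u u' ∧ Q = u' ++ toad :: toad :: v) ∨
    (∃ v', RightMove v v' ∧ Q = u ++ toad :: toad :: v') := by
  induction u generalizing Q with
  | nil =>
    right
    cases h with
    | cons _ h =>
      cases h with
      | cons _ h => exact ⟨_, h, rfl⟩
  | cons c u ih =>
    generalize hP : c :: u ++ toad :: toad :: v = P at h
    cases h with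
    | step v0 =>
      simp only [List.cons_append, List.cons.injEq] at hP
      obtain ⟨rfl, hP⟩ := hP
      rcases u with _ | ⟨d, u⟩
      · simp at hP
      · simp only [List.cons_append, List.cons.injEq] at hP
        obtain ⟨rfl, rfl⟩ := hP
        exact Or.inl ⟨_, RightMove.step u, rfl⟩
    | jump v0 =>
      simp only [List.cons_append, List.cons.injEq] at hP
      obtain ⟨rfl, hP⟩ := hP
      rcases u with _ | ⟨d, _ | ⟨e, u⟩⟩
      · simp at hP
      · simp at hP
      · simp only [List.cons_append, List.cons.injEq] at hP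
        obtain ⟨rfl, rfl, rfl⟩ := hP
        exact Or.inl ⟨_, RightMove.jump u, rfl⟩
    | cons d h =>
      simp only [List.cons_append, List.cons.injEq] at hP
      obtain ⟨rfl, rfl⟩ := hP
      rcases ih h with ⟨u', h1, rfl⟩ | ⟨v', h1, rfl⟩
      · exact Or.inl ⟨_, RightMove.cons c h1, rfl⟩
      · exact Or.inr ⟨v', h1, rfl⟩

theorem RightMove.not_nf {w Q : List Cell} (hw : NF w) (h : RightMove w Q) : False := by
  induction h with
  | step v => exact hw frog (by simp) rfl
  | jump v => exact hw frog (by simp) rfl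
  | cons c h ih => exact ih hw.tail

theorem RightMove.app_nf {u w Q : List Cell} (hw : NF w) (h : RightMove (u ++ w) Q) :
    ∃ u', RightMove u u' ∧ Q = u' ++ w := by
  induction u generalizing Q with
  | nil => exact (h.not_nf hw).elim
  | cons c u ih =>
    generalize hP : c :: u ++ w = P at h
    cases h with
    | step v0 =>
      simp only [List.cons_append, List.cons.injEq] at hP
      obtain ⟨rfl, hP⟩ := hP
      rcases u with _ | ⟨d, u⟩
      · simp only [List.nil_append] at hP
        exact (hw frog (by rw [hP]; simp) rfl).elim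
      · simp only [List.cons_append, List.cons.injEq] at hP
        obtain ⟨rfl, rfl⟩ := hP
        exact ⟨_, RightMove.step u, rfl⟩
    | jump v0 =>
      simp only [List.cons_append, List.cons.injEq] at hP
      obtain ⟨rfl, hP⟩ := hP
      rcases u with _ | ⟨d, _ | ⟨e, u⟩⟩
      · simp only [List.nil_append] at hP
        exact (hw frog (by rw [hP]; simp) rfl).elim
      · simp only [List.cons_append, List.nil_append, List.cons.injEq] at hP
        exact (hw frog (by rw [hP.2]; simp) rfl).elim
      · simp only [List.cons_append, List.cons.injEq] at hP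
        obtain ⟨rfl, rfl, rfl⟩ := hP
        exact ⟨_, RightMove.jump u, rfl⟩
    | cons d h =>
      simp only [List.cons_append, List.cons.injEq] at hP
      obtain ⟨rfl, rfl⟩ := hP
      obtain ⟨u', h1, rfl⟩ := ih h
      exact ⟨_, RightMove.cons c h1, rfl⟩

theorem RightMove.frog {w v Q : List Cell} (hw : NT w) (h : RightMove (w ++ Cell.frog :: v) Q) :
    (∃ w', NT w' ∧ es w' = es w ∧ Q = w' ++ Cell.frog :: v ∧
      ∀ x, RightMove (w ++ x) (w' ++ x)) ∨
    (∃ w0, w = w0 ++ [empty] ∧ Q = w0 ++ Cell.frog :: empty :: v) ∨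
    (∃ v', RightMove v v' ∧ Q = w ++ Cell.frog :: v') := by
  induction w generalizing Q with
  | nil =>
    right; right
    cases h with
    | cons _ h => exact ⟨_, h, rfl⟩
  | cons c w ih =>
    generalize hP : c :: w ++ Cell.frog :: v = P at h
    cases h with
    | step v0 =>
      simp only [List.cons_append, List.cons.injEq] at hP
      obtain ⟨rfl, hP⟩ := hP
      rcases w with _ | ⟨d, w⟩
      · simp only [List.nil_append, List.cons.injEq, true_and] at hP
        subst hP
        exact Or.inr (Or.inl ⟨[], rfl, rfl⟩)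
      · simp only [List.cons_append, List.cons.injEq] at hP
        obtain ⟨rfl, rfl⟩ := hP
        refine Or.inl ⟨Cell.frog :: empty :: w, ?_, rfl, rfl, fun x => RightMove.step _⟩
        exact NT.cons (by simp) (NT.cons (by simp) hw.tail.tail)
    | jump v0 =>
      exfalso
      simp only [List.cons_append, List.cons.injEq] at hP
      obtain ⟨rfl, hP⟩ := hP
      rcases w with _ | ⟨d, w⟩
      · simp at hP
      · simp only [List.cons_append, List.cons.injEq] at hP
        exact hw d (by simp) hP.1
    | cons d h =>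
      simp only [List.cons_append, List.cons.injEq] at hP
      obtain ⟨rfl, rfl⟩ := hP
      rcases ih hw.tail h with ⟨w', h1, h2, rfl, h3⟩ | ⟨w0, rfl, rfl⟩ | ⟨v', h1, rfl⟩
      · refine Or.inl ⟨c :: w', NT.cons (hw c (by simp)) h1, ?_, rfl,
          fun x => RightMove.cons c (h3 x)⟩
        cases c <;> simp only [es, h2]
      · exact Or.inr (Or.inl ⟨c :: w0, rfl, rfl⟩)
      · exact Or.inr (Or.inr ⟨v', h1, rfl⟩)

theorem LeftMove.nt {w v Q : List Cell} (hw : NT w) (h : LeftMove (w ++ v) Q) :
    ∃ v', LeftMove v v' ∧ Q = w ++ v' := by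
  induction w generalizing Q with
  | nil => exact ⟨Q, h, rfl⟩
  | cons c w ih =>
    have hc := hw c (by simp)
    generalize hP : c :: w ++ v = P at h
    cases h with
    | step v0 =>
      simp only [List.cons_append, List.cons.injEq] at hP
      exact (hc hP.1).elim
    | jump v0 =>
      simp only [List.cons_append, List.cons.injEq] at hP
      exact (hc hP.1).elim
    | cons d h =>
      simp only [List.cons_append, List.cons.injEq] at hP
      obtain ⟨rfl, rfl⟩ := hP
      obtain ⟨v', h1, rfl⟩ := ih hw.tail h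
      exact ⟨v', h1, rfl⟩

/-! ## Two adjacent toads as a wall -/

theorem ge_split (n : ℕ) : ∀ (u v : List Cell) (k l : ℤ), pot u + pot v ≤ n →
    Ge u k → Ge v l → Ge (u ++ toad :: toad :: v) (k + l) := by
  induction n using Nat.strong_induction_on with
  | _ n ih =>
  intro u v k l hn hu hv
  have hu' := (ge_iff _ _).1 hu
  have hv' := (ge_iff _ _).1 hv
  rw [ge_iff]
  constructor
  · intro Q hQ
    rcases hQ.split with ⟨u', h1, rfl⟩ | ⟨v', h1, rfl⟩
    · have hp := h1.inv.2.2
      rcases hu'.1 u' h1 with ⟨u'', h2, h3⟩ | ⟨h2, h3⟩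
      · have hq := h2.inv.2.2
        exact Or.inl ⟨_, h2.app_right _, ih (pot u'' + pot v) (by omega) _ _ _ _ le_rfl h3 hv⟩
      · apply lw_of_succ
        have := ih (pot u' + pot v) (by omega) u' v (k + 1) l le_rfl h3 hv
        rwa [show k + l + 1 = k + 1 + l by ring]
    · have hp := h1.inv.2.2
      rcases hv'.1 v' h1 with ⟨v'', h2, h3⟩ | ⟨h2, h3⟩
      · have hq := h2.inv.2.2
        refine Or.inl ⟨u ++ toad :: toad :: v'', ?_,
          ih (pot u + pot v'') (by omega) _ _ _ _ le_rfl hu h3⟩
        exact LeftMove.app_left (LeftMove.cons _ (LeftMove.cons _ h2)) u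
      · apply lw_of_succ
        have := ih (pot u + pot v') (by omega) u v' k (l + 1) le_rfl hu h3
        rwa [show k + l + 1 = k + (l + 1) by ring]
  · intro hkl
    by_cases hk : 0 < k
    · obtain ⟨u', h1, h2⟩ := hu'.2 hk
      have hp := h1.inv.2.2
      refine ⟨_, h1.app_right _, ?_⟩
      have := ih (pot u' + pot v) (by omega) u' v (k - 1) l le_rfl h2 hv
      rwa [show k + l - 1 = k - 1 + l by ring]
    · obtain ⟨v', h1, h2⟩ := hv'.2 (by omega)
      have hp := h1.inv.2.2
      refine ⟨u ++ toad :: toad :: v', LeftMove.app_left (LeftMove.cons _ (LeftMove.cons _ h1)) u, ?_⟩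
      have := ih (pot u + pot v') (by omega) u v' k (l - 1) le_rfl hu h2
      rwa [show k + l - 1 = k + (l - 1) by ring]

theorem Ge.split {u v : List Cell} {k l : ℤ} (hu : Ge u k) (hv : Ge v l) :
    Ge (u ++ toad :: toad :: v) (k + l) := ge_split _ u v k l le_rfl hu hv

/-! ## A frog that has passed all toads -/

theorem ge_frog (n : ℕ) : ∀ (w v : List Cell) (k : ℤ), pot (w ++ frog :: v) ≤ n → NT w →
    Ge (w ++ v) k → Ge (w ++ frog :: v) (k - es w) := by
  induction n using Nat.strong_induction_on with
  | _ n ih =>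
  intro w v k hn hw h
  have h' := (ge_iff _ _).1 h
  rw [ge_iff]
  constructor
  · intro Q hQ
    have hp := hQ.inv.2.2
    rcases hQ.frog hw with ⟨w', h1, h2, rfl, h3⟩ | ⟨w0, rfl, rfl⟩ | ⟨v', h1, rfl⟩
    · rcases h'.1 _ (h3 v) with ⟨Q', h4, h5⟩ | ⟨h4, h5⟩
      · obtain ⟨v', h6, rfl⟩ := h4.nt h1
        have h7 : LeftMove (w' ++ frog :: v) (w' ++ frog :: v') :=
          LeftMove.app_left (LeftMove.cons _ h6) w'
        have hq := h7.inv.2.2
        refine Or.inl ⟨_, h7, ?_⟩
        rw [← h2]
        exact ih _ (by omega) w' v' k le_rfl h1 h5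
      · apply lw_of_succ
        have := ih _ (by omega) w' v (k + 1) le_rfl h1 h5
        rw [h2] at this
        rwa [show k - (es w : ℤ) + 1 = k + 1 - es w by ring]
    · apply lw_of_succ
      have hw0 : NT w0 := fun c hc => hw c (List.mem_append_left _ hc)
      have := ih _ (by omega) w0 (empty :: v) k le_rfl hw0 (by simpa using h)
      rw [es_app]
      simp only [es]
      push_cast
      rwa [show k - ((es w0 : ℤ) + 1) + 1 = k - es w0 by ring]
    · have h2 : RightMove (w ++ v) (w ++ v') := by
        clear hn h h' hQ hp ih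
        induction w with
        | nil => exact h1
        | cons c w ih2 => exact RightMove.cons c (ih2 hw.tail)
      rcases h'.1 _ h2 with ⟨Q', h4, h5⟩ | ⟨h4, h5⟩
      · obtain ⟨v'', h6, rfl⟩ := h4.nt hw
        have h7 : LeftMove (w ++ frog :: v') (w ++ frog :: v'') :=
          LeftMove.app_left (LeftMove.cons _ h6) w
        have hq := h7.inv.2.2
        exact Or.inl ⟨_, h7, ih _ (by omega) w v'' k le_rfl hw h5⟩
      · apply lw_of_succ
        have := ih _ (by omega) w v' (k + 1) le_rfl hw h5
        rwa [show k - (es w : ℤ) + 1 = k + 1 - es w by ring]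
  · intro hk
    obtain ⟨Q', h4, h5⟩ := h'.2 (by omega)
    obtain ⟨v', h6, rfl⟩ := h4.nt hw
    have h7 : LeftMove (w ++ frog :: v) (w ++ frog :: v') :=
      LeftMove.app_left (LeftMove.cons _ h6) w
    have hq := h7.inv.2.2
    refine ⟨_, h7, ?_⟩
    have := ih _ (by omega) w v' (k - 1) le_rfl hw h5
    rwa [show k - (es w : ℤ) - 1 = k - 1 - es w by ring]

theorem Ge.frog {w v : List Cell} {k : ℤ} (hw : NT w) (h : Ge (w ++ v) k) :
    Ge (w ++ Cell.frog :: v) (k - es w) := ge_frog _ w v k le_rfl hw h

/-! ## Toads that have passed all frogs -/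

/-- number of moves of the toads on a strip without frogs -/
def dd : List Cell → ℕ
  | [] => 0
  | toad :: v => dd v + es v
  | empty :: v => dd v
  | frog :: v => dd v

theorem dd_move {w : List Cell} (hw : NF w) (h : 0 < dd w) :
    ∃ w', LeftMove w w' ∧ NF w' ∧ dd w' + 1 = dd w ∧ es w' = es w := by
  induction w with
  | nil => simp [dd] at h
  | cons c w ih =>
    cases c with
    | frog => exact (hw frog (by simp) rfl).elim
    | empty =>
      simp only [dd] at h
      obtain ⟨w', h1, h2, h3, h4⟩ := ih hw.tail h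
      exact ⟨empty :: w', LeftMove.cons _ h1, NF.cons (by simp) h2, h3, by simp only [es, h4]⟩
    | toad =>
      by_cases hd : 0 < dd w
      · obtain ⟨w', h1, h2, h3, h4⟩ := ih hw.tail hd
        exact ⟨toad :: w', LeftMove.cons _ h1, NF.cons (by simp) h2,
          by simp only [dd, h4]; omega, by simp only [es, h4]⟩
      · simp only [dd] at h
        rcases w with _ | ⟨c, w⟩
        · simp [es, dd] at h
        · cases c with
          | frog => exact (hw frog (by simp) rfl).elim
          | toad =>
            exfalso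
            simp only [dd, es] at h hd
            omega
          | empty =>
            refine ⟨empty :: toad :: w, LeftMove.step w,
              NF.cons (by simp) (NF.cons (by simp) hw.tail.tail), ?_, by simp only [es]⟩
            simp only [dd, es]
            omega

theorem ge_toads (n : ℕ) : ∀ (u w : List Cell) (k : ℤ), pot (u ++ w) ≤ n → NF w →
    Ge u k → Ge (u ++ w) (k + dd w) := by
  induction n using Nat.strong_induction_on with
  | _ n ih =>
  intro u w k hn hw h
  have h' := (ge_iff _ _).1 h
  rw [ge_iff]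
  constructor
  · intro Q hQ
    have hp := hQ.inv.2.2
    obtain ⟨u', h1, rfl⟩ := hQ.app_nf hw
    rcases h'.1 u' h1 with ⟨u'', h2, h3⟩ | ⟨h2, h3⟩
    · have h4 := h2.app_right w
      have hq := h4.inv.2.2
      exact Or.inl ⟨_, h4, ih _ (by omega) _ _ _ le_rfl hw h3⟩
    · apply lw_of_succ
      have := ih _ (by omega) u' w (k + 1) le_rfl hw h3
      rwa [show k + (dd w : ℤ) + 1 = k + 1 + dd w by ring]
  · intro hk
    by_cases hk' : 0 < k
    · obtain ⟨u', h1, h2⟩ := h'.2 hk'
      have h4 := h1.app_right w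
      have hq := h4.inv.2.2
      refine ⟨_, h4, ?_⟩
      have := ih _ (by omega) u' w (k - 1) le_rfl hw h2
      rwa [show k + (dd w : ℤ) - 1 = k - 1 + dd w by ring]
    · obtain ⟨w', h1, h2, h3, _⟩ := dd_move hw (by omega)
      have h4 := LeftMove.app_left h1 u
      have hq := h4.inv.2.2
      refine ⟨_, h4, ?_⟩
      have := ih _ (by omega) u w' k le_rfl h2 h
      rwa [show k + (dd w : ℤ) - 1 = k + dd w' by omega]

theorem Ge.toads {u w : List Cell} {k : ℤ} (hw : NF w) (h : Ge u k) :
    Ge (u ++ w) (k + dd w) := ge_toads _ u w k le_rfl hw h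

/-! ## The static bound -/

/-- number of pairs of an empty square and a frog to the right of it -/
def ss : List Cell → ℕ
  | [] => 0
  | empty :: v => ss v + frogs v
  | toad :: v => ss v
  | frog :: v => ss v

theorem RightMove.ss {P Q : List Cell} (h : RightMove P Q) :
    ss Q + 1 = ss P ∧ frogs Q = frogs P := by
  induction h with
  | step v => refine ⟨?_, ?_⟩ <;> simp only [TF.ss, frogs] <;> omega
  | jump v => refine ⟨?_, ?_⟩ <;> simp only [TF.ss, frogs] <;> omega
  | cons c h ih =>
    obtain ⟨h1, h2⟩ := ih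
    refine ⟨?_, ?_⟩ <;> cases c <;> simp only [TF.ss, frogs] <;> omega

theorem ge_static (n : ℕ) : ∀ (P : List Cell), pot P ≤ n → Ge P (-(ss P : ℤ)) := by
  induction n using Nat.strong_induction_on with
  | _ n ih =>
  intro P hn
  rw [ge_iff]
  refine ⟨fun Q hQ => ?_, fun h => by omega⟩
  have hp := hQ.inv.2.2
  have h1 := hQ.ss.1
  apply lw_of_succ
  have := ih _ (by omega) Q le_rfl
  rwa [show -(ss P : ℤ) + 1 = -(ss Q : ℤ) by omega]

theorem Ge.static (P : List Cell) : Ge P (-(ss P : ℤ)) := ge_static _ P le_rfl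

end Pool.Agent.Helper807.TF
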